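import Pool.Agent.K4H1.BX.Fld

/-!
# The algebraic theorem for the short equation
-/

set_option autoImplicit false
set_option linter.unusedSectionVars false

open NumberField IsDedekindDomain WithZero Module

namespace Pool.Agent.K4H1.BX

open Pool.Agent.TH841.SH.D (Pt act Gal Coch IsCoc IsCob LocTriv cob)
open Pool.Agent.TH841.NF.D (Sha IsShaCoc shaCoc)

/-- the hypotheses on `n` and `q` -/
structure Hn (n q : ℕ) : Prop where
  hn : Squarefree n
  h7 : n % 8 = 7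
  h3 : ¬ 3 ∣ n
  h77 : jacobiSym (-n) 7 = -1
  hq : ∀ l : ℕ, l.Prime → l ∣ q → l % 3 = 1 ∧ jacobiSym (-n) l = -1

theorem alg_main (hS : SCH) {n q : ℕ} (hq0 : q ≠ 0) (H : Hn n q)
    (L : Type) [Field L] [NumberField L] (hL : finrank ℚ L = 2) (x : L) (hx : x ^ 2 = -(n : L))
    (hcl : ¬ 3 ∣ Fintype.card (ClassGroup (𝓞 L)))
    (C : Type) [Field C] [NumberField C] [IsCyclotomicExtension {q} ℚ C]
    (F : Type) [Field F] [NumberField F] [Algebra F C] {k : ℕ} (hk : finrank ℚ F = 3 ^ k) :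
    (∀ s : Sha (EF F n), 3 • s = 0 → s = 0) ∧ (∀ P : Pt (EF F n) F, ∃ Q : Pt (EF F n) F, 3 • Q = P) ∧
    (∀ P : Pt (EF F n) F, 3 • P = 0 → P = 0) := by
  have : NeZero q := ⟨hq0⟩
  have hCab : IsAbelianGalois ℚ C := IsCyclotomicExtension.isAbelianGalois {q} ℚ C
  have hFab : IsAbelianGalois ℚ F := IsAbelianGalois.tower_bot ℚ F C
  have hFgal : IsGalois ℚ F := hFab.toIsGalois
  have hnsn : ¬ IsSquare (((-n : ℤ)) : ℚ) := by
    rw [Rat.isSquare_intCast_iff]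
    rintro ⟨r, hr⟩
    have h1 : 0 ≤ r * r := mul_self_nonneg r
    rw [← hr] at h1
    have := H.h7
    omega
  obtain ⟨M, i1, i2, i3, i4, hgal, t, ht, hadj⟩ := exists_M F L hL (m := -n) (x := x)
    (by rw [hx]; push_cast; rfl) hnsn
  have h3q : ¬ 3 ∣ q := fun h => by
    have := (H.hq 3 Nat.prime_three h).1
    norm_num at this
  obtain ⟨S, hSd⟩ := mkSf (q := q) C hk H.h7 H.h3 h3q ht (d := algebraMap L M x)
    (by rw [← map_pow, hx, map_neg, map_natCast]) hadj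
  have Hy' : Hy n q L M S.de := ⟨hS, H.hn, H.h7, H.h3, H.h77, hq0, H.hq, hL, ⟨x, hx, hSd.symm⟩, hcl⟩
  exact ⟨fun s hs => sha3 S Hy' s hs, fun P => div3 S Hy' P, fun P hP => tor3_0 S Hy' P hP⟩

end Pool.Agent.K4H1.BX
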