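import Pool.Agent.Y687.N.Tot
import Pool.Agent.Y929.N.FORM

/-!
# The minus symbol of `X_0(14)` modulo three: integrality of the Eisenstein part
-/

set_option autoImplicit false
set_option linter.unusedSectionVars false

open Finset

namespace Pool.Agent.K4H1.BX

open Pool.Agent.Y687 Pool.Agent.Y687.N

/-- the Eisenstein part is an integer -/
def Gi (x M : ℤ) : Prop := ∃ z : ℤ, EM x M = z

theorem Gi.neg_neg {x M : ℤ} (hM : M ≠ 0) (h : Gi x M) : Gi (-x) (-M) := by
  obtain ⟨z, hz⟩ := h
  exact ⟨z, by rw [EM_neg_neg hM, hz]⟩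

theorem Gi.neg {x M : ℤ} (h : Gi x M) (hM : M ≠ 0) : Gi (-x) M := by
  obtain ⟨z, hz⟩ := h
  exact ⟨-z, by rw [EM_neg hM, hz]; push_cast; rfl⟩

theorem Gi.add {x M : ℤ} (_hM : M ≠ 0) (m : ℤ) (h : Gi x M) : Gi (x + m * M) M := by
  obtain ⟨z, hz⟩ := h
  exact ⟨z, by rw [EM_add, hz]⟩

theorem Gi.one (x : ℤ) : Gi x 1 := ⟨0, by rw [EM_one]; rfl⟩

theorem Gi.of_aff {A B D : ℤ} {c : ℕ} (hdet : A * D - B * (14 * c) = 1)
    (hc : 0 < c) {x M : ℤ} (hcop : IsCoprime (14 * x) M) (hM : M ≠ 0)
    (hK : 14 * c * x + D * M ≠ 0)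
    (h1 : Gi (A * x + B * M) (14 * c * x + D * M))
    (h2 : Gi B D) : Gi x M := by
  obtain ⟨z1, hz1⟩ := h1
  obtain ⟨z2, hz2⟩ := h2
  have h5 := EM_aff hdet hc hcop hM hK
  exact ⟨z1 - z2, by push_cast; rw [← hz1, ← hz2, h5]; ring⟩

theorem Gi13 : Gi 1 3 := ⟨1, by rw [EM13]; rfl⟩
theorem Gi15 : Gi 1 5 := ⟨1, by rw [EM15]; rfl⟩
theorem Gi613 : Gi 6 13 := ⟨6, by rw [EM613]; rfl⟩

theorem Gi_all (n : ℕ) : ∀ x M : ℤ, M.natAbs = n → M ≠ 0 →
    IsCoprime (14 * x) M → Gi x M := by
  induction n using Nat.strong_induction_on with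
  | _ n ih =>
    intro x M hn hM0 hcop
    -- reduction to positive denominators
    wlog hMp : 0 < M generalizing x M
    · have h1 := this (-x) (-M) (by rw [Int.natAbs_neg, hn]) (neg_ne_zero.2 hM0)
        (by rw [mul_neg]; exact hcop.neg_neg) (by omega)
      have h2 := h1.neg_neg (neg_ne_zero.2 hM0)
      rwa [_root_.neg_neg, _root_.neg_neg] at h2
    rcases eq_or_ne M 1 with rfl | hM1
    · exact Gi.one x
    have hodd : M % 2 = 1 := by
      rcases Int.emod_two_eq_zero_or_one M with h1 | h1
      · exfalso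
        have h2 : (2 : ℤ) ∣ 14 * x := ⟨7 * x, by ring⟩
        have h3 := hcop.isUnit_of_dvd' h2 (Int.dvd_of_emod_eq_zero h1)
        rw [Int.isUnit_iff] at h3
        omega
      · exact h1
    -- `14 x` is not divisible by `M`
    have hnd : ∀ j : ℤ, 14 * x ≠ j * M := by
      intro j hj
      have h3 := hcop.isUnit_of_dvd' (Dvd.intro_left j hj.symm) (dvd_refl M)
      rw [Int.isUnit_iff] at h3
      omega
    -- the general step
    have step : ∀ (y : ℤ), IsCoprime (14 * y) M → 0 < y → 2 * y < M → Gi y M := by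
      intro y hy hy0 hy1
      have hnd' : ∀ j : ℤ, 14 * y ≠ j * M := by
        intro j hj
        have h3 := hy.isUnit_of_dvd' (Dvd.intro_left j hj.symm) (dvd_refl M)
        rw [Int.isUnit_iff] at h3
        omega
      have main : ∀ (A B D : ℤ) (c : ℕ), A * D - B * (14 * c) = 1 → 0 < c →
          |14 * c * y + D * M| < M → Gi B D → Gi y M := by
        intro A B D c hdet hc hlt hBD
        have hK : 14 * (c : ℤ) * y + D * M ≠ 0 := by
          intro h0
          have h1 : D % 2 = 1 := by
            rcases Int.emod_two_eq_zero_or_one D with h1 | h1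
            · exfalso
              obtain ⟨d, hd⟩ := Int.dvd_of_emod_eq_zero h1
              rw [hd] at hdet
              have : (2 : ℤ) ∣ 1 := ⟨A * d - B * (7 * c), by rw [← hdet]; ring⟩
              norm_num at this
            · exact h1
          obtain ⟨d, hd⟩ : ∃ d, D = 2 * d + 1 := ⟨D / 2, by omega⟩
          obtain ⟨e, he⟩ : ∃ e, M = 2 * e + 1 := ⟨M / 2, by omega⟩
          rw [hd, he] at h0
          have : (2 : ℤ) ∣ 1 := ⟨-(7 * c * y + 2 * d * e + d + e), by linear_combination h0⟩
          norm_num at this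
        refine Gi.of_aff hdet hc hy hM0 hK ?_ hBD
        refine ih _ ?_ _ _ rfl hK ?_
        · rw [← hn]
          zify
          rw [abs_of_pos hMp]
          exact hlt
        · -- coprimality
          obtain ⟨u, v, huv⟩ := hy
          have h14 : IsCoprime (14 : ℤ) (14 * (c : ℤ) * y + D * M) := by
            have h1 : IsCoprime (14 : ℤ) (D * M) := by
              refine IsCoprime.mul_right ⟨-(B * c), A, by linear_combination hdet⟩
                ⟨u * y, v, by linear_combination huv⟩
            have h2 : 14 * (c : ℤ) * y + D * M = D * M + 14 * (c * y) := by ring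
            rw [h2]
            exact (IsCoprime.add_mul_left_right_iff).2 h1
          refine IsCoprime.mul_left h14 ?_
          -- Bezout from the inverse matrix
          refine ⟨u * 14 * D - v * (14 * c), -(u * 14 * B) + v * A, ?_⟩
          linear_combination (u * 14 * y + v * M) * hdet + huv
      have c1 : 14 * y < 2 * M ∨ (2 * M < 14 * y ∧ 14 * y < 4 * M) ∨
          (4 * M < 14 * y ∧ 14 * y < 6 * M) ∨ (6 * M < 14 * y ∧ 14 * y < 7 * M) := by
        have := hnd' 2
        have := hnd' 4
        have := hnd' 6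
        omega
      rcases c1 with c1 | c1 | c1 | c1
      · refine main (-1) 0 (-1) 1 (by norm_num) one_pos ?_ ?_
        · rw [abs_lt]
          push_cast
          constructor <;> omega
        · have h1 := (Gi.one 0).neg_neg one_ne_zero
          exact h1
      · refine main (-5) 1 (-3) 1 (by norm_num) one_pos ?_ ?_
        · rw [abs_lt]
          push_cast
          constructor <;> omega
        · have h1 := (Gi13.neg (by norm_num)).neg_neg (by norm_num)
          exact h1
      · refine main (-3) 1 (-5) 1 (by norm_num) one_pos ?_ ?_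
        · rw [abs_lt]
          push_cast
          constructor <;> omega
        · have h1 := (Gi15.neg (by norm_num)).neg_neg (by norm_num)
          exact h1
      · refine main (-13) 6 (-13) 2 (by norm_num) two_pos ?_ ?_
        · rw [abs_lt]
          push_cast
          constructor <;> omega
        · have h1 := (Gi613.neg (by norm_num)).neg_neg (by norm_num)
          exact h1
    -- reduce `x` modulo `M`
    obtain ⟨y, m, hxy, hy0, hyM⟩ : ∃ y m : ℤ, x = y + m * M ∧ 0 ≤ y ∧ y < M :=
      ⟨x % M, x / M, by linear_combination -(Int.emod_add_mul_ediv x M), Int.emod_nonneg _ hM0,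
        Int.emod_lt_of_pos _ hMp⟩
    have hcy : IsCoprime (14 * y) M := by
      have h1 : 14 * x = 14 * y + (14 * m) * M := by rw [hxy]; ring
      rw [h1] at hcop
      exact (IsCoprime.add_mul_right_left_iff).1 hcop
    have hy00 : y ≠ 0 := by
      rintro rfl
      exact hnd (14 * m) (by rw [hxy]; ring)
    rw [hxy]
    refine Gi.add hM0 m ?_
    rcases lt_or_ge (2 * y) M with h1 | h1
    · exact step y hcy (by omega) h1
    · have h2 : IsCoprime (14 * (M - y)) M := by
        have h3 : 14 * (M - y) = -(14 * y) + 14 * M := by ring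
        rw [h3]
        exact (IsCoprime.add_mul_right_left_iff).2 hcy.neg_left
      have h3 := step (M - y) h2 (by omega) (by omega)
      have h4 := (h3.neg hM0).add hM0 1
      have e : -(M - y) + 1 * M = y := by ring
      rwa [e] at h4


/-- the sum of the Eisenstein part -/
theorem sum_EM7 {n : ℕ} (hsq : Squarefree n) (h8 : n % 8 = 7) (h7 : jacobiSym 7 n = -1) :
    ∑ u ∈ Pool.Agent.Z700.un n, (jacobiSym (u : ℤ) n : ℚ) * EM u n = -8 * HH n ^ 2 := by
  have hodd : Odd n := Nat.odd_iff.2 (by omega)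
  have hne : n ≠ 0 := hsq.ne_zero
  have hs : (n : ℤ).sign = 1 := Int.sign_eq_one_of_pos (by exact_mod_cast Nat.pos_of_ne_zero hne)
  have h2 : jacobiSym 2 n = 1 := by
    rw [jacobiSym.at_two hodd, ZMod.χ₈_nat_mod_eight, h8]
    decide
  have h14 : jacobiSym 14 n = -1 := by
    have : (14 : ℤ) = 2 * 7 := by norm_num
    rw [this, jacobiSym.mul_left, h2, h7]
    rfl
  have h1 : ∀ u ∈ Pool.Agent.Z700.un n, (jacobiSym (u : ℤ) n : ℚ) * EM u n =
      (1 / 2) * (5 * ((jacobiSym (u : ℤ) n : ℚ) * ded (1 * u) n) -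
        13 * ((jacobiSym (u : ℤ) n : ℚ) * ded (2 * u) n) +
        13 * ((jacobiSym (u : ℤ) n : ℚ) * ded (7 * u) n) -
        5 * ((jacobiSym (u : ℤ) n : ℚ) * ded (14 * u) n)) := by
    intro u hu
    unfold EM psi
    rw [hs, Int.natAbs_natCast, one_mul]
    push_cast
    ring
  rw [sum_congr rfl h1, ← mul_sum, sum_sub_distrib, sum_add_distrib, sum_sub_distrib, ← mul_sum,
    ← mul_sum, ← mul_sum, ← mul_sum,
    sum_un hne (fun u => ded (1 * (u : ℤ)) n), sum_un hne (fun u => ded (2 * (u : ℤ)) n),
    sum_un hne (fun u => ded (7 * (u : ℤ)) n), sum_un hne (fun u => ded (14 * (u : ℤ)) n),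
    char_ded hodd hsq, char_ded hodd hsq, char_ded hodd hsq, char_ded hodd hsq,
    h2, h7, h14, jacobiSym.one_left]
  push_cast
  ring

end Pool.Agent.K4H1.BX
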