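import Pool.Agent.K4H1.BX.AnE

/-!
# The normalized minus symbol of `X_0(14)`
-/

set_option autoImplicit false
set_option linter.unusedSectionVars false

open Filter Topology MeasureTheory Set

namespace Pool.Agent.K4H1.BX

open Pool.Agent.W97.TW Pool.Agent.W97.MT
open Pool.Agent.Y687 Pool.Agent.Y687.N

/-- the normalized minus symbol -/
structure Nsy (e : ℚ → ℤ) (Om : ℝ) : Prop where
  pos : 0 < Om
  im : ∀ r : ℚ, r.den.Coprime 14 → (II r).im = e r * Om
  eis : ∃ ε : ℤ, (ε = 1 ∨ ε = -1) ∧ ∀ (n : ℕ) (x : ℤ), Odd n → IsCoprime (14 * x) (n : ℤ) →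
    ∃ z w : ℤ, EM x n = z ∧ e ((x : ℚ) / n) = ε * (z - 6 * w)

theorem den_cop {x : ℤ} {n : ℕ} (hn : n.Coprime 14) : ((x : ℚ) / n).den.Coprime 14 := by
  refine Nat.Coprime.coprime_dvd_left ?_ hn
  have h4 := Rat.den_dvd x (n : ℤ)
  rw [Rat.divInt_eq_div, Int.cast_natCast] at h4
  exact Int.natCast_dvd_natCast.1 h4

theorem exists_nsy : ∃ (P : PeriodPair) (Op Om : ℝ) (e : ℚ → ℤ), 0 < Op ∧
    P.g₂ = -215 / 12 ∧ P.g₃ = 5291 / 216 ∧
    (∀ w : ℂ, w ∈ P.lattice ↔ ∃ a b : ℤ, 2 ∣ a - b ∧ w = a * Op + b * Om * Complex.I) ∧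
    Nsy e Om := by
  classical
  obtain ⟨L, Op, Om, hOp, hOm, g2, g3, hL⟩ := hlat
  obtain ⟨t', sp, sm, Op', Om', hOp', hOm', htt, hs, -, -, hS, h13⟩ := exists_symbM
  have hint := (integrals hcp hqe hode L g2 g3 hinj htors).2.2.2.2.2.2
  have him' : ∀ r : ℚ, 3 * (II r).im = sm r * Om' := by
    intro r
    have h := congrArg Complex.im (hs r)
    simpa using h
  have hex : ∀ r : ℚ, r.den.Coprime 14 → ∃ b : ℤ, (II r).im = b * Om := by
    intro r hr
    have h2 : ¬ (2 : ℤ) ∣ r.den := by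
      intro h
      have h' : 2 ∣ r.den := by exact_mod_cast h
      have := Nat.dvd_gcd h' (show 2 ∣ 14 by norm_num)
      rw [hr] at this
      norm_num at this
    have h7 : ¬ (7 : ℤ) ∣ r.den := by
      intro h
      have h' : 7 ∣ r.den := by exact_mod_cast h
      have := Nat.dvd_gcd h' (show 7 ∣ 14 by norm_num)
      rw [hr] at this
      norm_num at this
    obtain ⟨a, b, -, hab⟩ := (hL _).1 (hint r h2 h7)
    refine ⟨b, ?_⟩
    have h := congrArg Complex.im hab
    rw [Complex.sub_im, II_zero_im, sub_zero] at h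
    simpa using h
  let e : ℚ → ℤ := fun r => if h : r.den.Coprime 14 then (hex r h).choose else 0
  have he : ∀ r : ℚ, r.den.Coprime 14 → (II r).im = e r * Om := by
    intro r hr
    show (II r).im = ((if h : r.den.Coprime 14 then (hex r h).choose else 0 : ℤ) : ℝ) * Om
    rw [dif_pos hr]
    exact (hex r hr).choose_spec
  have inj : ∀ x y : ℤ, (x : ℝ) * Om = y * Om → x = y := fun x y h => by
    exact_mod_cast mul_right_cancel₀ hOm.ne' h
  have e13 : (II (1 / 3)).im = e (1 / 3) * Om := he _ (by norm_num)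
  have hform : ∀ (n : ℕ) (x : ℤ), Odd n → IsCoprime (14 * x) (n : ℤ) →
    ∃ z w : ℤ, EM x n = z ∧ e ((x : ℚ) / n) = e (1 / 3) * (z - 6 * w) := by
    intro n x hn hcop
    have hn0 : (n : ℤ) ≠ 0 := by
      rintro h0
      obtain ⟨k, hk⟩ := hn
      omega
    obtain ⟨z, hz⟩ := Gi_all (n : ℤ).natAbs x n rfl hn0 hcop
    refine ⟨z, Fq 7 n x, hz, ?_⟩
    have h1 := symbM_formula Pool.Agent.Y929.N.FORM.t_FORM hS n x hn hcop
    rw [hz] at h1
    have h1' : sm ((x : ℚ) / n) = sm (1 / 3) * (z - 6 * Fq 7 n x) := by exact_mod_cast h1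
    have hnc : n.Coprime 14 := by
      have h14 : IsCoprime (14 : ℤ) (n : ℤ) := hcop.of_mul_left_left
      have := Int.isCoprime_iff_gcd_eq_one.1 h14.symm
      exact_mod_cast this
    have h2 := he _ (den_cop (x := x) hnc)
    have h3 := him' ((x : ℚ) / n)
    have h4 := him' (1 / 3)
    rw [h1'] at h3
    rw [h2] at h3
    rw [e13] at h4
    apply inj
    push_cast at h3 ⊢
    linear_combination (1 / 3 : ℝ) * h3 - (1 / 3 : ℝ) * ((z : ℝ) - 6 * Fq 7 n x) * h4
  have hu : e (1 / 3) = 1 ∨ e (1 / 3) = -1 := by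
    have hper : IsPer (((1 : ℤ) : ℂ) * Op + ((1 : ℤ) : ℂ) * Om * Complex.I) :=
      (optimal hcp hqe hode L g2 g3 hinj hsub _).1 ((hL _).2 ⟨1, 1, by norm_num, rfl⟩)
    obtain ⟨A, B, C', D, hdet, hp⟩ := hper
    obtain ⟨ε, C, hε, -, hF⟩ := (isCusp14 hcp hqe).map.const
    have v1 := II_val' hF hdet hp
    have v0 := II_val' hF (A := 1) (B := 0) (C' := 0) (D := 1) (by norm_num) (p := 0)
      (fun z _ => by push_cast; simp)
    have hD : D ≠ 0 := by
      rintro rfl
      have : (14 : ℤ) ∣ 1 := ⟨-(B * C'), by linarith⟩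
      norm_num at this
    have hI : (II ((B : ℚ) / D)).im = Om := by
      have h0 : (II 0).im = C.im := by
        have := congrArg Complex.im v0
        simpa using this
      rw [II_zero_im] at h0
      rw [v1, Complex.add_im, ← h0]
      simp
    have hcop : IsCoprime (14 * B) D := ⟨-C', A, by linarith⟩
    obtain ⟨n, x, hx, hn, hc⟩ : ∃ (n : ℕ) (x : ℤ), ((B : ℚ) / D) = (x : ℚ) / n ∧ Odd n ∧
        IsCoprime (14 * x) (n : ℤ) := by
      have hodd : Odd D := by
        rw [← Int.not_even_iff_odd]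
        rintro ⟨k, hk⟩
        have : (2 : ℤ) ∣ 1 := ⟨A * k - B * (7 * C'), by rw [← hdet, hk]; ring⟩
        norm_num at this
      rcases lt_or_gt_of_ne hD with h | h
      · refine ⟨D.natAbs, -B, ?_, Int.natAbs_odd.2 hodd, ?_⟩
        · have : ((D.natAbs : ℕ) : ℚ) = -D := by
            have h' : ((D.natAbs : ℕ) : ℤ) = -D := by omega
            rw [← Int.cast_natCast, h']; push_cast; rfl
          rw [this]
          push_cast
          rw [neg_div_neg_eq]
        · have h' : ((D.natAbs : ℕ) : ℤ) = -D := by omega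
          rw [h', mul_neg]
          exact hcop.neg_neg
      · refine ⟨D.natAbs, B, ?_, Int.natAbs_odd.2 hodd, ?_⟩
        · have : ((D.natAbs : ℕ) : ℚ) = D := by
            have h' : ((D.natAbs : ℕ) : ℤ) = D := by omega
            rw [← Int.cast_natCast, h']
          rw [this]
        · have h' : ((D.natAbs : ℕ) : ℤ) = D := by omega
          rw [h']
          exact hcop
    obtain ⟨z, w, -, h5⟩ := hform n x hn hc
    have hnc : n.Coprime 14 := by
      have h14 : IsCoprime (14 : ℤ) (n : ℤ) := hc.of_mul_left_left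
      have := Int.isCoprime_iff_gcd_eq_one.1 h14.symm
      exact_mod_cast this
    have h6 := he _ (den_cop (x := x) hnc)
    rw [← hx, hI] at h6
    have h7 : e ((B : ℚ) / D) = 1 := by
      apply inj
      rw [← h6]; push_cast; ring
    rw [hx, h5] at h7
    exact Int.eq_one_or_neg_one_of_mul_eq_one h7
  exact ⟨L, Op, Om, e, hOp, g2, g3, hL, hOm, he, e (1 / 3), hu, hform⟩

/-- the action of the Hecke operators -/
theorem Nsy.hecke {e : ℚ → ℤ} {Om : ℝ} (h : Nsy e Om) {l : ℕ} (hl : l.Prime) (h14 : ¬ l ∣ 14)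
    {x : ℤ} {n : ℕ} (hn0 : n ≠ 0) (hn : n.Coprime 14) :
    ap E14 l * e ((x : ℚ) / n) = e (((l * x : ℤ) : ℚ) / n) +
      ∑ b ∈ Finset.range l, e (((x + b * n : ℤ) : ℚ) / ((l * n : ℕ) : ℚ)) := by
  have hOm := h.pos
  have inj : ∀ x y : ℤ, (x : ℝ) * Om = y * Om → x = y := fun x y h => by
    exact_mod_cast mul_right_cancel₀ hOm.ne' h
  have hlc : l.Coprime 14 := by
    rw [Nat.Prime.coprime_iff_not_dvd hl]; exact h14
  have hln : (l * n).Coprime 14 := Nat.Coprime.mul_left hlc hn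
  have hl0 : (l : ℚ) ≠ 0 := by exact_mod_cast hl.ne_zero
  have hn0' : (n : ℚ) ≠ 0 := by exact_mod_cast hn0
  apply inj
  have h1 := II_hecke l hl h14 ((x : ℚ) / n)
  have h2 := congrArg Complex.im h1
  have h3 : ((ap E14 l : ℂ) * II ((x : ℚ) / n)).im = (ap E14 l : ℝ) * (II ((x : ℚ) / n)).im := by
    simp
  rw [h3, Complex.add_im, Complex.im_sum, h.im _ (den_cop hn)] at h2
  have e1 : (l : ℚ) * ((x : ℚ) / n) = ((l * x : ℤ) : ℚ) / n := by push_cast; ring
  have e2 : ∀ b : ℕ, ((x : ℚ) / n + b) / l = ((x + b * n : ℤ) : ℚ) / ((l * n : ℕ) : ℚ) := by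
    intro b
    push_cast
    field_simp
  rw [e1, h.im _ (den_cop hn)] at h2
  have h4 : ∀ b ∈ Finset.range l, (II (((x : ℚ) / n + b) / l)).im =
      e (((x + b * n : ℤ) : ℚ) / ((l * n : ℕ) : ℚ)) * Om := by
    intro b _
    rw [e2 b, h.im _ (den_cop hln)]
  rw [Finset.sum_congr rfl h4, ← Finset.sum_mul] at h2
  push_cast at h2 ⊢
  linear_combination h2

/-- periodicity -/
theorem Nsy.congr {e : ℚ → ℤ} {Om : ℝ} (h : Nsy e Om) {x y : ℤ} {n : ℕ} (hn0 : n ≠ 0)
    (hn : n.Coprime 14) (hxy : (n : ℤ) ∣ x - y) : e ((x : ℚ) / n) = e ((y : ℚ) / n) := by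
  have hOm := h.pos
  have inj : ∀ x y : ℤ, (x : ℝ) * Om = y * Om → x = y := fun x y h => by
    exact_mod_cast mul_right_cancel₀ hOm.ne' h
  have hn0' : (n : ℚ) ≠ 0 := by exact_mod_cast hn0
  obtain ⟨k, hk⟩ := hxy
  apply inj
  rw [← h.im _ (den_cop hn), ← h.im _ (den_cop hn)]
  have key : ∀ (k : ℤ) (r : ℚ), II (r + k) = II r := by
    intro k
    induction k using Int.induction_on with
    | zero => intro r; simp
    | succ i hi =>
      intro r
      have : r + ((i + 1 : ℤ) : ℚ) = (r + i) + 1 := by push_cast; ring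
      rw [this, II_add_one]
      exact_mod_cast hi r
    | pred i hi =>
      intro r
      have h1 := II_add_one (r + ((-i - 1 : ℤ) : ℚ))
      have : r + ((-i - 1 : ℤ) : ℚ) + 1 = r + ((-i : ℤ) : ℚ) := by push_cast; ring
      rw [this] at h1
      rw [← h1]
      exact hi r
  have e1 : (x : ℚ) / n = (y : ℚ) / n + k := by
    have : (x : ℚ) = y + n * k := by
      have : x = y + n * k := by linarith
      exact_mod_cast this
    rw [this]
    field_simp
  rw [e1, key]

/-- the symbol is odd -/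
theorem Nsy.neg {e : ℚ → ℤ} {Om : ℝ} (h : Nsy e Om) {x : ℤ} {n : ℕ}
    (hn : n.Coprime 14) : e (((-x : ℤ) : ℚ) / n) = -e ((x : ℚ) / n) := by
  have hOm := h.pos
  have inj : ∀ x y : ℤ, (x : ℝ) * Om = y * Om → x = y := fun x y h => by
    exact_mod_cast mul_right_cancel₀ hOm.ne' h
  apply inj
  push_cast
  have h1 := h.im _ (den_cop (x := -x) hn)
  have h2 := h.im _ (den_cop (x := x) hn)
  have e1 : ((-x : ℤ) : ℚ) / n = -((x : ℚ) / n) := by push_cast; ring
  rw [e1, II_conj, Complex.conj_im, h2] at h1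
  push_cast at h1 ⊢
  rw [show (-(x : ℚ) / n) = -((x : ℚ) / n) by ring]
  linarith

end Pool.Agent.K4H1.BX
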