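import Mathlib
import Pool.Agent.W97.MT.Defs

/-!
# `a_p` of `X_0(14)` modulo three
-/

set_option autoImplicit false

open Finset WeierstrassCurve

namespace Pool.Agent.K4H1.BX

open Pool.Agent.W97.MT (E14 ap affCount)

/-- points and solutions of the equation -/
def ptEquiv {k : Type} [Field k] (W : WeierstrassCurve k) (hD : W.Δ ≠ 0) :
    W.toAffine.Point ≃ Option {P : k × k // W.toAffine.Equation P.1 P.2} where
  toFun P := match P with
    | .zero => none
    | .some x y h => some ⟨(x, y), h.1⟩
  invFun P := match P with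
    | none => .zero
    | some P => .some P.1.1 P.1.2 ((W.toAffine.equation_iff_nonsingular_of_Δ_ne_zero hD).1 P.2)
  left_inv P := by cases P <;> rfl
  right_inv P := by cases P <;> rfl

theorem ap_mod3 {l : ℕ} (hl : l.Prime) (h14 : ¬ l ∣ 14) : (3 : ℤ) ∣ ap E14 l - (1 + l) := by
  classical
  have : Fact l.Prime := ⟨hl⟩
  have h2 : (2 : ZMod l) ≠ 0 := by
    intro h
    apply h14
    have : l ∣ 2 := (ZMod.natCast_eq_zero_iff 2 l).1 (by exact_mod_cast h)
    exact this.trans (by norm_num)
  have h7 : (7 : ZMod l) ≠ 0 := by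
    intro h
    apply h14
    have : l ∣ 7 := (ZMod.natCast_eq_zero_iff 7 l).1 (by exact_mod_cast h)
    exact this.trans (by norm_num)
  set W : WeierstrassCurve (ZMod l) := E14.map (Int.castRingHom (ZMod l)) with hW
  have a1 : W.a₁ = 1 := by simp [hW, E14]
  have a2 : W.a₂ = 0 := by simp [hW, E14]
  have a3 : W.a₃ = 1 := by simp [hW, E14]
  have a4 : W.a₄ = 4 := by simp [hW, E14]
  have a6 : W.a₆ = -6 := by simp [hW, E14]
  have hD : W.Δ ≠ 0 := by
    have : W.Δ = -(2 ^ 6 * 7 ^ 3) := by
      simp only [WeierstrassCurve.Δ, WeierstrassCurve.b₂, WeierstrassCurve.b₄,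
        WeierstrassCurve.b₆, WeierstrassCurve.b₈, a1, a2, a3, a4, a6]
      norm_num
    rw [this, neg_ne_zero]
    exact mul_ne_zero (pow_ne_zero _ h2) (pow_ne_zero _ h7)
  have heq : W.toAffine.Equation 2 2 := by
    rw [Affine.equation_iff, a1, a2, a3, a4, a6]
    norm_num
  have hns := (W.toAffine.equation_iff_nonsingular_of_Δ_ne_zero hD).1 heq
  have heq' : W.toAffine.Equation 2 (-5) := by
    rw [Affine.equation_iff, a1, a2, a3, a4, a6]
    norm_num
  have hns' := (W.toAffine.equation_iff_nonsingular_of_Δ_ne_zero hD).1 heq'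
  set P : W.toAffine.Point := .some 2 2 hns with hP
  have hneg : W.toAffine.negY 2 2 = -5 := by
    rw [Affine.negY, a1, a3]; norm_num
  have hne : (2 : ZMod l) ≠ W.toAffine.negY 2 2 := by
    rw [hneg]
    intro h
    apply h7
    linear_combination h
  have hslope : W.toAffine.slope 2 2 2 2 = 2 := by
    rw [Affine.slope_of_Y_ne rfl hne, hneg, a1, a2, a4]
    have : (2 : ZMod l) - -5 = 7 := by norm_num
    rw [this, div_eq_iff h7]
    norm_num
  have hPP : P + P = -P := by
    rw [hP, Affine.Point.add_self_of_Y_ne hne, Affine.Point.neg_some]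
    rw [Affine.Point.some.injEq]
    constructor
    · rw [Affine.addX, hslope, a1, a2]; norm_num
    · rw [Affine.addY, Affine.negAddY, Affine.addX, hslope, Affine.negY, Affine.negY, a1, a2, a3]
      norm_num
  have h3 : 3 • P = 0 := by
    rw [show (3 : ℕ) = 2 + 1 by norm_num, add_nsmul, two_nsmul, one_nsmul, hPP, neg_add_cancel]
  have hP0 : P ≠ 0 := by
    rw [hP]
    exact Affine.Point.some_ne_zero hns
  have hord : addOrderOf P = 3 := by
    have : Fact (Nat.Prime 3) := ⟨Nat.prime_three⟩
    exact addOrderOf_eq_prime h3 hP0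
  have hfin : Finite W.toAffine.Point := Finite.of_equiv _ (ptEquiv W hD).symm
  have hcard : Nat.card W.toAffine.Point = affCount E14 l + 1 := by
    rw [Nat.card_congr (ptEquiv W hD), Finite.card_option]
    rfl
  have hdvd : 3 ∣ Nat.card W.toAffine.Point := by
    rw [← hord]
    exact addOrderOf_dvd_natCard P
  rw [hcard] at hdvd
  unfold ap
  omega

end Pool.Agent.K4H1.BX
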