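import Pool.Agent.K4H1.BX.AnN
import Pool.Agent.K4H1.BX.AnP
import Pool.Agent.K4H1.EXT.P2

/-!
# The twisted sums of the minus symbol modulo three
-/

set_option autoImplicit false
set_option linter.unusedSectionVars false

open Finset NumberField

namespace Pool.Agent.K4H1.BX

open Pool.Agent.W97.MT (ap E14)
open Pool.Agent.Y687.N (EM HH jac_congr sum_permG char_saw)
open Pool.Agent.Y687 (saw)

theorem jac_rec {n l : ℕ} (h4 : n % 4 = 3) (hl : Odd l) :
    jacobiSym (-(n : ℤ)) l = jacobiSym (l : ℤ) n := by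
  have hn : Odd n := Nat.odd_iff.2 (by omega)
  rw [show (-(n : ℤ)) = -1 * (n : ℤ) by ring, jacobiSym.mul_left, jacobiSym.at_neg_one hl]
  have hl' := Nat.odd_iff.1 hl
  have : l % 4 = 1 ∨ l % 4 = 3 := by omega
  rcases this with h | h
  · rw [ZMod.χ₄_nat_one_mod_four h, one_mul, jacobiSym.quadratic_reciprocity_one_mod_four h hn]
  · rw [ZMod.χ₄_nat_three_mod_four h, jacobiSym.quadratic_reciprocity_three_mod_four h h4]
    ring

/-- the twisted sum -/
noncomputable def SS (e : ℚ → ℤ) (n N : ℕ) : ℤ :=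
  ∑ u ∈ (range N).filter (fun u : ℕ => u.Coprime N), jacobiSym (u : ℤ) n * e (((u : ℤ) : ℚ) / N)

section

variable {e : ℚ → ℤ} {Om : ℝ}

open Classical in
theorem SS_mul (h : Nsy e Om) {n N l : ℕ} (hn0 : n ≠ 0) (hnN : n ∣ N) (hN0 : N ≠ 0)
    (hN : N.Coprime 14) (hl : l.Prime) (h14 : ¬ l ∣ 14) (hlN : ¬ l ∣ N) :
    SS e n (l * N) = (ap E14 l - 2 * jacobiSym (l : ℤ) n) * SS e n N := by
  have hNp : 0 < N := Nat.pos_of_ne_zero hN0
  have hlp : 0 < l := hl.pos
  have hlNc : l.Coprime N := (Nat.Prime.coprime_iff_not_dvd hl).2 hlN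
  have hl14 : l.Coprime 14 := (Nat.Prime.coprime_iff_not_dvd hl).2 h14
  have hlnc : l.Coprime n := Nat.Coprime.coprime_dvd_right hnN hlNc
  have hlN14 : (l * N).Coprime 14 := Nat.Coprime.mul_left hl14 hN
  set δ : ℤ := jacobiSym (l : ℤ) n with hδ
  have hδ2 : δ * δ = 1 := by
    have := jacobiSym.sq_one (a := (l : ℤ)) (b := n) (by rw [Int.gcd_natCast_natCast]; exact hlnc)
    rw [← hδ] at this
    rw [← pow_two]; exact this
  let c : ℤ → ℤ := fun x => if IsCoprime x (N : ℤ) then jacobiSym x n else 0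
  have hccongr : ∀ x y : ℤ, (N : ℤ) ∣ x - y → c x = c y := by
    intro x y hxy
    have h1 : IsCoprime x (N : ℤ) ↔ IsCoprime y (N : ℤ) := by
      obtain ⟨k, hk⟩ := hxy
      have : x = y + N * k := by linarith
      rw [this]
      exact IsCoprime.add_mul_left_left_iff
    have h2 : jacobiSym x n = jacobiSym y n :=
      jac_congr ((Int.natCast_dvd_natCast.2 hnN).trans hxy)
    show (if IsCoprime x (N : ℤ) then jacobiSym x n else 0) =
      (if IsCoprime y (N : ℤ) then jacobiSym y n else 0)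
    simp only [h1, h2]
  have hcl : ∀ x : ℤ, c (l * x) = δ * c x := by
    intro x
    have hlz : IsCoprime (l : ℤ) (N : ℤ) := Nat.isCoprime_iff_coprime.2 hlNc
    have h1 : IsCoprime ((l : ℤ) * x) (N : ℤ) ↔ IsCoprime x (N : ℤ) :=
      ⟨fun h => h.of_mul_left_right, fun h => IsCoprime.mul_left hlz h⟩
    show (if IsCoprime ((l : ℤ) * x) (N : ℤ) then jacobiSym (l * x) n else 0) =
      δ * (if IsCoprime x (N : ℤ) then jacobiSym x n else 0)
    by_cases h2 : IsCoprime x (N : ℤ)
    · rw [if_pos (h1.2 h2), if_pos h2, jacobiSym.mul_left]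
    · rw [if_neg (fun h => h2 (h1.1 h)), if_neg h2, mul_zero]
  have hcnat : ∀ u : ℕ, c u = if u.Coprime N then jacobiSym u n else 0 := by
    intro u
    by_cases h1 : u.Coprime N
    · rw [if_pos h1]
      exact if_pos (Nat.isCoprime_iff_coprime.2 h1)
    · rw [if_neg h1]
      exact if_neg (fun h2 => h1 (Nat.isCoprime_iff_coprime.1 h2))
  have hSN : SS e n N = ∑ u ∈ range N, c u * e (((u : ℤ) : ℚ) / N) := by
    unfold SS
    rw [sum_filter]
    refine sum_congr rfl fun u _ => ?_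
    rw [hcnat]
    split_ifs
    · rfl
    · rw [zero_mul]
  have hSlN : SS e n (l * N) = ∑ u ∈ range (l * N), c u * e (((u : ℤ) : ℚ) / ((l * N : ℕ) : ℚ)) -
      ∑ u ∈ (range (l * N)).filter (fun u => l ∣ u),
        c u * e (((u : ℤ) : ℚ) / ((l * N : ℕ) : ℚ)) := by
    unfold SS
    rw [sum_filter, sum_filter, ← sum_sub_distrib]
    refine sum_congr rfl fun u _ => ?_
    rw [hcnat]
    have h1 : u.Coprime (l * N) ↔ ¬ l ∣ u ∧ u.Coprime N := by
      rw [Nat.coprime_mul_iff_right, Nat.coprime_comm, Nat.Prime.coprime_iff_not_dvd hl]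
    by_cases h2 : l ∣ u
    · have h3 : ¬ u.Coprime (l * N) := fun h => (h1.1 h).1 h2
      rw [if_neg h3, if_pos h2, sub_self]
    · by_cases h3 : u.Coprime N
      · rw [if_pos (h1.2 ⟨h2, h3⟩), if_neg h2, if_pos h3, sub_zero]
      · rw [if_neg (fun h => h3 (h1.1 h).2), if_neg h2, if_neg h3, zero_mul, sub_zero]
  have hT2 : ∑ u ∈ (range (l * N)).filter (fun u => l ∣ u),
        c u * e (((u : ℤ) : ℚ) / ((l * N : ℕ) : ℚ)) = δ * SS e n N := by
    rw [hSN, mul_sum]
    symm
    refine sum_nbij' (fun y => l * y) (fun u => u / l) ?_ ?_ ?_ ?_ ?_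
    · intro y hy
      rw [mem_filter, mem_range]
      exact ⟨Nat.mul_lt_mul_of_pos_left (mem_range.1 hy) hlp, dvd_mul_right _ _⟩
    · intro u hu
      rw [mem_filter, mem_range] at hu
      rw [mem_range]
      exact Nat.div_lt_of_lt_mul hu.1
    · intro y _
      exact Nat.mul_div_cancel_left y hlp
    · intro u hu
      rw [mem_filter] at hu
      exact Nat.mul_div_cancel' hu.2
    · intro y _
      have hl0 : (l : ℚ) ≠ 0 := by exact_mod_cast hl.ne_zero
      have e1 : ((((l * y : ℕ) : ℤ) : ℚ) / ((l * N : ℕ) : ℚ)) = (((y : ℤ) : ℚ) / N) := by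
        push_cast
        rw [mul_div_mul_left _ _ hl0]
      rw [e1]
      have : c ((l * y : ℕ) : ℤ) = δ * c y := by push_cast; exact hcl y
      rw [this]
      ring
  have hT1 : ∑ u ∈ range (l * N), c u * e (((u : ℤ) : ℚ) / ((l * N : ℕ) : ℚ)) =
      ∑ x ∈ range N, c x * (ap E14 l * e (((x : ℤ) : ℚ) / N) - e (((l * x : ℤ) : ℚ) / N)) := by
    have h1 : ∑ u ∈ range (l * N), c u * e (((u : ℤ) : ℚ) / ((l * N : ℕ) : ℚ)) =
        ∑ p ∈ range N ×ˢ range l, c ((p.1 + p.2 * N : ℕ) : ℤ) *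
          e ((((p.1 + p.2 * N : ℕ) : ℤ) : ℚ) / ((l * N : ℕ) : ℚ)) := by
      refine sum_nbij' (fun u => (u % N, u / N)) (fun p => p.1 + p.2 * N) ?_ ?_ ?_ ?_ ?_
      · intro u hu
        rw [mem_range] at hu
        rw [mem_product, mem_range, mem_range]
        exact ⟨Nat.mod_lt _ hNp, Nat.div_lt_of_lt_mul (by rw [mul_comm]; exact hu)⟩
      · rintro ⟨x, b⟩ hp
        rw [mem_product, mem_range, mem_range] at hp
        rw [mem_range]
        have h1 : x < N := hp.1
        have h2 : b < l := hp.2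
        show x + b * N < l * N
        nlinarith
      · intro u _
        show u % N + u / N * N = u
        rw [mul_comm]; exact Nat.mod_add_div u N
      · rintro ⟨x, b⟩ hp
        rw [mem_product, mem_range, mem_range] at hp
        have h1 : x < N := hp.1
        show ((x + b * N) % N, (x + b * N) / N) = (x, b)
        rw [Nat.add_mul_mod_self_right, Nat.mod_eq_of_lt h1, Nat.add_mul_div_right _ _ hNp,
          Nat.div_eq_of_lt h1, zero_add]
      · intro u _
        have : u % N + u / N * N = u := by rw [mul_comm]; exact Nat.mod_add_div u N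
        simp only [this]
    rw [h1, sum_product]
    refine sum_congr rfl fun x _ => ?_
    have h2 := h.hecke hl h14 (x := (x : ℤ)) hN0 hN
    have h3 : ∀ b ∈ range l, c ((x + b * N : ℕ) : ℤ) *
        e ((((x + b * N : ℕ) : ℤ) : ℚ) / ((l * N : ℕ) : ℚ)) =
        c x * e (((x + b * N : ℤ) : ℚ) / ((l * N : ℕ) : ℚ)) := by
      intro b _
      rw [hccongr ((x + b * N : ℕ) : ℤ) x ⟨b, by push_cast; ring⟩]
      push_cast
      rfl
    rw [sum_congr rfl h3, ← mul_sum]
    congr 1
    linarith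
  have hperm : ∑ x ∈ range N, c x * e (((l * x : ℤ) : ℚ) / N) = δ * SS e n N := by
    have h1 : ∑ x ∈ range N, ((c (l * x) * e (((l * x : ℤ) : ℚ) / N) : ℤ) : ℚ) =
        ∑ x ∈ range N, ((c x * e (((x : ℤ) : ℚ) / N) : ℤ) : ℚ) := by
      refine sum_permG hNp hlNc (fun x : ℤ => ((c x * e (((x : ℤ) : ℚ) / N) : ℤ) : ℚ)) ?_
      intro x y hxy
      rw [hccongr x y hxy, h.congr hN0 hN hxy]
    have h2 : ∑ x ∈ range N, (c (l * x) * e (((l * x : ℤ) : ℚ) / N)) =
        ∑ x ∈ range N, (c x * e (((x : ℤ) : ℚ) / N)) := by exact_mod_cast h1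
    rw [hSN, ← h2, mul_sum]
    refine sum_congr rfl fun x _ => ?_
    rw [hcl]
    linear_combination (-(c x * e (((l * x : ℤ) : ℚ) / N))) * hδ2
  rw [hSlN, hT2, hT1]
  simp_rw [mul_sub]
  rw [sum_sub_distrib, hperm]
  have h5 : ∑ x ∈ range N, c x * (ap E14 l * e (((x : ℤ) : ℚ) / N)) = ap E14 l * SS e n N := by
    rw [hSN, mul_sum]
    refine sum_congr rfl fun x _ => ?_
    ring
  rw [h5]
  ring

/-- the class number as a sum of the sawtooth function -/
theorem HH_val {n : ℕ} (hs : Squarefree n) (h4 : n % 4 = 3) (h3 : 3 < n) (K : Type) [Field K]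
    [NumberField K] (h2 : Module.finrank ℚ K = 2) (x : K) (hx : x ^ 2 = -(n : K)) :
    HH n = -(Fintype.card (ClassGroup (𝓞 K)) : ℚ) := by
  have hn : Odd n := Nat.odd_iff.2 (by omega)
  have hn0 : (n : ℚ) ≠ 0 := by exact_mod_cast hs.ne_zero
  have hneg : jacobiSym (-1) n = -1 := by
    rw [jacobiSym.at_neg_one hn]
    exact ZMod.χ₄_nat_three_mod_four h4
  have hP := Pool.Agent.K4H1.EXT.class_number_formula n hs h4 h3 K h2 x hx
  -- the sum of the character
  have h0 : ∑ u ∈ range n, (jacobiSym (u : ℤ) n : ℚ) = 0 := by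
    have h1 := sum_permG (h := n - 1) (Nat.pos_of_ne_zero hs.ne_zero)
      ((Nat.coprime_self_sub_left (by omega)).2 (Nat.coprime_one_left n))
      (fun x : ℤ => (jacobiSym x n : ℚ)) (fun x y h => by rw [jac_congr h])
    have h5 : ∀ u ∈ range n, (jacobiSym (((n - 1 : ℕ) : ℤ) * (u : ℤ)) n : ℚ) =
        -(jacobiSym (u : ℤ) n : ℚ) := by
      intro u _
      rw [jacobiSym.mul_left, jac_congr (x := ((n - 1 : ℕ) : ℤ)) (y := -1) (by
        rw [Nat.cast_sub (by omega)]; exact ⟨1, by push_cast; ring⟩), hneg]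
      push_cast; ring
    rw [sum_congr rfl h5, sum_neg_distrib] at h1
    linarith
  have h6 : ∀ u ∈ range n, (jacobiSym (u : ℤ) n : ℚ) * saw n u =
      (1 / n) * ((jacobiSym (u : ℤ) n * u : ℤ) : ℚ) - (1 / 2) * (jacobiSym (u : ℤ) n : ℚ) := by
    intro u hu
    have hu' := mem_range.1 hu
    unfold saw
    rcases Nat.eq_zero_or_pos u with rfl | hu0
    · have : jacobiSym ((0 : ℕ) : ℤ) n = 0 := by
        rw [Nat.cast_zero]
        exact jacobiSym.zero_left (by omega)
      rw [this]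
      simp
    · have hnd : ¬ (n : ℤ) ∣ (u : ℤ) := by
        intro h
        have := Nat.le_of_dvd hu0 (Int.natCast_dvd_natCast.1 h)
        omega
      rw [if_neg hnd]
      have : (u : ℤ) % n = u := Int.emod_eq_of_lt (by positivity) (by exact_mod_cast hu')
      rw [this]
      push_cast
      field_simp
  unfold HH
  rw [sum_congr rfl h6, sum_sub_distrib, ← mul_sum, ← mul_sum, h0, ← Int.cast_sum, hP]
  push_cast
  field_simp
  ring

/-- the sum at the level `n` -/
theorem SS_base (h : Nsy e Om) {n : ℕ} (hsq : Squarefree n) (h8 : n % 8 = 7)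
    (h7 : jacobiSym 7 n = -1) (K : Type) [Field K] [NumberField K]
    (h2 : Module.finrank ℚ K = 2) (x : K) (hx : x ^ 2 = -(n : K))
    (hcl : ¬ 3 ∣ Fintype.card (ClassGroup (𝓞 K))) : ¬ (3 : ℤ) ∣ SS e n n := by
  have hodd : Odd n := Nat.odd_iff.2 (by omega)
  obtain ⟨ε, hε, hf⟩ := h.eis
  have h7n : ¬ 7 ∣ n := by
    intro hd
    have : jacobiSym 7 n = 0 := by
      haveI : NeZero n := ⟨hsq.ne_zero⟩
      rw [jacobiSym.eq_zero_iff_not_coprime]
      intro hg
      have h1 : (7 : ℕ) ∣ Int.gcd 7 n := by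
        rw [show (7 : ℤ) = ((7 : ℕ) : ℤ) by norm_num, Int.gcd_natCast_natCast]
        exact Nat.dvd_gcd dvd_rfl hd
      rw [hg] at h1
      norm_num at h1
    rw [this] at h7
    norm_num at h7
  have h14 : n.Coprime 14 := by
    rw [show 14 = 2 * 7 by norm_num]
    refine Nat.Coprime.mul_right (Nat.coprime_two_right.2 hodd) ?_
    rw [Nat.coprime_comm, Nat.Prime.coprime_iff_not_dvd (by norm_num)]
    exact h7n
  have hex : ∀ u : ℕ, ∃ z w : ℤ, u ∈ Pool.Agent.Z700.un n → EM u n = z ∧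
      e (((u : ℤ) : ℚ) / n) = ε * (z - 6 * w) := by
    intro u
    by_cases hu : u ∈ Pool.Agent.Z700.un n
    · have hu' := Pool.Agent.Y687.mem_rr.1 (show u ∈ Pool.Agent.Y687.rr n from hu)
      have hc : IsCoprime (14 * (u : ℤ)) (n : ℤ) := by
        refine IsCoprime.mul_left ?_ (Nat.isCoprime_iff_coprime.2 hu'.2)
        exact_mod_cast (Nat.isCoprime_iff_coprime.2 h14).symm
      obtain ⟨z, w, h1, h2⟩ := hf n u hodd hc
      exact ⟨z, w, fun _ => ⟨h1, h2⟩⟩
    · exact ⟨0, 0, fun h => absurd h hu⟩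
  choose z w hzw using hex
  have hS : SS e n n = ε * ((∑ u ∈ Pool.Agent.Z700.un n, jacobiSym (u : ℤ) n * z u) -
      6 * ∑ u ∈ Pool.Agent.Z700.un n, jacobiSym (u : ℤ) n * w u) := by
    unfold SS
    rw [show ((range n).filter fun u : ℕ => u.Coprime n) = Pool.Agent.Z700.un n from rfl,
      mul_sum, ← sum_sub_distrib, mul_sum]
    refine sum_congr rfl fun u hu => ?_
    rw [(hzw u hu).2]
    ring
  have hZ : ((∑ u ∈ Pool.Agent.Z700.un n, jacobiSym (u : ℤ) n * z u : ℤ) : ℚ) = -8 * HH n ^ 2 := by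
    rw [← sum_EM7 hsq h8 h7]
    push_cast
    refine sum_congr rfl fun u hu => ?_
    rw [(hzw u hu).1]
  rw [HH_val hsq (by omega) (by omega) K h2 x hx] at hZ
  have hZ' : (∑ u ∈ Pool.Agent.Z700.un n, jacobiSym (u : ℤ) n * z u : ℤ) =
      -8 * (Fintype.card (ClassGroup (𝓞 K)) : ℤ) ^ 2 := by
    have : ((∑ u ∈ Pool.Agent.Z700.un n, jacobiSym (u : ℤ) n * z u : ℤ) : ℚ) =
      ((-8 * (Fintype.card (ClassGroup (𝓞 K)) : ℤ) ^ 2 : ℤ) : ℚ) := by
      rw [hZ]; push_cast; ring
    exact_mod_cast this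
  rw [hS, hZ']
  set H : ℕ := Fintype.card (ClassGroup (𝓞 K)) with hH
  set Wn : ℤ := ∑ u ∈ Pool.Agent.Z700.un n, jacobiSym (u : ℤ) n * w u with hW
  intro hd
  have hd' : (3 : ℤ) ∣ -8 * (H : ℤ) ^ 2 - 6 * Wn := by
    rcases hε with rfl | rfl
    · rwa [one_mul] at hd
    · rw [neg_one_mul] at hd
      exact (dvd_neg.1 hd)
  have h3 : (3 : ℤ) ∣ (H : ℤ) ^ 2 := by
    obtain ⟨k, hk⟩ := hd'
    exact ⟨k + 2 * Wn + 3 * (H : ℤ) ^ 2, by linarith⟩
  have h4 : (3 : ℤ) ∣ (H : ℤ) := Int.Prime.dvd_pow' Nat.prime_three h3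
  exact hcl (by exact_mod_cast h4)

/-- the sums at all the levels are prime to three -/
theorem SS_ne (h : Nsy e Om) {n : ℕ} (hsq : Squarefree n) (h8 : n % 8 = 7)
    (h7 : jacobiSym 7 n = -1) (K : Type) [Field K] [NumberField K]
    (h2 : Module.finrank ℚ K = 2) (x : K) (hx : x ^ 2 = -(n : K))
    (hcl : ¬ 3 ∣ Fintype.card (ClassGroup (𝓞 K))) (f : ℕ) (hfs : Squarefree f)
    (hf : ∀ l : ℕ, l.Prime → l ∣ f → l % 3 = 1 ∧ jacobiSym (-(n : ℤ)) l = -1 ∧ l ≠ 7) :
    ¬ (3 : ℤ) ∣ SS e n (f * n) := by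
  induction f using Nat.strong_induction_on with
  | _ f ih =>
    by_cases hf1 : f = 1
    · rw [hf1, one_mul]
      exact SS_base h hsq h8 h7 K h2 x hx hcl
    · set l := f.minFac with hl
      have hlp : l.Prime := Nat.minFac_prime hf1
      obtain ⟨g, hg⟩ : l ∣ f := Nat.minFac_dvd f
      have hg0 : g ≠ 0 := by
        rintro rfl
        rw [mul_zero] at hg
        exact hfs.ne_zero hg
      have hgf : g < f := by
        rw [hg]
        exact lt_mul_of_one_lt_left (Nat.pos_of_ne_zero hg0) hlp.one_lt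
      have hgs : Squarefree g := hfs.squarefree_of_dvd ⟨l, by rw [hg]; ring⟩
      have hi := ih g hgf hgs (fun p hp hpg => hf p hp (hpg.trans ⟨l, by rw [hg]; ring⟩))
      obtain ⟨hl3, hlj, hl7⟩ := hf l hlp (Nat.minFac_dvd f)
      have hl2 : l ≠ 2 := by
        intro h0; rw [h0] at hl3; norm_num at hl3
      have hlo : Odd l := hlp.odd_of_ne_two hl2
      have hln : ¬ l ∣ n := by
        intro hd
        have : jacobiSym (-(n : ℤ)) l = 0 := by
          haveI : NeZero l := ⟨hlp.ne_zero⟩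
          rw [jacobiSym.eq_zero_iff_not_coprime]
          intro hgd
          rw [Int.neg_gcd, Int.gcd_natCast_natCast] at hgd
          have := Nat.dvd_gcd hd (dvd_refl l)
          rw [hgd] at this
          exact hlp.one_lt.ne' (Nat.dvd_one.1 this)
        rw [this] at hlj
        norm_num at hlj
      have hlg : ¬ l ∣ g := by
        intro hd
        obtain ⟨k, hk⟩ := hd
        have : l * l ∣ f := ⟨k, by rw [hg, hk]; ring⟩
        exact hlp.one_lt.ne' (Nat.isUnit_iff.1 (hfs l this))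
      have hl14 : ¬ l ∣ 14 := by
        intro hd
        rw [show 14 = 2 * 7 by norm_num, hlp.dvd_mul] at hd
        rcases hd with hd | hd
        · exact hl2 ((Nat.prime_dvd_prime_iff_eq hlp Nat.prime_two).1 hd)
        · exact hl7 ((Nat.prime_dvd_prime_iff_eq hlp (by norm_num)).1 hd)
      have hgn14 : (g * n).Coprime 14 := by
        refine Nat.coprime_of_dvd ?_
        intro p hp hpd hp14
        rw [show 14 = 2 * 7 by norm_num, hp.dvd_mul] at hp14
        rw [hp.dvd_mul] at hpd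
        have h77 : ¬ 7 ∣ n := by
          intro hd
          have : jacobiSym 7 n = 0 := by
            haveI : NeZero n := ⟨hsq.ne_zero⟩
            rw [jacobiSym.eq_zero_iff_not_coprime]
            intro hg
            have h1 : (7 : ℕ) ∣ Int.gcd 7 n := by
              rw [show (7 : ℤ) = ((7 : ℕ) : ℤ) by norm_num, Int.gcd_natCast_natCast]
              exact Nat.dvd_gcd dvd_rfl hd
            rw [hg] at h1
            norm_num at h1
          rw [this] at h7
          norm_num at h7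
        rcases hpd with hpd | hpd
        · obtain ⟨q3, -, q7⟩ := hf p hp (hpd.trans ⟨l, by rw [hg]; ring⟩)
          rcases hp14 with hd | hd
          · have := (Nat.prime_dvd_prime_iff_eq hp Nat.prime_two).1 hd
            rw [this] at q3
            norm_num at q3
          · exact q7 ((Nat.prime_dvd_prime_iff_eq hp (by norm_num)).1 hd)
        · rcases hp14 with hd | hd
          · have := (Nat.prime_dvd_prime_iff_eq hp Nat.prime_two).1 hd
            rw [this] at hpd
            omega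
          · have := (Nat.prime_dvd_prime_iff_eq hp (by norm_num)).1 hd
            rw [this] at hpd
            exact h77 hpd
      have hstep := SS_mul h hsq.ne_zero (dvd_mul_left n g) (mul_ne_zero hg0 hsq.ne_zero) hgn14
        hlp hl14 (by
          rw [hlp.dvd_mul]
          rintro (hd | hd)
          · exact hlg hd
          · exact hln hd)
      have e1 : f * n = l * (g * n) := by rw [hg]; ring
      rw [e1, hstep, ← jac_rec (by omega) hlo, hlj]
      intro hd
      rcases Int.Prime.dvd_mul' Nat.prime_three hd with h3 | h3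
      · have h4 := ap_mod3 hlp hl14
        have h5 : (l : ℤ) % 3 = 1 := by omega
        push_cast at h3
        omega
      · exact hi (by exact_mod_cast h3)

end

end Pool.Agent.K4H1.BX
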