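import Pool.Agent.Y682.XT.UnitG

/-!
# A product of conjugate character sums of a 3-group is prime to three
-/

set_option autoImplicit false

open Polynomial Finset

namespace Pool.Agent.K4H1.BX

open Pool.Agent.Y682.XT (same_value)

variable {G : Type} [CommGroup G] [Fintype G]

theorem unit3 {k : ℕ} (hk : Fintype.card G = 3 ^ k) (S : Finset (G →* ℂˣ)) (hS : ∀ χ, χ ∈ S)
    (w : (G →* ℂˣ) → G → ℤ)
    (hw : ∀ χ (a : ℕ), a.Coprime (Fintype.card G) → w (χ ^ a) = w χ)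
    (h2 : ∀ χ : G →* ℂˣ, ¬ (3 : ℤ) ∣ ∑ g, w χ g) :
    ∃ N : ℤ, ¬ (3 : ℤ) ∣ N ∧ ∏ χ ∈ S, ∑ g, ((χ g : ℂˣ) : ℂ) * (w χ g : ℂ) = N := by
  set m := Fintype.card G with hm
  have hpos : 0 < m := Fintype.card_pos
  have hne : NeZero m := ⟨hpos.ne'⟩
  have : Fintype (G →* ℂˣ) := ⟨S, hS⟩
  have hcard : Nat.card (G →* ℂˣ) = m := by
    rw [CommGroup.card_monoidHom_of_hasEnoughRootsOfUnity, Nat.card_eq_fintype_card]
  obtain ⟨ζ, hζ⟩ : ∃ ζ : ℂ, IsPrimitiveRoot ζ m := ⟨_, Complex.isPrimitiveRoot_exp _ hpos.ne'⟩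
  have hex : ∀ (χ : G →* ℂˣ) (g : G), ∃ e : ℕ, ζ ^ e = ((χ g : ℂˣ) : ℂ) := by
    intro χ g
    have h3 : ((χ g : ℂˣ) : ℂ) ^ m = 1 := by
      rw [← Units.val_pow_eq_pow_val, ← map_pow, hm, pow_card_eq_one, map_one, Units.val_one]
    obtain ⟨i, _, hi⟩ := hζ.eq_pow_of_pow_eq_one h3
    exact ⟨i, hi⟩
  choose e he using hex
  set P : ℤ[X] := ∏ χ ∈ S, ∑ g, C (w χ g) * X ^ (e χ g) with hP
  set F : (G →* ℂˣ) → ℂ := fun χ => ∑ g, ((χ g : ℂˣ) : ℂ) * (w χ g : ℂ) with hF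
  have h3 : (univ : Finset (G →* ℂˣ)) = S := by ext χ; simp [hS]
  have hprod : ∏ χ ∈ S, ∑ g, ((χ g : ℂˣ) : ℂ) * (w χ g : ℂ) = ∏ χ, F χ := by rw [h3]
  have hev : ∀ a : ℕ, a.Coprime m → aeval (ζ ^ a) P = ∏ χ, F χ := by
    intro a ha
    have hco : (Nat.card (G →* ℂˣ)).Coprime a := by rw [hcard]; exact ha.symm
    rw [← Fintype.prod_equiv (powCoprime hco) (fun χ => F (χ ^ a)) F (fun χ => rfl), hP,
      map_prod, h3]
    refine prod_congr rfl fun χ hχ => ?_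
    rw [hF]
    show _ = ∑ g, (((χ ^ a) g : ℂˣ) : ℂ) * (w (χ ^ a) g : ℂ)
    rw [map_sum]
    refine sum_congr rfl fun g _ => ?_
    rw [map_mul, map_pow, aeval_X, aeval_C, hw χ a ha, ← pow_mul, mul_comm a, pow_mul, he χ g]
    simp only [algebraMap_int_eq, eq_intCast, MonoidHom.pow_apply, Units.val_pow_eq_pow_val]
    ring
  have hev1 := hev 1 (Nat.coprime_one_left m)
  rw [pow_one] at hev1
  obtain ⟨N, hN1, hN2⟩ := same_value hpos hζ P (fun a ha => by rw [hev a ha, hev1])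
  refine ⟨N, ?_, ?_⟩
  · have : Fact (Nat.Prime 3) := ⟨Nat.prime_three⟩
    have hroot : aeval (1 : ZMod 3) (cyclotomic m ℤ) = 0 := by
      rw [aeval_def, eval₂_eq_eval_map, map_cyclotomic, hk]
      rcases Nat.eq_zero_or_pos k with rfl | hk0
      · rw [pow_zero, cyclotomic_one, eval_sub, eval_X, eval_one, sub_self]
      · obtain ⟨j, rfl⟩ : ∃ j, k = j + 1 := ⟨k - 1, by omega⟩
        rw [eval_one_cyclotomic_prime_pow]
        exact_mod_cast (ZMod.natCast_self 3)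
    have h4 := hN2 (ZMod 3) 1 hroot
    have h5 : aeval (1 : ZMod 3) P ≠ 0 := by
      rw [hP, map_prod]
      refine prod_ne_zero_iff.2 fun χ _ => ?_
      rw [map_sum]
      intro h6
      apply h2 χ
      refine (ZMod.intCast_zmod_eq_zero_iff_dvd _ 3).1 ?_
      push_cast
      rw [← h6]
      refine sum_congr rfl fun g _ => ?_
      rw [map_mul, map_pow, aeval_X, aeval_C, one_pow, mul_one]
      simp
    intro h6
    apply h5
    rw [h4]
    exact (ZMod.intCast_zmod_eq_zero_iff_dvd N 3).2 h6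
  · rw [hprod, ← hev1, hN1]

end Pool.Agent.K4H1.BX
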