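import Pool.Agent.Y682.XF.ValC
import Pool.Agent.K4H1.BX.AnS
import Pool.Agent.K4H1.BX.AnU
import Pool.Agent.R425.Main2

/-!
# The product of the values of the twisted `L`-functions
-/

set_option autoImplicit false
set_option linter.unusedSectionVars false

open Finset NumberField IsCyclotomicExtension.Rat H300.HW

namespace Pool.Agent.K4H1.BX

open scoped Classical

open Pool.Agent.W97.MT (ap E14 II II_conj II_add_one)
open Pool.Agent.Y682.XT Pool.Agent.Y682.XF Pool.Agent.Y682.XD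

section

variable {f : ℕ} [NeZero f]

/-- the sum of the integrals with an odd character -/
lemma II_odd {e : ℚ → ℤ} {Om : ℝ} (h : Nsy e Om) (h1 : 1 < f) (hf : f.Coprime 14)
    {ρ : DirichletCharacter ℂ f} (he : ρ (-1) = -1) :
    ∑ u : (ZMod f)ˣ, ρ (u : ZMod f) * II (((u : ZMod f).val : ℚ) / f) =
      (Om * Complex.I) * ∑ u : (ZMod f)ˣ, ρ (u : ZMod f) *
        ((e ((((u : ZMod f).val : ℤ) : ℚ) / f) : ℤ) : ℂ) := by
  have hf0 : (f : ℚ) ≠ 0 := by exact_mod_cast NeZero.ne f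
  set A := ∑ u : (ZMod f)ˣ, ρ (u : ZMod f) * II (((u : ZMod f).val : ℚ) / f) with hA
  have h2 : A = ∑ u : (ZMod f)ˣ, -(ρ (u : ZMod f) *
      (starRingEnd ℂ) (II (((u : ZMod f).val : ℚ) / f))) := by
    rw [hA, ← Equiv.sum_comp (Equiv.neg (ZMod f)ˣ)
      (fun u : (ZMod f)ˣ => ρ (u : ZMod f) * II (((u : ZMod f).val : ℚ) / f))]
    refine sum_congr rfl fun u _ => ?_
    have h4 : II ((((-u : (ZMod f)ˣ) : ZMod f).val : ℚ) / f) =
        (starRingEnd ℂ) (II (((u : ZMod f).val : ℚ) / f)) := by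
      rw [val_neg_unit h1, ← II_conj, ← II_add_one (-(((u : ZMod f).val : ℚ) / f))]
      congr 1
      rw [Nat.cast_sub (ZMod.val_lt (u : ZMod f)).le]
      field_simp
      ring
    have h5 : ρ ((-u : (ZMod f)ˣ) : ZMod f) = -ρ (u : ZMod f) := by
      rw [Units.val_neg, ← neg_one_mul, map_mul, he, neg_one_mul]
    rw [Equiv.neg_apply, h4, h5]
    ring
  have h3 : 2 * A = ∑ u : (ZMod f)ˣ, ρ (u : ZMod f) * (2 * Complex.I *
      ((II (((u : ZMod f).val : ℚ) / f)).im : ℂ)) := by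
    rw [two_mul]
    nth_rw 2 [h2]
    rw [hA, ← sum_add_distrib]
    refine sum_congr rfl fun u _ => ?_
    have h6 : II (((u : ZMod f).val : ℚ) / f) - (starRingEnd ℂ) (II (((u : ZMod f).val : ℚ) / f)) =
        2 * Complex.I * ((II (((u : ZMod f).val : ℚ) / f)).im : ℂ) := by
      rw [Complex.sub_conj]
      push_cast
      ring
    rw [← h6]
    ring
  have h4 : ∀ u : (ZMod f)ˣ, ((II (((u : ZMod f).val : ℚ) / f)).im : ℂ) =
      ((e ((((u : ZMod f).val : ℤ) : ℚ) / f) : ℤ) : ℂ) * Om := by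
    intro u
    have h5 := h.im ((((u : ZMod f).val : ℤ) : ℚ) / f) (den_cop hf)
    have h6 : ((((u : ZMod f).val : ℤ) : ℚ) / f) = (((u : ZMod f).val : ℚ) / f) := by push_cast; rfl
    rw [h6] at h5 ⊢
    rw [h5]
    push_cast
    rfl
  have h5 : 2 * A = 2 * ((Om * Complex.I) * ∑ u : (ZMod f)ˣ, ρ (u : ZMod f) *
        ((e ((((u : ZMod f).val : ℤ) : ℚ) / f) : ℤ) : ℂ)) := by
    rw [h3, mul_sum, mul_sum]
    refine sum_congr rfl fun u _ => ?_
    rw [h4]
    ring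
  exact mul_left_cancel₀ two_ne_zero h5

end

section

variable {q d : ℕ} [NeZero q] [NeZero (q * d)] {L : Type} [Field L] [NumberField L]
  [IsCyclotomicExtension {q} ℚ L] {K : IntermediateField ℚ L}

variable (L K) in
/-- the weights on the Galois group -/
noncomputable def w3 (e : ℚ → ℤ) {f d : ℕ} [NeZero (f * d)] (hf : f ∣ q) (g : GG q L K) : ℤ :=
  ∑ u ∈ (univ : Finset (ZMod (f * d))ˣ).filter
    (fun u => mkG q L K (sect hf (ZMod.unitsMap (dvd_mul_right f d) u)) = g),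
    jacobiSym ((u : ZMod (f * d)).val : ℤ) d *
      e ((((u : ZMod (f * d)).val : ℤ) : ℚ) / ((f * d : ℕ) : ℚ))

lemma sum_w3 (e : ℚ → ℤ) {f d : ℕ} [NeZero (f * d)] (hf : f ∣ q) [Fintype (GG q L K)]
    {A : Type} [CommRing A] (F : GG q L K → A) :
    ∑ g, F g * (w3 L K e (d := d) hf g : A) =
      ∑ u : (ZMod (f * d))ˣ, F (mkG q L K (sect hf (ZMod.unitsMap (dvd_mul_right f d) u))) *
        ((jacobiSym ((u : ZMod (f * d)).val : ℤ) d *
      e ((((u : ZMod (f * d)).val : ℤ) : ℚ) / ((f * d : ℕ) : ℚ)) : ℤ) : A) := by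
  rw [← sum_fiberwise (univ : Finset (ZMod (f * d))ˣ)
    (fun u => mkG q L K (sect hf (ZMod.unitsMap (dvd_mul_right f d) u)))]
  refine sum_congr rfl fun g _ => ?_
  unfold w3
  push_cast
  rw [mul_sum]
  refine sum_congr rfl fun u hu => ?_
  rw [(mem_filter.1 hu).2]

lemma w3_congr (e : ℚ → ℤ) {f f' d : ℕ} [NeZero (f * d)] [NeZero (f' * d)] (h : f ∣ q)
    (h' : f' ∣ q) (he : f = f') : w3 L K e (d := d) h = w3 L K e (d := d) h' := by
  subst he
  rfl

lemma tot_w3 (e : ℚ → ℤ) {f d : ℕ} [NeZero (f * d)] (hf : f ∣ q) [Fintype (GG q L K)] :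
    ∑ g, w3 L K e (d := d) hf g = SS e d (f * d) := by
  have h1 := sum_w3 (L := L) (K := K) e (d := d) hf (A := ℤ) (fun _ => 1)
  simp only [one_mul, Int.cast_id] at h1
  rw [h1]
  unfold SS
  refine sum_bij (fun (u : (ZMod (f * d))ˣ) _ => (u : ZMod (f * d)).val) ?_ ?_ ?_ ?_
  · intro u _
    rw [mem_filter, mem_range]
    exact ⟨ZMod.val_lt _, ZMod.val_coe_unit_coprime u⟩
  · intro u _ v _ h
    exact Units.ext (ZMod.val_injective _ h)
  · intro a ha
    rw [mem_filter, mem_range] at ha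
    refine ⟨ZMod.unitOfCoprime a ha.2, mem_univ _, ?_⟩
    rw [ZMod.coe_unitOfCoprime, ZMod.val_natCast, Nat.mod_eq_of_lt ha.1]
  · intro u _
    rfl

/-- **the product of the twisted sums is prime to three** -/
theorem prod3 {e : ℚ → ℤ} {d : ℕ} (hd0 : d ≠ 0) {k : ℕ} (hk : Module.finrank ℚ K = 3 ^ k)
    (hne : ∀ f : ℕ, f ∣ q → ¬ (3 : ℤ) ∣ SS e d (f * d))
    [Fintype (GG q L K)] (S : Finset (GG q L K →* ℂˣ)) (hS : ∀ χ, χ ∈ S) :
    ∃ N : ℤ, ¬ (3 : ℤ) ∣ N ∧ ∏ χ ∈ S,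
      (haveI : NeZero ((cf q L K χ).conductor * d) :=
        ⟨mul_ne_zero (cf q L K χ).conductor_ne_zero hd0⟩
      ∑ g, ((χ g : ℂˣ) : ℂ) *
        (w3 L K e (d := d) (cf q L K χ).conductor_dvd_level g : ℂ)) = N := by
  refine unit3 (G := GG q L K) (k := k) (by rw [← Nat.card_eq_fintype_card, card_GG, hk]) S hS
    (fun χ =>
    haveI : NeZero ((cf q L K χ).conductor * d) := ⟨mul_ne_zero (cf q L K χ).conductor_ne_zero hd0⟩
    w3 L K e (d := d) (cf q L K χ).conductor_dvd_level) ?_ ?_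
  · intro χ a ha
    have : NeZero ((cf q L K χ).conductor * d) := ⟨mul_ne_zero (cf q L K χ).conductor_ne_zero hd0⟩
    have : NeZero ((cf q L K (χ ^ a)).conductor * d) :=
      ⟨mul_ne_zero (cf q L K (χ ^ a)).conductor_ne_zero hd0⟩
    apply w3_congr
    exact cond_pow χ ha
  · intro χ
    have : NeZero ((cf q L K χ).conductor * d) := ⟨mul_ne_zero (cf q L K χ).conductor_ne_zero hd0⟩
    show ¬ (3 : ℤ) ∣ ∑ g, w3 L K e (d := d) (cf q L K χ).conductor_dvd_level g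
    rw [tot_w3]
    exact hne _ (cf q L K χ).conductor_dvd_level

/-- the sum over the level of the character as a sum over the Galois group -/
lemma sum_X3 {δ : DirichletCharacter ℂ d} (hδ : ∀ u : (ZMod d)ˣ, δ (u : ZMod d) =
      (jacobiSym ((u : ZMod d).val : ℤ) d : ℂ)) (hδi : δ⁻¹ = δ) (χ' : GG q L K →* ℂˣ) (e : ℚ → ℤ)
    {f : ℕ} [NeZero (f * d)] (hf : f ∣ q) (hc : (cf q L K χ').conductor = f)
    [Fintype (GG q L K)] : ∀ (F : ℕ) [NeZero F], F = f * d → ∀ (hFN : F ∣ q * d)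
      (ρ : DirichletCharacter ℂ F),
      DirichletCharacter.changeLevel hFN ρ = XX δ (cf q L K χ') →
      ∑ u : (ZMod F)ˣ, ρ⁻¹ (u : ZMod F) * ((e ((((u : ZMod F).val : ℤ) : ℚ) / F) : ℤ) : ℂ) =
        ∑ g, (((χ'⁻¹) g : ℂˣ) : ℂ) * (w3 L K e (d := d) hf g : ℂ) := by
  intro F _ hF hFN ρ hρ
  subst hF
  rw [sum_w3 (A := ℂ) e hf (fun g => (((χ'⁻¹) g : ℂˣ) : ℂ))]
  refine sum_congr rfl fun u _ => ?_
  obtain ⟨c, rfl⟩ := ZMod.unitsMap_surjective hFN u
  rw [Int.cast_mul, ← mul_assoc]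
  congr 1
  have h1 : ρ ((ZMod.unitsMap hFN c : (ZMod (f * d))ˣ) : ZMod (f * d)) =
      XX δ (cf q L K χ') (c : ZMod (q * d)) := by
    rw [← hρ, DirichletCharacter.changeLevel_eq_cast_of_dvd, ZMod.unitsMap_val]
  have h2 : cf q L K χ' ((sect hf (ZMod.unitsMap (dvd_mul_right f d) (ZMod.unitsMap hFN c)) :
      (ZMod q)ˣ) : ZMod q) =
      cf q L K χ' ((ZMod.unitsMap (dvd_mul_right q d) c : (ZMod q)ˣ) : ZMod q) := by
    subst hc
    rw [prim_unit (cf q L K χ'), prim_unit (cf q L K χ')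
      (ZMod.unitsMap (dvd_mul_right q d) c), map_sect]
    congr 2
    rw [← MonoidHom.comp_apply, ← MonoidHom.comp_apply, ZMod.unitsMap_comp, ZMod.unitsMap_comp]
  have h3 : ZMod.unitsMap (dvd_mul_left d f) (ZMod.unitsMap hFN c) =
      ZMod.unitsMap (dvd_mul_left d q) c := by
    rw [← MonoidHom.comp_apply, ZMod.unitsMap_comp]
  have h4 : (jacobiSym (((ZMod.unitsMap hFN c : (ZMod (f * d))ˣ) : ZMod (f * d)).val : ℤ) d : ℂ) =
      δ ((ZMod.unitsMap (dvd_mul_left d q) c : (ZMod d)ˣ) : ZMod d) := by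
    rw [← h3, hδ]
    congr 1
    apply Pool.Agent.Y687.N.jac_congr
    have hd0 : NeZero d := ⟨fun h => NeZero.ne (f * d) (by rw [h, mul_zero])⟩
    rw [← ZMod.intCast_zmod_eq_zero_iff_dvd]
    push_cast
    rw [ZMod.natCast_zmod_val, sub_eq_zero, ZMod.unitsMap_val, ZMod.natCast_val,
      ZMod.unitsMap_val, ZMod.unitsMap_val]
  rw [MulChar.inv_apply_eq_inv', h1, XX_unit, mul_inv, MonoidHom.inv_apply,
    Units.val_inv_eq_inv_val, ← cf_apply, h2, h4]
  congr 1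
  rw [← MulChar.inv_apply_eq_inv', hδi]

end

end Pool.Agent.K4H1.BX
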