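import Pool.Agent.K4H1.BX.AnV
import Pool.Agent.Y954.XF.LKD
import Pool.Agent.Y109.XF.LF
import Pool.Agent.Y812.XF.HtKd
import Pool.Agent.Y44.XF.Prim

/-!
# The `L`-function of the twist over the field
-/

set_option autoImplicit false
set_option linter.unusedSectionVars false

open Finset NumberField IsCyclotomicExtension.Rat H300.HW IsDedekindDomain

namespace Pool.Agent.K4H1.BX

open scoped Classical

open Pool.Agent.W97.MT (ap E14 II)
open Pool.Agent.Y700 (WM)
open Pool.Agent.Y682.XT Pool.Agent.Y682.XF Pool.Agent.Y682.XD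

lemma factor_conj {K : Type} [Field K] [NumberField K] (W : WeierstrassCurve ℤ) (s : ℂ)
    (v : HeightOneSpectrum (𝓞 K)) :
    factor (K := K) W ((starRingEnd ℂ) s) v = (starRingEnd ℂ) (factor (K := K) W s v) := by
  have hc : ∀ t : ℂ, ((Ideal.absNorm v.asIdeal : ℕ) : ℂ) ^ ((starRingEnd ℂ) t) =
      (starRingEnd ℂ) (((Ideal.absNorm v.asIdeal : ℕ) : ℂ) ^ t) := by
    intro t
    rw [Complex.cpow_conj _ _ (by
      rw [Complex.natCast_arg]
      exact Real.pi_pos.ne)]
    rw [Complex.conj_natCast]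
  unfold factor
  rw [map_inv₀, map_add, map_sub, map_mul, map_one, map_intCast, ← hc, map_neg]
  congr 2
  split_ifs
  · rw [map_zero]
  · rw [← hc]
    congr 1
    have h2 : (starRingEnd ℂ) (2 : ℂ) = 2 := Complex.conj_ofNat 2
    rw [map_sub, map_mul, map_one, h2]

section

variable {q d : ℕ} [NeZero q] [NeZero d] [NeZero (q * d)] {L : Type} [Field L] [NumberField L]
  [IsCyclotomicExtension {q} ℚ L] {K : IntermediateField ℚ L}

theorem isRe_odd (hodd : Odd (Module.finrank ℚ K)) : IsRe q L K := by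
  unfold IsRe
  rw [← mkG_one (K := K)]
  have h1 : mkG q L K (-1) ^ 2 = 1 := by rw [← map_pow, neg_one_sq, map_one]
  have h2 : mkG q L K (-1) ^ Nat.card (GG q L K) = 1 := pow_card_eq_one'
  rw [card_GG] at h2
  have h3 := orderOf_dvd_of_pow_eq_one h1
  have h4 := orderOf_dvd_of_pow_eq_one h2
  have h5 : orderOf (mkG q L K (-1)) ∣ 1 := by
    have : Nat.Coprime 2 (Module.finrank ℚ K) := Nat.coprime_two_left.2 hodd
    rw [← this]
    exact Nat.dvd_gcd h3 h4
  exact orderOf_eq_one_iff.1 (Nat.dvd_one.1 h5)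

theorem ana3 (hsq : Squarefree q) (hq14 : q.Coprime 14) (hqd : q.Coprime d)
    (hdsq : Squarefree d) (hd8 : d % 8 = 7) (hd14 : d.Coprime 14)
    {e : ℚ → ℤ} {Om : ℝ} (h : Nsy e Om) {k : ℕ} (hk : Module.finrank ℚ K = 3 ^ k)
    (hne : ∀ f, f ∣ q → ¬ (3 : ℤ) ∣ SS e d (f * d)) :
    ∃ G : ℂ → ℂ, Differentiable ℂ G ∧
      (∀ z : ℂ, 3 / 2 < z.re → HasProd (factor (K := K) (WM (-(d : ℤ))) z) (G z)) ∧
      (G 1).im = 0 ∧ ∃ N : ℤ, ¬ (3 : ℤ) ∣ N ∧
      ‖G 1‖ * √|(discr K : ℝ)| = |(N : ℝ)| * (Om / √d) ^ (Module.finrank ℚ K) := by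
  have hd0 : d ≠ 0 := NeZero.ne d
  have hodd : Odd (Module.finrank ℚ K) := by
    rw [hk]
    exact Odd.pow (by decide)
  have hre := isRe_odd (q := q) (K := K) hodd
  have hDabs : (-(d : ℤ)).natAbs = d := by simp
  have hDsq : Squarefree (-(d : ℤ)) := by
    rw [← Int.squarefree_natAbs, hDabs]
    exact hdsq
  have hD4 : (-(d : ℤ)) % 4 = 1 := by omega
  obtain ⟨δ, hδp, hδk, hδ1, hδj⟩ := Pool.Agent.Y812.XF.t_KD (-(d : ℤ)) hDsq hD4 d hDabs.symm
  have hδ1' : δ (-1) = -1 := by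
    rw [hδ1, if_neg (by omega)]
  have hδ : ∀ u : (ZMod d)ˣ, δ (u : ZMod d) = 1 ∨ δ (u : ZMod d) = -1 := by
    intro u
    rw [hδj u]
    have hco : IsCoprime (((u : ZMod d).val : ℤ)) (d : ℤ) :=
      Nat.isCoprime_iff_coprime.2 (ZMod.val_coe_unit_coprime u)
    rcases jacobiSym.trichotomy ((u : ZMod d).val : ℤ) d with h | h | h
    · exfalso
      rw [jacobiSym.eq_zero_iff_not_coprime] at h
      exact h (Int.isCoprime_iff_gcd_eq_one.1 hco)
    · left; rw [h]; push_cast; rfl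
    · right; rw [h]; push_cast; rfl
  have hδi : δ⁻¹ = δ := quad_inv hδ
  have hco : (q * d).Coprime 14 := Nat.Coprime.mul_left hq14 hd14
  obtain ⟨G, hG⟩ := exists_GG hco
  have hfG : Fintype (GG q L K) := Fintype.ofFinite _
  have : Finite (GG q L K →* ℂˣ) := Finite.of_injective (cf q L K) cf_inj
  have hfC : Fintype (GG q L K →* ℂˣ) := Fintype.ofFinite _
  obtain ⟨S, hS⟩ : ∃ S : Finset (GG q L K →* ℂˣ), ∀ χ, χ ∈ S := ⟨univ, fun χ => mem_univ χ⟩
  have hcardS : S.card = Module.finrank ℚ K := by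
    have h1 := card_erase (q := q) S hS
    rw [card_erase_of_mem (hS 1)] at h1
    have h2 : 0 < S.card := card_pos.2 ⟨1, hS 1⟩
    omega
  have hPR := Pool.Agent.Y44.XF.s_prim
  have hLKD := Pool.Agent.Y954.XF.s_lkd Pool.Agent.Y109.XF.t_LF
  have hE := fun {z : ℂ} (hz : 3 / 2 < z.re) =>
    euler_D (L := L) hLKD hPR hDsq hD4 (by rw [hDabs]; exact hd14) hDabs hq14 hqd hδp hδk
      (fun χ s hs => (hG χ).2.1 s hs) K hz
  have hfin : ∀ F : DirichletCharacter ℂ q → ℂ,
      ∏ᶠ χ : YY q L K, F χ = ∏ ψ ∈ S, F (cf q L K ψ) := by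
    intro F
    have hfY : Fintype (YY q L K) := Fintype.ofFinite _
    rw [finprod_eq_prod_of_fintype]
    symm
    refine prod_bij (fun ψ _ => (⟨cf q L K ψ, cf_mem ψ⟩ : YY q L K)) ?_ ?_ ?_ ?_
    · intro ψ _; exact mem_univ _
    · intro ψ _ ψ' _ h
      exact cf_inj (congrArg Subtype.val h)
    · rintro ⟨χ, hχ⟩ _
      obtain ⟨ψ, rfl⟩ := cf_surj hχ
      exact ⟨ψ, hS ψ, rfl⟩
    · intro ψ _; rfl
  set GG0 : ℂ → ℂ := fun z => ∏ ψ ∈ S, G (XX δ (cf q L K ψ)) z with hGG0
  have hdiff : Differentiable ℂ GG0 := Differentiable.fun_finsetProd fun ψ _ => (hG _).1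
  have hprodz : ∀ z : ℂ, 3 / 2 < z.re →
      HasProd (factor (K := K) (WM (-(d : ℤ))) z) (GG0 z) := by
    intro z hz
    have h1 := hE hz
    rw [hfin (fun χ => G (XX δ χ) z)] at h1
    exact h1
  refine ⟨GG0, hdiff, hprodz, ?_, ?_⟩
  · -- reality
    set H : ℂ → ℂ := fun s => (starRingEnd ℂ) (GG0 ((starRingEnd ℂ) s)) with hH
    have hHd : Differentiable ℂ H := Pool.Agent.Y702.L.conj_diff hdiff
    have h1 : ∀ s : ℂ, 3 / 2 < s.re → H s = GG0 s := by
      intro s hs
      have h2 := hprodz ((starRingEnd ℂ) s) (by simpa using hs)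
      have h3 := (hprodz s hs).map (starRingEnd ℂ) Complex.continuous_conj
      have h4 : ((starRingEnd ℂ) ∘ factor (K := K) (WM (-(d : ℤ))) s) =
          factor (K := K) (WM (-(d : ℤ))) ((starRingEnd ℂ) s) := by
        funext v
        exact (factor_conj _ s v).symm
      rw [h4] at h3
      have h5 := h2.unique h3
      show (starRingEnd ℂ) (GG0 ((starRingEnd ℂ) s)) = GG0 s
      rw [h5, Complex.conj_conj]
    have h2 : H = GG0 := by
      have hHa : AnalyticOnNhd ℂ H Set.univ := fun z _ => hHd.analyticAt z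
      have hGa : AnalyticOnNhd ℂ GG0 Set.univ := fun z _ => hdiff.analyticAt z
      refine hHa.eq_of_eventuallyEq hGa (z₀ := 2) ?_
      have hopen : IsOpen {s : ℂ | 3 / 2 < s.re} := isOpen_lt continuous_const Complex.continuous_re
      filter_upwards [hopen.mem_nhds (show (2 : ℂ) ∈ {s : ℂ | 3 / 2 < s.re} by
        simp only [Set.mem_ofPred_eq]; norm_num)] with s hs
      exact h1 s hs
    have h3 := congrFun h2 1
    simp only [hH, map_one] at h3
    exact Complex.conj_eq_iff_im.1 h3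
  · -- the value
    obtain ⟨N, hN3, hprod⟩ := prod3 (q := q) (L := L) (K := K) hd0 hk hne S hS
    refine ⟨N, hN3, ?_⟩
    have hcond : ∀ ψ : GG q L K →* ℂˣ, (XX δ (cf q L K ψ)).conductor =
        (cf q L K ψ).conductor * d := fun ψ => (hPR q d hqd (cf q L K ψ) δ hδp).1
    have hpar : ∀ ψ : GG q L K →* ℂˣ, XX δ (cf q L K ψ) (-1) = -1 := by
      intro ψ
      rw [XX_neg, even_cf hre ψ, one_mul, hδ1']
    have hother : ∀ ψ ∈ S, gsi (XX δ (cf q L K ψ)) * G (XX δ (cf q L K ψ)) 1 =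
        ((Om : ℂ) * Complex.I) *
        (haveI : NeZero ((cf q L K ψ⁻¹).conductor * d) :=
          ⟨mul_ne_zero (cf q L K ψ⁻¹).conductor_ne_zero hd0⟩
        ∑ g, (((ψ⁻¹) g : ℂˣ) : ℂ) *
          (w3 L K e (d := d) (cf q L K ψ⁻¹).conductor_dvd_level g : ℂ)) := by
      intro ψ _
      have : NeZero ((cf q L K ψ⁻¹).conductor * d) :=
        ⟨mul_ne_zero (cf q L K ψ⁻¹).conductor_ne_zero hd0⟩
      have : NeZero ((cf q L K ψ).conductor * d) :=
        ⟨mul_ne_zero (cf q L K ψ).conductor_ne_zero hd0⟩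
      have : NeZero (XX δ (cf q L K ψ)).conductor := ⟨(XX δ (cf q L K ψ)).conductor_ne_zero⟩
      have hf1 : 1 < (XX δ (cf q L K ψ)).conductor := by
        rw [hcond]
        exact lt_of_lt_of_le (by omega : 1 < d)
          (Nat.le_mul_of_pos_left _ (Nat.pos_of_ne_zero (cf q L K ψ).conductor_ne_zero))
      have hf14 : (XX δ (cf q L K ψ)).conductor.Coprime 14 :=
        Nat.Coprime.coprime_dvd_left (XX δ (cf q L K ψ)).conductor_dvd_level hco
      have h2 := (hG (XX δ (cf q L K ψ))).2.2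
      rw [II_odd h hf1 hf14 (by
        rw [MulChar.inv_apply_eq_inv', prim_par, hpar]
        norm_num)] at h2
      rw [sum_X3 hδj hδi ψ e (cf q L K ψ).conductor_dvd_level rfl (XX δ (cf q L K ψ)).conductor
        (hcond ψ) (XX δ (cf q L K ψ)).conductor_dvd_level (XX δ (cf q L K ψ)).primitiveCharacter
        (XX δ (cf q L K ψ)).changeLevel_primitiveCharacter] at h2
      have h3 : w3 L K e (d := d) (cf q L K ψ⁻¹).conductor_dvd_level =
          w3 L K e (d := d) (cf q L K ψ).conductor_dvd_level := by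
        apply w3_congr
        rw [cf_inv, DirichletCharacter.conductor_inv]
      show _ = ((Om : ℂ) * Complex.I) * ∑ g, (((ψ⁻¹) g : ℂˣ) : ℂ) *
        (w3 L K e (d := d) (cf q L K ψ⁻¹).conductor_dvd_level g : ℂ)
      rw [h3]
      exact h2
    have hT : (∏ ψ ∈ S, gsi (XX δ (cf q L K ψ))) * GG0 1 =
        ((Om : ℂ) * Complex.I) ^ S.card * N := by
      rw [hGG0]
      show _ * ∏ ψ ∈ S, G (XX δ (cf q L K ψ)) 1 = _
      rw [← prod_mul_distrib, prod_congr rfl hother, prod_mul_distrib, prod_const]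
      congr 1
      rw [← hprod]
      have hSu : S = univ := by ext χ; simp [hS]
      subst hSu
      exact Equiv.prod_comp (Equiv.inv (GG q L K →* ℂˣ)) (fun ψ =>
        haveI : NeZero ((cf q L K ψ).conductor * d) :=
          ⟨mul_ne_zero (cf q L K ψ).conductor_ne_zero hd0⟩
        ∑ g, ((ψ g : ℂˣ) : ℂ) * (w3 L K e (d := d) (cf q L K ψ).conductor_dvd_level g : ℂ))
    have hns : ∏ ψ ∈ S, ‖gsi (XX δ (cf q L K ψ))‖ =
        √|(discr K : ℝ)| * (√d) ^ S.card := by
      have hdisc := Pool.Agent.Y18.JT.s_discr Pool.Agent.Y702.L.s_points q L K hsq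
      have hdisc2 : |(discr K : ℝ)| = ∏ ψ ∈ S, ((cf q L K ψ).conductor : ℝ) := by
        have h2 : |(discr K : ℝ)| = (((discr K).natAbs : ℕ) : ℝ) := by
          rw [Nat.cast_natAbs, Int.cast_abs]
        have hfY : Fintype (YY q L K) := Fintype.ofFinite _
        rw [h2, hdisc, finprod_eq_prod_of_fintype]
        push_cast
        symm
        refine prod_bij (fun ψ _ => (⟨cf q L K ψ, cf_mem ψ⟩ : YY q L K)) ?_ ?_ ?_ ?_
        · intro ψ _; exact mem_univ _
        · intro ψ _ ψ' _ h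
          exact cf_inj (congrArg Subtype.val h)
        · rintro ⟨χ, hχ⟩ _
          obtain ⟨ψ, rfl⟩ := cf_surj hχ
          exact ⟨ψ, hS ψ, rfl⟩
        · intro ψ _; rfl
      have h1 : ∀ ψ ∈ S, ‖gsi (XX δ (cf q L K ψ))‖ =
          √((cf q L K ψ).conductor : ℝ) * √d := by
        intro ψ _
        have : NeZero (XX δ (cf q L K ψ)).conductor := ⟨(XX δ (cf q L K ψ)).conductor_ne_zero⟩
        rw [← Real.sqrt_mul (Nat.cast_nonneg _)]
        symm
        rw [Real.sqrt_eq_iff_mul_self_eq (mul_nonneg (Nat.cast_nonneg _) (Nat.cast_nonneg _))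
          (norm_nonneg _), ← pow_two]
        have h2 := H385.GaussAux.norm_sq_gaussSum (Pool.Agent.W440.TW.inv_primitive _
          (XX δ (cf q L K ψ)).primitiveCharacter_isPrimitive)
        rw [← Nat.cast_mul, ← hcond]
        exact h2.symm
      rw [prod_congr rfl h1, prod_mul_distrib, prod_const, hdisc2, Real.sqrt_prod]
      intro ψ _
      exact Nat.cast_nonneg _
    have hnorm := congrArg norm hT
    rw [norm_mul, norm_prod, norm_mul, norm_pow, norm_mul, Complex.norm_I, mul_one,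
      Complex.norm_real, Complex.norm_intCast, Real.norm_of_nonneg h.pos.le, hns, hcardS] at hnorm
    have hsd : (√(d : ℝ)) ^ Module.finrank ℚ K ≠ 0 := by
      refine pow_ne_zero _ ?_
      rw [Real.sqrt_ne_zero (Nat.cast_nonneg _)]
      exact_mod_cast hd0
    rw [div_pow, ← mul_div_assoc, eq_div_iff hsd, mul_comm |(N : ℝ)|, ← hnorm]
    ring

end

end Pool.Agent.K4H1.BX
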