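import Pool.Agent.K4H1.BX.Su

/-!
# The descent of the Kummer generators to quadratic fields
-/

set_option autoImplicit false
set_option linter.unusedSectionVars false

open NumberField IsDedekindDomain WithZero Module

open scoped WithZero

namespace Pool.Agent.K4H1.BX

lemma Cub.of_pow {g : ℤᵐ⁰} {e : ℕ} (he : ¬ 3 ∣ e) (h : Cub (g ^ e)) : Cub g := by
  by_cases hg : g = 0
  · rw [hg]
    exact ⟨0, by simp⟩
  obtain ⟨n, rfl⟩ : ∃ n : ℤ, g = exp n := ⟨log g, (exp_log hg).symm⟩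
  rw [ex_pow, Cub.exp_iff] at h
  rw [Cub.exp_iff]
  have h3 : Prime (3 : ℤ) := Int.prime_three
  rcases h3.dvd_or_dvd h with h | h
  · exfalso
    apply he
    exact_mod_cast h
  · exact h

section desc

variable {M : Type} [Field M] [NumberField M] {n q : ℕ}

/-- the subgroup of the Kummer generators -/
def VS (σ ρ : M ≃ₐ[ℚ] M) (A : ℕ) (T : Prop) : Subgroup Mˣ where
  carrier := {x | (∀ w : HeightOneSpectrum (𝓞 M), (A : 𝓞 M) ∉ w.asIdeal →
      Cub (w.valuation M (x : M))) ∧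
    (T → ∀ w : HeightOneSpectrum (𝓞 M), ((3 : ℕ) : 𝓞 M) ∈ w.asIdeal → Pr (w.valuation M) (x : M)) ∧
    (∃ c : M, c ≠ 0 ∧ ρ x = x * c ^ 3) ∧ (∃ c : M, c ≠ 0 ∧ σ x * x = c ^ 3)}
  one_mem' := by
    refine ⟨fun w _ => ?_, fun _ w _ => ?_, ⟨1, one_ne_zero, ?_⟩, ⟨1, one_ne_zero, ?_⟩⟩
    · rw [Units.val_one, map_one]
      exact cub_one
    · rw [Units.val_one]
      have := Pr.cube (ν := w.valuation M) (one_ne_zero (α := M))
      rwa [one_pow] at this
    · rw [Units.val_one, map_one]; ring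
    · rw [Units.val_one, map_one]; ring
  mul_mem' := by
    rintro x y ⟨h1, h2, ⟨c, hc, h3⟩, ⟨d, hd, h4⟩⟩ ⟨h1', h2', ⟨c', hc', h3'⟩, ⟨d', hd', h4'⟩⟩
    refine ⟨fun w hw => ?_, fun hT w hw => ?_, ⟨c * c', mul_ne_zero hc hc', ?_⟩,
      ⟨d * d', mul_ne_zero hd hd', ?_⟩⟩
    · rw [Units.val_mul, map_mul]
      exact (h1 w hw).mul (h1' w hw)
    · rw [Units.val_mul]
      exact (h2 hT w hw).mul (h2' hT w hw)
    · rw [Units.val_mul, map_mul, h3, h3']; ring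
    · rw [Units.val_mul, map_mul]
      calc σ (x : M) * σ (y : M) * (x * y) = (σ x * x) * (σ y * y) := by ring
        _ = _ := by rw [h4, h4']; ring
  inv_mem' := by
    rintro x ⟨h1, h2, ⟨c, hc, h3⟩, ⟨d, hd, h4⟩⟩
    refine ⟨fun w hw => ?_, fun hT w hw => ?_, ⟨c⁻¹, inv_ne_zero hc, ?_⟩,
      ⟨d⁻¹, inv_ne_zero hd, ?_⟩⟩
    · rw [Units.val_inv_eq_inv_val, map_inv₀]
      exact (h1 w hw).inv
    · rw [Units.val_inv_eq_inv_val]
      exact (h2 hT w hw).inv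
    · rw [Units.val_inv_eq_inv_val, map_inv₀, h3, mul_inv, inv_pow]
    · rw [Units.val_inv_eq_inv_val, map_inv₀, inv_pow, ← h4, mul_inv]

lemma mem_VS {σ ρ : M ≃ₐ[ℚ] M} {A : ℕ} {T : Prop} {x : Mˣ} : x ∈ VS σ ρ A T ↔
    (∀ w : HeightOneSpectrum (𝓞 M), (A : 𝓞 M) ∉ w.asIdeal → Cub (w.valuation M (x : M))) ∧
    (T → ∀ w : HeightOneSpectrum (𝓞 M), ((3 : ℕ) : 𝓞 M) ∈ w.asIdeal → Pr (w.valuation M) (x : M)) ∧
    (∃ c : M, c ≠ 0 ∧ ρ x = x * c ^ 3) ∧ (∃ c : M, c ≠ 0 ∧ σ x * x = c ^ 3) := Iff.rfl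

lemma VS_stable (hcomm : ∀ g h : M ≃ₐ[ℚ] M, g * h = h * g) {σ ρ : M ≃ₐ[ℚ] M} {A : ℕ} {T : Prop}
    (g : M ≃ₐ[ℚ] M) {x y : Mˣ} (hx : x ∈ VS σ ρ A T) (hy : (y : M) = g x) : y ∈ VS σ ρ A T := by
  obtain ⟨h1, h2, ⟨c, hc, h3⟩, ⟨d, hd, h4⟩⟩ := hx
  have hcm : ∀ (h : M ≃ₐ[ℚ] M) (z : M), h (g z) = g (h z) := fun h z =>
    congrArg (fun f : M ≃ₐ[ℚ] M => f z) (hcomm h g)
  refine ⟨fun w hw => ?_, fun hT w hw => ?_, ⟨g c, (map_ne_zero _).2 hc, ?_⟩,
    ⟨g d, (map_ne_zero _).2 hd, ?_⟩⟩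
  · rw [hy, ← gal_val]
    exact h1 _ (by rw [natCast_mem_gP]; exact hw)
  · obtain ⟨z, hz, hz2⟩ := h2 hT (gP g w) (by rw [natCast_mem_gP]; exact hw)
    refine ⟨g z, (map_ne_zero _).2 hz, ?_⟩
    rw [hy, ← map_pow, ← map_mul, ← map_one g, ← map_sub, ← gal_val]
    exact hz2
  · rw [hy, hcm, h3, map_mul, map_pow]
  · rw [hy, hcm, ← map_mul, h4, map_pow]

variable (S : Su M n q)
  {k : Type} [Field k] [NumberField k] [Algebra k M] {m : ℤ} (Q : Qd k m)

/-- an automorphism that fixes the quadratic field -/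
noncomputable def liftk (g : M ≃ₐ[ℚ] M) (h : g (algebraMap k M Q.y) = algebraMap k M Q.y) :
    M ≃ₐ[k] M :=
  AlgEquiv.ofRingEquiv (f := (g : M ≃+* M)) (fun x => by
    obtain ⟨a, b, rfl⟩ := Q.gen x
    have hcast : ∀ (c : ℚ), g (c : M) = c := fun c => g.commutes c
    show g (algebraMap k M (a + b * Q.y)) = _
    rw [map_add, map_mul, map_ratCast, map_ratCast, map_add, map_mul, h, hcast, hcast])

lemma liftk_apply (g : M ≃ₐ[ℚ] M) (h : g (algebraMap k M Q.y) = algebraMap k M Q.y) (x : M) :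
    liftk Q g h x = g x := rfl

include S in
lemma Su.three_ndvd_ei (w : HeightOneSpectrum (𝓞 M)) (hw : (q : 𝓞 M) ∉ w.asIdeal) :
    ¬ 3 ∣ ei k w := by
  intro h
  have := S.gal
  have hfact : Fact (Nat.Prime 3) := ⟨Nat.prime_three⟩
  obtain ⟨g, hg⟩ := exists_prime_orderOf_dvd_card' (G := w.asIdeal.inertia (M ≃ₐ[k] M)) 3 h
  have hg' : ∀ x : 𝓞 M, (g : M ≃ₐ[k] M) • x - x ∈ w.asIdeal := g.2
  have h1 : InI w ((g : M ≃ₐ[k] M).restrictScalars ℚ) := hg'
  have h2 := S.ine w _ h1 hw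
  have h3 : (g : M ≃ₐ[k] M) * g = 1 := by
    apply AlgEquiv.ext
    intro x
    exact congrArg (fun f : M ≃ₐ[ℚ] M => f x) h2
  have h4 : g ^ 2 = 1 := by
    apply Subtype.ext
    rw [sq]
    exact h3
  have h5 := orderOf_dvd_of_pow_eq_one h4
  rw [hg] at h5
  norm_num at h5

theorem desc (σ ρ : M ≃ₐ[ℚ] M) (hσy : σ (algebraMap k M Q.y) = -algebraMap k M Q.y)
    (hρy : ρ (algebraMap k M Q.y) = algebraMap k M Q.y) (hρt : ρ S.R.t = -S.R.t)
    (hρρ : ρ * ρ = 1)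
    (hde : ∀ g : M ≃ₐ[ℚ] M, g (algebraMap k M Q.y) = algebraMap k M Q.y → g S.R.t = S.R.t →
      g S.de = S.de) {A : ℕ} {T : Prop} {β : M} (hβ0 : β ≠ 0) (hβ : ¬ ∃ c, β = c ^ 3)
    (hV : Units.mk0 β hβ0 ∈ VS σ ρ A T)
    (hinert : ∀ v : HeightOneSpectrum (𝓞 k), ((A * q : ℕ) : 𝓞 k) ∈ v.asIdeal → gP Q.σ v = v) :
    ∃ b : k, b ≠ 0 ∧ (¬ ∃ c, b = c ^ 3) ∧ (∃ r : ℚ, Algebra.norm ℚ b = r ^ 3) ∧
      (∀ v : HeightOneSpectrum (𝓞 k), Cub (v.valuation k b)) ∧
      (T → ∀ w : HeightOneSpectrum (𝓞 M), ((3 : ℕ) : 𝓞 M) ∈ w.asIdeal →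
        Pr (w.valuation M) (algebraMap k M b)) := by
  have hgal := S.gal
  have hgk : IsGalois k M := IsGalois.tower_top_of_isGalois ℚ k M
  have hfd : FiniteDimensional k M := FiniteDimensional.right ℚ k M
  have hw3 := S.R.hw3
  have hw0 : S.R.w ≠ 0 := by
    intro h0
    rw [h0] at hw3
    norm_num at hw3
  -- the unit
  obtain ⟨w, hw⟩ : ∃ w : Mˣ, w = Units.mk0 S.R.w hw0 := ⟨_, rfl⟩
  have hwv : (w : M) = S.R.w := by rw [hw]; rfl
  have hsm : ∀ (γ : M ≃ₐ[k] M) (x : Mˣ), ((γ • x : Mˣ) : M) = γ (x : M) := fun γ x => rfl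
  obtain ⟨b, b', η, hb', hbn, hbb⟩ := fp (k := k) (M := M)
    (fun g h => by
      apply AlgEquiv.ext
      intro x
      exact congrArg (fun f : M ≃ₐ[ℚ] M => f x)
        (S.comm (g.restrictScalars ℚ) (h.restrictScalars ℚ)))
    (w := w) (by
      intro h
      apply S.R.w_ne_one
      rw [← hwv, h, Units.val_one])
    (by
      apply Units.ext
      rw [Units.val_pow_eq_pow_val, hwv, hw3, Units.val_one])
    (by
      intro x hx
      obtain ⟨i, hi⟩ := S.roots (x := (x : M)) (by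
        rw [← Units.val_pow_eq_pow_val, hx, Units.val_one])
      refine ⟨i, ?_⟩
      apply Units.ext
      rw [Units.val_pow_eq_pow_val, hwv, hi])
    (liftk Q ρ hρy)
    (by
      apply Units.ext
      rw [hsm, liftk_apply, hwv, Units.val_pow_eq_pow_val, hwv]
      exact (S.gw ρ).2 hρt)
    (by
      apply AlgEquiv.ext
      intro x
      exact congrArg (fun f : M ≃ₐ[ℚ] M => f x) hρρ)
    (by
      intro γ
      rcases S.signT (γ.restrictScalars ℚ) with h | h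
      · left
        apply Units.ext
        rw [hsm, hwv]
        exact (S.gw (γ.restrictScalars ℚ)).1 h
      · right
        apply Units.ext
        rw [hsm, hwv, Units.val_pow_eq_pow_val, hwv]
        exact (S.gw (γ.restrictScalars ℚ)).2 h)
    (by
      intro γ hγ
      have h1 : (γ.restrictScalars ℚ) S.R.w = S.R.w := by
        have := congrArg Units.val hγ
        rw [hsm, hwv] at this
        exact this
      have h2 := S.gw' _ h1
      have h3 : (γ.restrictScalars ℚ) (algebraMap k M Q.y) = algebraMap k M Q.y := γ.commutes _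
      obtain ⟨j, hj⟩ := S.h3 _ h2 (hde _ h3 h2)
      refine ⟨j, ?_⟩
      apply AlgEquiv.ext
      intro x
      have h4 := congrArg (fun f : M ≃ₐ[ℚ] M => f x) hj
      have h5 : ∀ (i : ℕ) (x : M), ((γ.restrictScalars ℚ) ^ i) x = (γ ^ i) x := by
        intro i
        induction i with
        | zero => intro x; rfl
        | succ i ih =>
          intro x
          rw [pow_succ, pow_succ]
          exact ih _
      rw [← h5]
      exact h4)
    (VS σ ρ A T)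
    (fun g x hx => VS_stable S.comm (g.restrictScalars ℚ) hx rfl)
    (by
      rintro x ⟨-, -, ⟨c, hc, h3⟩, -⟩
      refine ⟨Units.mk0 c hc, ?_⟩
      apply Units.ext
      rw [Units.val_div_eq_div_val, hsm, liftk_apply, h3, mul_div_cancel_left₀ _ x.ne_zero,
        Units.val_pow_eq_pow_val, Units.val_mk0])
    hV
    (by
      rintro ⟨c, hc⟩
      apply hβ
      refine ⟨c, ?_⟩
      have := congrArg Units.val hc
      rw [Units.val_mk0, Units.val_pow_eq_pow_val] at this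
      exact this)
  have hinj := (algebraMap k M).injective
  have hb0 : b ≠ 0 := by
    rintro rfl
    rw [map_zero] at hbb
    exact (b' * η ^ 3).ne_zero hbb.symm
  rw [Units.val_mul, Units.val_pow_eq_pow_val] at hbb
  obtain ⟨h1, h2, ⟨c, hc, h3⟩, ⟨d, hd, h4⟩⟩ := hb'
  -- the norm
  have hnorm : ∃ r : ℚ, Algebra.norm ℚ b = r ^ 3 := by
    apply S.rat_cube (C := d * (η * σ η))
    have h5 : algebraMap k M (Q.σ b) = σ (algebraMap k M b) := by
      obtain ⟨u, v, rfl⟩ := Q.gen b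
      have hcast : ∀ (c : ℚ), σ (c : M) = c := fun c => σ.commutes c
      have hcast' : ∀ (c : ℚ), Q.σ (c : k) = c := fun c => Q.σ.commutes c
      simp only [map_add, map_mul, Q.hσ, hcast', map_ratCast, hcast, map_neg, hσy]
    have h6 : ((Algebra.norm ℚ b : ℚ) : M) = algebraMap k M (algebraMap ℚ k (Algebra.norm ℚ b)) := by
      rw [← IsScalarTower.algebraMap_apply ℚ k M]; rfl
    rw [h6, Q.hN, map_mul, h5, hbb, map_mul, map_pow]
    linear_combination (η : M) ^ 3 * (σ (η : M)) ^ 3 * h4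
  refine ⟨b, hb0, ?_, hnorm, ?_, ?_⟩
  · rintro ⟨e, he⟩
    apply hbn
    have he0 : e ≠ 0 := by
      rintro rfl
      apply hb0
      rw [he]; ring
    have he0' : algebraMap k M e ≠ 0 := (map_ne_zero _).2 he0
    refine ⟨Units.mk0 _ he0' / η, ?_⟩
    apply Units.ext
    rw [Units.val_pow_eq_pow_val, Units.val_div_eq_div_val, Units.val_mk0, div_pow,
      eq_div_iff (pow_ne_zero 3 η.ne_zero), ← hbb, he, map_pow]
  · intro v
    by_cases hv : ((A * q : ℕ) : 𝓞 k) ∈ v.asIdeal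
    · obtain ⟨r, hr⟩ := hnorm
      exact Q.cub (hinert v hv) hr
    · obtain ⟨w, rfl⟩ := dn_surj (K := M) v
      have hmem : ∀ N : ℕ, (N : 𝓞 M) ∈ w.asIdeal → (N : 𝓞 k) ∈ (dn k w).asIdeal := by
        intro N hN
        show algebraMap (𝓞 k) (𝓞 M) (N : 𝓞 k) ∈ w.asIdeal
        rw [map_natCast]
        exact hN
      have hwA : (A : 𝓞 M) ∉ w.asIdeal := fun h => hv (by
        rw [Nat.cast_mul]
        exact Ideal.mul_mem_right _ _ (hmem A h))
      have hwq : (q : 𝓞 M) ∉ w.asIdeal := fun h => hv (by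
        rw [Nat.cast_mul]
        exact Ideal.mul_mem_left _ _ (hmem q h))
      apply Cub.of_pow (S.three_ndvd_ei (k := k) w hwq)
      rw [← val_rel, hbb, map_mul, map_pow]
      exact (h1 w hwA).mul (cub_pow3 _)
  · intro hT w hw
    rw [hbb]
    exact (h2 hT w hw).mul (Pr.cube η.ne_zero)

end desc

end Pool.Agent.K4H1.BX
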