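import Pool.Agent.K4H1.BX.Tor

/-!
# The eigenvalues of the translations by all the points of order three
-/

set_option autoImplicit false
set_option linter.unusedSectionVars false

open WeierstrassCurve

namespace Pool.Agent.K4H1.BX

open scoped Classical

variable {L : Type} [Field L] [CharZero L] {W : WeierstrassCurve L}

variable (hW : IsE W) (R : Rt L)

include hW

lemma three_add {P Q : W.toAffine.Point} (h : 3 • P ≠ 0) (hQ : 3 • Q = 0) : 3 • (P + Q) ≠ 0 := by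
  rwa [smul_add, hQ, add_zero]

lemma tr_T0 {P : W.toAffine.Point} (h : 3 • P ≠ 0) :
    g1 W R.w (P + hW.T) = R.w * g1 W R.w P ∧
    h1 W R.w (P + hW.T) = R.w ^ 2 * h1 W R.w P ∧
    g2 W (P + hW.T) = g2 W P ∧ h2 W (P + hW.T) = h2 W P :=
  tr_T hW R h (hW.ns eqn_T)

lemma tr_T0' {P : W.toAffine.Point} (h : 3 • P ≠ 0) :
    g1 W R.w (P + hW.T' R) = g1 W R.w P ∧
    h1 W R.w (P + hW.T' R) = h1 W R.w P ∧
    g2 W (P + hW.T' R) = R.w ^ 2 * g2 W P ∧ h2 W (P + hW.T' R) = R.w * h2 W P :=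
  tr_T' hW R h (hW.ns (eqn_T' R.ht))

lemma eig_T {P : W.toAffine.Point} (h : 3 • P ≠ 0) (i : ℕ) :
    g1 W R.w (P + i • hW.T) = R.w ^ i * g1 W R.w P ∧
    h1 W R.w (P + i • hW.T) = (R.w ^ i) ^ 2 * h1 W R.w P ∧
    g2 W (P + i • hW.T) = g2 W P ∧
    h2 W (P + i • hW.T) = h2 W P := by
  induction i with
  | zero => simp
  | succ i ih =>
    have h3 : 3 • (P + i • hW.T) ≠ 0 := by
      apply three_add hW h
      rw [smul_comm, three_T hW, smul_zero]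
    have e : P + (i + 1) • hW.T = P + i • hW.T + hW.T := by
      rw [add_smul, one_smul, add_assoc]
    obtain ⟨a1, a2, a3, a4⟩ := tr_T0 hW R h3
    obtain ⟨b1, b2, b3, b4⟩ := ih
    rw [e]
    refine ⟨?_, ?_, ?_, ?_⟩
    · rw [a1, b1]; ring
    · rw [a2, b2]; ring
    · rw [a3, b3]
    · rw [a4, b4]

lemma eig_T' {P : W.toAffine.Point} (h : 3 • P ≠ 0) (j : ℕ) :
    g1 W R.w (P + j • hW.T' R) = g1 W R.w P ∧
    h1 W R.w (P + j • hW.T' R) = h1 W R.w P ∧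
    g2 W (P + j • hW.T' R) = (R.w ^ j) ^ 2 * g2 W P ∧
    h2 W (P + j • hW.T' R) = R.w ^ j * h2 W P := by
  induction j with
  | zero => simp
  | succ i ih =>
    have h3 : 3 • (P + i • hW.T' R) ≠ 0 := by
      apply three_add hW h
      rw [smul_comm, three_T' hW R, smul_zero]
    have e : P + (i + 1) • hW.T' R = P + i • hW.T' R + hW.T' R := by
      rw [add_smul, one_smul, add_assoc]
    obtain ⟨a1, a2, a3, a4⟩ := tr_T0' hW R h3
    obtain ⟨b1, b2, b3, b4⟩ := ih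
    rw [e]
    refine ⟨?_, ?_, ?_, ?_⟩
    · rw [a1, b1]
    · rw [a2, b2]
    · rw [a3, b3]; ring
    · rw [a4, b4]; ring

theorem eig {P : W.toAffine.Point} (h : 3 • P ≠ 0) (i j : ℕ) :
    g1 W R.w (P + (i • hW.T + j • hW.T' R)) = R.w ^ i * g1 W R.w P ∧
    h1 W R.w (P + (i • hW.T + j • hW.T' R)) = (R.w ^ i) ^ 2 * h1 W R.w P ∧
    g2 W (P + (i • hW.T + j • hW.T' R)) = (R.w ^ j) ^ 2 * g2 W P ∧
    h2 W (P + (i • hW.T + j • hW.T' R)) = R.w ^ j * h2 W P := by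
  have h3 : 3 • (P + i • hW.T) ≠ 0 := by
    apply three_add hW h
    rw [smul_comm, three_T hW, smul_zero]
  obtain ⟨a1, a2, a3, a4⟩ := eig_T hW R h i
  obtain ⟨b1, b2, b3, b4⟩ := eig_T' hW R h3 j
  rw [← add_assoc]
  exact ⟨by rw [b1, a1], by rw [b2, a2], by rw [b3, a3], by rw [b4, a4]⟩

/-- the relations -/
theorem rels {P : W.toAffine.Point} (h : 3 • P ≠ 0) :
    ((-g1 W R.w P) ^ 3 + (-h1 W R.w P) ^ 3 + 28 = 3 * ((-g1 W R.w P) * (-h1 W R.w P))) ∧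
    ((g2 W P) ^ 3 + (h2 W P) ^ 3 + 7 = 5 * (g2 W P * h2 W P)) := by
  obtain ⟨x, y, n, rfl⟩ := three_ne h
  have hg := (hW.gen_iff n).1 h
  have he : Eqn x y := (hW.eqn_iff x y).1 n.1
  exact ⟨rel1 R.hw2 hg.2.1 hg.2.2 hg.1 (hesse he), rel2 hg.2.1 hg.2.2 hg.1 (hesse he)⟩

end Pool.Agent.K4H1.BX
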