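import Pool.Agent.K4H1.BX.Kum

/-!
# The Galois group of the base acts on the Kummer generators by signs
-/

set_option autoImplicit false
set_option linter.unusedSectionVars false

namespace Pool.Agent.K4H1.BX

open WeierstrassCurve NumberField IsDedekindDomain
open Pool.Agent.TH841.NF (Sc tm tm_act act_tm tm_tm tm_id tm_inj tm_some coc_fin aut_of_two
  act_some' act_zero' pt_ext)
open Pool.Agent.TH841.SH.D (Pt act Gal Coch IsCoc IsCob LocTriv cob)

open scoped Classical

section equ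

variable {k M : Type} [Field k] [NumberField k] [Field M] [NumberField M] [Algebra k M]
  {W : WeierstrassCurve k} {u : M} (hS : Sc (algebraMap k M) u W (EX M)) (R : Rt M)
  (e : AlgebraicClosure M ≃+* AlgebraicClosure k)
  (he : ∀ x : k, e (algebraMap M _ (algebraMap k M x)) = algebraMap k _ x)

/-- the constant curve under a homomorphism and a sign -/
lemma sc_ex {L L' : Type} [Field L] [Algebra M L] [Field L'] [Algebra M L'] (φ : L →+* L') {s : L'}
    (hs : s = 1 ∨ s = -1) : Sc φ s ((EX M).baseChange L) ((EX M).baseChange L') := by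
  have h4 : ∀ (L : Type) [Field L] [Algebra M L], ((EX M).baseChange L).a₄ = 5805 :=
    fun L _ _ => (isE_base M L).h4
  have h6 : ∀ (L : Type) [Field L] [Algebra M L], ((EX M).baseChange L).a₆ = -285714 :=
    fun L _ _ => (isE_base M L).h6
  have h0 : ∀ (L : Type) [Field L] [Algebra M L], ((EX M).baseChange L).a₁ = 0 ∧
      ((EX M).baseChange L).a₂ = 0 ∧ ((EX M).baseChange L).a₃ = 0 :=
    fun L _ _ => ⟨(isE_base M L).h1, (isE_base M L).h2, (isE_base M L).h3⟩
  have hs4 : s ^ 4 = 1 := by rcases hs with rfl | rfl <;> norm_num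
  have hs6 : s ^ 6 = 1 := by rcases hs with rfl | rfl <;> norm_num
  refine ⟨?_, ?_, ?_, ?_, ?_, ?_⟩
  · rcases hs with rfl | rfl
    · exact one_ne_zero
    · exact neg_ne_zero.2 one_ne_zero
  · rw [(h0 L).1, (h0 L').1, map_zero, zero_mul]
  · rw [(h0 L).2.1, (h0 L').2.1, map_zero, zero_mul]
  · rw [(h0 L).2.2, (h0 L').2.2, map_zero, zero_mul]
  · rw [h4 L, h4 L', hs4, mul_one, map_ofNat]
  · rw [h6 L, h6 L', hs6, mul_one, map_neg, map_ofNat]

section sgn

variable {L : Type} [Field L] [CharZero L] [Algebra M L] (φ : L →+* L)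

lemma two_T : 2 • (pT L : Pt (EX M) L) = -pT L := by
  rw [eq_comm, neg_eq_iff_add_eq_zero, ← thrT, show (3 : ℕ) = 1 + 2 from rfl, add_smul 1 2,
    one_smul]

lemma two_T' : 2 • (pT' L R : Pt (EX M) L) = -pT' L R := by
  rw [eq_comm, neg_eq_iff_add_eq_zero, ← thrT' R, show (3 : ℕ) = 1 + 2 from rfl, add_smul 1 2,
    one_smul]

lemma tm_T {s : L} {a : ℕ} (hs : s = 1 ∨ s = -1) (ha : (a = 1 ∧ s = 1) ∨ (a = 2 ∧ s = -1)) :
    tm (sc_ex φ hs) (pT L) = a • (pT L : Pt (EX M) L) := by
  have hw := isE_base M L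
  rcases ha with ⟨rfl, rfl⟩ | ⟨rfl, rfl⟩
  · rw [one_smul]
    unfold pT IsE.T
    rw [tm_some]
    exact pt_ext _ _ (by rw [map_ofNat]; ring) (by rw [map_ofNat]; ring)
  · rw [two_T]
    unfold pT IsE.T
    rw [tm_some]
    refine Eq.trans ?_ (Affine.Point.neg_some _).symm
    refine pt_ext _ _ (by rw [map_ofNat]; ring) ?_
    rw [Affine.negY, hw.h1, hw.h3, map_ofNat]
    ring

lemma tm_T' {s : L} {a b : ℕ} (hs : s = 1 ∨ s = -1) (ha : (a = 1 ∧ s = 1) ∨ (a = 2 ∧ s = -1))
    (hb : (b = 1 ∧ φ (R.map L).t = (R.map L).t) ∨ (b = 2 ∧ φ (R.map L).t = -(R.map L).t)) :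
    tm (sc_ex φ hs) (pT' L R) = (a * b) • (pT' L R : Pt (EX M) L) := by
  have hw := isE_base M L
  have h4 : 4 • (pT' L R : Pt (EX M) L) = pT' L R := by
    rw [show (4 : ℕ) = 3 + 1 from rfl, add_smul 3 1, thrT', zero_add, one_smul]
  rcases ha with ⟨rfl, rfl⟩ | ⟨rfl, rfl⟩ <;> rcases hb with ⟨rfl, hb⟩ | ⟨rfl, hb⟩
  · rw [one_mul, one_smul]
    unfold pT' IsE.T'
    rw [tm_some]
    exact pt_ext _ _ (by rw [map_neg, map_ofNat]; ring) (by rw [map_mul, hb, map_ofNat]; ring)
  · rw [one_mul, two_T']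
    unfold pT' IsE.T'
    rw [tm_some]
    refine Eq.trans ?_ (Affine.Point.neg_some _).symm
    refine pt_ext _ _ (by rw [map_neg, map_ofNat]; ring) ?_
    rw [Affine.negY, hw.h1, hw.h3, map_mul, hb, map_ofNat]
    ring
  · rw [mul_one, two_T']
    unfold pT' IsE.T'
    rw [tm_some]
    refine Eq.trans ?_ (Affine.Point.neg_some _).symm
    refine pt_ext _ _ (by rw [map_neg, map_ofNat]; ring) ?_
    rw [Affine.negY, hw.h1, hw.h3, map_mul, hb, map_ofNat]
    ring
  · rw [show 2 * 2 = 4 from rfl, h4]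
    unfold pT' IsE.T'
    rw [tm_some]
    exact pt_ext _ _ (by rw [map_neg, map_ofNat]; ring) (by rw [map_mul, hb, map_ofNat]; ring)

end sgn

/-- the action of the absolute Galois group on the points of order three -/
lemma sm_G (G : Gal k) (g : M ≃ₐ[k] M)
    (hG : ∀ x : M, e.symm (G (e (algebraMap M _ x))) = algebraMap M _ (g x))
    {a b : ℕ} (ha : (a = 1 ∧ g u = u) ∨ (a = 2 ∧ g u = -u))
    (hb : (b = 1 ∧ g R.t = R.t) ∨ (b = 2 ∧ g R.t = -R.t)) {P : Pt W (AlgebraicClosure k)} {i j : ℕ}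
    (hP : sm hS e he P = i • pT (AlgebraicClosure M) + j • pT' (AlgebraicClosure M) R) :
    sm hS e he (act W G.toAlgHom P) =
      (a * i) • pT (AlgebraicClosure M) + (a * b * j) • pT' (AlgebraicClosure M) R := by
  have hC : CharZero (AlgebraicClosure M) :=
    charZero_of_injective_algebraMap (algebraMap M (AlgebraicClosure M)).injective
  obtain ⟨G', hG'⟩ : ∃ G' : AlgebraicClosure M →+* AlgebraicClosure M,
      ∀ x, G' x = e.symm (G (e x)) :=
    ⟨((e.symm : AlgebraicClosure k →+* AlgebraicClosure M).comp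
      ((G : AlgebraicClosure k ≃+* AlgebraicClosure k) :
        AlgebraicClosure k →+* AlgebraicClosure k)).comp
      (e : AlgebraicClosure M →+* AlgebraicClosure k), fun x => rfl⟩
  obtain ⟨s, hs, hus, has⟩ : ∃ s : AlgebraicClosure M, (s = 1 ∨ s = -1) ∧
      algebraMap M _ u = G' (algebraMap M _ u) * s ∧ ((a = 1 ∧ s = 1) ∨ (a = 2 ∧ s = -1)) := by
    rcases ha with ⟨rfl, h⟩ | ⟨rfl, h⟩
    · exact ⟨1, Or.inl rfl, by rw [hG', hG, h, mul_one], Or.inl ⟨rfl, rfl⟩⟩
    · exact ⟨-1, Or.inr rfl, by rw [hG', hG, h, map_neg]; ring, Or.inr ⟨rfl, rfl⟩⟩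
  have S : Sc ((e.symm : AlgebraicClosure k →+* AlgebraicClosure M).comp
      ((G : AlgebraicClosure k ≃+* AlgebraicClosure k) :
        AlgebraicClosure k →+* AlgebraicClosure k)) (algebraMap M _ u)
      (W.baseChange (AlgebraicClosure k)) ((EX M).baseChange (AlgebraicClosure M)) := by
    apply scu hS
    intro x
    change e.symm (G (algebraMap k _ x)) = _
    rw [AlgEquiv.commutes]
    exact he_symm e he x
  have h1 : sm hS e he (act W G.toAlgHom P) = tm S P :=
    act_tm G.toAlgHom _ S (fun x => rfl) P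
  have h2 : tm (sc_ex (M := M) G' hs) (sm hS e he P) = tm S P := by
    refine tm_tm _ (sc_ex (M := M) G' hs) S (fun x => ?_) hus P
    rw [hG']
    change e.symm (G (e (e.symm x))) = e.symm (G x)
    rw [e.apply_symm_apply]
  have hb' : (b = 1 ∧ G' (R.map (AlgebraicClosure M)).t = (R.map (AlgebraicClosure M)).t) ∨
      (b = 2 ∧ G' (R.map (AlgebraicClosure M)).t = -(R.map (AlgebraicClosure M)).t) := by
    rcases hb with ⟨rfl, h⟩ | ⟨rfl, h⟩
    · exact Or.inl ⟨rfl, by
        show G' (algebraMap M _ R.t) = algebraMap M _ R.t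
        rw [hG', hG, h]⟩
    · exact Or.inr ⟨rfl, by
        show G' (algebraMap M _ R.t) = -algebraMap M _ R.t
        rw [hG', hG, h, map_neg]⟩
  rw [h1, ← h2, hP, map_add, map_nsmul, map_nsmul, tm_T G' hs has, tm_T' R G' hs has hb',
    smul_smul, smul_smul, mul_comm i, mul_comm j]

include hS R in
/-- the elements of the smaller Galois group act trivially on the points of order three -/
lemma cK_triv {P : Pt W (AlgebraicClosure k)} (h3 : 3 • P = 0) (σ : Gal M) :
    act W (cK e he σ).toAlgHom P = P := by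
  have hC : CharZero (AlgebraicClosure M) :=
    charZero_of_injective_algebraMap (algebraMap M (AlgebraicClosure M)).injective
  apply sm_inj hS e he
  rw [rs_act]
  have h4 : 3 • sm hS e he P = 0 := by rw [← map_nsmul, h3, map_zero]
  obtain ⟨i, j, hij⟩ := tor3 R h4
  rw [hij, map_add, map_nsmul, map_nsmul, act_T, act_T']

include hS R in
/-- conjugation -/
lemma conj_coc {f : Coch W} (hf : IsCoc W f) (h3 : ∀ σ, 3 • f σ = 0) (G : Gal k) (σ σ' : Gal M)
    (h : cK e he σ' * G = G * cK e he σ) : f (cK e he σ') = act W G.toAlgHom (f (cK e he σ)) := by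
  have h1 : f (cK e he σ' * G) = f (cK e he σ') + f G := by
    rw [hf.2, cK_triv hS R e he (h3 G)]
  have h2 : f (G * cK e he σ) = f G + act W G.toAlgHom (f (cK e he σ)) := hf.2 _ _
  rw [h, h2, add_comm] at h1
  exact (add_right_cancel h1).symm

theorem equ {f : Coch W} (hf : IsCoc W f) (h3 : ∀ σ, 3 • f σ = 0) (K : Kum R (rs hS e he f))
    (g : M ≃ₐ[k] M) {a b : ℕ} (ha : (a = 1 ∧ g u = u) ∨ (a = 2 ∧ g u = -u))
    (hb : (b = 1 ∧ g R.t = R.t) ∨ (b = 2 ∧ g R.t = -R.t)) :
    (∃ m, m ≠ 0 ∧ g K.β₁ = m ^ 3 * K.β₁ ^ (a * b)) ∧ (∃ m, m ≠ 0 ∧ g K.β₂ = m ^ 3 * K.β₂ ^ a) := by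
  have hC : CharZero (AlgebraicClosure M) :=
    charZero_of_injective_algebraMap (algebraMap M (AlgebraicClosure M)).injective
  -- the inverse has the same signs
  have hsy : ∀ x : M, (g x = x → g.symm x = x) ∧ (g x = -x → g.symm x = -x) := by
    intro x
    constructor
    · intro h
      conv_lhs => rw [← h]
      exact g.symm_apply_apply x
    · intro h
      have : x = g.symm (-x) := by rw [← h, g.symm_apply_apply]
      rw [map_neg] at this
      rw [← neg_eq_iff_eq_neg] at this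
      exact this.symm
  have ha' : (a = 1 ∧ g.symm u = u) ∨ (a = 2 ∧ g.symm u = -u) :=
    ha.imp (fun h => ⟨h.1, (hsy u).1 h.2⟩) (fun h => ⟨h.1, (hsy u).2 h.2⟩)
  have hb' : (b = 1 ∧ g.symm R.t = R.t) ∨ (b = 2 ∧ g.symm R.t = -R.t) :=
    hb.imp (fun h => ⟨h.1, (hsy R.t).1 h.2⟩) (fun h => ⟨h.1, (hsy R.t).2 h.2⟩)
  -- the lift of the inverse
  obtain ⟨G', hG'⟩ : ∃ G' : AlgebraicClosure M ≃+* AlgebraicClosure M,
      ∀ x : M, G' (algebraMap M _ x) = algebraMap M _ (g.symm x) :=
    ⟨IsAlgClosure.equivOfEquiv (AlgebraicClosure M) (AlgebraicClosure M) (g.symm : M ≃+* M),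
      fun x => IsAlgClosure.equivOfEquiv_algebraMap _ _ _ _⟩
  let G : Gal k :=
    { toFun := fun x => e (G' (e.symm x))
      invFun := fun x => e (G'.symm (e.symm x))
      left_inv := fun x => by simp
      right_inv := fun x => by simp
      map_mul' := fun x y => by simp
      map_add' := fun x y => by simp
      commutes' := fun x => by
        show e (G' (e.symm (algebraMap k _ x))) = _
        rw [← he, e.symm_apply_apply, hG', g.symm.commutes] }
  have hG : ∀ x, G x = e (G' (e.symm x)) := fun x => rfl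
  have hGs : ∀ x, G.symm x = e (G'.symm (e.symm x)) := fun x => rfl
  have hG2 : ∀ x : M, e.symm (G (e (algebraMap M _ x))) = algebraMap M _ (g.symm x) := by
    intro x
    rw [hG, e.symm_apply_apply, e.symm_apply_apply, hG']
  -- the conjugate
  have hGs' : ∀ x : M, G'.symm (algebraMap M _ x) = algebraMap M _ (g x) := by
    intro x
    rw [RingEquiv.symm_apply_eq, hG', g.symm_apply_apply]
  have hcon : ∀ σ : Gal M, ∃ σ' : Gal M, cK e he σ' * G = G * cK e he σ ∧
      ∀ x, σ' (G' x) = G' (σ x) := by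
    intro σ
    refine ⟨{ toFun := fun x => G' (σ (G'.symm x))
              invFun := fun x => G' (σ.symm (G'.symm x))
              left_inv := fun x => by simp
              right_inv := fun x => by simp
              map_mul' := fun x y => by simp
              map_add' := fun x y => by simp
              commutes' := fun x => ?_ }, ?_, ?_⟩
    · show G' (σ (G'.symm (algebraMap M _ x))) = _
      rw [hGs', σ.commutes, hG', g.symm_apply_apply]
    · refine AlgEquiv.ext fun x => ?_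
      show e (G' (σ (G'.symm (e.symm (e (G' (e.symm x))))))) = e (G' (e.symm (e (σ (e.symm x)))))
      rw [e.symm_apply_apply, e.symm_apply_apply, G'.symm_apply_apply]
    · intro x
      show G' (σ (G'.symm (G' x))) = _
      rw [G'.symm_apply_apply]
  choose cs hcs hcs' using hcon
  have hcd : ∀ σ : Gal M, (K.c (cs σ)) % 3 = (a * K.c σ) % 3 ∧
      (K.d (cs σ)) % 3 = (a * b * K.d σ) % 3 := by
    intro σ
    apply rep_unique (L := AlgebraicClosure M) R
    rw [← K.hf, rs_apply, conj_coc hS R e he hf h3 G σ (cs σ) (hcs σ)]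
    exact sm_G hS R e he G g.symm hG2 ha' hb' (K.hf σ)
  obtain ⟨w, hw⟩ : ∃ w : AlgebraicClosure M, w = algebraMap M _ R.w := ⟨_, rfl⟩
  have hw3 : w ^ 3 = 1 := by rw [hw, ← map_pow, R.hw3, map_one]
  have hw0 : w ≠ 0 := by
    intro h0
    rw [h0] at hw3
    norm_num at hw3
  have hgw : g R.w = R.w ^ b := by
    have h2 := R.hw
    have h3 := R.hw2
    have h4 := congrArg g h2
    rw [map_add, map_mul, map_ofNat, map_one] at h4
    rcases hb with ⟨rfl, h⟩ | ⟨rfl, h⟩
    · rw [h] at h4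
      have : (2 : M) * g R.w = 2 * R.w := by linear_combination h4 - h2
      rw [pow_one]
      exact mul_left_cancel₀ two_ne_zero this
    · rw [h] at h4
      have : (2 : M) * g R.w = 2 * R.w ^ 2 := by linear_combination h4 + h2 - 2 * h3
      exact mul_left_cancel₀ two_ne_zero this
  have hGw : G'.symm w = w ^ b := by
    rw [hw, hGs', hgw, map_pow]
  have hσw : ∀ σ : Gal M, σ w = w := fun σ => by rw [hw]; exact σ.commutes _
  -- the transformation of the roots
  have t1 : ∀ σ : Gal M, σ (G'.symm K.b₁) = w ^ (b * (a * K.c σ)) * G'.symm K.b₁ := by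
    intro σ
    have h5 := hcs' σ (G'.symm K.b₁)
    rw [G'.apply_symm_apply, K.s₁, ← hw, pow_mod3 hw3 (hcd σ).1] at h5
    have h6 := congrArg G'.symm h5
    rw [G'.symm_apply_apply, map_mul, map_pow, hGw, ← pow_mul] at h6
    exact h6.symm
  have t2 : ∀ σ : Gal M, σ (G'.symm K.b₂) = w ^ (b * (a * b * K.d σ) * 2) * G'.symm K.b₂ := by
    intro σ
    have h5 := hcs' σ (G'.symm K.b₂)
    rw [G'.apply_symm_apply, K.s₂, ← hw, pow_mod3 hw3 (hcd σ).2] at h5
    have h6 := congrArg G'.symm h5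
    rw [G'.symm_apply_apply, map_mul, map_pow, map_pow, hGw, ← pow_mul, ← pow_mul, ← mul_assoc] at h6
    exact h6.symm
  have hinj := (algebraMap M (AlgebraicClosure M)).injective
  have q1 : algebraMap M _ (g K.β₁) = (G'.symm K.b₁) ^ 3 := by
    rw [← hGs', K.e₁, map_pow]
  have q2 : algebraMap M _ (g K.β₂) = (G'.symm K.b₂) ^ 3 := by
    rw [← hGs', K.e₂, map_pow]
  have hfx : ∀ x : AlgebraicClosure M, (∀ σ : Gal M, σ x = x) → ∃ m : M, algebraMap M _ m = x :=
    fun x hx => (InfiniteGalois.mem_bot_iff_fixed x).2 hx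
  constructor
  · obtain ⟨m, hm⟩ := hfx (G'.symm K.b₁ / K.b₁ ^ (a * b)) (fun σ => by
      rw [map_div₀, map_pow, t1, K.s₁, ← hw, mul_pow, ← pow_mul,
        show b * (a * K.c σ) = K.c σ * (a * b) by ring]
      exact mul_div_mul_left _ _ (pow_ne_zero _ hw0))
    have hb1 : G'.symm K.b₁ ≠ 0 := fun h => K.h₁ (by
      rw [← G'.apply_symm_apply K.b₁, h, map_zero])
    refine ⟨m, ?_, ?_⟩
    · rintro rfl
      rw [map_zero] at hm
      exact div_ne_zero hb1 (pow_ne_zero _ K.h₁) hm.symm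
    · apply hinj
      rw [q1, map_mul, map_pow, map_pow, hm, K.e₁, div_pow, ← pow_mul, ← pow_mul, mul_comm 3]
      rw [div_mul_cancel₀]
      exact pow_ne_zero _ K.h₁
  · obtain ⟨m, hm⟩ := hfx (G'.symm K.b₂ / K.b₂ ^ a) (fun σ => by
      rw [map_div₀, map_pow, t2, K.s₂, ← hw, mul_pow, ← pow_mul, ← pow_mul]
      have h7 : w ^ (b * (a * b * K.d σ) * 2) = w ^ (K.d σ * (2 * a)) := by
        apply pow_mod3 hw3
        rcases hb with ⟨rfl, _⟩ | ⟨rfl, _⟩
        · congr 1; ring
        · rw [show 2 * (a * 2 * K.d σ) * 2 = K.d σ * (2 * a) + 3 * (K.d σ * (2 * a)) by ring,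
            Nat.add_mul_mod_self_left]
      rw [h7]
      exact mul_div_mul_left _ _ (pow_ne_zero _ hw0))
    have hb1 : G'.symm K.b₂ ≠ 0 := fun h => K.h₂ (by
      rw [← G'.apply_symm_apply K.b₂, h, map_zero])
    refine ⟨m, ?_, ?_⟩
    · rintro rfl
      rw [map_zero] at hm
      exact div_ne_zero hb1 (pow_ne_zero _ K.h₂) hm.symm
    · apply hinj
      rw [q2, map_mul, map_pow, map_pow, hm, K.e₂, div_pow, ← pow_mul, ← pow_mul, mul_comm 3]
      rw [div_mul_cancel₀]
      exact pow_ne_zero _ K.h₂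

end equ

end Pool.Agent.K4H1.BX
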