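import Mathlib

/-!
# Fixed classes modulo cubes under a group of three-power order, and descent
-/

set_option autoImplicit false

namespace Pool.Agent.K4H1.BX

section grp

variable {U : Type} [CommGroup U]

/-- the cubes -/
def Cb (x : U) : Prop := ∃ c, x = c ^ 3

lemma cb_one : Cb (1 : U) := ⟨1, (one_pow 3).symm⟩

lemma Cb.mul {x y : U} (hx : Cb x) (hy : Cb y) : Cb (x * y) := by
  obtain ⟨a, rfl⟩ := hx
  obtain ⟨b, rfl⟩ := hy
  exact ⟨a * b, by rw [mul_pow]⟩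

lemma Cb.inv {x : U} (hx : Cb x) : Cb x⁻¹ := by
  obtain ⟨a, rfl⟩ := hx
  exact ⟨a⁻¹, by rw [inv_pow]⟩

lemma Cb.div {x y : U} (hx : Cb x) (hy : Cb y) : Cb (x / y) := by
  rw [div_eq_mul_inv]
  exact hx.mul hy.inv

lemma cb_pow (x : U) : Cb (x ^ 3) := ⟨x, rfl⟩

/-- an element is a cube if its square is -/
lemma cb_of_sq {x : U} (h : Cb (x ^ 2)) : Cb x := by
  have h1 := (cb_pow x).div h
  rwa [show x ^ 3 / x ^ 2 = x by rw [pow_succ x 2, mul_comm, mul_div_cancel_right]] at h1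

lemma Cb.of_mul {x y : U} (h : Cb (x * y)) (hy : Cb y) : Cb x := by
  have h1 := h.div hy
  rwa [mul_div_cancel_right] at h1

variable {G : Type} [Group G] [MulDistribMulAction G U]

lemma Cb.smul {x : U} (hx : Cb x) (g : G) : Cb (g • x) := by
  obtain ⟨a, rfl⟩ := hx
  exact ⟨g • a, smul_pow' g a 3⟩

lemma smul_div'' (g : G) (x y : U) : g • (x / y) = g • x / g • y := by
  rw [div_eq_mul_inv, smul_mul', smul_inv', ← div_eq_mul_inv]

/-- a class that is fixed by one element -/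
lemma fix1 (V : Subgroup U) (k : ℕ) : ∀ (γ : G), γ ^ (3 ^ k) = 1 → (∀ x ∈ V, γ • x ∈ V) →
    ∀ β ∈ V, ¬ Cb β → ∃ β' ∈ V, ¬ Cb β' ∧ Cb (γ • β' / β') := by
  induction k with
  | zero =>
    intro γ hγ _ β hβ hn
    rw [pow_zero, pow_one] at hγ
    refine ⟨β, hβ, hn, ?_⟩
    rw [hγ, one_smul, div_self']
    exact cb_one
  | succ k ih =>
    intro γ hγ hV β hβ hn
    have hγ' : (γ ^ 3) ^ (3 ^ k) = 1 := by
      rw [← pow_mul, ← pow_succ']
      exact hγ
    obtain ⟨x, hx, hxn, hx3⟩ := ih (γ ^ 3) hγ' (fun y hy => by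
      rw [show (3 : ℕ) = 1 + 1 + 1 from rfl, pow_add, pow_add, pow_one, mul_smul, mul_smul]
      exact hV _ (hV _ (hV _ hy))) β hβ hn
    -- the three differences
    obtain ⟨x1, hx1⟩ : ∃ x1, x1 = γ • x / x := ⟨_, rfl⟩
    obtain ⟨x2, hx2⟩ : ∃ x2, x2 = γ • x1 / x1 := ⟨_, rfl⟩
    have m1 : x1 ∈ V := by rw [hx1]; exact V.div_mem (hV _ hx) hx
    have m2 : x2 ∈ V := by rw [hx2]; exact V.div_mem (hV _ m1) m1
    by_cases c1 : Cb x1
    · exact ⟨x, hx, hxn, by rw [← hx1]; exact c1⟩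
    by_cases c2 : Cb x2
    · exact ⟨x1, m1, c1, by rw [← hx2]; exact c2⟩
    refine ⟨x2, m2, c2, ?_⟩
    have e : γ • x2 / x2 = (γ ^ 3 • x / x) * (γ • x / (γ • γ • x)) ^ 3 := by
      have e3 : γ ^ 3 • x = γ • γ • γ • x := by
        rw [show (3 : ℕ) = 1 + 1 + 1 from rfl, pow_add, pow_add, pow_one, mul_smul, mul_smul]
      have e1 : γ • x1 = γ • γ • x / γ • x := by rw [hx1, smul_div'']
      have e2 : γ • x2 = (γ • γ • γ • x / γ • γ • x) / (γ • γ • x / γ • x) := by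
        rw [hx2, smul_div'', e1, smul_div'']
      rw [e2, hx2, e1, hx1, e3]
      generalize γ • γ • γ • x = a
      generalize γ • γ • x = b
      generalize γ • x = c
      rw [pow_succ, pow_two]
      simp only [div_eq_mul_inv, mul_inv, inv_inv]
      generalize b⁻¹ = b'
      generalize x⁻¹ = x'
      ac_rfl
    rw [e]
    exact hx3.mul (cb_pow _)

/-- a class that is fixed by a finite set of elements -/
lemma fixS (hcomm : ∀ g h : G, g * h = h * g) (S : Finset G) (hS : ∀ γ ∈ S, ∃ k, γ ^ (3 ^ k) = 1) :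
    ∀ (V : Subgroup U), (∀ (g : G), ∀ x ∈ V, g • x ∈ V) → ∀ β ∈ V, ¬ Cb β →
      ∃ β' ∈ V, ¬ Cb β' ∧ ∀ γ ∈ S, Cb (γ • β' / β') := by
  classical
  induction S using Finset.induction_on with
  | empty => exact fun V _ β hβ hn => ⟨β, hβ, hn, fun γ h => absurd h (Finset.notMem_empty _)⟩
  | insert γ S hγ ih =>
    intro V hV β hβ hn
    obtain ⟨k, hk⟩ := hS γ (Finset.mem_insert_self _ _)
    obtain ⟨x, hx, hxn, hxc⟩ := fix1 V k γ hk (hV γ) β hβ hn
    let V' : Subgroup U :=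
      { carrier := {y | y ∈ V ∧ Cb (γ • y / y)}
        one_mem' := ⟨V.one_mem, by rw [smul_one, div_self']; exact cb_one⟩
        mul_mem' := by
          rintro a b ⟨ha, ha'⟩ ⟨hb, hb'⟩
          refine ⟨V.mul_mem ha hb, ?_⟩
          rw [smul_mul', mul_div_mul_comm]
          exact ha'.mul hb'
        inv_mem' := by
          rintro a ⟨ha, ha'⟩
          refine ⟨V.inv_mem ha, ?_⟩
          rw [smul_inv', ← inv_div_inv, inv_inv, inv_inv, ← inv_div]
          exact ha'.inv }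
    obtain ⟨z, hz, hzn, hzc⟩ := ih (fun g hg => hS g (Finset.mem_insert_of_mem hg)) V'
      (fun g y hy => ⟨hV g y hy.1, by
        rw [← mul_smul, hcomm, mul_smul, ← smul_div'']
        exact hy.2.smul g⟩) x ⟨hx, hxc⟩ hxn
    refine ⟨z, hz.1, hzn, fun g hg => ?_⟩
    rcases Finset.mem_insert.1 hg with rfl | hg
    · exact hz.2
    · exact hzc g hg

end grp

section fld

variable {k M : Type} [Field k] [Field M] [Algebra k M] [FiniteDimensional k M] [IsGalois k M]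

/-- **descent**: in a subgroup that is stable under the Galois group there is a representative of a
class in the base field, if one class is not trivial -/
theorem fp (hcomm : ∀ g h : M ≃ₐ[k] M, g * h = h * g) {w : Mˣ} (hw1 : w ≠ 1) (hw3 : w ^ 3 = 1)
    (hroot : ∀ x : Mˣ, x ^ 3 = 1 → ∃ i : ℕ, x = w ^ i)
    (ρ : M ≃ₐ[k] M) (hρw : ρ • w = w ^ 2) (hρ : ρ * ρ = 1)
    (hfix : ∀ γ : M ≃ₐ[k] M, γ • w = w ∨ γ • w = w ^ 2)
    (h3 : ∀ γ : M ≃ₐ[k] M, γ • w = w → ∃ j, γ ^ (3 ^ j) = 1) (V : Subgroup Mˣ)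
    (hV : ∀ g : M ≃ₐ[k] M, ∀ x ∈ V, g • x ∈ V) (hρV : ∀ x ∈ V, Cb (ρ • x / x))
    {β : Mˣ} (hβ : β ∈ V) (hn : ¬ Cb β) :
    ∃ (b : k) (b' η : Mˣ), b' ∈ V ∧ ¬ Cb b' ∧ algebraMap k M b = ((b' * η ^ 3 : Mˣ) : M) := by
  classical
  have hfin : Finite (M ≃ₐ[k] M) := inferInstance
  have := Fintype.ofFinite (M ≃ₐ[k] M)
  obtain ⟨x, hx, hxn, hxS⟩ := fixS hcomm (Finset.univ.filter fun γ : M ≃ₐ[k] M => γ • w = w)
    (fun γ hγ => h3 γ (Finset.mem_filter.1 hγ).2) V hV β hβ hn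
  have hx1 : ∀ γ : M ≃ₐ[k] M, γ • w = w → Cb (γ • x / x) := fun γ hγ =>
    hxS γ (Finset.mem_filter.2 ⟨Finset.mem_univ _, hγ⟩)
  have hw2 : w ^ 2 ≠ w := by
    intro h
    apply hw1
    rw [pow_two] at h
    exact mul_eq_right.1 h
  -- the class is fixed by everything
  have hx2 : ∀ γ : M ≃ₐ[k] M, Cb (γ • x / x) := by
    intro γ
    rcases hfix γ with h | h
    · exact hx1 γ h
    · have h4 : (γ * ρ) • w = w := by
        rw [mul_smul, hρw, smul_pow', h, ← pow_mul]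
        have : w ^ (2 * 2) = w ^ 3 * w := by rw [← pow_succ]
        rw [this, hw3, one_mul]
      have h5 := hx1 _ h4
      have h6 : γ • x / x = ((γ * ρ) • x / x) * (γ • (ρ • x / x))⁻¹ := by
        rw [mul_smul, smul_div'']
        simp only [div_eq_mul_inv, mul_inv, inv_inv]
        rw [mul_comm (γ • ρ • x), mul_assoc, mul_inv_cancel_left, mul_comm]
      rw [h6]
      exact h5.mul ((hρV x hx).smul γ).inv
  -- invariance under `ρ`
  obtain ⟨y, hy⟩ : ∃ y, y = x * ρ • x := ⟨_, rfl⟩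
  have hyV : y ∈ V := by rw [hy]; exact V.mul_mem hx (hV ρ x hx)
  have hyρ : ρ • y = y := by
    rw [hy, smul_mul', ← mul_smul, hρ, one_smul, mul_comm]
  have hyn : ¬ Cb y := by
    intro h
    apply hxn
    apply cb_of_sq
    have e : x ^ 2 = y * (ρ • x / x)⁻¹ := by
      rw [hy, inv_div, pow_two]
      simp only [div_eq_mul_inv]
      rw [mul_assoc, mul_comm x (ρ • x)⁻¹, mul_inv_cancel_left]
    rw [e]
    exact h.mul (hx2 ρ).inv
  have hyc : ∀ γ : M ≃ₐ[k] M, Cb (γ • y / y) := by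
    intro γ
    rw [hy, smul_mul', mul_div_mul_comm]
    refine (hx2 γ).mul ?_
    rw [← mul_smul, hcomm, mul_smul, ← smul_div'']
    exact (hx2 γ).smul ρ
  -- the cube roots that are fixed by `ρ`
  have hex : ∀ γ : M ≃ₐ[k] M, ∃ c : Mˣ, γ • y / y = c ^ 3 ∧ ρ • c = c := by
    intro γ
    obtain ⟨c, hc⟩ := hyc γ
    have h1 : (ρ • c / c) ^ 3 = 1 := by
      rw [div_pow, ← smul_pow', ← hc, smul_div'', ← mul_smul, hcomm, mul_smul, hyρ, div_self']
    obtain ⟨i, hi⟩ := hroot _ h1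
    refine ⟨w ^ (2 * i) * c, ?_, ?_⟩
    · rw [mul_pow, ← pow_mul, mul_comm (2 * i) 3, pow_mul, hw3, one_pow, one_mul, hc]
    · have h2 : ρ • c = w ^ i * c := by
        rw [← hi, div_mul_cancel]
      rw [smul_mul', smul_pow', hρw, h2, ← mul_assoc]
      congr 1
      have : (w ^ 2) ^ (2 * i) * w ^ i = (w ^ 3) ^ i * w ^ (2 * i) := by
        rw [← pow_mul, ← pow_mul, ← pow_add, ← pow_add]
        congr 1
        ring
      rw [this, hw3, one_pow, one_mul]
  have huniq : ∀ c c' : Mˣ, c ^ 3 = c' ^ 3 → ρ • c = c → ρ • c' = c' → c = c' := by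
    intro c c' h hc hc'
    have h1 : (c / c') ^ 3 = 1 := by rw [div_pow, h, div_self']
    obtain ⟨i, hi⟩ := hroot _ h1
    have h2 : ρ • (c / c') = c / c' := by rw [smul_div'', hc, hc']
    rw [hi, smul_pow', hρw] at h2
    have h3' : w ^ i = 1 := by
      rw [← pow_mul, mul_comm 2 i, pow_mul, pow_two] at h2
      exact mul_eq_right.1 h2
    rw [h3'] at hi
    exact div_eq_one.1 hi
  choose c hc hcρ using hex
  have hcoc : groupCohomology.IsMulCocycle₁ c := by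
    intro g h
    apply huniq
    · rw [mul_pow, ← smul_pow', ← hc, ← hc, ← hc, smul_div'', ← mul_smul]
      rw [div_mul_div_cancel]
    · exact hcρ _
    · rw [smul_mul', hcρ, ← mul_smul, hcomm, mul_smul, hcρ]
  obtain ⟨η, hη⟩ := groupCohomology.isMulCoboundary₁_of_isMulCocycle₁_of_aut_to_units c hcoc
  obtain ⟨z, hz⟩ : ∃ z : Mˣ, z = y * (η⁻¹) ^ 3 := ⟨_, rfl⟩
  have hzf : ∀ g : M ≃ₐ[k] M, g • z = z := by
    intro g
    have h1 := hη g
    have h2 := hc g
    rw [← h1, div_pow] at h2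
    have h4 : g • y = y * ((g • η) ^ 3 / η ^ 3) := by rw [← h2, mul_div_cancel]
    rw [hz, smul_mul', smul_pow', smul_inv', h4]
    rw [inv_pow, inv_pow, mul_assoc, div_mul_eq_mul_div, mul_inv_cancel, one_div]
  obtain ⟨b, hb⟩ := (IsGalois.mem_bot_iff_fixed (F := k) (z : M)).2 (fun g => by
    have := congrArg Units.val (hzf g)
    exact this)
  exact ⟨b, y, η⁻¹, hyV, hyn, by rw [← hz]; exact hb⟩

end fld

end Pool.Agent.K4H1.BX
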