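import Pool.Agent.K4H1.BX.Glo
import Pool.Agent.TH954.STor
import Pool.Agent.TH841.NF.ShaN

/-!
# The three-torsion of the Tate-Shafarevich group is trivial
-/

set_option autoImplicit false
set_option linter.unusedSectionVars false

open NumberField IsDedekindDomain WithZero Module WeierstrassCurve

open scoped WithZero Classical

namespace Pool.Agent.K4H1.BX

open Pool.Agent.TH841.NF (Sc tm tm_act act_tm tm_tm tm_id tm_inj tm_some coc_fin aut_of_two
  act_some' act_zero' pt_ext pt_inj)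
open Pool.Agent.TH841.SH.D (Pt act Gal Coch IsCoc IsCob LocTriv cob)
open Pool.Agent.TH841.NF.D (Sha IsShaCoc shaCoc)
open Pool.Agent.TH942 (sw)

/-- the big field over the base field -/
structure Sf (F M : Type) [Field F] [NumberField F] [Field M] [NumberField M] [Algebra F M]
    (n q : ℕ) extends Su M n q where
  fa : ∀ x : F, a (algebraMap F M x) = algebraMap F M x
  fb : ∀ x : F, b (algebraMap F M x) = algebraMap F M x
  adj : IntermediateField.adjoin F {R.t, de} = ⊤

section gen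

variable {F : Type} [Field F] [NumberField F] (W : WeierstrassCurve F)

/-- the points that are fixed by the Galois group -/
lemma exists_pt {P : Pt W (AlgebraicClosure F)} (h : ∀ σ : Gal F, act W σ.toAlgHom P = P) :
    ∃ P₀ : Pt W F, act W (Algebra.ofId F (AlgebraicClosure F)) P₀ = P := by
  rcases P with _ | ⟨x, y, hxy⟩
  · exact ⟨0, map_zero _⟩
  · have hx : ∀ σ : Gal F, σ x = x ∧ σ y = y := by
      intro σ
      have h1 := h σ
      rw [act_some'] at h1
      exact pt_inj _ _ h1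
    obtain ⟨x₀, rfl⟩ := (InfiniteGalois.mem_bot_iff_fixed x).2 fun σ => (hx σ).1
    obtain ⟨y₀, rfl⟩ := (InfiniteGalois.mem_bot_iff_fixed y).2 fun σ => (hx σ).2
    have hns := (Affine.baseChange_nonsingular W (f := Algebra.ofId F (AlgebraicClosure F))
      (Algebra.ofId F (AlgebraicClosure F)).injective x₀ y₀).1 hxy
    exact ⟨(Affine.Point.some x₀ y₀ hns : (W.baseChange F).toAffine.Point), rfl⟩

lemma act_inj {L L' : Type} [Field L] [Field L'] [Algebra F L] [Algebra F L'] (φ : L →ₐ[F] L') :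
    Function.Injective (act W φ) :=
  @Affine.Point.map_injective F F L L' _ _ _ _ W (Classical.decEq L) (Classical.decEq L') _ _ _ _ _ _ _ φ

end gen

section fin

variable {F M : Type} [Field F] [NumberField F] [Field M] [NumberField M] [Algebra F M] {n q : ℕ}

lemma exists_e (F M : Type) [Field F] [NumberField F] [Field M] [NumberField M] [Algebra F M] :
    ∃ e : AlgebraicClosure M ≃+* AlgebraicClosure F,
      ∀ x : F, e (algebraMap M _ (algebraMap F M x)) = algebraMap F _ x := by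
  have h1 : Algebra.IsAlgebraic F M := inferInstance
  have h2 : Algebra.IsAlgebraic F (AlgebraicClosure M) :=
    Algebra.IsAlgebraic.trans F M (AlgebraicClosure M)
  have h3 : IsAlgClosure F (AlgebraicClosure M) := ⟨inferInstance, h2⟩
  refine ⟨(IsAlgClosure.equiv F (AlgebraicClosure M) (AlgebraicClosure F)).toRingEquiv, fun x => ?_⟩
  rw [← IsScalarTower.algebraMap_apply F M (AlgebraicClosure M)]
  exact (IsAlgClosure.equiv F (AlgebraicClosure M) (AlgebraicClosure F)).commutes x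

variable (e : AlgebraicClosure M ≃+* AlgebraicClosure F)
  (he : ∀ x : F, e (algebraMap M _ (algebraMap F M x)) = algebraMap F _ x)

include he in
lemma exists_lift (g : M ≃ₐ[F] M) :
    ∃ G : Gal F, ∀ x : M, G (e (algebraMap M _ x)) = e (algebraMap M _ (g x)) := by
  obtain ⟨G', hG'⟩ : ∃ G' : AlgebraicClosure M ≃+* AlgebraicClosure M,
      ∀ x : M, G' (algebraMap M _ x) = algebraMap M _ (g x) :=
    ⟨IsAlgClosure.equivOfEquiv (AlgebraicClosure M) (AlgebraicClosure M) (g : M ≃+* M),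
      fun x => IsAlgClosure.equivOfEquiv_algebraMap _ _ _ _⟩
  refine ⟨{ toFun := fun x => e (G' (e.symm x))
            invFun := fun x => e (G'.symm (e.symm x))
            left_inv := fun x => by simp
            right_inv := fun x => by simp
            map_mul' := fun x y => by simp
            map_add' := fun x y => by simp
            commutes' := fun x => ?_ }, fun x => ?_⟩
  · show e (G' (e.symm (algebraMap F _ x))) = _
    rw [← he, e.symm_apply_apply, hG', g.commutes]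
  · show e (G' (e.symm (e (algebraMap M _ x)))) = _
    rw [e.symm_apply_apply, hG']

variable (S : Sf F M n q)

/-- the automorphisms over the base field -/
noncomputable def Sf.ga : M ≃ₐ[F] M := AlgEquiv.ofRingEquiv (f := (S.a : M ≃+* M)) S.fa

/-- the automorphisms over the base field -/
noncomputable def Sf.gb : M ≃ₐ[F] M := AlgEquiv.ofRingEquiv (f := (S.b : M ≃+* M)) S.fb

lemma Sf.ga_apply (x : M) : S.ga x = S.a x := rfl

lemma Sf.gb_apply (x : M) : S.gb x = S.b x := rfl

/-- the curve over the base field -/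
def EF (F : Type) [Field F] (n : ℕ) : WeierstrassCurve F := sw (5805 * (n : F) ^ 2) (285714 * (n : F) ^ 3)

lemma Sf.de_ne (hn : n ≠ 0) : S.de ≠ 0 := by
  intro h
  have := S.hde
  rw [h, zero_pow two_ne_zero] at this
  have h2 : (n : M) = 0 := by linear_combination this
  exact hn (by exact_mod_cast h2)

lemma Sf.sc (hn : n ≠ 0) : Sc (algebraMap F M) S.de⁻¹ (EF F n) (EX M) := by
  have hd := S.de_ne hn
  have h4 : (S.de) ^ 4 = (n : M) ^ 2 := by
    rw [show (4 : ℕ) = 2 * 2 from rfl, pow_mul, S.hde]; ring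
  have h6 : (S.de) ^ 6 = -(n : M) ^ 3 := by
    rw [show (6 : ℕ) = 2 * 3 from rfl, pow_mul, S.hde]; ring
  have hn0 : (n : M) ≠ 0 := Nat.cast_ne_zero.2 hn
  refine ⟨inv_ne_zero hd, ?_, ?_, ?_, ?_, ?_⟩
  · show (0 : M) = algebraMap F M 0 * _
    rw [map_zero, zero_mul]
  · show (0 : M) = algebraMap F M 0 * _
    rw [map_zero, zero_mul]
  · show (0 : M) = algebraMap F M 0 * _
    rw [map_zero, zero_mul]
  · show (5805 : M) = algebraMap F M (5805 * (n : F) ^ 2) * _
    rw [inv_pow, h4, map_mul, map_pow, map_natCast, map_ofNat]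
    field_simp
  · show (-285714 : M) = algebraMap F M (285714 * (n : F) ^ 3) * _
    rw [inv_pow, h6, map_mul, map_pow, map_natCast, map_ofNat]
    field_simp

/-- the hypotheses -/
structure Hy (n q : ℕ) (L M : Type) [Field L] [NumberField L] [Field M] [Algebra L M] (de : M) :
    Prop where
  sch : SCH
  hn : Squarefree n
  h7 : n % 8 = 7
  h3 : ¬ 3 ∣ n
  h77 : jacobiSym (-n) 7 = -1
  hq0 : q ≠ 0
  hq : ∀ l : ℕ, l.Prime → l ∣ q → l % 3 = 1 ∧ jacobiSym (-n) l = -1
  hL : finrank ℚ L = 2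
  hx : ∃ x : L, x ^ 2 = -(n : L) ∧ algebraMap L M x = de
  hcl : ¬ 3 ∣ Fintype.card (ClassGroup (𝓞 L))

variable {L : Type} [Field L] [NumberField L] [Algebra L M] (H : Hy n q L M S.de)

include H he in
/-- **the restriction to the big field vanishes** -/
theorem van (hS : Sc (algebraMap F M) S.de⁻¹ (EF F n) (EX M)) {f : Coch (EF F n)}
    (hf : IsShaCoc (EF F n) f) (h3 : ∀ σ, 3 • f σ = 0) (σ : Gal M) : f (cK e he σ) = 0 := by
  have hC : CharZero (AlgebraicClosure M) :=
    charZero_of_injective_algebraMap (algebraMap M (AlgebraicClosure M)).injective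
  have hn0 : n ≠ 0 := by rintro rfl; have := H.h7; norm_num at this
  have hrs := rs_sha hS e he hf
  obtain ⟨K⟩ := exists_kum S.R hrs.1 (fun σ => by
    show 3 • sm hS e he (f (cK e he σ)) = 0
    rw [← map_nsmul, h3, map_zero])
  have hinj := (algebraMap M (AlgebraicClosure M)).injective
  have hβ1 : K.β₁ ≠ 0 := by
    intro h
    have := K.e₁
    rw [h, map_zero] at this
    exact K.h₁ (pow_eq_zero_iff (by norm_num) |>.1 this.symm)
  have hβ2 : K.β₂ ≠ 0 := by
    intro h
    have := K.e₂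
    rw [h, map_zero] at this
    exact K.h₂ (pow_eq_zero_iff (by norm_num) |>.1 this.symm)
  have hbu : S.gb S.de⁻¹ = -S.de⁻¹ := by
    rw [S.gb_apply, map_inv₀, S.bd, inv_neg]
  have hau : S.ga S.de⁻¹ = S.de⁻¹ := by
    rw [S.ga_apply, map_inv₀, S.ad]
  have eb := equ hS S.R e he hf.1 h3 K S.gb (a := 2) (b := 1) (Or.inr ⟨rfl, hbu⟩)
    (Or.inl ⟨rfl, S.bt⟩)
  have ea := equ hS S.R e he hf.1 h3 K S.ga (a := 1) (b := 2) (Or.inl ⟨rfl, hau⟩)
    (Or.inr ⟨rfl, S.at'⟩)
  have eab := equ hS S.R e he hf.1 h3 K (S.ga * S.gb) (a := 2) (b := 2)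
    (Or.inr ⟨rfl, by
      show S.ga (S.gb S.de⁻¹) = _
      rw [hbu, map_neg, hau]⟩)
    (Or.inr ⟨rfl, by
      show S.a (S.b S.R.t) = _
      rw [S.bt, S.at']⟩)
  have hl := fun w : HeightOneSpectrum (𝓞 M) => K.loc (hrs.2.1 w)
  have hc1 : ∃ c, K.β₁ = c ^ 3 := by
    obtain ⟨x, hx, hxM⟩ := H.hx
    refine glo1 S.toSu H.sch H.hn H.h7 H.h3 H.h77 H.hq0 H.hq L H.hL x hx H.hcl hβ1 ?_
    rw [mem_VS]
    refine ⟨fun w hw => ?_, fun _ w hw => ?_, ?_, ?_⟩
    · rw [Units.val_mk0]
      refine cub_of_LC (A := 28) (B := 3) hw ?_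
      have := (hl w).1
      rw [Nat.cast_ofNat, Nat.cast_ofNat]
      exact this
    · rw [Units.val_mk0]
      exact pr_of_LC (S.ram3 w (by exact_mod_cast hw)) (hl w).1
    · obtain ⟨m, hm, hm2⟩ := eab.1
      refine ⟨m * K.β₁, mul_ne_zero hm hβ1, ?_⟩
      rw [Units.val_mk0]
      refine Eq.trans hm2 ?_
      ring
    · obtain ⟨m, hm, hm2⟩ := eb.1
      refine ⟨m * K.β₁, mul_ne_zero hm hβ1, ?_⟩
      rw [Units.val_mk0]
      have h5 : S.b K.β₁ = m ^ 3 * K.β₁ ^ (2 * 1) := hm2
      rw [h5]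
      ring
  have hc2 : ∃ c, K.β₂ = c ^ 3 := by
    obtain ⟨x, hx, hxM⟩ := H.hx
    refine glo2 S.toSu H.h7 H.h77 H.hq0 H.hq L H.hL x hx hxM H.hcl hβ2 ?_
    rw [mem_VS]
    refine ⟨fun w hw => ?_, fun h => h.elim, ?_, ?_⟩
    · rw [Units.val_mk0]
      refine cub_of_LC (A := 7) (B := 5) hw ?_
      have := (hl w).2
      rw [Nat.cast_ofNat, Nat.cast_ofNat]
      exact this
    · obtain ⟨m, hm, hm2⟩ := ea.2
      refine ⟨m, hm, ?_⟩
      rw [Units.val_mk0]
      refine Eq.trans hm2 ?_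
      ring
    · obtain ⟨m, hm, hm2⟩ := eb.2
      refine ⟨m * K.β₂, mul_ne_zero hm hβ2, ?_⟩
      rw [Units.val_mk0]
      have h5 : S.b K.β₂ = m ^ 3 * K.β₂ ^ 2 := hm2
      rw [h5]
      ring
  -- the exponents are zero
  obtain ⟨w, hw⟩ : ∃ w : AlgebraicClosure M, w = algebraMap M _ S.R.w := ⟨_, rfl⟩
  have hw3 : w ^ 3 = 1 := by rw [hw, ← map_pow, S.R.hw3, map_one]
  have hw1 : w ≠ 1 := by
    intro h
    apply S.R.w_ne_one
    apply hinj
    rw [← hw, h, map_one]
  have hwk : ∀ k : ℕ, w ^ k = 1 → 3 ∣ k := by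
    intro k hk
    have h1 : orderOf w = 3 := orderOf_eq_prime hw3 hw1
    rw [← h1]
    exact orderOf_dvd_of_pow_eq_one hk
  have hrat : ∀ (b : AlgebraicClosure M) (c : M), b ^ 3 = (algebraMap M _ c) ^ 3 → b ≠ 0 →
      ∀ σ : Gal M, σ b = b := by
    intro b c hb hb0 σ
    have hc0 : algebraMap M (AlgebraicClosure M) c ≠ 0 := by
      intro h
      rw [h, zero_pow (by norm_num)] at hb
      exact hb0 (pow_eq_zero_iff (by norm_num) |>.1 hb)
    obtain ⟨z, hz⟩ : ∃ z, z = b / algebraMap M _ c := ⟨_, rfl⟩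
    have hz3 : z ^ 3 = 1 := by
      rw [hz, div_pow, hb, div_self (pow_ne_zero 3 hc0)]
    have h5 : (z - 1) * ((z - w) * (z - w ^ 2)) = 0 := by
      have h6 : w ^ 2 + w + 1 = 0 := by
        rw [hw, ← map_pow, ← map_add, ← map_one (algebraMap M (AlgebraicClosure M)), ← map_add,
          S.R.hw2, map_zero]
      linear_combination hz3 - (z ^ 2 - z) * h6 + (z - 1) * hw3
    have hσw : σ w = w := by rw [hw]; exact σ.commutes _
    have hσz : σ z = z := by
      rcases mul_eq_zero.1 h5 with h | h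
      · rw [sub_eq_zero.1 h, map_one]
      · rcases mul_eq_zero.1 h with h | h
        · rw [sub_eq_zero.1 h, hσw]
        · rw [sub_eq_zero.1 h, map_pow, hσw]
    have h7 : b = z * algebraMap M _ c := by rw [hz, div_mul_cancel₀ _ hc0]
    rw [h7, map_mul, hσz, σ.commutes]
  have hd1 : 3 ∣ K.c σ := by
    obtain ⟨c, hc⟩ := hc1
    have h5 := hrat K.b₁ c (by rw [← K.e₁, hc, map_pow]) K.h₁ σ
    rw [K.s₁, ← hw] at h5
    exact hwk _ (mul_right_cancel₀ K.h₁ (by rw [one_mul]; exact h5))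
  have hd2 : 3 ∣ K.d σ := by
    obtain ⟨c, hc⟩ := hc2
    have h5 := hrat K.b₂ c (by rw [← K.e₂, hc, map_pow]) K.h₂ σ
    rw [K.s₂, ← hw, ← pow_mul] at h5
    have h6 := hwk _ (mul_right_cancel₀ K.h₂ (by rw [one_mul]; exact h5))
    rcases (Nat.Prime.dvd_mul Nat.prime_three).1 h6 with h | h
    · exact h
    · norm_num at h
  apply sm_inj hS e he
  rw [map_zero]
  have h8 := K.hf σ
  rw [rs_apply] at h8
  obtain ⟨i, hi⟩ := hd1
  obtain ⟨j, hj⟩ := hd2
  rw [h8, hi, hj, mul_comm 3 i, mul_comm 3 j, mul_smul, mul_smul, thrT, thrT', smul_zero,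
    smul_zero, add_zero]

end fin

end Pool.Agent.K4H1.BX
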