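import Pool.Agent.K4H1.BX.Fin

/-!
# The three-torsion of the Tate-Shafarevich group is trivial, part two
-/

set_option autoImplicit false
set_option linter.unusedSectionVars false

open NumberField IsDedekindDomain WithZero Module WeierstrassCurve

open scoped WithZero Classical

namespace Pool.Agent.K4H1.BX

open Pool.Agent.TH841.NF (Sc tm tm_act act_tm tm_tm tm_id tm_inj tm_some coc_fin aut_of_two
  act_some' act_zero' pt_ext pt_inj)
open Pool.Agent.TH841.SH.D (Pt act Gal Coch IsCoc IsCob LocTriv cob coc_zero)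
open Pool.Agent.TH841.NF.D (Sha IsShaCoc shaCoc)
open Pool.Agent.TH942 (sw)

section step

variable {F : Type} [Field F] {W : WeierstrassCurve F}

lemma act_mul (σ τ : Gal F) (P : Pt W (AlgebraicClosure F)) :
    act W (σ * τ).toAlgHom P = act W σ.toAlgHom (act W τ.toAlgHom P) := by
  rcases P with _ | ⟨x, y, h⟩
  · rfl
  · rfl

lemma act_one (P : Pt W (AlgebraicClosure F)) : act W (1 : Gal F).toAlgHom P = P := by
  rcases P with _ | ⟨x, y, h⟩
  · rfl
  · rfl

/-- the cocycles that vanish on a subgroup -/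
structure Zc (N : Gal F → Prop) (h : Gal F → Pt W (AlgebraicClosure F)) : Prop where
  coc : ∀ σ τ, h (σ * τ) = h σ + act W σ.toAlgHom (h τ)
  tor : ∀ σ, 3 • h σ = 0
  van : ∀ σ, N σ → h σ = 0

lemma Zc.step {N : Gal F → Prop} {h : Gal F → Pt W (AlgebraicClosure F)} (hz : Zc N h)
    (hN : ∀ P : Pt W (AlgebraicClosure F), 3 • P = 0 → ∀ σ, N σ → act W σ.toAlgHom P = P)
    (A : Gal F) (hA : N (A * A)) :
    ∃ P : Pt W (AlgebraicClosure F), 3 • P = 0 ∧
      Zc N (fun σ => h σ - (act W σ.toAlgHom P - P)) ∧ h A - (act W A.toAlgHom P - P) = 0 ∧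
      ∀ C, h C = 0 → (∃ ν, N ν ∧ C * A = A * C * ν) → h C - (act W C.toAlgHom P - P) = 0 := by
  refine ⟨h A, hz.tor A, ⟨fun σ τ => ?_, fun σ => ?_, fun σ hσ => ?_⟩, ?_, fun C hC ⟨ν, hν, hCA⟩ => ?_⟩
  · rw [hz.coc, act_mul, map_sub, map_sub]
    abel
  · rw [smul_sub, smul_sub, hz.tor, ← map_nsmul, hz.tor, map_zero, sub_zero, sub_zero]
  · rw [hz.van σ hσ, hN _ (hz.tor A) σ hσ, sub_self, sub_zero]
  · have h1 := hz.coc A A
    rw [hz.van _ hA] at h1
    have h2 : act W A.toAlgHom (h A) = -h A := (neg_eq_of_add_eq_zero_right h1.symm).symm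
    have h3 := hz.tor A
    rw [h2]
    have : h A - (-h A - h A) = 3 • h A := by
      rw [show (3 : ℕ) = 1 + 1 + 1 from rfl, add_smul, add_smul, one_smul]
      abel
    rw [this, h3]
  · have h1 := hz.coc C A
    have h2 : h (A * C * ν) = h A := by
      rw [hz.coc, hz.coc, hC, hz.van ν hν, map_zero, map_zero, add_zero, add_zero]
    rw [hCA, h2, hC, zero_add] at h1
    rw [hC, ← h1, sub_self, sub_self]

end step

section fin

variable {F M : Type} [Field F] [NumberField F] [Field M] [NumberField M] [Algebra F M] {n q : ℕ}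
variable (e : AlgebraicClosure M ≃+* AlgebraicClosure F)
  (he : ∀ x : F, e (algebraMap M _ (algebraMap F M x)) = algebraMap F _ x) (S : Sf F M n q)

include S in
lemma memN (G : Gal F) (h1 : G (e (algebraMap M _ S.R.t)) = e (algebraMap M _ S.R.t))
    (h2 : G (e (algebraMap M _ S.de)) = e (algebraMap M _ S.de)) : ∃ σ' : Gal M, cK e he σ' = G := by
  apply exists_cK
  let K' : IntermediateField F M :=
    { carrier := {x | G (e (algebraMap M _ x)) = e (algebraMap M _ x)}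
      mul_mem' := fun {x y} hx hy => by
        have hx' : G (e (algebraMap M _ x)) = e (algebraMap M _ x) := hx
        have hy' : G (e (algebraMap M _ y)) = e (algebraMap M _ y) := hy
        show G (e (algebraMap M _ (x * y))) = e (algebraMap M _ (x * y))
        rw [map_mul, map_mul, map_mul, hx', hy']
      add_mem' := fun {x y} hx hy => by
        have hx' : G (e (algebraMap M _ x)) = e (algebraMap M _ x) := hx
        have hy' : G (e (algebraMap M _ y)) = e (algebraMap M _ y) := hy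
        show G (e (algebraMap M _ (x + y))) = e (algebraMap M _ (x + y))
        rw [map_add, map_add, map_add, hx', hy']
      algebraMap_mem' := fun x => by
        show G (e (algebraMap M _ (algebraMap F M x))) = e (algebraMap M _ (algebraMap F M x))
        rw [he, G.commutes]
      inv_mem' := fun x hx => by
        have hx' : G (e (algebraMap M _ x)) = e (algebraMap M _ x) := hx
        show G (e (algebraMap M _ x⁻¹)) = e (algebraMap M _ x⁻¹)
        rw [map_inv₀, map_inv₀, map_inv₀, hx'] }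
  have h3 : IntermediateField.adjoin F {S.R.t, S.de} ≤ K' := by
    rw [IntermediateField.adjoin_le_iff]
    rintro x (rfl | rfl)
    · exact h1
    · exact h2
  rw [S.adj] at h3
  intro x
  exact h3 (IntermediateField.mem_top (x := x))

lemma sign_of_sq {Ω : Type} [Field Ω] {x : Ω} {g : Ω →+* Ω} (h : g (x ^ 2) = x ^ 2) :
    g x = x ∨ g x = -x := by
  rw [map_pow] at h
  have h1 : (g x - x) * (g x + x) = 0 := by linear_combination h
  rcases mul_eq_zero.1 h1 with h | h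
  · exact Or.inl (sub_eq_zero.1 h)
  · exact Or.inr (eq_neg_of_add_eq_zero_left h)

variable {L : Type} [Field L] [NumberField L] [Algebra L M] (H : Hy n q L M S.de)

include S H in
/-- **the cocycles of order three are coboundaries** -/
theorem cob3 {f : Coch (EF F n)} (hf : IsShaCoc (EF F n) f) (h3 : ∀ σ, 3 • f σ = 0) :
    ∃ P : Pt (EF F n) (AlgebraicClosure F), 3 • P = 0 ∧
      ∀ σ, f σ = act (EF F n) σ.toAlgHom P - P := by
  obtain ⟨e, he⟩ := exists_e F M
  have hn0 : n ≠ 0 := by rintro rfl; have := H.h7; norm_num at this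
  have hS := S.sc hn0
  obtain ⟨A, hA⟩ := exists_lift e he S.ga
  obtain ⟨B, hB⟩ := exists_lift e he S.gb
  obtain ⟨τ, hτ⟩ : ∃ τ, τ = e (algebraMap M _ S.R.t) := ⟨_, rfl⟩
  obtain ⟨δ, hδ⟩ : ∃ δ, δ = e (algebraMap M _ S.de) := ⟨_, rfl⟩
  have hAτ : A τ = -τ := by rw [hτ, hA, S.ga_apply, S.at', map_neg, map_neg]
  have hAδ : A δ = δ := by rw [hδ, hA, S.ga_apply, S.ad]
  have hBτ : B τ = τ := by rw [hτ, hB, S.gb_apply, S.bt]
  have hBδ : B δ = -δ := by rw [hδ, hB, S.gb_apply, S.bd, map_neg, map_neg]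
  obtain ⟨N, hN⟩ : ∃ N : Gal F → Prop, ∀ G, N G ↔ (G τ = τ ∧ G δ = δ) := ⟨_, fun G => Iff.rfl⟩
  have hNK : ∀ G, N G → ∃ σ' : Gal M, cK e he σ' = G := by
    intro G hG
    rw [hN] at hG
    exact memN e he S G (by rw [← hτ]; exact hG.1) (by rw [← hδ]; exact hG.2)
  have hNtriv : ∀ P : Pt (EF F n) (AlgebraicClosure F), 3 • P = 0 → ∀ σ, N σ →
      act (EF F n) σ.toAlgHom P = P := by
    intro P hP σ hσ
    obtain ⟨σ', rfl⟩ := hNK σ hσ
    exact cK_triv hS S.R e he hP σ'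
  have hz : Zc N f := ⟨hf.1.2, h3, fun σ hσ => by
    obtain ⟨σ', rfl⟩ := hNK σ hσ
    exact van e he S H hS hf h3 σ'⟩
  have hmul : ∀ (σ σ' : Gal F) (x : AlgebraicClosure F), (σ * σ') x = σ (σ' x) :=
    fun _ _ _ => rfl
  obtain ⟨P, hP3, hz1, hP1, -⟩ := hz.step hNtriv A (by
    rw [hN, hmul, hmul, hAτ, map_neg, hAτ, neg_neg, hAδ, hAδ]
    exact ⟨rfl, rfl⟩)
  obtain ⟨Q, hQ3, hz2, hQ1, hQ2⟩ := hz1.step hNtriv B (by
    rw [hN, hmul, hmul, hBτ, hBτ, hBδ, map_neg, hBδ, neg_neg]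
    exact ⟨rfl, rfl⟩)
  have hQ3' := hQ2 A hP1 ⟨(B * A)⁻¹ * (A * B), by
    rw [hN]
    have h5 : (B * A) τ = (A * B) τ := by
      rw [hmul, hmul, hAτ, map_neg, hBτ, hAτ]
    have h6 : (B * A) δ = (A * B) δ := by
      rw [hmul, hmul, hAδ, hBδ, map_neg, hAδ]
    constructor
    · rw [hmul, ← h5, ← hmul, inv_mul_cancel]; rfl
    · rw [hmul, ← h6, ← hmul, inv_mul_cancel]; rfl, by rw [mul_inv_cancel_left]⟩
  have hτ2 : τ ^ 2 = -3 := by
    rw [hτ, ← map_pow, ← map_pow, S.R.ht, map_neg, map_ofNat, map_neg, map_ofNat]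
  have hδ2 : δ ^ 2 = -(n : AlgebraicClosure F) := by
    rw [hδ, ← map_pow, ← map_pow, S.hde, map_neg, map_natCast, map_neg, map_natCast]
  obtain ⟨h, hh⟩ : ∃ h : Gal F → Pt (EF F n) (AlgebraicClosure F), h = fun σ =>
    f σ - (act (EF F n) σ.toAlgHom P - P) - (act (EF F n) σ.toAlgHom Q - Q) := ⟨_, rfl⟩
  rw [← hh] at hz2
  have hhA : h A = 0 := by rw [hh]; exact hQ3'
  have hhB : h B = 0 := by rw [hh]; exact hQ1
  have hzero : ∀ G, h G = 0 := by
    intro G
    have hred : ∀ C : Gal F, h C = 0 → N (C⁻¹ * G) → h G = 0 := by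
      intro C hC hCG
      have h5 := hz2.coc C (C⁻¹ * G)
      rw [mul_inv_cancel_left, hC, hz2.van _ hCG, map_zero, add_zero] at h5
      exact h5
    have hinv : ∀ (C : Gal F) (x y : AlgebraicClosure F), G x = y → C x = y → (C⁻¹ * G) x = x := by
      intro C x y h5 h6
      rw [hmul, h5, ← h6, ← hmul, inv_mul_cancel]
      rfl
    rcases sign_of_sq (x := τ) (g := ((G : AlgebraicClosure F ≃+* AlgebraicClosure F) :
      AlgebraicClosure F →+* AlgebraicClosure F)) (by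
        rw [hτ2, map_neg, map_ofNat]) with h5 | h5 <;>
    rcases sign_of_sq (x := δ) (g := ((G : AlgebraicClosure F ≃+* AlgebraicClosure F) :
      AlgebraicClosure F →+* AlgebraicClosure F)) (by
        rw [hδ2, map_neg, map_natCast]) with h6 | h6
    · exact hz2.van G ((hN G).2 ⟨h5, h6⟩)
    · exact hred B hhB ((hN _).2 ⟨hinv B _ _ h5 hBτ, hinv B _ _ h6 hBδ⟩)
    · exact hred A hhA ((hN _).2 ⟨hinv A _ _ h5 hAτ, hinv A _ _ h6 hAδ⟩)
    · refine hred (A * B) ?_ ((hN _).2 ⟨hinv _ _ _ h5 ?_, hinv _ _ _ h6 ?_⟩)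
      · rw [hz2.coc, hhA, hhB, map_zero, add_zero]
      · rw [hmul, hBτ, hAτ]
      · rw [hmul, hBδ, map_neg, hAδ]
  refine ⟨P + Q, by rw [smul_add, hP3, hQ3, add_zero], fun σ => ?_⟩
  have h5 := hzero σ
  rw [hh] at h5
  rw [map_add]
  have h6 : f σ - (act (EF F n) σ.toAlgHom P - P) - (act (EF F n) σ.toAlgHom Q - Q) = 0 := h5
  have h7 : f σ = (act (EF F n) σ.toAlgHom P - P) + (act (EF F n) σ.toAlgHom Q - Q) := by
    rw [sub_sub, sub_eq_zero] at h6
    exact h6
  rw [h7]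
  abel

lemma EF_disc (hn : n ≠ 0) : 4 * (5805 * (n : F) ^ 2) ^ 3 + 27 * (285714 * (n : F) ^ 3) ^ 2 ≠ 0 := by
  have e1 : 4 * (5805 * (n : F) ^ 2) ^ 3 + 27 * (285714 * (n : F) ^ 3) ^ 2 =
      2986545364992 * (n : F) ^ 6 := by ring
  rw [e1]
  have : (n : F) ≠ 0 := Nat.cast_ne_zero.2 hn
  exact mul_ne_zero (by norm_num) (pow_ne_zero 6 this)

lemma div_cl (hn : n ≠ 0) (P : Pt (EF F n) (AlgebraicClosure F)) :
    ∃ Q : Pt (EF F n) (AlgebraicClosure F), 3 • Q = P := by
  have : CharZero (AlgebraicClosure F) :=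
    charZero_of_injective_algebraMap (algebraMap F (AlgebraicClosure F)).injective
  obtain ⟨Q, hQ⟩ := Pool.Agent.TH954.exists_nsmul_base (EF_disc hn) (AlgebraicClosure F) (n := 3)
    (by norm_num) P
  exact ⟨Q, hQ⟩

/-- a coboundary is locally trivial -/
lemma cob_sha {W : WeierstrassCurve F} {f : Coch W} (hc : IsCoc W f) (h : IsCob W f) :
    IsShaCoc W f := by
  obtain ⟨P, hP⟩ := h
  refine ⟨hc, fun v ι => ⟨act W ι P, fun τ σ hτσ => ?_⟩, fun v ι => ⟨act W ι P, fun τ σ hτσ => ?_⟩⟩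
  · rw [hP, map_sub]
    congr 1
    rcases P with _ | ⟨x, y, hxy⟩
    · rfl
    · rw [act_some', act_some', act_some', act_some']
      exact pt_ext _ _ (hτσ x).symm (hτσ y).symm
  · rw [hP, map_sub]
    congr 1
    rcases P with _ | ⟨x, y, hxy⟩
    · rfl
    · rw [act_some', act_some', act_some', act_some']
      exact pt_ext _ _ (hτσ x).symm (hτσ y).symm

/-- a coboundary is continuous -/
lemma coc_of_cob {W : WeierstrassCurve F} (P : Pt W (AlgebraicClosure F)) :
    IsCoc W (fun σ => act W σ.toAlgHom P - P) := by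
  have hcc : ∀ σ τ : Gal F, act W (σ * τ).toAlgHom P - P =
      (act W σ.toAlgHom P - P) + act W σ.toAlgHom (act W τ.toAlgHom P - P) := by
    intro σ τ
    rw [act_mul, map_sub]
    abel
  rcases P with _ | ⟨x, y, hxy⟩
  · exact Pool.Agent.TH841.NF.coc_of_fin hcc ∅ (fun τ _ => sub_self _)
  · refine Pool.Agent.TH841.NF.coc_of_fin hcc {x, y} ?_
    · intro τ hτ
      show act W τ.toAlgHom _ - _ = 0
      rw [sub_eq_zero, act_some']
      exact pt_ext _ _ (hτ x (Finset.mem_insert_self _ _))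
        (hτ y (Finset.mem_insert_of_mem (Finset.mem_singleton_self _)))

lemma act_ofId {W : WeierstrassCurve F} (σ : Gal F) (P : Pt W F) :
    act W σ.toAlgHom (act W (Algebra.ofId F (AlgebraicClosure F)) P) =
      act W (Algebra.ofId F (AlgebraicClosure F)) P := by
  rcases P with _ | ⟨x, y, hxy⟩
  · rfl
  · rw [act_some', act_some']
    exact pt_ext _ _ (σ.commutes x) (σ.commutes y)

include S H in
/-- **the points are divisible by three** -/
theorem div3 (P : Pt (EF F n) F) : ∃ Q : Pt (EF F n) F, 3 • Q = P := by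
  have hn0 : n ≠ 0 := by rintro rfl; have := H.h7; norm_num at this
  obtain ⟨Q, hQ⟩ := div_cl hn0 (act (EF F n) (Algebra.ofId F (AlgebraicClosure F)) P)
  have h1 := coc_of_cob Q
  obtain ⟨R, hR, hR2⟩ := cob3 S H (cob_sha h1 ⟨Q, fun σ => rfl⟩) (fun σ => by
    show 3 • (act (EF F n) σ.toAlgHom Q - Q) = 0
    rw [smul_sub, ← map_nsmul, hQ, act_ofId, sub_self])
  obtain ⟨T, hT⟩ := exists_pt (EF F n) (P := Q - R) (fun σ => by
    have h2 : act (EF F n) σ.toAlgHom Q - Q = act (EF F n) σ.toAlgHom R - R := hR2 σ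
    rw [map_sub]
    rw [sub_eq_sub_iff_add_eq_add] at h2 ⊢
    rw [h2, add_comm])
  refine ⟨T, ?_⟩
  apply act_inj (EF F n) (Algebra.ofId F (AlgebraicClosure F))
  rw [map_nsmul, hT, smul_sub, hQ, hR, sub_zero]

include S H in
/-- **the three-torsion of the Tate-Shafarevich group** -/
theorem sha3 (s : Sha (EF F n)) (hs : 3 • s = 0) : s = 0 := by
  have hn0 : n ≠ 0 := by rintro rfl; have := H.h7; norm_num at this
  obtain ⟨⟨f, hf⟩, rfl⟩ := QuotientAddGroup.mk_surjective s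
  let Q : shaCoc (EF F n) →+ Sha (EF F n) :=
    QuotientAddGroup.mk' ((cob (EF F n)).addSubgroupOf (shaCoc (EF F n)))
  have hq1 : Q (3 • ⟨f, hf⟩) = 0 := by
    rw [map_nsmul]
    exact hs
  have hq2 : (3 • (⟨f, hf⟩ : shaCoc (EF F n))) ∈ (cob (EF F n)).addSubgroupOf (shaCoc (EF F n)) :=
    (QuotientAddGroup.eq_zero_iff _).1 hq1
  have hq3 : ((3 • (⟨f, hf⟩ : shaCoc (EF F n)) : shaCoc (EF F n)) : Coch (EF F n)) ∈
    cob (EF F n) := AddSubgroup.mem_addSubgroupOf.1 hq2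
  rw [AddSubgroup.coe_nsmul] at hq3
  obtain ⟨P, hP⟩ : IsCob (EF F n) (3 • f) := hq3
  obtain ⟨P', hP'⟩ := div_cl hn0 P
  obtain ⟨g, hg⟩ : ∃ g : Coch (EF F n), g = fun σ => f σ - (act (EF F n) σ.toAlgHom P' - P') :=
    ⟨_, rfl⟩
  have hgs : IsShaCoc (EF F n) g := by
    have h1 := cob_sha (coc_of_cob P') ⟨P', fun σ => rfl⟩
    have h2 : (⟨f, hf⟩ - ⟨_, h1⟩ : shaCoc (EF F n)).1 = g := by rw [hg]; rfl
    rw [← h2]
    exact (⟨f, hf⟩ - ⟨_, h1⟩ : shaCoc (EF F n)).2
  obtain ⟨R, hR, hR2⟩ := cob3 S H hgs (fun σ => by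
    rw [hg]
    show 3 • (f σ - (act (EF F n) σ.toAlgHom P' - P')) = 0
    have h3 : 3 • f σ = act (EF F n) σ.toAlgHom P - P := hP σ
    rw [smul_sub, smul_sub, h3, ← map_nsmul, hP', sub_self])
  have h6 : (⟨f, hf⟩ : shaCoc (EF F n)) ∈ (cob (EF F n)).addSubgroupOf (shaCoc (EF F n)) := by
    refine (⟨R + P', fun σ => ?_⟩ : IsCob (EF F n) f)
    have h4 := hR2 σ
    rw [hg] at h4
    have h5 : f σ - (act (EF F n) σ.toAlgHom P' - P') = act (EF F n) σ.toAlgHom R - R := h4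
    rw [map_add, sub_eq_iff_eq_add.1 h5]
    abel
  exact (QuotientAddGroup.eq_zero_iff _).2 h6

include S H in
/-- **no points of order three** -/
theorem tor3_0 (P : Pt (EF F n) F) (hP : 3 • P = 0) : P = 0 := by
  obtain ⟨e, he⟩ := exists_e F M
  have hn0 : n ≠ 0 := by rintro rfl; have := H.h7; norm_num at this
  have hS := S.sc hn0
  obtain ⟨B, hB⟩ := exists_lift e he S.gb
  obtain ⟨P', hP'⟩ : ∃ P', P' = act (EF F n) (Algebra.ofId F (AlgebraicClosure F)) P := ⟨_, rfl⟩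
  have hC : CharZero (AlgebraicClosure M) :=
    charZero_of_injective_algebraMap (algebraMap M (AlgebraicClosure M)).injective
  have h3 : 3 • sm hS e he P' = 0 := by
    rw [← map_nsmul, hP', ← map_nsmul, hP, map_zero, map_zero]
  obtain ⟨i, j, hij⟩ := tor3 S.R h3
  have hbu : S.gb S.de⁻¹ = -S.de⁻¹ := by
    rw [S.gb_apply, map_inv₀, S.bd, inv_neg]
  have h4 := sm_G hS S.R e he B S.gb (fun x => by rw [hB, e.symm_apply_apply]) (a := 2) (b := 1)
    (Or.inr ⟨rfl, hbu⟩) (Or.inl ⟨rfl, S.bt⟩) hij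
  have h5 : act (EF F n) B.toAlgHom P' = P' := by rw [hP', act_ofId]
  rw [h5, hij] at h4
  obtain ⟨h6, h7⟩ := rep_unique S.R h4
  have h8 : sm hS e he P' = 0 := by
    obtain ⟨i', hi⟩ : 3 ∣ i := by omega
    obtain ⟨j', hj⟩ : 3 ∣ j := by omega
    rw [hij, hi, hj, mul_comm 3 i', mul_comm 3 j', mul_smul, mul_smul, thrT, thrT', smul_zero,
      smul_zero, add_zero]
  have h9 : P' = 0 := sm_inj hS e he (by rw [h8, map_zero])
  apply act_inj (EF F n) (Algebra.ofId F (AlgebraicClosure F))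
  rw [← hP', h9, map_zero]

end fin

end Pool.Agent.K4H1.BX
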