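import Pool.Agent.K4H1.BX.TamL
import Pool.Agent.Y813.XF.TamD
import Pool.Agent.Y698.Sp2
import Pool.Agent.Y702.L.Eu
import Pool.Agent.Y44.XF.Mind

/-!
# Minimality and Tamagawa numbers over the field
-/

set_option autoImplicit false
set_option linter.unusedSectionVars false

open NumberField IsDedekindDomain WithZero WeierstrassCurve

namespace Pool.Agent.K4H1.BX

open scoped Classical
open Pool.Agent.Y682.XF
open Pool.Agent.Y700 (WM)
open Pool.Agent.Y484.XT (valued_cast valued_int valued_nat int_le_one val_one approx)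

section

variable {K : Type} [Field K] [NumberField K]

/-- the residue fields have odd degree -/
lemma card_quot [IsGalois ℚ K] (hodd : Odd (Module.finrank ℚ K)) (v : HeightOneSpectrum (𝓞 K))
    {p : ℕ} (hp : p.Prime) (hpv : (p : 𝓞 K) ∈ v.asIdeal) :
    ∃ f : ℕ, Odd f ∧ Nat.card (𝓞 K ⧸ v.asIdeal) = p ^ f := by
  have : Fact p.Prime := ⟨hp⟩
  have := Pool.Agent.H82R3.EK.liesOver_of_mem K hp v hpv
  have := v.isPrime
  have h1 := Ideal.ncard_primesOver_mul_ramificationIdxIn_mul_inertiaDegIn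
    (Ideal.span {(p : ℤ)}) (𝓞 K) Gal(K/ℚ)
  rw [IsGalois.card_aut_eq_finrank] at h1
  have h2 := Ideal.inertiaDegIn_eq_inertiaDeg (Ideal.span {(p : ℤ)}) v.asIdeal Gal(K/ℚ)
  have h3 := Ideal.pow_inertiaDeg p v.asIdeal
  rw [Ideal.absNorm_apply, Submodule.cardQuot_apply] at h3
  rw [h2] at h1
  refine ⟨v.asIdeal.inertiaDeg ℤ, ?_, h3.symm⟩
  have h7 : v.asIdeal.inertiaDeg ℤ ∣ Module.finrank ℚ K := by
    rw [← h1]
    exact Dvd.dvd.mul_left (dvd_mul_left _ _) _
  exact Odd.of_dvd_nat hodd h7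

/-- a nonresidue remains a nonresidue -/
lemma no_sqrt' [IsGalois ℚ K] (hodd : Odd (Module.finrank ℚ K)) (v : HeightOneSpectrum (𝓞 K))
    {p : ℕ} (hp : p.Prime) (hp2 : p ≠ 2) (hpv : (p : 𝓞 K) ∈ v.asIdeal) {D : ℤ}
    (hD : jacobiSym D p = -1) (b : 𝓞 K) : b ^ 2 - (D : 𝓞 K) ∉ v.asIdeal := by
  intro hb
  have hfp : Fact p.Prime := ⟨hp⟩
  obtain ⟨f, hf, hcard⟩ := card_quot hodd v hp hpv
  have hmax : v.asIdeal.IsMaximal := v.isMaximal
  let _ : Field (𝓞 K ⧸ v.asIdeal) := Ideal.Quotient.field v.asIdeal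
  have hfin : Finite (𝓞 K ⧸ v.asIdeal) := by
    apply Nat.finite_of_card_ne_zero
    rw [hcard]
    exact pow_ne_zero _ hp.ne_zero
  have := Fintype.ofFinite (𝓞 K ⧸ v.asIdeal)
  have hmk : ∀ m : ℤ, (p : ℤ) ∣ m → ((m : ℤ) : 𝓞 K ⧸ v.asIdeal) = 0 := by
    rintro m ⟨t, rfl⟩
    have h1 : Ideal.Quotient.mk v.asIdeal ((p : ℕ) : 𝓞 K) = 0 :=
      Ideal.Quotient.eq_zero_iff_mem.2 hpv
    rw [map_natCast] at h1
    push_cast
    rw [h1, zero_mul]
  have hmk' : ∀ m : ℤ, ¬ (p : ℤ) ∣ m → ((m : ℤ) : 𝓞 K ⧸ v.asIdeal) ≠ 0 := by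
    intro m hm h0
    apply Pool.Agent.Y813.XF.not_mem_of_not_dvd hp v hpv m hm
    rw [← Ideal.Quotient.eq_zero_iff_mem, map_intCast]
    exact h0
  set y : 𝓞 K ⧸ v.asIdeal := Ideal.Quotient.mk v.asIdeal b with hy
  have hy1 : y ^ 2 = ((D : ℤ) : 𝓞 K ⧸ v.asIdeal) := by
    have h2 : Ideal.Quotient.mk v.asIdeal (b ^ 2 - (D : 𝓞 K)) = 0 :=
      Ideal.Quotient.eq_zero_iff_mem.2 hb
    rw [map_sub, map_pow, map_intCast, sub_eq_zero] at h2
    exact h2
  have hodd' : p % 2 = 1 := (hp.eq_two_or_odd).resolve_left hp2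
  have hpD : ¬ (p : ℤ) ∣ D := by
    intro hd
    have : jacobiSym D p = 0 := by
      haveI : NeZero p := ⟨hp.ne_zero⟩
      rw [jacobiSym.eq_zero_iff_not_coprime]
      intro hg
      have h1 : (p : ℤ) ∣ (Int.gcd D p : ℤ) := Int.dvd_coe_gcd hd dvd_rfl
      rw [hg] at h1
      have h2 : p ∣ 1 := by exact_mod_cast h1
      exact hp.one_lt.ne' (Nat.dvd_one.1 h2)
    rw [this] at hD
    norm_num at hD
  -- the power of `D`
  have h7 : ((D : ℤ) : 𝓞 K ⧸ v.asIdeal) ^ (p / 2) = -1 := by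
    have h1 : ((D : ℤ) : ZMod p) ^ (p / 2) = -1 := by
      have h3 := legendreSym.eq_pow p D
      rw [jacobiSym.legendreSym.to_jacobiSym, hD] at h3
      rw [← h3]
      push_cast
      rfl
    have h2 : (p : ℤ) ∣ D ^ (p / 2) + 1 := by
      rw [← ZMod.intCast_zmod_eq_zero_iff_dvd]
      push_cast
      rw [h1]
      ring
    have h3 := hmk _ h2
    push_cast at h3 ⊢
    linear_combination h3
  have hfrob : y ^ p = -y := by
    have e : p = 2 * (p / 2) + 1 := by omega
    have h1 : y ^ p = (y ^ 2) ^ (p / 2) * y := by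
      conv_lhs => rw [e]
      rw [pow_succ, pow_mul]
    rw [h1, hy1, h7]
    ring
  have hpow : ∀ k : ℕ, y ^ p ^ k = (-1) ^ k * y := by
    intro k
    induction k with
    | zero => simp
    | succ k ih =>
      rw [pow_succ, pow_mul, ih, mul_pow, hfrob, ← pow_mul, mul_comm k p, pow_mul,
        (Nat.odd_iff.2 hodd').neg_one_pow, pow_succ]
      ring
  have hlast : y ^ p ^ f = y := by
    rw [← hcard, Nat.card_eq_fintype_card]
    exact FiniteField.pow_card y
  rw [hpow, hf.neg_one_pow] at hlast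
  have h2y : ((2 : ℤ) : 𝓞 K ⧸ v.asIdeal) * y = 0 := by
    push_cast
    linear_combination -hlast
  have h2 : ((2 : ℤ) : 𝓞 K ⧸ v.asIdeal) ≠ 0 := by
    apply hmk'
    intro h
    have := (Nat.prime_dvd_prime_iff_eq hp Nat.prime_two).1 (by exact_mod_cast h)
    exact hp2 this
  have hy0 : y = 0 := (mul_eq_zero.1 h2y).resolve_left h2
  rw [hy0] at hy1
  apply hmk' D hpD
  rw [← hy1]; ring

/-- no cube roots of unity at two -/
lemma no_cube_root [IsGalois ℚ K] (hodd : Odd (Module.finrank ℚ K)) (v : HeightOneSpectrum (𝓞 K))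
    (hpv : (2 : 𝓞 K) ∈ v.asIdeal) (b : 𝓞 K) : b ^ 2 + b + 1 ∉ v.asIdeal := by
  intro hb
  obtain ⟨f, hf, hcard⟩ := card_quot hodd v Nat.prime_two (by exact_mod_cast hpv)
  have hmax : v.asIdeal.IsMaximal := v.isMaximal
  let _ : Field (𝓞 K ⧸ v.asIdeal) := Ideal.Quotient.field v.asIdeal
  have hfin : Finite (𝓞 K ⧸ v.asIdeal) := by
    apply Nat.finite_of_card_ne_zero
    rw [hcard]
    exact pow_ne_zero _ two_ne_zero
  have := Fintype.ofFinite (𝓞 K ⧸ v.asIdeal)
  set y : 𝓞 K ⧸ v.asIdeal := Ideal.Quotient.mk v.asIdeal b with hy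
  have h20 : (2 : 𝓞 K ⧸ v.asIdeal) = 0 := by
    have h2 : Ideal.Quotient.mk v.asIdeal 2 = 0 := Ideal.Quotient.eq_zero_iff_mem.2 hpv
    rw [map_ofNat] at h2
    exact h2
  have hy1 : y ^ 2 + y + 1 = 0 := by
    have h2 : Ideal.Quotient.mk v.asIdeal (b ^ 2 + b + 1) = 0 := Ideal.Quotient.eq_zero_iff_mem.2 hb
    rw [map_add, map_add, map_pow, map_one] at h2
    exact h2
  have hpow : ∀ k : ℕ, y ^ 2 ^ (2 * k) = y := by
    intro k
    induction k with
    | zero => simp
    | succ k ih =>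
      have e : 2 ^ (2 * (k + 1)) = 2 ^ (2 * k) * 4 := by ring
      rw [e, pow_mul, ih]
      linear_combination (y ^ 2 - y) * hy1
  have hlast : y ^ 2 ^ f = y := by
    rw [← hcard, Nat.card_eq_fintype_card]
    exact FiniteField.pow_card y
  obtain ⟨k, hk⟩ := hf
  rw [hk, pow_succ, pow_mul, hpow] at hlast
  have h1 : (1 : 𝓞 K ⧸ v.asIdeal) = 0 := by
    linear_combination hy1 - hlast - y * h20
  exact one_ne_zero h1

/-- lifting of the nonvanishing of polynomials to the completion -/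
lemma lift_ne (v : HeightOneSpectrum (𝓞 K)) {B C : ℤ}
    (h : ∀ b : 𝓞 K, b ^ 2 + (B : 𝓞 K) * b + (C : 𝓞 K) ∉ v.asIdeal) (x : v.adicCompletion K)
    (hx : Valued.v x ≤ 1) : ¬ Valued.v (x ^ 2 + (B : v.adicCompletion K) * x + C) < 1 := by
  obtain ⟨b, hb⟩ := approx v x hx
  set β := algebraMap K (v.adicCompletion K) (algebraMap (𝓞 K) K b) with hβ
  have hb1 : Valued.v β ≤ 1 := by
    rw [hβ, valued_cast]
    exact v.valuation_le_one b
  have h1 : Valued.v (β ^ 2 + (B : v.adicCompletion K) * β + C) = 1 := by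
    have e : β ^ 2 + (B : v.adicCompletion K) * β + C = algebraMap K (v.adicCompletion K)
        (algebraMap (𝓞 K) K (b ^ 2 + (B : 𝓞 K) * b + (C : 𝓞 K))) := by
      rw [hβ]
      simp only [map_add, map_pow, map_mul, map_intCast]
    rw [e, valued_cast]
    exact val_one (h b)
  intro hc
  have hB : Valued.v (B : v.adicCompletion K) ≤ 1 := by
    rw [valued_int]; exact int_le_one v B
  have e : β ^ 2 + (B : v.adicCompletion K) * β + C =
      (x ^ 2 + (B : v.adicCompletion K) * x + C) - (x - β) * (x + β + B) := by ring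
  have h2 : Valued.v ((x - β) * (x + β + B)) < 1 := by
    rw [map_mul]
    refine mul_lt_one_of_lt_of_le hb ?_
    exact Valuation.map_add_le _ (Valuation.map_add_le _ hx hb1) hB
  have h3 : Valued.v (β ^ 2 + (B : v.adicCompletion K) * β + C) < 1 := by
    rw [e]
    exact Valuation.map_sub_lt _ hc h2
  rw [h1] at h3
  exact lt_irrefl _ h3

end

section

variable {q : ℕ} [NeZero q] {M : Type} [Field M] [NumberField M]
  [hM : IsCyclotomicExtension {q} ℚ M] {K : Type} [Field K] [NumberField K] [Algebra K M]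

include hM in
variable (M) in
/-- the valuation of a squarefree number prime to `q` -/
lemma val_sf (v : HeightOneSpectrum (𝓞 K)) {n : ℕ} (hsf : Squarefree n) (hnq : n.Coprime q)
    (h : (n : 𝓞 K) ∈ v.asIdeal) : v.valuation K (n : K) = exp (-1 : ℤ) := by
  obtain ⟨p, hp, hpn, hpv⟩ := Pool.Agent.Y44.XF.exists_prime_mem v hsf.ne_zero h
  have hbel : Pool.Agent.H921R2.TatePole.below v = ⟨p, hp⟩ := by
    have h1 := (Pool.Agent.H921R2.TatePole.nm_eq v).2.2
    by_contra hne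
    have h2 : ¬ (p : ℤ) ∣ ((Pool.Agent.H921R2.TatePole.below v : ℕ) : ℤ) := by
      intro hd
      apply hne
      apply Subtype.ext
      exact ((Nat.prime_dvd_prime_iff_eq hp
        (Pool.Agent.H921R2.TatePole.below v).2).1 (by exact_mod_cast hd)).symm
    apply Pool.Agent.Y813.XF.not_mem_of_not_dvd hp v hpv _ h2
    exact_mod_cast h1
  have hpq : ¬ p ∣ q := by
    intro hd
    have := Nat.dvd_gcd hpn hd
    rw [hnq] at this
    exact hp.one_lt.ne' (Nat.dvd_one.1 this)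
  have hv : v.valuation K (p : K) = exp (-1 : ℤ) :=
    Pool.Agent.Y698.val_unram q M K ⟨p, hp⟩ hpq v hbel
  obtain ⟨e, he⟩ := hpn
  have hcop : ¬ (p : ℤ) ∣ (e : ℤ) := by
    intro hd
    obtain ⟨c, hc⟩ : p ∣ e := by exact_mod_cast hd
    have : p * p ∣ n := ⟨c, by rw [he, hc]; ring⟩
    exact hp.one_lt.ne' (Nat.isUnit_iff.1 (hsf p this))
  have h2 : v.valuation K (e : K) = 1 := by
    have := Pool.Agent.Y44.XF.val_int_one v
      (Pool.Agent.Y813.XF.not_mem_of_not_dvd hp v hpv _ hcop)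
    exact_mod_cast this
  rw [he, Nat.cast_mul, map_mul, h2, mul_one]
  exact hv

include hM in
variable (M) in
/-- minimality -/
theorem minimal {n : ℕ} (hsf : Squarefree n) (h7 : n % 8 = 7) (hn14 : n.Coprime 14)
    (hnq : n.Coprime q) (v : HeightOneSpectrum (𝓞 K)) : MinimalAt (WM (-(n : ℤ))) v := by
  have hD : (-(n : ℤ)) % 4 = 1 := by omega
  intro C h1 h2 h3 h4 h6
  have h4' := Pool.Agent.Y44.XF.c4_le _ _ h1 h2 h3 h4 h6
  have hΔ := Pool.Agent.Y44.XF.disc_le _ _ h1 h2 h3 h4 h6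
  set D : ℤ := -(n : ℤ) with hDdef
  have e4 : (base (WM D) K).c₄ = ((-(215 * D ^ 2) : ℤ) : K) := by
    rw [WeierstrassCurve.map_c₄, Pool.Agent.Y44.XF.WM_c4 hD]
    simp
  have eΔ : (base (WM D) K).Δ = ((-(2 ^ 6 * 7 ^ 3 * D ^ 6) : ℤ) : K) := by
    rw [WeierstrassCurve.map_Δ, Pool.Agent.Y44.XF.WM_disc hD]
    simp
  have hD14 : IsCoprime D (14 : ℤ) := by
    rw [hDdef, IsCoprime.neg_left_iff]
    exact_mod_cast Nat.isCoprime_iff_coprime.2 hn14
  by_cases h : ((14 : ℤ) : 𝓞 K) ∈ v.asIdeal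
  · have hu : v.valuation K (base (WM D) K).c₄ = 1 := by
      rw [e4]
      apply Pool.Agent.Y44.XF.val_int_one
      apply Pool.Agent.Y44.XF.notMem_of_coprime v _ h
      have h215 : IsCoprime (215 : ℤ) 14 := by norm_num
      exact (h215.mul_left (hD14.pow_left)).neg_left
    rw [WeierstrassCurve.variableChange_c₄, map_mul, map_pow, hu, mul_one] at h4'
    rw [WeierstrassCurve.variableChange_Δ, map_mul, map_pow]
    have h5 : v.valuation K ((C.u⁻¹ : Kˣ) : K) ≤ 1 := by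
      by_contra hcon
      rw [not_le] at hcon
      exact absurd h4' (not_le.2 (one_lt_pow₀ hcon (by norm_num)))
    exact mul_le_of_le_one_left' (pow_le_one₀ zero_le h5)
  · have h2v : v.valuation K ((2 : ℤ) : K) = 1 := by
      apply Pool.Agent.Y44.XF.val_int_one
      intro h2
      apply h
      rw [show ((14 : ℤ) : 𝓞 K) = 7 * ((2 : ℤ) : 𝓞 K) by push_cast; norm_num]
      exact v.asIdeal.mul_mem_left _ h2
    have h7v : v.valuation K ((7 : ℤ) : K) = 1 := by
      apply Pool.Agent.Y44.XF.val_int_one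
      intro h7
      apply h
      rw [show ((14 : ℤ) : 𝓞 K) = 2 * ((7 : ℤ) : 𝓞 K) by push_cast; norm_num]
      exact v.asIdeal.mul_mem_left _ h7
    have eΔ' : v.valuation K (base (WM D) K).Δ = v.valuation K (D : K) ^ 6 := by
      rw [eΔ, Int.cast_neg, Valuation.map_neg, Int.cast_mul, Int.cast_mul, Int.cast_pow,
        Int.cast_pow, Int.cast_pow, map_mul, map_mul, map_pow, map_pow, map_pow, h2v, h7v,
        one_pow, one_pow, one_mul, one_mul]
    by_cases hDv : (n : 𝓞 K) ∈ v.asIdeal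
    · have hv0 := val_sf M v hsf hnq hDv
      have hv : v.valuation K (D : K) = exp (-1 : ℤ) := by
        rw [hDdef, Int.cast_neg, Valuation.map_neg, Int.cast_natCast]
        exact hv0
      rw [WeierstrassCurve.variableChange_Δ, map_mul, map_pow] at hΔ ⊢
      rw [eΔ', hv] at hΔ ⊢
      have h5 : v.valuation K ((C.u⁻¹ : Kˣ) : K) ≤ 1 := by
        by_contra hcon
        rw [not_le] at hcon
        have hne : v.valuation K ((C.u⁻¹ : Kˣ) : K) ≠ 0 := (zero_lt_one.trans hcon).ne'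
        obtain ⟨n, hn⟩ : ∃ n : ℤ, v.valuation K ((C.u⁻¹ : Kˣ) : K) = exp n :=
          ⟨_, (WithZero.exp_log hne).symm⟩
        rw [hn] at hcon hΔ
        rw [← exp_nsmul, ← exp_nsmul, ← exp_add, ← exp_zero, exp_le_exp] at hΔ
        rw [← exp_zero, exp_lt_exp] at hcon
        simp only [nsmul_eq_mul] at hΔ
        push_cast at hΔ
        omega
      exact mul_le_of_le_one_left' (pow_le_one₀ zero_le h5)
    · have hDv' : ((D : ℤ) : 𝓞 K) ∉ v.asIdeal := by
        intro hm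
        apply hDv
        rw [hDdef, Int.cast_neg, Int.cast_natCast] at hm
        exact (v.asIdeal.neg_mem_iff).1 hm
      rw [eΔ', Pool.Agent.Y44.XF.val_int_one v hDv', one_pow]
      exact hΔ

include hM in
variable (M) in
/-- the Tamagawa numbers -/
theorem tam_val [IsGalois ℚ K] (hodd : Odd (Module.finrank ℚ K)) {n : ℕ} (hsf : Squarefree n)
    (h8 : n % 8 = 7) (h77 : jacobiSym (-(n : ℤ)) 7 = -1) (hn14 : n.Coprime 14)
    (hnq : n.Coprime q) (hq14 : q.Coprime 14) (v : HeightOneSpectrum (𝓞 K)) :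
    (c (WM (-(n : ℤ))) v ≠ 0 ∧ ¬ 3 ∣ c (WM (-(n : ℤ))) v) ∧
    (((14 * n : ℕ) : 𝓞 K) ∉ v.asIdeal → c (WM (-(n : ℤ))) v = 1) := by
  have hD4 : (-(n : ℤ)) % 4 = 1 := by omega
  have hD8 : (-(n : ℤ)) % 8 = 1 := by omega
  have hcz : CharZero (v.adicCompletion K) :=
    charZero_of_injective_algebraMap (algebraMap K (v.adicCompletion K)).injective
  have hle : ∀ n : ℤ, Valued.v ((n : ℤ) : v.adicCompletion K) ≤ 1 := fun n => by
    rw [valued_int]
    exact int_le_one v n
  have hsq7 : ¬ 7 ∣ q := by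
    intro hd
    have := Nat.dvd_gcd hd (show 7 ∣ 14 by norm_num)
    rw [hq14] at this
    norm_num at this
  have hsq2 : ¬ 2 ∣ q := by
    intro hd
    have := Nat.dvd_gcd hd (show 2 ∣ 14 by norm_num)
    rw [hq14] at this
    norm_num at this
  have hn7 : ¬ 7 ∣ n := by
    intro hd
    have := Nat.dvd_gcd hd (show 7 ∣ 14 by norm_num)
    rw [hn14] at this
    norm_num at this
  by_cases hv7 : ((7 : ℕ) : 𝓞 K) ∈ v.asIdeal
  · -- 7
    have e7 : Valued.v (7 : v.adicCompletion K) = exp (-1 : ℤ) := by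
      have h1 := val_sf M v (n := 7) (Nat.Prime.prime (by norm_num : Nat.Prime 7)).squarefree ((Nat.Prime.coprime_iff_not_dvd (by norm_num)).2 hsq7) hv7
      have h2 := valued_nat v 7
      rw [h1] at h2
      exact_mod_cast h2
    have hDv : Valued.v (((-(n : ℤ) : ℤ)) : v.adicCompletion K) = 1 := by
      apply Pool.Agent.Y813.XF.val_int_one
      apply Pool.Agent.Y813.XF.not_mem_of_not_dvd (by norm_num : Nat.Prime 7) v hv7
      intro hd
      rw [dvd_neg] at hd
      exact hn7 (by exact_mod_cast hd)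
    have h1 : c (WM (-(n : ℤ))) v = 1 := by
      refine tam7 Valued.v hle hD4 e7 hDv ?_
      intro x hx
      have h2 := lift_ne v (B := 0) (C := -(-(n : ℤ))) (fun b => by
        have h3 := no_sqrt' hodd v (by norm_num : Nat.Prime 7) (by norm_num) hv7 h77 b
        intro h4
        apply h3
        have e : b ^ 2 - ((-(n : ℤ) : ℤ) : 𝓞 K) = b ^ 2 + ((0 : ℤ) : 𝓞 K) * b +
          ((-(-(n : ℤ)) : ℤ) : 𝓞 K) := by push_cast; ring
        rw [e]
        exact h4) x hx
      have e : x ^ 2 - ((-(n : ℤ) : ℤ) : v.adicCompletion K) = x ^ 2 +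
          ((0 : ℤ) : v.adicCompletion K) * x +
          ((-(-(n : ℤ)) : ℤ) : v.adicCompletion K) := by push_cast; ring
      rw [e]
      exact h2
    rw [h1]
    exact ⟨⟨one_ne_zero, by norm_num⟩, fun _ => rfl⟩
  by_cases hv2 : ((2 : ℕ) : 𝓞 K) ∈ v.asIdeal
  · -- 2
    have e2 : Valued.v (2 : v.adicCompletion K) = exp (-1 : ℤ) := by
      have h1 := val_sf M v (n := 2) Nat.prime_two.prime.squarefree
        ((Nat.Prime.coprime_iff_not_dvd Nat.prime_two).2 hsq2) hv2
      have h2 := valued_nat v 2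
      rw [h1] at h2
      exact_mod_cast h2
    have h1 : c (WM (-(n : ℤ))) v = 2 := by
      refine tam2 Valued.v hle hD8 e2 ?_
      intro x hx
      have h2 := lift_ne v (B := 1) (C := 1) (fun b => by
        have h3 := no_cube_root hodd v (by exact_mod_cast hv2) b
        intro h4
        apply h3
        have e : b ^ 2 + b + 1 = b ^ 2 + ((1 : ℤ) : 𝓞 K) * b + ((1 : ℤ) : 𝓞 K) := by
          push_cast; ring
        rw [e]
        exact h4) x hx
      have e : x ^ 2 + x + 1 = x ^ 2 + ((1 : ℤ) : v.adicCompletion K) * x +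
          ((1 : ℤ) : v.adicCompletion K) := by push_cast; ring
      rw [e]
      exact h2
    rw [h1]
    refine ⟨⟨by norm_num, by norm_num⟩, fun h => absurd ?_ h⟩
    rw [Nat.cast_mul]
    have : ((14 : ℕ) : 𝓞 K) = ((7 : ℕ) : 𝓞 K) * ((2 : ℕ) : 𝓞 K) := by push_cast; norm_num
    rw [this]
    exact Ideal.mul_mem_right _ _ (Ideal.mul_mem_left _ _ hv2)
  have hv14 : ((14 : ℤ) : 𝓞 K) ∉ v.asIdeal := by
    have e : ((14 : ℤ) : 𝓞 K) = ((2 : ℕ) : 𝓞 K) * ((7 : ℕ) : 𝓞 K) := by
      push_cast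
      norm_num
    rw [e]
    intro h
    rcases v.isPrime.mem_or_mem h with h | h
    · exact hv2 h
    · exact hv7 h
  have e14 : Valued.v (14 : v.adicCompletion K) = 1 := by
    have := Pool.Agent.Y813.XF.val_int_one v 14 hv14
    exact_mod_cast this
  have e2 : Valued.v (2 : v.adicCompletion K) = 1 := by
    have := Pool.Agent.Y813.XF.val_int_one v 2 (by exact_mod_cast hv2)
    exact_mod_cast this
  by_cases hvn : ((n : ℕ) : 𝓞 K) ∈ v.asIdeal
  · have eD : Valued.v (((-(n : ℤ) : ℤ)) : v.adicCompletion K) = exp (-1 : ℤ) := by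
      have h1 := val_sf M v hsf hnq hvn
      rw [valued_int, Int.cast_neg, Valuation.map_neg, Int.cast_natCast]
      exact h1
    have h3 : c (WM (-(n : ℤ))) v = 2 ∨ c (WM (-(n : ℤ))) v = 4 := by
      by_cases hx : ∀ x : v.adicCompletion K, Valued.v x ≤ 1 → Valued.v (x ^ 2 + 7) = 1
      · left
        exact Pool.Agent.Y641.XF.s_ti (-(n : ℤ)) hD4 (v.adicCompletion K) Valued.v hle e14 eD hx
      · right
        push Not at hx
        obtain ⟨x, hx1, hx2⟩ := hx
        refine Pool.Agent.Y641.XF.s_ts (-(n : ℤ)) hD4 (v.adicCompletion K) Valued.v hle e14 eD ?_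
        have hx3 : Valued.v (x ^ 2 + 7) < 1 := by
          refine lt_of_le_of_ne ?_ hx2
          refine Valuation.map_add_le _ ?_ ?_
          · rw [map_pow]; exact pow_le_one₀ zero_le hx1
          · have := hle 7
            exact_mod_cast this
        have hne : ∃ b : 𝓞 K, b ^ 2 + ((0 : ℤ) : 𝓞 K) * b + ((7 : ℤ) : 𝓞 K) ∈ v.asIdeal := by
          by_contra hcon
          push Not at hcon
          apply lift_ne v hcon x hx1
          have e : x ^ 2 + ((0 : ℤ) : v.adicCompletion K) * x +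
            ((7 : ℤ) : v.adicCompletion K) = x ^ 2 + 7 := by push_cast; ring
          rw [e]
          exact hx3
        obtain ⟨b, hb⟩ := hne
        have h7v : Valued.v ((-7 : ℤ) : v.adicCompletion K) = 1 := by
          apply Pool.Agent.Y813.XF.val_int_one
          intro hm
          apply hv7
          have : ((-7 : ℤ) : 𝓞 K) = -((7 : ℕ) : 𝓞 K) := by push_cast; rfl
          rw [this] at hm
          exact (v.asIdeal.neg_mem_iff).1 hm
        have h4 := Pool.Agent.Y813.XF.sq_lift v e2 (m := -7) (y := b) (by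
          have e : ((-7 : ℤ) : 𝓞 K) - b * b = -(b ^ 2 + ((0 : ℤ) : 𝓞 K) * b + ((7 : ℤ) : 𝓞 K)) := by
            push_cast; ring
          rw [e]
          exact neg_mem hb) h7v
        push_cast at h4
        exact h4
    refine ⟨?_, fun h => absurd ?_ h⟩
    · rcases h3 with h3 | h3 <;> rw [h3] <;> norm_num
    · rw [Nat.cast_mul]
      exact Ideal.mul_mem_left _ _ hvn
  · have h1 : c (WM (-(n : ℤ))) v = 1 := by
      show (E0 (WM (-(n : ℤ))) (v.adicCompletion K) Valued.v).index = 1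
      have hDv : Valued.v (((-(n : ℤ) : ℤ)) : v.adicCompletion K) = 1 := by
        apply Pool.Agent.Y813.XF.val_int_one
        intro hm
        apply hvn
        rw [Int.cast_neg, Int.cast_natCast] at hm
        exact (v.asIdeal.neg_mem_iff).1 hm
      rw [Pool.Agent.Y641.XF.s_tg (-(n : ℤ)) hD4 (v.adicCompletion K) Valued.v hle e14 hDv]
      exact AddSubgroup.index_top
    rw [h1]
    exact ⟨⟨one_ne_zero, by norm_num⟩, fun _ => rfl⟩

include hM in
variable (M) in
/-- the product of the Tamagawa numbers -/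
theorem tam_all [IsGalois ℚ K] (hodd : Odd (Module.finrank ℚ K)) {n : ℕ} (hsf : Squarefree n)
    (h8 : n % 8 = 7) (h77 : jacobiSym (-(n : ℤ)) 7 = -1) (hn14 : n.Coprime 14)
    (hnq : n.Coprime q) (hq14 : q.Coprime 14) :
    {v : HeightOneSpectrum (𝓞 K) | c (WM (-(n : ℤ))) v ≠ 1}.Finite ∧
    0 < Tam K (WM (-(n : ℤ))) ∧ ¬ 3 ∣ Tam K (WM (-(n : ℤ))) := by
  have hv := tam_val M hodd hsf h8 h77 hn14 hnq hq14 (K := K)
  have hfin : {v : HeightOneSpectrum (𝓞 K) | c (WM (-(n : ℤ))) v ≠ 1}.Finite := by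
    have h0 : Ideal.span {((14 * n : ℕ) : 𝓞 K)} ≠ 0 := by
      rw [Ideal.zero_eq_bot, Ne, Ideal.span_singleton_eq_bot]
      exact Nat.cast_ne_zero.2 (mul_ne_zero (by norm_num) hsf.ne_zero)
    refine (Ideal.finite_factors h0).subset ?_
    intro v hvn
    by_contra hcon
    apply hvn
    apply (hv v).2
    intro hm
    apply hcon
    show v.asIdeal ∣ _
    rw [Ideal.dvd_span_singleton]
    exact hm
  refine ⟨hfin, ?_⟩
  have h1 : Tam K (WM (-(n : ℤ))) ≠ 0 ∧ ¬ 3 ∣ Tam K (WM (-(n : ℤ))) := by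
    unfold Tam
    refine finprod_induction (fun x : ℕ => x ≠ 0 ∧ ¬ 3 ∣ x) ⟨one_ne_zero, by norm_num⟩ ?_
      (fun v => (hv v).1)
    rintro x y ⟨h1, h2⟩ ⟨h3, h4⟩
    refine ⟨mul_ne_zero h1 h3, ?_⟩
    rw [Nat.prime_three.dvd_mul]
    rintro (h | h)
    · exact h2 h
    · exact h4 h
  exact ⟨Nat.pos_of_ne_zero h1.1, h1.2⟩

end

end Pool.Agent.K4H1.BX
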