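import Pool.Agent.K4H1.BX.MW
import Pool.Agent.K4H1.BX.AnW
import Pool.Agent.K4H1.BX.TamG
import Pool.Agent.Y665.XF.Tord
import Pool.Agent.Y532.XF.Ch
import Pool.Agent.Y614.XF.Perd

/-!
# The main theorem
-/

set_option autoImplicit false
set_option linter.unusedSectionVars false

open Finset NumberField NumberField.InfinitePlace IsDedekindDomain WeierstrassCurve MeasureTheory
  Filter Topology IsCyclotomicExtension.Rat H300.HW

namespace Pool.Agent.K4H1.BX

open scoped Classical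

open Pool.Agent.TH841.NF.D (Sha)
open Pool.Agent.Y700 (WM)
open Pool.Agent.Y682.XT Pool.Agent.Y682.XF Pool.Agent.Y682.XD

/-- The complex period. -/
noncomputable def complexPeriod (W : WeierstrassCurve ℤ) : ℝ := 2 * (2 * ∫ x : ℂ, 1 / ‖cubic W x‖)

/-- The global period. -/
noncomputable def Omega (K : Type) [Field K] [NumberField K] (W : WeierstrassCurve ℤ) : ℝ :=
  realPeriod W ^ nrRealPlaces K * complexPeriod W ^ nrComplexPlaces K

/-- `x` is the analytic order of the Tate-Shafarevich group, and `n` is the order of vanishing of the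
`L`-function. -/
def IsAn (K : Type) [Field K] [NumberField K] (W : WeierstrassCurve ℤ) (n : ℕ) (x : ℂ) : Prop :=
  ∃ (L : ℂ → ℂ) (l : ℂ) (h : (base W K).toAffine.Point → ℝ) (r : ℕ)
    (g : Fin r → (base W K).toAffine.Point), Differentiable ℂ L ∧
    (∀ s : ℂ, 3 / 2 < s.re → HasProd (factor (K := K) W s) (L s)) ∧
    analyticOrderAt L 1 = n ∧ Tendsto (fun s => L s / (s - 1) ^ n) (𝓝[≠] 1) (𝓝 l) ∧
    IsHeight K W h ∧ IsBasis K W g ∧ 0 < reg K W h g ∧ 0 < Omega K W ∧ 0 < Tam K W ∧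
    0 < Nat.card (tors K W) ∧
    x = l * ((√|(discr K : ℝ)| : ℝ) : ℂ) * (Nat.card (tors K W) : ℂ) ^ 2 /
      (((reg K W h g * Omega K W * Tam K W : ℝ)) : ℂ)

lemma cop14 {n q : ℕ} (hn : Squarefree n) (h8 : n % 8 = 7) (h77 : jacobiSym (-(n : ℤ)) 7 = -1) :
    n.Coprime 14 := by
  have hodd : Odd n := Nat.odd_iff.2 (by omega)
  have h7n : ¬ 7 ∣ n := by
    intro hd
    have : jacobiSym (-(n : ℤ)) 7 = 0 := by
      rw [jacobiSym.eq_zero_iff_not_coprime]
      intro hg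
      rw [Int.neg_gcd] at hg
      have h1 : (7 : ℕ) ∣ Int.gcd (n : ℤ) (7 : ℕ) := by
        rw [Int.gcd_natCast_natCast]
        exact Nat.dvd_gcd hd dvd_rfl
      rw [hg] at h1
      norm_num at h1
    rw [this] at h77
    norm_num at h77
  rw [show 14 = 2 * 7 by norm_num]
  refine Nat.Coprime.mul_right (Nat.coprime_two_right.2 hodd) ?_
  rw [Nat.coprime_comm, Nat.Prime.coprime_iff_not_dvd (by norm_num)]
  exact h7n

lemma tors_all (K : Type) [Field K] [NumberField K] (W : WeierstrassCurve ℤ)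
    [Finite (base W K).toAffine.Point] : tors K W = Set.univ := by
  refine Set.eq_univ_of_forall fun P => ?_
  have h1 : Nat.card (base W K).toAffine.Point • P = 0 := card_nsmul_eq_zero'
  exact ⟨_, Nat.card_pos, h1⟩

theorem mainX {n q : ℕ} [NeZero q] (hn : Squarefree n) (h8 : n % 8 = 7) (h3 : ¬ 3 ∣ n)
    (h77 : jacobiSym (-(n : ℤ)) 7 = -1) (L : Type) [Field L] [NumberField L]
    (hL : Module.finrank ℚ L = 2) (x : L) (hx : x ^ 2 = -(n : L))
    (hcl : ¬ 3 ∣ Fintype.card (ClassGroup (𝓞 L)))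
    (hq : Squarefree q)
    (hqp : ∀ l : ℕ, l.Prime → l ∣ q → l % 3 = 1 ∧ jacobiSym (-(n : ℤ)) l = -1 ∧ l ≠ 7)
    (M : Type) [Field M] [NumberField M] [IsCyclotomicExtension {q} ℚ M]
    (K : IntermediateField ℚ M) {k : ℕ} (hk : Module.finrank ℚ K = 3 ^ k) :
    (∀ v : HeightOneSpectrum (𝓞 K), MinimalAt (WM (-(n : ℤ))) v) ∧
    {v : HeightOneSpectrum (𝓞 K) | c (WM (-(n : ℤ))) v ≠ 1}.Finite ∧
    Finite (base (WM (-(n : ℤ))) K).toAffine.Point ∧
    ¬ 3 ∣ Nat.card (base (WM (-(n : ℤ))) K).toAffine.Point ∧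
    rank K (WM (-(n : ℤ))) = 0 ∧
    (∀ s : Sha (base (WM (-(n : ℤ))) K), 3 • s = 0 → s = 0) ∧
    ∃ r : ℚ, r ≠ 0 ∧ padicValRat 3 r = 0 ∧ IsAn K (WM (-(n : ℤ))) 0 r := by
  have hD4 : (-(n : ℤ)) % 4 = 1 := by omega
  have hn14 : n.Coprime 14 := cop14 (q := q) hn h8 h77
  have hn0 : n ≠ 0 := hn.ne_zero
  have hz1 : NeZero n := ⟨hn0⟩
  have hz2 : NeZero (q * n) := ⟨Nat.mul_ne_zero (NeZero.ne q) hn0⟩
  have hq14 : q.Coprime 14 := by
    refine Nat.coprime_of_dvd ?_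
    intro p hp hpq hp14
    obtain ⟨q3, -, q7⟩ := hqp p hp hpq
    rw [show 14 = 2 * 7 by norm_num, hp.dvd_mul] at hp14
    rcases hp14 with hd | hd
    · have := (Nat.prime_dvd_prime_iff_eq hp Nat.prime_two).1 hd
      rw [this] at q3
      norm_num at q3
    · exact q7 ((Nat.prime_dvd_prime_iff_eq hp (by norm_num)).1 hd)
  have hqn : q.Coprime n := by
    refine Nat.coprime_of_dvd ?_
    intro p hp hpq hpn
    obtain ⟨-, hj, -⟩ := hqp p hp hpq
    have : jacobiSym (-(n : ℤ)) p = 0 := by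
      haveI : NeZero p := ⟨hp.ne_zero⟩
      rw [jacobiSym.eq_zero_iff_not_coprime]
      intro hgd
      rw [Int.neg_gcd, Int.gcd_natCast_natCast] at hgd
      have := Nat.dvd_gcd hpn (dvd_refl p)
      rw [hgd] at this
      exact hp.one_lt.ne' (Nat.dvd_one.1 this)
    rw [this] at hj
    norm_num at hj
  have hGal : IsGalois ℚ K := by
    have h1 : IsAbelianGalois ℚ M := IsCyclotomicExtension.isAbelianGalois {q} ℚ M
    exact @IsAbelianGalois.toIsGalois ℚ K _ _ (IntermediateField.algebra' K) inferInstance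
  have hodd : Odd (Module.finrank ℚ K) := by
    rw [hk]
    exact Odd.pow (by decide)
  -- the algebraic part
  obtain ⟨hfin, hcard3, hsha, hrk⟩ := alg_W Pool.Agent.Y532.XF.t_ch Pool.Agent.Y665.XF.t_TORD
    (NeZero.ne q) ⟨hn, h8, h3, h77, fun l hl hd => ⟨(hqp l hl hd).1, (hqp l hl hd).2.1⟩⟩ L hL x hx
    hcl M K hk
  -- the local part
  have hmin := fun v => minimal (K := K) M hn h8 hn14 hqn.symm v
  obtain ⟨hTf, hT0, hT3⟩ := tam_all (K := K) M hodd hn h8 h77 hn14 hqn.symm hq14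
  -- the analytic part
  obtain ⟨P, Op, Om, e, hOp, g2, g3, hP, hNs⟩ := exists_nsy
  have h7n : jacobiSym 7 n = -1 := by
    have := jac_rec (n := n) (l := 7) (by omega) (by decide)
    rw [← h77]
    exact_mod_cast this.symm
  obtain ⟨G, hG, hE, hre, N, hN3, hval⟩ := ana3 (K := K) hq hq14 hqn hn h8 hn14 hNs hk
    (fun f hf => SS_ne hNs hn h8 h7n L hL x hx hcl f (hq.squarefree_of_dvd hf)
      (fun l hl hlf => hqp l hl (hlf.trans hf)))
  -- the field is totally real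
  have hreK : IsRe q M K := isRe_odd hodd
  obtain ⟨φ, -⟩ := exists_phi q M
  have hcplx : nrComplexPlaces K = 0 := nr_real (φ := φ) hreK
  have hrp : nrRealPlaces K = Module.finrank ℚ K := by
    have := card_add_two_mul_card_eq_rank K
    rw [← this, hcplx, mul_zero, add_zero]
  -- the period
  have hsn : 0 < √(n : ℝ) := Real.sqrt_pos.2 (by exact_mod_cast Nat.pos_of_ne_zero hn0)
  set w : ℝ := Om / √(n : ℝ) with hw
  have hw0 : 0 < w := div_pos hNs.pos hsn
  have hper : realPeriod (WM (-(n : ℤ))) = 2 * w := by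
    rw [Pool.Agent.Y614.XF.perd P Op Om hOp hNs.pos g2 g3 hP (-(n : ℤ)) hD4,
      if_neg (by omega), hw]
    push_cast
    rw [abs_neg, Nat.abs_cast]
    ring
  have hOK : Omega K (WM (-(n : ℤ))) = (2 * w) ^ Module.finrank ℚ K := by
    unfold Omega
    rw [hper, hcplx, hrp, pow_zero, mul_one]
  -- the height
  obtain ⟨h, hh, -, -, hb, g, hg⟩ := Pool.Agent.Y532.XF.t_ch K (WM (-(n : ℤ))) (WM_disc_ne hD4)
  obtain ⟨g', hg'⟩ : ∃ g' : Fin 0 → (base (WM (-(n : ℤ))) K).toAffine.Point,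
      IsBasis K (WM (-(n : ℤ))) g' := by
    rw [← hrk]
    exact ⟨g, hg⟩
  have hreg : reg K (WM (-(n : ℤ))) h g' = 1 := by
    unfold reg
    exact Matrix.det_fin_zero
  -- the torsion
  have htors : tors K (WM (-(n : ℤ))) = Set.univ := by
    exact tors_all K _
  set t := Nat.card (tors K (WM (-(n : ℤ)))) with ht
  have ht1 : t = Nat.card (base (WM (-(n : ℤ))) K).toAffine.Point := by
    rw [ht, htors]
    exact Nat.card_congr (Equiv.Set.univ _)
  have ht0 : 0 < t := by rw [ht1]; exact Nat.card_pos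
  have ht3 : ¬ 3 ∣ t := by rw [ht1]; exact hcard3
  set T := Tam K (WM (-(n : ℤ))) with hT
  set m := Module.finrank ℚ K with hm
  have hN0 : N ≠ 0 := by
    rintro rfl
    exact hN3 (dvd_zero 3)
  -- the sign
  obtain ⟨σ, hσ, hGσ⟩ : ∃ σ : ℤ, (σ = 1 ∨ σ = -1) ∧ G 1 = (σ : ℂ) * ((‖G 1‖ : ℝ) : ℂ) := by
    have h1 : G 1 = ((G 1).re : ℂ) := Complex.ext rfl (by rw [Complex.ofReal_im]; exact hre)
    have h2 : ‖G 1‖ = |(G 1).re| := by
      conv_lhs => rw [h1]
      rw [Complex.norm_real, Real.norm_eq_abs]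
    rcases le_or_gt 0 (G 1).re with h3 | h3
    · refine ⟨1, Or.inl rfl, ?_⟩
      rw [h2, abs_of_nonneg h3, ← h1]
      push_cast; ring
    · refine ⟨-1, Or.inr rfl, ?_⟩
      rw [h2, abs_of_neg h3]
      push_cast
      rw [← h1]; ring
  have hdK : 0 < √|(discr K : ℝ)| := by
    refine Real.sqrt_pos.2 (abs_pos.2 ?_)
    exact_mod_cast discr_ne_zero K
  have hGne : G 1 ≠ 0 := by
    intro h0
    rw [h0, norm_zero, zero_mul] at hval
    have h4 : 0 < |(N : ℝ)| * w ^ m := mul_pos (abs_pos.2 (by exact_mod_cast hN0)) (pow_pos hw0 _)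
    linarith
  refine ⟨hmin, hTf, hfin, hcard3, hrk, hsha,
    (σ * N.natAbs * t ^ 2 : ℚ) / (2 ^ m * T), ?_, ?_, G, G 1, h, 0, g', hG, hE, ?_, ?_, hh, hg', ?_, ?_,
    hT0, ht0, ?_⟩
  · refine div_ne_zero (mul_ne_zero (mul_ne_zero ?_ ?_) ?_) (mul_ne_zero ?_ ?_)
    · rcases hσ with rfl | rfl <;> norm_num
    · have : N.natAbs ≠ 0 := Int.natAbs_ne_zero.2 hN0
      exact_mod_cast this
    · exact pow_ne_zero _ (by exact_mod_cast ht0.ne')
    · exact pow_ne_zero _ two_ne_zero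
    · exact_mod_cast hT0.ne'
  · have hfact : Fact (Nat.Prime 3) := ⟨Nat.prime_three⟩
    have e1 : ((σ * N.natAbs * t ^ 2 : ℚ) / (2 ^ m * T)) =
        ((σ * (N.natAbs : ℤ) * t ^ 2 : ℤ) : ℚ) / ((2 ^ m * T : ℤ) : ℚ) := by
      rw [Int.cast_mul, Int.cast_mul, Int.cast_natCast]
      push_cast; ring
    have hp3 : Prime (3 : ℤ) := Int.prime_three
    have hσ3 : ¬ (3 : ℤ) ∣ σ := by rcases hσ with rfl | rfl <;> norm_num
    have hA : ¬ (3 : ℤ) ∣ (σ * (N.natAbs : ℤ) * t ^ 2 : ℤ) := by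
      intro hd
      rcases hp3.dvd_or_dvd hd with hd | hd
      · rcases hp3.dvd_or_dvd hd with hd | hd
        · exact hσ3 hd
        · exact hN3 (Int.dvd_natAbs.1 hd)
      · exact ht3 (by exact_mod_cast hp3.dvd_of_dvd_pow hd)
    have hB : ¬ (3 : ℤ) ∣ (2 ^ m * T : ℤ) := by
      intro hd
      rcases hp3.dvd_or_dvd hd with hd | hd
      · have := hp3.dvd_of_dvd_pow hd
        norm_num at this
      · exact hT3 (by exact_mod_cast hd)
    have hA0 : ((σ * (N.natAbs : ℤ) * t ^ 2 : ℤ) : ℚ) ≠ 0 := by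
      intro h0
      have : (σ * (N.natAbs : ℤ) * t ^ 2 : ℤ) = 0 := Int.cast_eq_zero.1 h0
      exact hA (by rw [this]; exact dvd_zero _)
    have hB0 : ((2 ^ m * T : ℤ) : ℚ) ≠ 0 := by
      intro h0
      have : (2 ^ m * T : ℤ) = 0 := Int.cast_eq_zero.1 h0
      exact hB (by rw [this]; exact dvd_zero _)
    rw [e1, padicValRat.div hA0 hB0, padicValRat.of_int, padicValRat.of_int,
      padicValInt.eq_zero_of_not_dvd (by exact_mod_cast hA),
      padicValInt.eq_zero_of_not_dvd (by exact_mod_cast hB), sub_self]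
  · exact analyticOrderAt_eq_zero.2 (Or.inr hGne)
  · have h1 : Tendsto (fun s => G s / (s - 1) ^ 0) (𝓝[≠] 1) (𝓝 (G 1)) := by
      simp only [pow_zero, div_one]
      exact (hG.continuous.tendsto 1).mono_left nhdsWithin_le_nhds
    exact h1
  · rw [hreg]; exact one_pos
  · rw [hOK]; exact pow_pos (mul_pos two_pos hw0) _
  · rw [hreg, hOK]
    have h5 : G 1 * ((√|(discr K : ℝ)| : ℝ) : ℂ) = (σ : ℂ) * ((|(N : ℝ)| * w ^ m : ℝ) : ℂ) := by
      rw [← hval, hGσ]
      push_cast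
      have : ‖((σ : ℂ) * ((‖G 1‖ : ℝ) : ℂ))‖ = ‖G 1‖ := by rw [← hGσ]
      rw [this]
      ring
    rw [h5]
    have hwm : (w : ℂ) ^ m ≠ 0 := pow_ne_zero _ (by exact_mod_cast hw0.ne')
    have hTc : (T : ℂ) ≠ 0 := by exact_mod_cast hT0.ne'
    have hNa : ((|(N : ℝ)| : ℝ) : ℂ) = (N.natAbs : ℂ) := by
      rw [← Complex.ofReal_natCast, Nat.cast_natAbs, Int.cast_abs]
    rw [Complex.ofReal_mul, hNa, Complex.ofReal_pow]
    rw [Rat.cast_div, Rat.cast_mul, Rat.cast_mul, Rat.cast_intCast, Rat.cast_natCast,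
      Rat.cast_pow, Rat.cast_natCast, Rat.cast_mul, Rat.cast_pow, Rat.cast_ofNat,
      Rat.cast_natCast]
    rw [one_mul, Complex.ofReal_mul, Complex.ofReal_pow, Complex.ofReal_mul, Complex.ofReal_ofNat,
      Complex.ofReal_natCast, mul_pow, ← ht, ← hT]
    field_simp

end Pool.Agent.K4H1.BX
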