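import Pool.Agent.K4H1.BX.Ram

/-!
# The construction of the big field
-/

set_option autoImplicit false
set_option linter.unusedSectionVars false

open NumberField IsDedekindDomain WithZero Module

open scoped WithZero

namespace Pool.Agent.K4H1.BX

lemma normal_of_two {K : Type} [Field K] [Algebra ℚ K] (h : finrank ℚ K = 2) : Normal ℚ K := by
  have : Algebra.IsQuadraticExtension ℚ K := ⟨h⟩
  infer_instance

theorem exists_M (F : Type) [Field F] [NumberField F] [IsGalois ℚ F] (L : Type) [Field L]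
    [NumberField L] (hL : finrank ℚ L = 2) {m : ℤ} {x : L} (hx : x ^ 2 = m)
    (hm : ¬ IsSquare (m : ℚ)) :
    ∃ (M : Type) (_ : Field M) (_ : NumberField M) (_ : Algebra F M) (_ : Algebra L M),
      IsGalois ℚ M ∧ ∃ t : M, t ^ 2 = -3 ∧
        IntermediateField.adjoin F {t, algebraMap L M x} = ⊤ := by
  obtain ⟨i₁, hi₁⟩ : ∃ i₁ : F →ₐ[ℚ] AlgebraicClosure F, i₁ = IsScalarTower.toAlgHom ℚ F _ :=
    ⟨_, rfl⟩
  obtain ⟨i₂⟩ : Nonempty (L →ₐ[ℚ] AlgebraicClosure F) := ⟨IsAlgClosed.lift⟩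
  obtain ⟨θ, hθ⟩ := IsAlgClosed.exists_pow_nat_eq (-3 : AlgebraicClosure F) (n := 2) (by norm_num)
  have hLq : Algebra.IsQuadraticExtension ℚ L := ⟨hL⟩
  let e1 := AlgEquiv.ofBijective i₁.rangeRestrict
      ⟨RingHom.injective _, AlgHom.rangeRestrict_surjective _⟩
  let e2 := AlgEquiv.ofBijective i₂.rangeRestrict
      ⟨RingHom.injective _, AlgHom.rangeRestrict_surjective _⟩
  have n1 : @Normal ℚ i₁.fieldRange _ _ (IntermediateField.algebra' _) := Normal.of_algEquiv e1
  have n2 : @Normal ℚ i₂.fieldRange _ _ (IntermediateField.algebra' _) := Normal.of_algEquiv e2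
  have f1 : @FiniteDimensional ℚ i₁.fieldRange _ _ (IntermediateField.module' _) :=
    e1.toLinearEquiv.finiteDimensional
  have f2 : @FiniteDimensional ℚ i₂.fieldRange _ _ (IntermediateField.module' _) :=
    e2.toLinearEquiv.finiteDimensional
  have hθ' : θ ^ 2 = ((-3 : ℤ) : AlgebraicClosure F) := by rw [hθ]; push_cast; rfl
  have hirr : Irreducible (Polynomial.X ^ 2 - Polynomial.C (((-3 : ℤ)) : ℚ)) := by
    apply X_pow_sub_C_irreducible_of_prime Nat.prime_two
    intro b hb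
    push_cast at hb
    nlinarith [sq_nonneg b]
  have hev : Polynomial.aeval θ (Polynomial.X ^ 2 - Polynomial.C (((-3 : ℤ)) : ℚ)) = 0 := by
    rw [map_sub, map_pow, Polynomial.aeval_X, Polynomial.aeval_C, hθ', map_intCast, sub_self]
  have hmon : (Polynomial.X ^ 2 - Polynomial.C (((-3 : ℤ)) : ℚ)).Monic :=
    Polynomial.monic_X_pow_sub_C _ two_ne_zero
  have hint : IsIntegral ℚ θ := ⟨_, hmon, hev⟩
  have hfr : finrank ℚ (IntermediateField.adjoin ℚ {θ}) = 2 := by
    rw [IntermediateField.adjoin.finrank hint, ← minpoly.eq_of_irreducible_of_monic hirr hev hmon,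
      Polynomial.natDegree_X_pow_sub_C]
  have f3 : FiniteDimensional ℚ (IntermediateField.adjoin ℚ {θ}) :=
    FiniteDimensional.of_finrank_pos (by rw [hfr]; norm_num)
  have n3 : @Normal ℚ (IntermediateField.adjoin ℚ {θ}) _ _ (IntermediateField.algebra' _) := by
    apply normal_of_two
    exact hfr
  let M : IntermediateField ℚ (AlgebraicClosure F) :=
    i₁.fieldRange ⊔ i₂.fieldRange ⊔ IntermediateField.adjoin ℚ {θ}
  have n12 : Normal ℚ ↥(i₁.fieldRange ⊔ i₂.fieldRange) := IntermediateField.normal_sup _ _ _ _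
  have f12 : FiniteDimensional ℚ ↥(i₁.fieldRange ⊔ i₂.fieldRange) :=
    IntermediateField.finiteDimensional_sup _ _
  have nM : Normal ℚ M := IntermediateField.normal_sup _ _ _ _
  have fM : FiniteDimensional ℚ M := IntermediateField.finiteDimensional_sup _ _
  have hnum : NumberField M := { to_charZero := inferInstance, to_finiteDimensional := fM }
  have l1 : i₁.fieldRange ≤ M := le_sup_left.trans le_sup_left
  have l2 : i₂.fieldRange ≤ M := le_sup_right.trans le_sup_left
  have l3 : IntermediateField.adjoin ℚ {θ} ≤ M := le_sup_right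
  let j₁ : F →+* M := (i₁.codRestrict M.toSubalgebra (fun x => l1 ⟨x, rfl⟩) :
    F →ₐ[ℚ] M.toSubalgebra)
  let j₂ : L →+* M := (i₂.codRestrict M.toSubalgebra (fun x => l2 ⟨x, rfl⟩) :
    L →ₐ[ℚ] M.toSubalgebra)
  have hj₁ : ∀ x, ((j₁ x : M) : AlgebraicClosure F) = i₁ x := fun x => rfl
  have hj₂ : ∀ x, ((j₂ x : M) : AlgebraicClosure F) = i₂ x := fun x => rfl
  let a1 : Algebra F M := j₁.toAlgebra
  let a2 : Algebra L M := j₂.toAlgebra
  have ha1 : ∀ x : F, ((algebraMap F M x : M) : AlgebraicClosure F) = i₁ x := fun x => rfl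
  have ha2 : ∀ x : L, ((algebraMap L M x : M) : AlgebraicClosure F) = i₂ x := fun x => rfl
  have hgal : IsGalois ℚ M := ⟨⟩
  have hθM : θ ∈ M := l3 (IntermediateField.mem_adjoin_simple_self ℚ θ)
  refine ⟨M, inferInstance, hnum, a1, a2, hgal, ⟨θ, hθM⟩, ?_, ?_⟩
  · apply Subtype.ext
    show θ ^ 2 = _
    rw [hθ]
    rfl
  · obtain ⟨K', hK'⟩ : ∃ K' : IntermediateField F M, K' =
      IntermediateField.adjoin F {(⟨θ, hθM⟩ : M), algebraMap L M x} := ⟨_, rfl⟩
    rw [← hK']
    -- the image in the closure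
    let K₂ : IntermediateField ℚ (AlgebraicClosure F) :=
      { carrier := {z | ∃ y ∈ K', (y : AlgebraicClosure F) = z}
        mul_mem' := by
          rintro _ _ ⟨y, hy, rfl⟩ ⟨y', hy', rfl⟩
          exact ⟨y * y', mul_mem hy hy', rfl⟩
        add_mem' := by
          rintro _ _ ⟨y, hy, rfl⟩ ⟨y', hy', rfl⟩
          exact ⟨y + y', add_mem hy hy', rfl⟩
        algebraMap_mem' := fun r => by
          refine ⟨algebraMap F M (algebraMap ℚ F r), K'.algebraMap_mem _, ?_⟩
          rw [ha1, i₁.commutes]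
        inv_mem' := by
          rintro _ ⟨y, hy, rfl⟩
          exact ⟨y⁻¹, inv_mem hy, rfl⟩ }
    have hmem : ∀ z, z ∈ K₂ ↔ ∃ y ∈ K', (y : AlgebraicClosure F) = z := fun z => Iff.rfl
    have hθK : θ ∈ K₂ := (hmem _).2 ⟨⟨θ, hθM⟩, by
      rw [hK']
      exact IntermediateField.subset_adjoin F _ (Set.mem_insert _ _), rfl⟩
    have hxK : i₂ x ∈ K₂ := (hmem _).2 ⟨algebraMap L M x, by
      rw [hK']
      exact IntermediateField.subset_adjoin F _ (Set.mem_insert_of_mem _ rfl), rfl⟩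
    obtain ⟨Q, hQ⟩ := exists_Qd L hL hx hm
    have hle : M ≤ K₂ := by
      refine sup_le (sup_le ?_ ?_) ?_
      · rintro _ ⟨y, rfl⟩
        exact (hmem _).2 ⟨algebraMap F M y, K'.algebraMap_mem _, rfl⟩
      · rintro _ ⟨y, rfl⟩
        obtain ⟨u, v, rfl⟩ := Q.gen y
        show i₂ (u + v * Q.y) ∈ K₂
        rw [map_add, map_mul, hQ, map_ratCast, map_ratCast]
        exact add_mem (K₂.algebraMap_mem u) (mul_mem (K₂.algebraMap_mem v) hxK)
      · rw [IntermediateField.adjoin_le_iff]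
        rintro _ rfl
        exact hθK
    rw [eq_top_iff]
    intro z _
    obtain ⟨y, hy, hyz⟩ := (hmem _).1 (hle z.2)
    have : y = z := Subtype.ext hyz
    rw [← this]
    exact hy

end Pool.Agent.K4H1.BX
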