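import Pool.Agent.K4H1.BX.Trl

/-!
# The eigenfunctions of the translations by the points of order three
-/

set_option autoImplicit false

open WeierstrassCurve

namespace Pool.Agent.K4H1.BX

open scoped Classical

variable {L : Type} [Field L]

/-- the function of `(p, q, z)` that is multiplied by `w` by the first translation -/
def f1 (w p q z : L) : L := (w * p ^ 3 + w ^ 2 * q ^ 3 + z ^ 3) / (p * q * z)

/-- the function of `(p, q, z)` that is invariant under the first translation -/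
def f2 (p q z : L) : L := (p ^ 2 * q + q ^ 2 * z + z ^ 2 * p) / (p * q * z)

lemma f1_scale (w p q z : L) {c : L} (hc : c ≠ 0) : f1 w (c * p) (c * q) (c * z) = f1 w p q z := by
  unfold f1
  rw [show w * (c * p) ^ 3 + w ^ 2 * (c * q) ^ 3 + (c * z) ^ 3 =
    c ^ 3 * (w * p ^ 3 + w ^ 2 * q ^ 3 + z ^ 3) by ring,
    show c * p * (c * q) * (c * z) = c ^ 3 * (p * q * z) by ring]
  exact mul_div_mul_left _ _ (pow_ne_zero 3 hc)

lemma f2_scale (p q z : L) {c : L} (hc : c ≠ 0) : f2 (c * p) (c * q) (c * z) = f2 p q z := by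
  unfold f2
  rw [show (c * p) ^ 2 * (c * q) + (c * q) ^ 2 * (c * z) + (c * z) ^ 2 * (c * p) =
    c ^ 3 * (p ^ 2 * q + q ^ 2 * z + z ^ 2 * p) by ring,
    show c * p * (c * q) * (c * z) = c ^ 3 * (p * q * z) by ring]
  exact mul_div_mul_left _ _ (pow_ne_zero 3 hc)

/-- the data of a field with the third roots of unity, with both orders of the coordinates -/
structure Rt (L : Type) [Field L] where
  t : L
  w : L
  ht : t ^ 2 = -3
  hw : 2 * w + 1 = t

namespace Rt

variable (R : Rt L)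

lemma hw2 [CharZero L] : R.w ^ 2 + R.w + 1 = 0 := by
  have h4 : (4 : L) ≠ 0 := by norm_num
  apply mul_left_cancel₀ h4
  have := R.ht
  rw [← R.hw] at this
  linear_combination this

lemma hw3 [CharZero L] : R.w ^ 3 = 1 := by
  linear_combination (R.w - 1) * R.hw2

lemma w_ne_one [CharZero L] : R.w ≠ 1 := by
  intro h
  have := R.hw2
  rw [h] at this
  norm_num at this

end Rt

variable {W : WeierstrassCurve L}

/-- the function multiplied by `w` by the first translation -/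
def g1 (W : WeierstrassCurve L) (w : L) : W.toAffine.Point → L
  | 0 => 0
  | .some x y _ => f1 w (cp x y) (cq x y) (cz x)

/-- its conjugate -/
def h1 (W : WeierstrassCurve L) (w : L) : W.toAffine.Point → L
  | 0 => 0
  | .some x y _ => f1 w (cq x y) (cp x y) (cz x)

/-- the function multiplied by `w ^ 2` by the second translation -/
def g2 (W : WeierstrassCurve L) : W.toAffine.Point → L
  | 0 => 0
  | .some x y _ => f2 (cp x y) (cq x y) (cz x)

/-- its conjugate -/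
def h2 (W : WeierstrassCurve L) : W.toAffine.Point → L
  | 0 => 0
  | .some x y _ => f2 (cq x y) (cp x y) (cz x)

lemma three_ne {P : W.toAffine.Point} (h : 3 • P ≠ 0) :
    ∃ x y n, P = Affine.Point.some x y n := by
  match P, h with
  | 0, h => exact absurd (smul_zero 3) h
  | .some x y n, _ => exact ⟨x, y, n, rfl⟩

/-- the relation of the first pair of functions -/
lemma rel1 {w p q z : L} (hw : w ^ 2 + w + 1 = 0) (hp : p ≠ 0) (hq : q ≠ 0) (hz : z ≠ 0)
    (h : p ^ 3 + q ^ 3 + z ^ 3 + p * q * z = 0) :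
    (-f1 w p q z) ^ 3 + (-f1 w q p z) ^ 3 + 28 = 3 * ((-f1 w p q z) * (-f1 w q p z)) := by
  have h0 : p * q * z ≠ 0 := mul_ne_zero (mul_ne_zero hp hq) hz
  have hw3 : w ^ 3 = 1 := by linear_combination (w - 1) * hw
  obtain ⟨N, hN⟩ : ∃ N, N = p * q * z := ⟨_, rfl⟩
  have hN' : p ^ 3 + q ^ 3 + z ^ 3 = -N := by rw [hN]; linear_combination h
  obtain ⟨a, ha⟩ : ∃ a, a = w * p ^ 3 + w ^ 2 * q ^ 3 + z ^ 3 := ⟨_, rfl⟩
  obtain ⟨b, hb⟩ : ∃ b, b = w * q ^ 3 + w ^ 2 * p ^ 3 + z ^ 3 := ⟨_, rfl⟩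
  have e1 : f1 w p q z = a / N := by rw [ha, hN]; rfl
  have e2 : f1 w q p z = b / N := by
    rw [hb, hN]
    unfold f1
    rw [mul_comm q p]
  have hN0 : N ≠ 0 := by rw [hN]; exact h0
  -- a + b and a b in terms of the elementary symmetric functions
  have key : a ^ 3 + b ^ 3 - 28 * N ^ 3 + 3 * (a * b) * N = 0 := by
    have hs : a + b = 3 * z ^ 3 + N := by
      rw [ha, hb]
      linear_combination (p ^ 3 + q ^ 3) * hw - hN'
    have hm : a * b = N ^ 2 - 3 * (p ^ 3 * q ^ 3 + q ^ 3 * z ^ 3 + z ^ 3 * p ^ 3) := by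
      have e : N ^ 2 = (p ^ 3 + q ^ 3 + z ^ 3) ^ 2 := by rw [hN']; ring
      rw [e, ha, hb]
      linear_combination (p ^ 6 + q ^ 6) * hw3 + (z ^ 3 * p ^ 3 + z ^ 3 * q ^ 3) * hw +
        (p ^ 3 * q ^ 3) * ((w ^ 2 - w + 1) * hw)
    have hn : N ^ 3 = p ^ 3 * q ^ 3 * z ^ 3 := by rw [hN]; ring
    have e3 : a ^ 3 + b ^ 3 = (a + b) ^ 3 - 3 * (a * b) * (a + b) := by ring
    rw [e3, hs, hm]
    have e5 : p ^ 3 * q ^ 3 + q ^ 3 * z ^ 3 + z ^ 3 * p ^ 3 =
        p ^ 3 * q ^ 3 + z ^ 3 * (-N - z ^ 3) := by linear_combination z ^ 3 * hN'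
    rw [e5]
    linear_combination (-27 : L) * hn
  rw [e1, e2]
  field_simp
  linear_combination -key

/-- the relation of the second pair of functions -/
lemma rel2 {p q z : L} (hp : p ≠ 0) (hq : q ≠ 0) (hz : z ≠ 0)
    (h : p ^ 3 + q ^ 3 + z ^ 3 + p * q * z = 0) :
    (f2 p q z) ^ 3 + (f2 q p z) ^ 3 + 7 = 5 * (f2 p q z * f2 q p z) := by
  have h0 : p * q * z ≠ 0 := mul_ne_zero (mul_ne_zero hp hq) hz
  obtain ⟨N, hN⟩ : ∃ N, N = p * q * z := ⟨_, rfl⟩
  obtain ⟨a, ha⟩ : ∃ a, a = p ^ 2 * q + q ^ 2 * z + z ^ 2 * p := ⟨_, rfl⟩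
  obtain ⟨b, hb⟩ : ∃ b, b = q ^ 2 * p + p ^ 2 * z + z ^ 2 * q := ⟨_, rfl⟩
  have e1 : f2 p q z = a / N := by rw [ha, hN]; rfl
  have e2 : f2 q p z = b / N := by
    rw [hb, hN]
    unfold f2
    rw [mul_comm q p]
  have hN0 : N ≠ 0 := by rw [hN]; exact h0
  have key : a ^ 3 + b ^ 3 + 7 * N ^ 3 - 5 * (a * b) * N = 0 := by
    rw [ha, hb, hN]
    linear_combination (p ^ 2 * q ^ 2 * z ^ 2 + p ^ 3 * q ^ 3 + p ^ 3 * z ^ 3 + q ^ 3 * z ^ 3) * h
  rw [e1, e2]
  field_simp
  linear_combination key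

variable [CharZero L]

section tr

variable (hW : IsE W) (R : Rt L)

include hW in
lemma tr_T {P : W.toAffine.Point} (h : 3 • P ≠ 0) (nT : W.toAffine.Nonsingular 75 756) :
    g1 W R.w (P + Affine.Point.some 75 756 nT) = R.w * g1 W R.w P ∧
    h1 W R.w (P + Affine.Point.some 75 756 nT) = R.w ^ 2 * h1 W R.w P ∧
    g2 W (P + Affine.Point.some 75 756 nT) = g2 W P ∧
    h2 W (P + Affine.Point.some 75 756 nT) = h2 W P := by
  obtain ⟨x, y, n, rfl⟩ := three_ne h
  have hg := (hW.gen_iff n).1 h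
  obtain ⟨X, Y, n', D, hs, hD, hp, hq, hz⟩ := hW.tr1 n hg nT
  rw [hs]
  have h6 : (6048 : L) ≠ 0 := by norm_num
  have hw3 := R.hw3
  have hDD : D / 6048 ≠ 0 := div_ne_zero hD h6
  have ep : D / 6048 * cp X Y = cz x := by field_simp; linear_combination hp
  have eq' : D / 6048 * cq X Y = cp x y := by field_simp; linear_combination hq
  have ez : D / 6048 * cz X = cq x y := by field_simp; linear_combination hz
  refine ⟨?_, ?_, ?_, ?_⟩
  · show f1 R.w (cp X Y) (cq X Y) (cz X) = R.w * f1 R.w (cp x y) (cq x y) (cz x)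
    rw [← f1_scale _ _ _ _ hDD, ep, eq', ez]
    unfold f1
    rw [← mul_div_assoc]
    congr 1
    · linear_combination (-(cq x y) ^ 3) * hw3
    · ring
  · show f1 R.w (cq X Y) (cp X Y) (cz X) = R.w ^ 2 * f1 R.w (cq x y) (cp x y) (cz x)
    rw [← f1_scale _ _ _ _ hDD, ep, eq', ez]
    unfold f1
    rw [← mul_div_assoc]
    congr 1
    · linear_combination (-(cq x y) ^ 3 - R.w * (cp x y) ^ 3) * hw3
    · ring
  · show f2 (cp X Y) (cq X Y) (cz X) = f2 (cp x y) (cq x y) (cz x)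
    rw [← f2_scale _ _ _ hDD, ep, eq', ez]
    unfold f2
    congr 1 <;> ring
  · show f2 (cq X Y) (cp X Y) (cz X) = f2 (cq x y) (cp x y) (cz x)
    rw [← f2_scale _ _ _ hDD, ep, eq', ez]
    unfold f2
    congr 1 <;> ring

include hW in
lemma tr_T' {P : W.toAffine.Point} (h : 3 • P ≠ 0)
    (nT : W.toAffine.Nonsingular (-9) (336 * R.t)) :
    g1 W R.w (P + Affine.Point.some (-9) (336 * R.t) nT) = g1 W R.w P ∧
    h1 W R.w (P + Affine.Point.some (-9) (336 * R.t) nT) = h1 W R.w P ∧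
    g2 W (P + Affine.Point.some (-9) (336 * R.t) nT) = R.w ^ 2 * g2 W P ∧
    h2 W (P + Affine.Point.some (-9) (336 * R.t) nT) = R.w * h2 W P := by
  obtain ⟨x, y, n, rfl⟩ := three_ne h
  have hg := (hW.gen_iff n).1 h
  obtain ⟨X, Y, n', D, hs, hD, hp, hq, hz⟩ := hW.tr2 R.ht R.hw n hg nT
  rw [hs]
  have h6 : (6048 : L) ≠ 0 := by norm_num
  have hw3 := R.hw3
  have hDD : D / 6048 ≠ 0 := div_ne_zero hD h6
  have ep : D / 6048 * cp X Y = R.w ^ 2 * cp x y := by field_simp; linear_combination hp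
  have eq' : D / 6048 * cq X Y = R.w * cq x y := by field_simp; linear_combination hq
  have ez : D / 6048 * cz X = cz x := by field_simp; linear_combination hz
  have hw6 : R.w ^ 6 = 1 := by linear_combination (R.w ^ 3 + 1) * hw3
  have hN : R.w ^ 2 * cp x y * (R.w * cq x y) * cz x = cp x y * cq x y * cz x := by
    linear_combination (cp x y * cq x y * cz x) * hw3
  refine ⟨?_, ?_, ?_, ?_⟩
  · show f1 R.w (cp X Y) (cq X Y) (cz X) = f1 R.w (cp x y) (cq x y) (cz x)
    rw [← f1_scale _ _ _ _ hDD, ep, eq', ez]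
    unfold f1
    rw [hN]
    congr 1
    linear_combination (R.w * cp x y ^ 3) * hw6 + (R.w ^ 2 * cq x y ^ 3) * hw3
  · show f1 R.w (cq X Y) (cp X Y) (cz X) = f1 R.w (cq x y) (cp x y) (cz x)
    rw [← f1_scale _ _ _ _ hDD, ep, eq', ez]
    unfold f1
    rw [show R.w * cq x y * (R.w ^ 2 * cp x y) * cz x = cq x y * cp x y * cz x by
      linear_combination (cp x y * cq x y * cz x) * hw3]
    congr 1
    linear_combination (R.w ^ 2 * cp x y ^ 3) * hw6 + (R.w * cq x y ^ 3) * hw3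
  · show f2 (cp X Y) (cq X Y) (cz X) = R.w ^ 2 * f2 (cp x y) (cq x y) (cz x)
    rw [← f2_scale _ _ _ hDD, ep, eq', ez]
    unfold f2
    rw [hN, ← mul_div_assoc]
    congr 1
    linear_combination (R.w ^ 2 * (cp x y) ^ 2 * cq x y) * hw3
  · show f2 (cq X Y) (cp X Y) (cz X) = R.w * f2 (cq x y) (cp x y) (cz x)
    rw [← f2_scale _ _ _ hDD, ep, eq', ez]
    unfold f2
    rw [show R.w * cq x y * (R.w ^ 2 * cp x y) * cz x = cq x y * cp x y * cz x by
      linear_combination (cp x y * cq x y * cz x) * hw3, ← mul_div_assoc]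
    congr 1
    linear_combination (R.w * (cq x y) ^ 2 * cp x y + R.w * (cp x y) ^ 2 * cz x) * hw3

end tr

end Pool.Agent.K4H1.BX
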