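import Pool.Agent.K4H1.BX.Prm
import Pool.Agent.K4H1.BX.Equ
import Pool.Agent.Y158.KL.Cls

/-!
# The Kummer generators are cubes
-/

set_option autoImplicit false
set_option linter.unusedSectionVars false

open NumberField IsDedekindDomain WithZero Module

open scoped WithZero

namespace Pool.Agent.K4H1.BX

/-- the reflection theorem for three -/
def SCH : Prop := ∀ (n : ℕ), Squarefree n → n % 8 = 7 → ¬ 3 ∣ n →
  ∀ (L : Type) [Field L] [NumberField L], finrank ℚ L = 2 → ∀ x : L, x ^ 2 = -(n : L) →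
  ∀ (L' : Type) [Field L'] [NumberField L'], finrank ℚ L' = 2 → ∀ y : L', y ^ 2 = 3 * (n : L') →
  ∀ b : L', b ≠ 0 → (¬ ∃ c, b = c ^ 3) → (∃ q : ℚ, Algebra.norm ℚ b = q ^ 3) →
  (∀ v : HeightOneSpectrum (𝓞 L'), ∃ g : ℤᵐ⁰, v.valuation L' b = g ^ 3) →
  (∀ v : HeightOneSpectrum (𝓞 L'), (3 : 𝓞 L') ∈ v.asIdeal →
    ∃ c : L', (v.valuation L' (b * c ^ 3 - 1)) ^ 2 ≤ (v.valuation L' 3) ^ 3) →
  3 ∣ Fintype.card (ClassGroup (𝓞 L))

lemma exists_prime_mem {k : Type} [Field k] [NumberField k] (v : HeightOneSpectrum (𝓞 k)) {N : ℕ}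
    (hN : N ≠ 0) (h : (N : 𝓞 k) ∈ v.asIdeal) :
    ∃ l, l.Prime ∧ l ∣ N ∧ (l : 𝓞 k) ∈ v.asIdeal := by
  induction N using Nat.strong_induction_on with
  | _ N ih =>
    by_cases h1 : N = 1
    · exfalso
      apply v.isPrime.ne_top
      rw [Ideal.eq_top_iff_one]
      rw [h1, Nat.cast_one] at h
      exact h
    have hp := Nat.minFac_prime h1
    obtain ⟨c, hc⟩ := Nat.minFac_dvd N
    have h2 : ((N.minFac : ℕ) : 𝓞 k) * (c : 𝓞 k) ∈ v.asIdeal := by
      rw [← Nat.cast_mul, ← hc]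
      exact h
    rcases v.isPrime.mem_or_mem h2 with h3 | h3
    · exact ⟨_, hp, Nat.minFac_dvd N, h3⟩
    · have hc0 : c ≠ 0 := by
        rintro rfl
        rw [mul_zero] at hc
        exact hN hc
      have hlt : c < N := by
        conv_rhs => rw [hc]
        have := hp.two_le
        nlinarith [Nat.pos_of_ne_zero hc0]
      obtain ⟨l, hl, hl2, hl3⟩ := ih c hlt hc0 h3
      exact ⟨l, hl, hl2.trans ⟨_, by rw [mul_comm]; exact hc⟩, hl3⟩

lemma jac_neg_three {l : ℕ} (hl : l.Prime) (h3 : l % 3 = 1) : jacobiSym (-3) l = 1 := by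
  have hodd : Odd l := by
    rcases hl.eq_two_or_odd' with h | h
    · rw [h] at h3; norm_num at h3
    · exact h
  have h1 : jacobiSym (-3) l = jacobiSym (-1) l * jacobiSym (3 : ℕ) l := by
    rw [← jacobiSym.mul_left]
    norm_num
  have h2 : jacobiSym (3 : ℕ) l = (-1) ^ (3 / 2 * (l / 2)) * jacobiSym l 3 :=
    jacobiSym.quadratic_reciprocity (by decide) hodd
  have h4 : jacobiSym (l : ℤ) 3 = 1 := by
    rw [jacobiSym.mod_left]
    have : (l : ℤ) % ((3 : ℕ) : ℤ) = 1 := by omega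
    rw [this, jacobiSym.one_left]
  rw [h1, h2, h4, jacobiSym.at_neg_one hodd, mul_one, ZMod.χ₄_eq_neg_one_pow (by
    rcases hodd with ⟨c, hc⟩; omega)]
  norm_num
  rw [← mul_pow]
  norm_num

section glo

variable {M : Type} [Field M] [NumberField M] {n q : ℕ} (S : Su M n q)

lemma not_sq_of_mod {m : ℤ} (h : m % 8 = 5) : ¬ IsSquare (m : ℚ) := by
  rw [Rat.isSquare_intCast_iff]
  rintro ⟨r, hr⟩
  have h1 : (r * r) % 8 = 5 := by rw [← hr]; exact h
  have h2 : r % 8 = 0 ∨ r % 8 = 1 ∨ r % 8 = 2 ∨ r % 8 = 3 ∨ r % 8 = 4 ∨ r % 8 = 5 ∨ r % 8 = 6 ∨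
    r % 8 = 7 := by omega
  rw [Int.mul_emod] at h1
  rcases h2 with h | h | h | h | h | h | h | h <;> rw [h] at h1 <;> norm_num at h1

lemma finrank_adj {x : M} {m : ℤ} (hx : x ^ 2 = m) (hm : ¬ IsSquare (m : ℚ)) :
    finrank ℚ (IntermediateField.adjoin ℚ {x}) = 2 := by
  have hirr : Irreducible (Polynomial.X ^ 2 - Polynomial.C (m : ℚ)) := by
    apply X_pow_sub_C_irreducible_of_prime Nat.prime_two
    intro b hb
    apply hm
    exact ⟨b, by rw [← sq]; exact hb.symm⟩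
  have hev : Polynomial.aeval x (Polynomial.X ^ 2 - Polynomial.C (m : ℚ)) = 0 := by
    rw [map_sub, map_pow, Polynomial.aeval_X, Polynomial.aeval_C, hx, map_intCast, sub_self]
  have hmon : (Polynomial.X ^ 2 - Polynomial.C (m : ℚ)).Monic :=
    Polynomial.monic_X_pow_sub_C _ two_ne_zero
  have hint : IsIntegral ℚ x := ⟨_, hmon, hev⟩
  rw [IntermediateField.adjoin.finrank hint, ← minpoly.eq_of_irreducible_of_monic hirr hev hmon,
    Polynomial.natDegree_X_pow_sub_C]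

include S in
/-- **the first generator** -/
theorem glo1 (hS : SCH) (hn : Squarefree n) (h7 : n % 8 = 7) (h3 : ¬ 3 ∣ n)
    (h77 : jacobiSym (-n) 7 = -1) (hq0 : q ≠ 0)
    (hq : ∀ l : ℕ, l.Prime → l ∣ q → l % 3 = 1 ∧ jacobiSym (-n) l = -1)
    (L : Type) [Field L] [NumberField L] (hL : finrank ℚ L = 2) (x : L) (hx : x ^ 2 = -(n : L))
    (hcl : ¬ 3 ∣ Fintype.card (ClassGroup (𝓞 L))) {β : M} (hβ0 : β ≠ 0)
    (hV : Units.mk0 β hβ0 ∈ VS S.b (S.a * S.b) 28 True) : ∃ c, β = c ^ 3 := by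
  by_contra hβ
  apply hcl
  obtain ⟨y₀, hy₀⟩ : ∃ y₀, y₀ = S.R.t * S.de := ⟨_, rfl⟩
  have hy2 : y₀ ^ 2 = ((3 * n : ℤ) : M) := by
    rw [hy₀, mul_pow, S.R.ht, S.hde]
    push_cast
    ring
  have hm5 : (3 * n : ℤ) % 8 = 5 := by omega
  have hns := not_sq_of_mod hm5
  have hfr := finrank_adj hy2 hns
  obtain ⟨Q, hQ⟩ := exists_Qd (IntermediateField.adjoin ℚ {y₀}) hfr (m := 3 * n)
    (y := IntermediateField.AdjoinSimple.gen ℚ y₀) (by
      apply Subtype.ext
      show y₀ ^ 2 = _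
      rw [hy2]
      exact (map_intCast (algebraMap (IntermediateField.adjoin ℚ {y₀}) M) (3 * (n : ℤ))).symm) hns
  have hQy : algebraMap (IntermediateField.adjoin ℚ {y₀}) M Q.y = y₀ := by
    rw [hQ]
    rfl
  have hσy : S.b y₀ = -y₀ := by
    rw [hy₀, map_mul, S.bt, S.bd]; ring
  have hρt : (S.a * S.b) S.R.t = -S.R.t := by
    show S.a (S.b S.R.t) = _
    rw [S.bt, S.at']
  have hρy : (S.a * S.b) y₀ = y₀ := by
    show S.a (S.b y₀) = _
    rw [hσy, hy₀, map_neg, map_mul, S.at', S.ad]; ring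
  have hρρ : (S.a * S.b) * (S.a * S.b) = 1 := by
    rw [mul_assoc, ← mul_assoc S.b, S.comm S.b S.a, mul_assoc S.a S.b S.b, S.bb, mul_one, S.aa]
  have ht0 : S.R.t ≠ 0 := by
    intro h
    have := S.R.ht
    rw [h] at this
    norm_num at this
  obtain ⟨b, hb0, hbc, ⟨r, hr⟩, hbv, hbp⟩ := desc S Q S.b (S.a * S.b) (by rw [hQy, hσy])
    (by rw [hQy, hρy]) hρt hρρ (by
      intro g h1 h2
      rw [hQy, hy₀, map_mul, h2] at h1
      exact mul_left_cancel₀ ht0 h1) hβ0 hβ hV (by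
      intro v hv
      obtain ⟨l, hl, hl2, hl3⟩ := exists_prime_mem v (by positivity) hv
      have key : ∀ l : ℕ, l.Prime → l % 3 = 1 → jacobiSym (-n) l = -1 →
          (l : 𝓞 (IntermediateField.adjoin ℚ {y₀})) ∈ v.asIdeal → gP Q.σ v = v := by
        intro l hl hl1 hl2 hl3
        refine Q.inert_odd hl ?_ ?_ v hl3
        · rintro rfl
          norm_num at hl1
        · rw [show (3 * n : ℤ) = -3 * -n by ring, jacobiSym.mul_left, jac_neg_three hl hl1, hl2,
            one_mul]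
      rcases (Nat.Prime.dvd_mul hl).1 hl2 with h | h
      · have h4 : l ∣ 2 ^ 2 * 7 := h
        rcases (Nat.Prime.dvd_mul hl).1 h4 with h5 | h5
        · have h6 : l = 2 := (Nat.prime_dvd_prime_iff_eq hl Nat.prime_two).1
            (hl.dvd_of_dvd_pow h5)
          subst h6
          exact Q.inert_two hm5 v (by exact_mod_cast hl3)
        · have h6 : l = 7 := (Nat.prime_dvd_prime_iff_eq hl (by norm_num)).1 h5
          subst h6
          exact key 7 hl (by norm_num) h77 hl3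
      · exact key l hl (hq l hl h).1 (hq l hl h).2 hl3)
  refine hS n hn h7 h3 L hL x hx _ hfr Q.y (by
    rw [Q.hy]; push_cast; ring) b hb0 hbc ⟨r, hr⟩ hbv ?_
  intro v hv
  refine prim S Q ⟨n, rfl⟩ ?_ hb0 hr (hbp trivial) v hv
  rintro ⟨c, hc⟩
  apply h3
  have : (3 : ℤ) ∣ n := ⟨c, by linarith⟩
  exact_mod_cast this

/-- the units of the imaginary quadratic field are cubes -/
lemma unit_cube {k : Type} [Field k] [NumberField k] (Q : Qd k (-n)) (h7 : n % 8 = 7)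
    (u : (𝓞 k)ˣ) : ∃ c : k, algebraMap (𝓞 k) k u = c ^ 3 := by
  obtain ⟨a, b, hab⟩ := Q.gen (algebraMap (𝓞 k) k u)
  have hcast' : ∀ (c : ℚ), Q.σ (c : k) = c := fun c => Q.σ.commutes c
  have hσ' : Q.σ ((a : k) + b * Q.y) = a - b * Q.y := by
    rw [map_add, map_mul, Q.hσ, hcast', hcast']; ring
  have hN : (Algebra.norm ℚ (algebraMap (𝓞 k) k u) : ℚ) = a ^ 2 + n * b ^ 2 := by
    have h1 := Q.hN (algebraMap (𝓞 k) k u)
    rw [hab, hσ'] at h1
    have h2 : ((Algebra.norm ℚ ((a : k) + b * Q.y) : ℚ) : k) = ((a ^ 2 + n * b ^ 2 : ℚ) : k) := by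
      refine Eq.trans h1 ?_
      push_cast
      have h3 := Q.hy
      push_cast at h3
      linear_combination -(b : k) ^ 2 * h3
    rw [hab]
    exact_mod_cast h2
  have hN1 : |(Algebra.norm ℚ (algebraMap (𝓞 k) k u) : ℚ)| = 1 :=
    NumberField.isUnit_iff_norm.1 u.isUnit
  have hn0 : (0 : ℚ) < n := by
    have : 0 < n := by omega
    exact_mod_cast this
  rw [hN, abs_of_nonneg (by positivity)] at hN1
  -- the trace is an integer
  obtain ⟨T, hT⟩ : ∃ T : ℤ, (T : ℚ) = 2 * a := by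
    have h1 : algebraMap ℚ k (2 * a) = algebraMap (𝓞 k) k (u + Q.σ • (u : 𝓞 k)) := by
      have h2 : algebraMap (𝓞 k) k (Q.σ • (u : 𝓞 k)) = Q.σ (algebraMap (𝓞 k) k u) := rfl
      rw [map_add, h2, hab, hσ', map_mul, map_ofNat]
      have h3 : algebraMap ℚ k a = (a : k) := rfl
      rw [h3]
      ring
    have h2 : IsIntegral ℤ (algebraMap ℚ k (2 * a)) := by
      rw [h1]
      exact (u + Q.σ • (u : 𝓞 k) : 𝓞 k).2
    have h3 : IsIntegral ℤ (2 * a : ℚ) :=
      (isIntegral_algebraMap_iff (algebraMap ℚ k).injective).1 h2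
    obtain ⟨D, hD⟩ := IsIntegrallyClosed.isIntegral_iff.1 h3
    exact ⟨D, by rw [← hD]; simp⟩
  have hT4 : (T : ℚ) ^ 2 + n * (2 * b) ^ 2 = 4 := by
    rw [hT]
    linear_combination 4 * hN1
  have hTle : T ^ 2 ≤ 4 := by
    have h1 : (T : ℚ) ^ 2 ≤ 4 := by nlinarith [mul_nonneg hn0.le (sq_nonneg (2 * b))]
    exact_mod_cast h1
  have hTcases : T ^ 2 = 0 ∨ T ^ 2 = 1 ∨ T ^ 2 = 4 := by
    have h1 : -2 ≤ T := by nlinarith
    have h2 : T ≤ 2 := by nlinarith
    interval_cases T <;> simp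
  rcases hTcases with h | h | h
  · -- then `n` is a square
    exfalso
    have h1 : ((n : ℤ) : ℚ) * (2 * b) ^ 2 = 4 := by
      have : (T : ℚ) ^ 2 = 0 := by exact_mod_cast h
      rw [this] at hT4
      push_cast
      linarith
    have hb : b ≠ 0 := by
      rintro rfl
      norm_num at h1
    have h2 : IsSquare ((n : ℤ) : ℚ) := ⟨2 / (2 * b), by field_simp; linarith⟩
    rw [Rat.isSquare_intCast_iff] at h2
    obtain ⟨r, hr⟩ := h2
    have h3 : (r * r) % 8 = 7 := by rw [← hr]; omega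
    have h4 : r % 8 = 0 ∨ r % 8 = 1 ∨ r % 8 = 2 ∨ r % 8 = 3 ∨ r % 8 = 4 ∨ r % 8 = 5 ∨ r % 8 = 6 ∨
      r % 8 = 7 := by omega
    rw [Int.mul_emod] at h3
    rcases h4 with h | h | h | h | h | h | h | h <;> rw [h] at h3 <;> norm_num at h3
  · exfalso
    have h1 : ((n : ℤ) : ℚ) * (2 * b) ^ 2 = 3 := by
      have : (T : ℚ) ^ 2 = 1 := by exact_mod_cast h
      rw [this] at hT4
      push_cast
      linarith
    have hb : b ≠ 0 := by
      rintro rfl
      norm_num at h1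
    have h2 : IsSquare ((3 * n : ℤ) : ℚ) := ⟨3 / (2 * b), by
      push_cast
      push_cast at h1
      field_simp
      linarith⟩
    exact not_sq_of_mod (by omega) h2
  · have h1 : (T : ℚ) ^ 2 = 4 := by exact_mod_cast h
    have hb : b = 0 := by
      rw [h1] at hT4
      have : (n : ℚ) * (2 * b) ^ 2 = 0 := by linarith
      rcases mul_eq_zero.1 this with h | h
      · exact absurd h hn0.ne'
      · have := pow_eq_zero_iff (two_ne_zero) |>.1 h
        linarith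
    have ha : (a - 1) * (a + 1) = 0 := by
      rw [hT] at h1
      linear_combination (1 / 4 : ℚ) * h1
    rw [hab, hb]
    rcases mul_eq_zero.1 ha with h | h
    · refine ⟨1, ?_⟩
      rw [sub_eq_zero.1 h]
      push_cast
      ring
    · refine ⟨-1, ?_⟩
      rw [eq_neg_of_add_eq_zero_left h]
      push_cast
      ring

include S in
/-- **the second generator** -/
theorem glo2 (h7 : n % 8 = 7) (h77 : jacobiSym (-n) 7 = -1) (hq0 : q ≠ 0)
    (hq : ∀ l : ℕ, l.Prime → l ∣ q → l % 3 = 1 ∧ jacobiSym (-n) l = -1)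
    (L : Type) [Field L] [NumberField L] [Algebra L M] (hL : finrank ℚ L = 2) (x : L)
    (hx : x ^ 2 = -(n : L)) (hxM : algebraMap L M x = S.de)
    (hcl : ¬ 3 ∣ Fintype.card (ClassGroup (𝓞 L))) {β : M} (hβ0 : β ≠ 0)
    (hV : Units.mk0 β hβ0 ∈ VS S.b S.a 7 False) : ∃ c, β = c ^ 3 := by
  by_contra hβ
  have hns : ¬ IsSquare ((-n : ℤ) : ℚ) := by
    rw [Rat.isSquare_intCast_iff]
    rintro ⟨r, hr⟩
    have h1 : 0 ≤ r * r := mul_self_nonneg r
    rw [← hr] at h1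
    omega
  obtain ⟨Q, hQ⟩ := exists_Qd L hL (m := -n) (y := x) (by rw [hx]; push_cast; ring) hns
  have hQy : algebraMap L M Q.y = S.de := by rw [hQ, hxM]
  obtain ⟨b, hb0, hbc, ⟨r, hr⟩, hbv, -⟩ := desc S Q S.b S.a (by rw [hQy, S.bd])
    (by rw [hQy, S.ad]) S.at' S.aa (by
      intro g h1 _
      rwa [hQy] at h1) hβ0 hβ hV (by
      intro v hv
      obtain ⟨l, hl, hl2, hl3⟩ := exists_prime_mem v (by positivity) hv
      have key : ∀ l : ℕ, l.Prime → l % 3 = 1 → jacobiSym (-n) l = -1 →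
          (l : 𝓞 L) ∈ v.asIdeal → gP Q.σ v = v := by
        intro l hl hl1 hl2 hl3
        refine Q.inert_odd hl ?_ hl2 v hl3
        rintro rfl
        norm_num at hl1
      rcases (Nat.Prime.dvd_mul hl).1 hl2 with h | h
      · have h6 : l = 7 := (Nat.prime_dvd_prime_iff_eq hl (by norm_num)).1 h
        subst h6
        exact key 7 hl (by norm_num) h77 hl3
      · exact key l hl (hq l hl h).1 (hq l hl h).2 hl3)
  obtain ⟨u, c, hc, hu⟩ := Pool.Agent.Y158.KL.exists_unit_mul_pow (ℓ := 3) (by norm_num)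
    (by
      rw [Nat.coprime_comm, Nat.Prime.coprime_iff_not_dvd Nat.prime_three]
      exact hcl) b hb0 hbv
  obtain ⟨d, hd⟩ := unit_cube Q h7 u
  apply hbc
  exact ⟨d * c, by rw [hu, hd, mul_pow]⟩

end glo

end Pool.Agent.K4H1.BX
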