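import Pool.Agent.K4H1.BX.Val

/-!
# Valuations and Galois groups
-/

set_option autoImplicit false
set_option linter.unusedSectionVars false

open NumberField IsDedekindDomain WithZero

open scoped WithZero

namespace Pool.Agent.K4H1.BX

/-- the prime below -/
noncomputable def dn (F : Type) {K : Type} [Field F] [NumberField F] [Field K] [NumberField K]
    [Algebra F K] (w : HeightOneSpectrum (𝓞 K)) : HeightOneSpectrum (𝓞 F) where
  asIdeal := w.asIdeal.under (𝓞 F)
  isPrime := Ideal.IsPrime.under _ _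
  ne_bot := fun h => w.ne_bot (Ideal.eq_bot_of_comap_eq_bot h)

section approx

variable {R : Type} [CommRing R] [IsDedekindDomain R]
  {K : Type} [Field K] [Algebra R K] [IsFractionRing R K]

theorem valued_algebraMap (v : HeightOneSpectrum R) (k : K) :
    Valued.v (algebraMap K (v.adicCompletion K) k) = v.valuation K k := by
  rw [HeightOneSpectrum.algebraMap_adicCompletion]
  exact HeightOneSpectrum.valuedAdicCompletion_eq_valuation' v k

/-- approximation of an element of the completion by elements of `K` -/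
theorem exists_approx (v : HeightOneSpectrum R) (ξ : v.adicCompletion K)
    (γ : (WithZero (Multiplicative ℤ))ˣ) :
    ∃ k : K, Valued.v (algebraMap K (v.adicCompletion K) k - ξ) < (γ : WithZero (Multiplicative ℤ)) := by
  have hopen : IsOpen {y : v.adicCompletion K | Valued.v (y - ξ) < (γ : WithZero (Multiplicative ℤ))} := by
    have h1 : IsOpen {y : v.adicCompletion K | Valued.v y < (γ : WithZero (Multiplicative ℤ))} := by
      obtain ⟨η, hη⟩ := HeightOneSpectrum.valuedAdicCompletion_surjective K v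
        (γ : WithZero (Multiplicative ℤ))
      have h2 := Valued.isOpen_ball (v.adicCompletion K)
        ((Valued.v (R := v.adicCompletion K)).restrict η)
      have h3 : {y : v.adicCompletion K | Valued.v y < (γ : WithZero (Multiplicative ℤ))} =
          {y : v.adicCompletion K | (Valued.v (R := v.adicCompletion K)).restrict y <
            (Valued.v (R := v.adicCompletion K)).restrict η} := by
        ext y
        change _ ↔ (Valued.v (R := v.adicCompletion K)).restrict y <
            (Valued.v (R := v.adicCompletion K)).restrict η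
        rw [Valuation.restrict_lt_iff, hη]
        exact Iff.rfl
      rw [h3]
      exact h2
    exact h1.preimage (continuous_id.sub continuous_const)
  obtain ⟨k, hk⟩ := (HeightOneSpectrum.denseRange_algebraMap K v).exists_mem_open hopen
    ⟨ξ, by simp⟩
  exact ⟨k, hk⟩

end approx

section gal

variable {M : Type} [Field M] [NumberField M]

/-- a ring automorphism of the field acts on the integers -/
lemma gal_coe (g : M ≃ₐ[ℚ] M) (y : 𝓞 M) : g (algebraMap (𝓞 M) M y) = algebraMap (𝓞 M) M (g • y) :=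
  rfl

/-- the action on the integers as an isomorphism of rings -/
noncomputable def gE (g : M ≃ₐ[ℚ] M) : 𝓞 M ≃+* 𝓞 M :=
  MulSemiringAction.toRingEquiv (M ≃ₐ[ℚ] M) (𝓞 M) g

/-- the prime `g⁻¹ v` -/
noncomputable def gP (g : M ≃ₐ[ℚ] M) (v : HeightOneSpectrum (𝓞 M)) : HeightOneSpectrum (𝓞 M) where
  asIdeal := v.asIdeal.comap (gE g)
  isPrime := Ideal.IsPrime.comap _
  ne_bot := by
    intro h
    apply v.ne_bot
    rw [eq_bot_iff]
    intro x hx
    obtain ⟨y, rfl⟩ := (gE g).surjective x
    have : y ∈ v.asIdeal.comap (gE g) := hx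
    rw [h, Ideal.mem_bot] at this
    rw [this, map_zero]
    exact Ideal.zero_mem _

lemma mem_gP {g : M ≃ₐ[ℚ] M} {v : HeightOneSpectrum (𝓞 M)} {y : 𝓞 M} :
    y ∈ (gP g v).asIdeal ↔ g • y ∈ v.asIdeal := Iff.rfl

lemma natCast_mem_gP {g : M ≃ₐ[ℚ] M} {v : HeightOneSpectrum (𝓞 M)} {n : ℕ} :
    (n : 𝓞 M) ∈ (gP g v).asIdeal ↔ (n : 𝓞 M) ∈ v.asIdeal := by
  rw [mem_gP]
  have : g • (n : 𝓞 M) = n := map_natCast (gE g) n
  rw [this]

/-- transport of valuations -/
theorem gal_val (g : M ≃ₐ[ℚ] M) (v : HeightOneSpectrum (𝓞 M)) (x : M) :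
    (gP g v).valuation M x = v.valuation M (g x) := by
  have hmap : (gP g v).asIdeal.map (gE g) = v.asIdeal :=
    Ideal.map_comap_of_surjective _ (gE g).surjective _
  have hpow : ∀ (n : ℕ) (y : 𝓞 M), gE g y ∈ v.asIdeal ^ n ↔ y ∈ (gP g v).asIdeal ^ n := by
    intro n y
    have h1 : ((gP g v).asIdeal ^ n).map (gE g) = v.asIdeal ^ n := by rw [Ideal.map_pow, hmap]
    constructor
    · intro h2
      rw [← h1] at h2
      obtain ⟨z, hz, hz'⟩ := (Ideal.mem_map_iff_of_surjective (gE g) (gE g).surjective).1 h2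
      rwa [← (gE g).injective hz']
    · intro h2
      rw [← h1]
      exact Ideal.mem_map_of_mem (gE g) h2
  have hint : ∀ y : 𝓞 M, v.intValuation (gE g y) = (gP g v).intValuation y := by
    intro y
    by_cases hy : y = 0
    · rw [hy, map_zero, map_zero, map_zero]
    have hy' : gE g y ≠ 0 := by
      rw [Ne, map_eq_zero_iff _ (gE g).injective]
      exact hy
    have hle : ∀ (v v' : HeightOneSpectrum (𝓞 M)) (a b : 𝓞 M), a ≠ 0 → b ≠ 0 →
        (∀ n : ℕ, a ∈ v.asIdeal ^ n → b ∈ v'.asIdeal ^ n) →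
        v'.intValuation b ≤ v.intValuation a := by
      intro v v' a b ha hb hab
      have h1 := v.intValuation_if_neg ha
      rw [h1, v'.intValuation_le_pow_iff_dvd, Ideal.dvd_span_singleton]
      apply hab
      rw [← Ideal.dvd_span_singleton, ← v.intValuation_le_pow_iff_dvd, h1]
    exact le_antisymm (hle _ _ _ _ hy hy' fun n => (hpow n y).2)
      (hle _ _ _ _ hy' hy fun n => (hpow n y).1)
  obtain ⟨a, b, hb, rfl⟩ := IsFractionRing.div_surjective (𝓞 M) x
  have h1 : ∀ a : 𝓞 M, g (algebraMap (𝓞 M) M a) = algebraMap (𝓞 M) M (gE g a) := fun a => rfl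
  rw [map_div₀, map_div₀, map_div₀, h1, h1, v.valuation_of_algebraMap, v.valuation_of_algebraMap,
    (gP g v).valuation_of_algebraMap, (gP g v).valuation_of_algebraMap, hint, hint]

/-- the elements of the inertia group of `v` -/
def InI (v : HeightOneSpectrum (𝓞 M)) (g : M ≃ₐ[ℚ] M) : Prop := ∀ y : 𝓞 M, g • y - y ∈ v.asIdeal

/-- a prime is determined by its ideal -/
lemma gP_of_frob {v : HeightOneSpectrum (𝓞 M)} {g : M ≃ₐ[ℚ] M} {q : ℕ} (hq : q ≠ 0)
    (h : ∀ y : 𝓞 M, g • y - y ^ q ∈ v.asIdeal) : gP g v = v := by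
  apply HeightOneSpectrum.ext
  ext y
  rw [mem_gP]
  constructor
  · intro h1
    have h2 := sub_mem h1 (h y)
    rw [sub_sub_cancel] at h2
    exact v.isPrime.mem_of_pow_mem _ h2
  · intro h1
    have h2 := add_mem (h y) (Ideal.pow_mem_of_mem _ h1 q (Nat.pos_of_ne_zero hq))
    rwa [sub_add_cancel] at h2

lemma InI.gP_eq {v : HeightOneSpectrum (𝓞 M)} {g : M ≃ₐ[ℚ] M} (h : InI v g) : gP g v = v :=
  gP_of_frob one_ne_zero (fun y => by rw [pow_one]; exact h y)

/-- inertia acts trivially on the integral elements modulo `v` -/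
theorem InI.val {v : HeightOneSpectrum (𝓞 M)} {g : M ≃ₐ[ℚ] M} (h : InI v g) {x : M}
    (hx : v.valuation M x ≤ 1) : v.valuation M (g x - x) < 1 := by
  obtain ⟨y, hy⟩ := v.exists_valuation_sub_lt_of_integer hx 1
  rw [Units.val_one] at hy
  have h3 : v.valuation M (g (algebraMap (𝓞 M) M y - x)) < 1 := by
    rw [← gal_val, h.gP_eq]
    exact hy
  have h4 : v.valuation M (g (algebraMap (𝓞 M) M y) - algebraMap (𝓞 M) M y) < 1 := by
    have e : g (algebraMap (𝓞 M) M y) - algebraMap (𝓞 M) M y = algebraMap (𝓞 M) M (g • y - y) := by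
      rw [map_sub]
      rfl
    rw [e]
    exact (v.valuation_lt_one_iff_mem (K := M) _).2 (h y)
  have e : g x - x = (g (algebraMap (𝓞 M) M y) - algebraMap (𝓞 M) M y) -
      g (algebraMap (𝓞 M) M y - x) + (algebraMap (𝓞 M) M y - x) := by
    rw [map_sub]
    ring
  rw [e]
  exact Valuation.map_add_lt _ (Valuation.map_sub_lt _ h4 h3) hy

end gal

section rel

variable {F K : Type} [Field F] [NumberField F] [Field K] [NumberField K] [Algebra F K]
  [IsGalois F K]

/-- the order of the inertia group -/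
noncomputable def ei (F : Type) {K : Type} [Field F] [NumberField F] [Field K] [NumberField K]
    [Algebra F K] (w : HeightOneSpectrum (𝓞 K)) : ℕ := Nat.card (w.asIdeal.inertia (K ≃ₐ[F] K))

theorem val_rel (w : HeightOneSpectrum (𝓞 K)) (x : F) :
    w.valuation K (algebraMap F K x) = (dn F w).valuation F x ^ ei F w := by
  unfold ei
  have hover : w.asIdeal.LiesOver (dn F w).asIdeal := ⟨rfl⟩
  have hQ := w.isPrime
  have hmax : (dn F w).asIdeal.IsMaximal := (dn F w).isMaximal
  have h1 := HeightOneSpectrum.valuation_liesOver (K := F) K (dn F w) w x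
  have hfin : Finite (𝓞 F ⧸ (dn F w).asIdeal) := Ideal.finiteQuotientOfFreeOfNeBot _ (dn F w).ne_bot
  have hfr : Finite (dn F w).asIdeal.ResidueField := by
    have e := Ideal.bijective_algebraMap_quotient_residueField (dn F w).asIdeal
    exact Finite.of_surjective _ e.2
  have hperf : PerfectField (dn F w).asIdeal.ResidueField := inferInstance
  have h3 : Ideal.ramificationIdx' (dn F w).asIdeal w.asIdeal = Nat.card (w.asIdeal.inertia (K ≃ₐ[F] K)) := by
    rw [Ideal.card_inertia_eq_ramificationIdxIn (dn F w).asIdeal w.asIdeal,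
      Ideal.ramificationIdxIn_eq_ramificationIdx (dn F w).asIdeal w.asIdeal (K ≃ₐ[F] K),
      Ideal.ramificationIdx'_eq_ramificationIdx _ _ (dn F w).ne_bot]
  rw [← h1, h3]

theorem exists_frob (w : HeightOneSpectrum (𝓞 K)) :
    ∃ σ : K ≃ₐ[F] K, ∀ x : 𝓞 K, σ • x - x ^ Ideal.absNorm (dn F w).asIdeal ∈ w.asIdeal := by
  have hQ := w.isPrime
  have hfw : Finite (𝓞 K ⧸ w.asIdeal) := Ideal.finiteQuotientOfFreeOfNeBot w.asIdeal w.ne_bot
  obtain ⟨σ, hσ⟩ := IsArithFrobAt.exists_of_isInvariant (𝓞 F) (K ≃ₐ[F] K) w.asIdeal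
  refine ⟨σ, fun x => ?_⟩
  have h1 := hσ x
  have h2 : Nat.card (𝓞 F ⧸ w.asIdeal.under (𝓞 F)) = Ideal.absNorm (dn F w).asIdeal := by
    rw [Ideal.absNorm_apply, Submodule.cardQuot_apply]
    rfl
  rw [h2] at h1
  exact h1

/-- every prime lies below -/
lemma dn_surj (v : HeightOneSpectrum (𝓞 F)) : ∃ w : HeightOneSpectrum (𝓞 K), dn F w = v := by
  have : Module.IsTorsionFree (𝓞 F) (𝓞 K) := inferInstance
  obtain ⟨⟨P, hP, hPv⟩⟩ := v.asIdeal.nonempty_primesOver (S := 𝓞 K)
  refine ⟨⟨P, hP, ?_⟩, ?_⟩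
  · rintro rfl
    apply v.ne_bot
    rw [hPv.over]
    exact Ideal.comap_bot_of_injective _ (FaithfulSMul.algebraMap_injective (𝓞 F) (𝓞 K))
  · apply HeightOneSpectrum.ext
    exact hPv.over.symm

end rel

end Pool.Agent.K4H1.BX
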