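import Mathlib

/-!
# The curve `y² = x³ + 5805 x - 285714` (`X_0(14)`): its points of order three and its Hesse form
-/

set_option autoImplicit false

open WeierstrassCurve

namespace Pool.Agent.K4H1.BX

open scoped Classical

variable {L : Type} [Field L]

/-- `W` is the curve `y² = x³ + 5805 x - 285714` -/
structure IsE (W : WeierstrassCurve L) : Prop where
  h1 : W.a₁ = 0
  h2 : W.a₂ = 0
  h3 : W.a₃ = 0
  h4 : W.a₄ = 5805
  h6 : W.a₆ = -285714

/-- the equation of the curve -/
def Eqn (x y : L) : Prop := y ^ 2 = x ^ 3 + 5805 * x - 285714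

variable {W : WeierstrassCurve L}

lemma IsE.eqn_iff (hW : IsE W) (x y : L) : W.toAffine.Equation x y ↔ Eqn x y := by
  rw [Affine.equation_iff, hW.h1, hW.h2, hW.h3, hW.h4, hW.h6]
  unfold Eqn
  constructor <;> intro h <;> linear_combination h

lemma IsE.negY (hW : IsE W) (x y : L) : W.toAffine.negY x y = -y := by
  rw [Affine.negY, hW.h1, hW.h3]
  ring

lemma IsE.ns (hW : IsE W) [CharZero L] {x y : L} (h : Eqn x y) : W.toAffine.Nonsingular x y := by
  rw [Affine.nonsingular_iff, hW.eqn_iff, hW.h1, hW.h2, hW.h3, hW.h4]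
  refine ⟨h, ?_⟩
  by_contra hcon
  push Not at hcon
  obtain ⟨h1, h2⟩ := hcon
  unfold Eqn at h
  have hy : y = 0 := by
    have : 2 * y = 0 := by linear_combination h2
    exact (mul_eq_zero.1 this).resolve_left two_ne_zero
  subst hy
  have e1 : (3 * x ^ 2 + 5805 : L) = 0 := by linear_combination -h1
  have e2 : (x ^ 3 + 5805 * x - 285714 : L) = 0 := by linear_combination -h
  -- eliminate
  have e3 : (3870 * x - 285714 : L) = 0 := by linear_combination e2 - (x / 3) * e1
  have e4 : x = 285714 / 3870 := by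
    have h0 : (3870 : L) ≠ 0 := by norm_num
    field_simp
    linear_combination e3
  rw [e4] at e1
  norm_num at e1

/-- the negative -/
lemma IsE.neg_some (hW : IsE W) {x y : L} (h : W.toAffine.Nonsingular x y)
    (h' : W.toAffine.Nonsingular x (-y)) :
    -Affine.Point.some x y h = Affine.Point.some x (-y) h' := by
  rw [Affine.Point.neg_some]
  congr 1
  exact hW.negY x y

/-- the sum of two points with different abscissas -/
lemma IsE.add_ne (hW : IsE W) {x₁ y₁ x₂ y₂ : L} (h₁ : W.toAffine.Nonsingular x₁ y₁)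
    (h₂ : W.toAffine.Nonsingular x₂ y₂) (hx : x₁ ≠ x₂) :
    ∃ X Y n, Affine.Point.some x₁ y₁ h₁ + Affine.Point.some x₂ y₂ h₂ =
      (Affine.Point.some X Y n : W.toAffine.Point) ∧
      X = ((y₁ - y₂) / (x₁ - x₂)) ^ 2 - x₁ - x₂ ∧
      Y = -((y₁ - y₂) / (x₁ - x₂) * (X - x₁) + y₁) := by
  have h := Affine.Point.add_of_X_ne (h₁ := h₁) (h₂ := h₂) hx
  have hX : W.toAffine.addX x₁ x₂ (W.toAffine.slope x₁ x₂ y₁ y₂) =
      ((y₁ - y₂) / (x₁ - x₂)) ^ 2 - x₁ - x₂ := by
    rw [Affine.slope_of_X_ne hx, Affine.addX, hW.h1, hW.h2]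
    ring
  have hY : W.toAffine.addY x₁ x₂ y₁ (W.toAffine.slope x₁ x₂ y₁ y₂) =
      -((y₁ - y₂) / (x₁ - x₂) * (W.toAffine.addX x₁ x₂ (W.toAffine.slope x₁ x₂ y₁ y₂) - x₁) +
        y₁) := by
    rw [Affine.addY, Affine.negAddY, hW.negY]
    congr 2
    rw [Affine.slope_of_X_ne hx]
  exact ⟨_, _, _, h, hX, hY⟩

/-- the double of a point -/
lemma IsE.dbl (hW : IsE W) [CharZero L] {x y : L} (n : W.toAffine.Nonsingular x y) (hy : y ≠ 0) :
    ∃ X Y n', Affine.Point.some x y n + Affine.Point.some x y n =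
      (Affine.Point.some X Y n' : W.toAffine.Point) ∧
      X = ((3 * x ^ 2 + 5805) / (2 * y)) ^ 2 - 2 * x ∧
      Y = -((3 * x ^ 2 + 5805) / (2 * y) * (X - x) + y) := by
  have hne : y ≠ W.toAffine.negY x y := by
    rw [hW.negY]
    intro h
    apply hy
    have : 2 * y = 0 := by linear_combination h
    exact (mul_eq_zero.1 this).resolve_left two_ne_zero
  have h := Affine.Point.add_self_of_Y_ne (h₁ := n) hne
  have hs : W.toAffine.slope x x y y = (3 * x ^ 2 + 5805) / (2 * y) := by
    rw [Affine.slope_of_Y_ne rfl hne, hW.negY, hW.h1, hW.h2, hW.h4]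
    congr 1 <;> ring
  have hX : W.toAffine.addX x x (W.toAffine.slope x x y y) =
      ((3 * x ^ 2 + 5805) / (2 * y)) ^ 2 - 2 * x := by
    rw [hs, Affine.addX, hW.h1, hW.h2]
    ring
  have hY : W.toAffine.addY x x y (W.toAffine.slope x x y y) =
      -((3 * x ^ 2 + 5805) / (2 * y) * (W.toAffine.addX x x (W.toAffine.slope x x y y) - x) + y) := by
    rw [Affine.addY, Affine.negAddY, hW.negY, hs]
  exact ⟨_, _, _, h, hX, hY⟩

/-- a point is killed by three iff it is zero or its abscissa is a root of the division polynomial -/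
lemma IsE.three_iff (hW : IsE W) [CharZero L] {x y : L} (n : W.toAffine.Nonsingular x y) :
    3 • Affine.Point.some x y n = 0 ↔ (x + 9) * ((x - 75) * (x ^ 2 + 66 * x + 16641)) = 0 := by
  have he : Eqn x y := (hW.eqn_iff x y).1 n.1
  unfold Eqn at he
  have e3 : 3 • Affine.Point.some x y n = (Affine.Point.some x y n + Affine.Point.some x y n) +
      Affine.Point.some x y n := by
    rw [show (3 : ℕ) = 1 + 1 + 1 from rfl, add_smul, add_smul, one_smul]
  have hneg : 3 • Affine.Point.some x y n = 0 ↔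
      Affine.Point.some x y n + Affine.Point.some x y n = -Affine.Point.some x y n := by
    rw [e3, add_eq_zero_iff_eq_neg]
  have h' : W.toAffine.Nonsingular x (-y) := hW.ns (by unfold Eqn; linear_combination he)
  rw [hneg, hW.neg_some n h']
  have hψ : (3 * x ^ 2 + 5805) ^ 2 - 12 * x * y ^ 2 =
      -3 * ((x + 9) * ((x - 75) * (x ^ 2 + 66 * x + 16641))) := by
    rw [he]; ring
  by_cases hy : y = 0
  · subst hy
    constructor
    · intro h
      exfalso
      have h0 : Affine.Point.some x 0 n = -Affine.Point.some x 0 n := by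
        rw [hW.neg_some n h']
        congr 1
        exact neg_zero.symm
      rw [← hW.neg_some n h', eq_neg_iff_add_eq_zero] at h
      rw [eq_neg_iff_add_eq_zero] at h0
      rw [h0, zero_add] at h
      exact Affine.Point.some_ne_zero n h
    · intro h
      exfalso
      rw [h, mul_zero] at hψ
      have e1 : (3 * x ^ 2 + 5805 : L) = 0 := by
        have : (3 * x ^ 2 + 5805 : L) ^ 2 = 0 := by linear_combination hψ
        exact pow_eq_zero_iff (two_ne_zero) |>.1 this
      have e2 : (x ^ 3 + 5805 * x - 285714 : L) = 0 := by linear_combination -he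
      have e3 : (3870 * x - 285714 : L) = 0 := by linear_combination e2 - (x / 3) * e1
      have e4 : x = 285714 / 3870 := by
        have h0 : (3870 : L) ≠ 0 := by norm_num
        field_simp
        linear_combination e3
      rw [e4] at e1
      norm_num at e1
  · obtain ⟨X, Y, n', hd, hX, hY⟩ := hW.dbl n hy
    have h2y : (2 * y : L) ≠ 0 := mul_ne_zero two_ne_zero hy
    rw [hd]
    constructor
    · intro h
      rw [Affine.Point.some.injEq] at h
      have h1 := h.1
      rw [hX] at h1
      have h3 : ((3 * x ^ 2 + 5805) / (2 * y)) ^ 2 = 3 * x := by linear_combination h1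
      rw [div_pow, div_eq_iff (pow_ne_zero 2 h2y)] at h3
      have h4 : (3 * x ^ 2 + 5805) ^ 2 - 12 * x * y ^ 2 = 0 := by linear_combination h3
      rw [hψ] at h4
      exact (mul_eq_zero.1 h4).resolve_left (by norm_num)
    · intro h
      rw [h, mul_zero] at hψ
      have h3 : ((3 * x ^ 2 + 5805) / (2 * y)) ^ 2 = 3 * x := by
        rw [div_pow, div_eq_iff (pow_ne_zero 2 h2y)]
        linear_combination hψ
      have hXx : X = x := by rw [hX, h3]; ring
      rw [Affine.Point.some.injEq]
      refine ⟨hXx, ?_⟩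
      rw [hY, hXx, sub_self, mul_zero, zero_add]

end Pool.Agent.K4H1.BX
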