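import Pool.Agent.TH841.NF.Conc
import Pool.Agent.TH841.NF.ShaN
import Pool.Agent.TH841.NF.Brd
import Pool.Agent.Y698.Cp

/-!
# Restriction of locally trivial cocycles to a field over which the curve is a twist

(The proofs are those of `Pool.Agent.R432.R3`, for two curves that differ by a scaling over the larger
field.)
-/

set_option autoImplicit false
set_option linter.unusedSectionVars false

open scoped Classical

namespace Pool.Agent.K4H1.BX

open NumberField IsDedekindDomain WeierstrassCurve
open Pool.Agent.TH841.NF (Sc tm tm_act act_tm tm_tm tm_id tm_inj coc_fin coc_of_fin aut_of_two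
  act_some' act_zero' pt_ext)
open Pool.Agent.TH841.SH.D (Pt act Gal Coch IsCoc IsCob LocTriv cob)
open Pool.Agent.TH841.NF.D (Sha IsShaCoc shaCoc)

section rest

variable {k F : Type} [Field k] [NumberField k] [Field F] [NumberField F] [Algebra k F]
  {W : WeierstrassCurve k} {W' : WeierstrassCurve F} {u : F} (hS : Sc (algebraMap k F) u W W')

include hS in
lemma scu {L L' : Type} [Field L] [Algebra k L] [Field L'] [Algebra F L'] (φ : L →+* L')
    (hφ : ∀ x : k, φ (algebraMap k L x) = algebraMap F L' (algebraMap k F x)) :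
    Sc φ (algebraMap F L' u) (W.baseChange L) (W'.baseChange L') := by
  refine ⟨(map_ne_zero _).2 hS.hu, ?_, ?_, ?_, ?_, ?_⟩
  · show algebraMap F L' W'.a₁ = φ (algebraMap k L W.a₁) * _
    rw [hS.h1, map_mul, hφ]
  · show algebraMap F L' W'.a₂ = φ (algebraMap k L W.a₂) * _
    rw [hS.h2, map_mul, hφ, map_pow]
  · show algebraMap F L' W'.a₃ = φ (algebraMap k L W.a₃) * _
    rw [hS.h3, map_mul, hφ, map_pow]
  · show algebraMap F L' W'.a₄ = φ (algebraMap k L W.a₄) * _
    rw [hS.h4, map_mul, hφ, map_pow]
  · show algebraMap F L' W'.a₆ = φ (algebraMap k L W.a₆) * _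
    rw [hS.h6, map_mul, hφ, map_pow]

variable (e : AlgebraicClosure F ≃+* AlgebraicClosure k)
  (he : ∀ x : k, e (algebraMap F _ (algebraMap k F x)) = algebraMap k _ x)

include he in
lemma he_symm (x : k) : (e.symm : AlgebraicClosure k →+* AlgebraicClosure F)
    (algebraMap k _ x) = algebraMap F _ (algebraMap k F x) := by
  change e.symm (algebraMap k _ x) = _
  rw [← he, e.symm_apply_apply]

/-- the scaling map on the points over the algebraic closures -/
noncomputable def sm : Pt W (AlgebraicClosure k) →+ Pt W' (AlgebraicClosure F) :=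
  tm (scu hS (e.symm : AlgebraicClosure k →+* AlgebraicClosure F) (he_symm e he))

/-- the conjugate automorphism -/
noncomputable def cK (σ : Gal F) : Gal k :=
  { toFun := fun x => e (σ (e.symm x))
    invFun := fun x => e (σ.symm (e.symm x))
    left_inv := fun x => by simp
    right_inv := fun x => by simp
    map_mul' := fun x y => by simp
    map_add' := fun x y => by simp
    commutes' := fun x => by
      show e (σ (e.symm (algebraMap k _ x))) = _
      rw [← he, e.symm_apply_apply, σ.commutes] }

lemma cK_apply (σ : Gal F) (x : AlgebraicClosure k) : cK e he σ x = e (σ (e.symm x)) := rfl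

/-- the restriction of a cochain -/
noncomputable def rs (f : Coch W) : Coch W' := fun σ => sm hS e he (f (cK e he σ))

lemma rs_apply (f : Coch W) (σ : Gal F) : rs hS e he f σ = sm hS e he (f (cK e he σ)) := rfl

lemma rs_act (σ : Gal F) (P : Pt W (AlgebraicClosure k)) :
    sm hS e he (act W (cK e he σ).toAlgHom P) = act W' σ.toAlgHom (sm hS e he P) := by
  have S : Sc ((e.symm : AlgebraicClosure k →+* AlgebraicClosure F).comp
      ((cK e he σ : AlgebraicClosure k ≃+* AlgebraicClosure k) :
        AlgebraicClosure k →+* AlgebraicClosure k)) (algebraMap F _ u)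
      (W.baseChange (AlgebraicClosure k)) (W'.baseChange (AlgebraicClosure F)) := by
    apply scu hS
    intro x
    change e.symm (cK e he σ (algebraMap k _ x)) = _
    rw [AlgEquiv.commutes]
    exact he_symm e he x
  unfold sm
  have h1 : ∀ x, σ.toAlgHom ((e.symm : AlgebraicClosure k →+* AlgebraicClosure F) x) =
      ((e.symm : AlgebraicClosure k →+* AlgebraicClosure F).comp
      ((cK e he σ : AlgebraicClosure k ≃+* AlgebraicClosure k) :
        AlgebraicClosure k →+* AlgebraicClosure k)) x := by
    intro x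
    change σ (e.symm x) = e.symm (e (σ (e.symm x)))
    rw [RingEquiv.symm_apply_apply]
  rw [act_tm (cK e he σ).toAlgHom _ S (fun x => rfl), tm_act _ σ.toAlgHom S h1
    (σ.commutes u).symm]

lemma rs_coc {f : Coch W} (hf : IsCoc W f) : IsCoc W' (rs hS e he f) := by
  obtain ⟨S, hS'⟩ := coc_fin hf
  refine coc_of_fin ?_ (S.image e.symm) ?_
  · intro σ τ
    have h1 : cK e he (σ * τ) = cK e he σ * cK e he τ := by
      refine AlgEquiv.ext fun x => ?_
      change e ((σ * τ) (e.symm x)) = e (σ (e.symm (e (τ (e.symm x)))))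
      rw [RingEquiv.symm_apply_apply]
      rfl
    rw [rs_apply, rs_apply, rs_apply, h1, hf.2, map_add, rs_act]
  · intro σ hσ
    rw [rs_apply, hS', map_zero]
    intro x hx
    change e (σ (e.symm x)) = x
    rw [hσ _ (Finset.mem_image_of_mem _ hx), RingEquiv.apply_symm_apply]

lemma rs_loc {K : Type} [Field K] [Algebra k K] {Fv : Type} [Field Fv] [Algebra F Fv]
    (θ : K →+* Fv) (hθ : ∀ x : k, θ (algebraMap k K x) = algebraMap F Fv (algebraMap k F x))
    {f : Coch W} (hf : LocTriv W K f) : LocTriv W' Fv (rs hS e he f) := by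
  intro ι
  let i1 : Algebra K (AlgebraicClosure Fv) :=
    ((algebraMap Fv (AlgebraicClosure Fv)).comp θ).toAlgebra
  let θ' : AlgebraicClosure K →ₐ[K] AlgebraicClosure Fv := IsAlgClosed.lift
  have hθ' : ∀ y : K, θ' (algebraMap K _ y) = algebraMap Fv _ (θ y) := fun y => θ'.commutes y
  let ι₀ : AlgebraicClosure k →ₐ[k] AlgebraicClosure K := IsAlgClosed.lift
  obtain ⟨h₀, hh₀⟩ := aut_of_two
    ((θ' : AlgebraicClosure K →+* AlgebraicClosure Fv).comp
      (ι₀ : AlgebraicClosure k →+* AlgebraicClosure K))
    ((ι : AlgebraicClosure F →+* AlgebraicClosure Fv).comp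
      (e.symm : AlgebraicClosure k →+* AlgebraicClosure F)) (fun x => by
        change θ' (ι₀ (algebraMap k _ x)) = ι (e.symm (algebraMap k _ x))
        rw [← he, e.symm_apply_apply, ι.commutes, he, ι₀.commutes,
          IsScalarTower.algebraMap_apply k K (AlgebraicClosure K), hθ', hθ,
          ← IsScalarTower.algebraMap_apply F Fv (AlgebraicClosure Fv)])
  let ι₁ : AlgebraicClosure k →ₐ[k] AlgebraicClosure K := ι₀.comp h₀.toAlgHom
  have hι : ∀ x, ι (e.symm x) = θ' (ι₁ x) := hh₀
  obtain ⟨P₀, hP₀⟩ := hf ι₁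
  have hc1 : ∀ x : k, (θ' : AlgebraicClosure K →+* AlgebraicClosure Fv)
      (algebraMap k _ x) = algebraMap F _ (algebraMap k F x) := by
    intro x
    change θ' (algebraMap k _ x) = _
    rw [IsScalarTower.algebraMap_apply k K (AlgebraicClosure K), hθ', hθ,
      ← IsScalarTower.algebraMap_apply F Fv (AlgebraicClosure Fv)]
  have S1 : Sc (θ' : AlgebraicClosure K →+* AlgebraicClosure Fv) (algebraMap F _ u)
    (W.baseChange (AlgebraicClosure K)) (W'.baseChange (AlgebraicClosure Fv)) := scu hS _ hc1
  refine ⟨tm S1 P₀, fun τ σ hτ => ?_⟩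
  obtain ⟨τ₀, hτ₀⟩ := aut_of_two (θ' : AlgebraicClosure K →+* AlgebraicClosure Fv)
    (((τ : AlgebraicClosure Fv ≃+* AlgebraicClosure Fv) : AlgebraicClosure Fv →+*
      AlgebraicClosure Fv).comp (θ' : AlgebraicClosure K →+* AlgebraicClosure Fv)) (by
      intro y
      change θ' (algebraMap K _ y) = τ (θ' (algebraMap K _ y))
      rw [hθ', AlgEquiv.commutes])
  have hτ2 : ∀ x, τ (θ' x) = θ' (τ₀ x) := hτ₀
  have hcomp : ∀ x, τ₀ (ι₁ x) = ι₁ (cK e he σ x) := by
    intro x
    apply (θ' : AlgebraicClosure K →+* AlgebraicClosure Fv).injective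
    change θ' (τ₀ (ι₁ x)) = θ' (ι₁ (cK e he σ x))
    rw [← hτ2, ← hι, hτ, ← hι]
    change _ = ι (e.symm (e (σ (e.symm x))))
    rw [RingEquiv.symm_apply_apply]
  have h1 := hP₀ τ₀ (cK e he σ) hcomp
  have S2 : Sc ((ι : AlgebraicClosure F →+* AlgebraicClosure Fv).comp
      (e.symm : AlgebraicClosure k →+* AlgebraicClosure F)) (algebraMap F _ u)
    (W.baseChange (AlgebraicClosure k)) (W'.baseChange (AlgebraicClosure Fv)) := by
    apply scu hS
    intro x
    change ι (e.symm (algebraMap k _ x)) = _
    have := he_symm e he x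
    change e.symm (algebraMap k _ x) = _ at this
    rw [this, ι.commutes]
  have h2 : act W' ι (rs hS e he f σ) = tm S2 (f (cK e he σ)) :=
    tm_act _ ι S2 (fun x => rfl) (ι.commutes u).symm _
  have h3 : tm S2 (f (cK e he σ)) = tm S1 (act W ι₁ (f (cK e he σ))) :=
    (act_tm ι₁ S1 S2 (fun x => (hι x).symm) _).symm
  rw [h2, h3, h1, map_sub]
  congr 1
  have S3 : Sc (((τ : AlgebraicClosure Fv ≃+* AlgebraicClosure Fv) : AlgebraicClosure Fv →+*
      AlgebraicClosure Fv).comp (θ' : AlgebraicClosure K →+* AlgebraicClosure Fv))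
      (algebraMap F _ u)
      (W.baseChange (AlgebraicClosure K)) (W'.baseChange (AlgebraicClosure Fv)) := by
    apply scu hS
    intro x
    have h5 := hc1 x
    change θ' (algebraMap k _ x) = _ at h5
    change τ (θ' (algebraMap k _ x)) = _
    rw [h5, IsScalarTower.algebraMap_apply F Fv (AlgebraicClosure Fv), AlgEquiv.commutes]
  have h4 : tm S1 (act W (τ₀.toAlgHom.restrictScalars k) P₀) = tm S3 P₀ :=
    act_tm _ S1 S3 (fun x => (hτ2 x).symm) _
  have h5 : act W' (τ.toAlgHom.restrictScalars F) (tm S1 P₀) = tm S3 P₀ :=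
    tm_act _ (τ.toAlgHom.restrictScalars F) S3 (fun x => rfl)
      ((τ.toAlgHom.restrictScalars F).commutes u).symm _
  rw [h4, h5]

lemma rs_sha {f : Coch W} (hf : IsShaCoc W f) : IsShaCoc W' (rs hS e he f) := by
  refine ⟨rs_coc hS e he hf.1, fun v => ?_, fun v => ?_⟩
  · exact rs_loc hS e he (Pool.Agent.Y698.jx k v) (Pool.Agent.Y698.jx_coe k v) (hf.2.1 _)
  · have : v.LiesOver (v.comap (algebraMap k F)) := ⟨rfl⟩
    refine rs_loc hS e he
      (NumberField.LiesOver.completionMap (v := v.comap (algebraMap k F)) (w := v))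
      (fun x => ?_) (hf.2.2 _)
    exact NumberField.LiesOver.completionMap_coe _

/-- an automorphism that fixes `F` comes from `F` -/
lemma exists_cK (σ : Gal k) (hσ : ∀ x : F, σ (e (algebraMap F _ x)) = e (algebraMap F _ x)) :
    ∃ σ' : Gal F, cK e he σ' = σ := by
  refine ⟨{ toFun := fun x => e.symm (σ (e x))
            invFun := fun x => e.symm (σ.symm (e x))
            left_inv := fun x => by simp
            right_inv := fun x => by simp
            map_mul' := fun x y => by simp
            map_add' := fun x y => by simp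
            commutes' := fun x => ?_ }, ?_⟩
  · show e.symm (σ (e (algebraMap F _ x))) = _
    rw [hσ, e.symm_apply_apply]
  · refine AlgEquiv.ext fun x => ?_
    show e (e.symm (σ (e (e.symm x)))) = σ x
    rw [e.apply_symm_apply, e.apply_symm_apply]

lemma sm_inj : Function.Injective (sm hS e he) := tm_inj _

end rest

end Pool.Agent.K4H1.BX
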