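import Pool.Agent.K4H1.BX.Eig
import Pool.Agent.K4H1.BX.Res
import Pool.Agent.Y158.FQ.Hil

/-!
# The Kummer generators of a cocycle with values in the points of order three
-/

set_option autoImplicit false
set_option linter.unusedSectionVars false

namespace Pool.Agent.K4H1.BX

open WeierstrassCurve NumberField IsDedekindDomain
open Pool.Agent.TH841.NF (coc_fin aut_of_two act_some' act_zero' pt_ext)
open Pool.Agent.TH841.SH.D (Pt act Gal Coch IsCoc IsCob LocTriv cob)

open scoped Classical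

/-- the curve -/
def EX (M : Type) [Field M] : WeierstrassCurve M := ⟨0, 0, 0, 5805, -285714⟩

variable {M : Type} [Field M] [CharZero M]

omit [CharZero M] in
lemma isE_base (M : Type) [Field M] (L : Type) [Field L] [Algebra M L] :
    IsE ((EX M).baseChange L) where
  h1 := by show algebraMap M L 0 = 0; simp
  h2 := by show algebraMap M L 0 = 0; simp
  h3 := by show algebraMap M L 0 = 0; simp
  h4 := map_ofNat (algebraMap M L) 5805
  h6 := by
    show algebraMap M L (-285714) = -285714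
    rw [map_neg, map_ofNat]

/-- the roots of unity in an extension -/
def Rt.map (R : Rt M) (L : Type) [Field L] [Algebra M L] : Rt L where
  t := algebraMap M L R.t
  w := algebraMap M L R.w
  ht := by rw [← map_pow, R.ht, map_neg, map_ofNat]
  hw := by rw [← R.hw, map_add, map_mul, map_ofNat, map_one]

section pts

variable (L : Type) [Field L] [CharZero L] [Algebra M L]

/-- the first point -/
noncomputable def pT : Pt (EX M) L := (isE_base M L).T

/-- the second point -/
noncomputable def pT' (R : Rt M) : Pt (EX M) L := (isE_base M L).T' (R.map L)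

variable {L} {L' : Type} [Field L'] [CharZero L'] [Algebra M L']

lemma act_T (φ : L →ₐ[M] L') : act (EX M) φ (pT L) = pT L' := by
  unfold pT IsE.T
  rw [act_some']
  exact pt_ext _ _ (map_ofNat φ 75) (map_ofNat φ 756)

lemma act_T' (R : Rt M) (φ : L →ₐ[M] L') : act (EX M) φ (pT' L R) = pT' L' R := by
  unfold pT' IsE.T'
  rw [act_some']
  refine pt_ext _ _ (by rw [map_neg, map_ofNat]) ?_
  rw [map_mul, map_ofNat]
  congr 1
  exact φ.commutes R.t

lemma tor3 (R : Rt M) {P : Pt (EX M) L} (h : 3 • P = 0) :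
    ∃ i j : ℕ, P = i • pT L + j • pT' L R :=
  tor_cases (isE_base M L) (R.map L) h

lemma indep3 (R : Rt M) {i j : ℕ} (h : i • pT L + j • pT' L R = 0) : 3 ∣ i ∧ 3 ∣ j :=
  tor_indep (isE_base M L) (R.map L) h

lemma thrT : 3 • (pT L : Pt (EX M) L) = 0 := three_T (isE_base M L)

lemma thrT' (R : Rt M) : 3 • (pT' L R : Pt (EX M) L) = 0 := three_T' (isE_base M L) (R.map L)

end pts

lemma pow_mod3 {L : Type} [Field L] {w : L} (hw : w ^ 3 = 1) {a b : ℕ} (h : a % 3 = b % 3) :
    w ^ a = w ^ b := by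
  rw [← Nat.div_add_mod a 3, ← Nat.div_add_mod b 3, pow_add, pow_add, pow_mul, pow_mul, hw,
    one_pow, one_pow, h]

/-- two representations -/
lemma rep_unique {L : Type} [Field L] [CharZero L] [Algebra M L] (R : Rt M) {i j i' j' : ℕ}
    (h : i • pT L + j • pT' L R = i' • pT L + j' • pT' L R) : i % 3 = i' % 3 ∧ j % 3 = j' % 3 := by
  have h1 : (i + 2 * i') • pT L + (j + 2 * j') • pT' L R = 0 := by
    have e1 : (i + 2 * i') • pT L + (j + 2 * j') • pT' L R =
        (i • pT L + j • pT' L R) + 2 • (i' • pT L + j' • pT' L R) := by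
      rw [add_smul, add_smul, mul_smul, mul_smul, smul_add]; abel
    have e2 : (i' • pT L + j' • pT' L R) + 2 • (i' • pT L + j' • pT' L R) =
        i' • (3 • pT L) + j' • (3 • pT' L R) := by
      rw [smul_comm i' 3, smul_comm j' 3, ← smul_add, show (3 : ℕ) = 1 + 2 from rfl,
        add_smul 1 2, one_smul]
    rw [e1, h, e2, thrT, thrT', smul_zero, smul_zero, add_zero]
  obtain ⟨h2, h3⟩ := indep3 R h1
  constructor <;> omega

/-- the Kummer generators -/
structure Kum (R : Rt M) (f : Coch (EX M)) where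
  c : Gal M → ℕ
  d : Gal M → ℕ
  b₁ : AlgebraicClosure M
  b₂ : AlgebraicClosure M
  β₁ : M
  β₂ : M
  hf : ∀ σ, f σ = c σ • pT (AlgebraicClosure M) + d σ • pT' (AlgebraicClosure M) R
  h₁ : b₁ ≠ 0
  h₂ : b₂ ≠ 0
  e₁ : algebraMap M _ β₁ = b₁ ^ 3
  e₂ : algebraMap M _ β₂ = b₂ ^ 3
  s₁ : ∀ σ : Gal M, σ b₁ = algebraMap M _ R.w ^ c σ * b₁
  s₂ : ∀ σ : Gal M, σ b₂ = (algebraMap M _ R.w ^ d σ) ^ 2 * b₂

theorem exists_kum (R : Rt M) {f : Coch (EX M)} (hf : IsCoc (EX M) f) (h3 : ∀ σ, 3 • f σ = 0) :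
    Nonempty (Kum R f) := by
  have hC : CharZero (AlgebraicClosure M) :=
    charZero_of_injective_algebraMap (algebraMap M (AlgebraicClosure M)).injective
  choose c d hcd using fun σ => tor3 (L := AlgebraicClosure M) R (h3 σ)
  obtain ⟨S, hS⟩ := coc_fin hf
  have hadd : ∀ σ τ, (c (σ * τ)) % 3 = (c σ + c τ) % 3 ∧ (d (σ * τ)) % 3 = (d σ + d τ) % 3 := by
    intro σ τ
    apply rep_unique (L := AlgebraicClosure M) R
    rw [← hcd, hf.2, hcd σ, hcd τ, map_add, map_nsmul, map_nsmul, act_T, act_T', add_smul, add_smul]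
    abel
  have hfix : ∀ σ : Gal M, f σ = 0 → c σ % 3 = 0 ∧ d σ % 3 = 0 := by
    intro σ hσ
    have := rep_unique (L := AlgebraicClosure M) R (i := c σ) (j := d σ) (i' := 0) (j' := 0) (by
      rw [← hcd, hσ, zero_smul, zero_smul, add_zero])
    exact this
  obtain ⟨w, hw⟩ : ∃ w : AlgebraicClosure M, w = algebraMap M _ R.w := ⟨_, rfl⟩
  have hw3 : w ^ 3 = 1 := by rw [hw, ← map_pow, R.hw3, map_one]
  have hσw : ∀ σ : Gal M, σ w = w := by
    intro σ
    rw [hw]; exact σ.commutes _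
  have hcont : ∀ ξ : Gal M → AlgebraicClosure M, (∀ σ, f σ = 0 → ξ σ = 1) →
      ∃ E : IntermediateField M (AlgebraicClosure M), FiniteDimensional M E ∧
      ∀ σ ∈ E.fixingSubgroup, ξ σ = 1 := by
    intro ξ hξ
    refine ⟨IntermediateField.adjoin M (S : Set (AlgebraicClosure M)),
      IntermediateField.finiteDimensional_adjoin fun x _ => Algebra.IsIntegral.isIntegral x,
      fun σ hσ => hξ σ (hS σ fun x hx => ?_)⟩
    rw [IntermediateField.mem_fixingSubgroup_iff] at hσ
    exact hσ x (IntermediateField.subset_adjoin M _ hx)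
  obtain ⟨b₁, hb₁, hs₁, β₁, hβ₁⟩ := Pool.Agent.Y158.FQ.exists_kum (ℓ := 3) (by norm_num)
    (k := M) (κ := AlgebraicClosure M) (fun σ => w ^ c σ)
    (fun σ => by rw [← pow_mul, mul_comm, pow_mul, hw3, one_pow])
    (fun σ τ => by
      rw [map_pow, hσw, ← pow_add]
      exact pow_mod3 hw3 (hadd σ τ).1)
    (hcont _ fun σ hσ => by
      have := pow_mod3 hw3 (a := c σ) (b := 0) (hfix σ hσ).1
      rwa [pow_zero] at this)
  obtain ⟨b₂, hb₂, hs₂, β₂, hβ₂⟩ := Pool.Agent.Y158.FQ.exists_kum (ℓ := 3) (by norm_num)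
    (k := M) (κ := AlgebraicClosure M) (fun σ => (w ^ d σ) ^ 2)
    (fun σ => by
      rw [show ((w ^ d σ) ^ 2) ^ 3 = ((w ^ 3) ^ d σ) ^ 2 by ring, hw3, one_pow, one_pow])
    (fun σ τ => by
      rw [map_pow, map_pow, hσw, ← mul_pow, ← pow_add]
      rw [pow_mod3 hw3 (hadd σ τ).2])
    (hcont _ fun σ hσ => by
      have := pow_mod3 hw3 (a := d σ) (b := 0) (hfix σ hσ).2
      rw [this, pow_zero, one_pow])
  exact ⟨⟨c, d, b₁, b₂, β₁, β₂, hcd, hb₁, hb₂, hβ₁, hβ₂,
    fun σ => by
      have := hs₁ σ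
      rw [div_eq_iff hb₁] at this
      rw [this, hw],
    fun σ => by
      have := hs₂ σ
      rw [div_eq_iff hb₂] at this
      rw [this, hw]⟩⟩

end Pool.Agent.K4H1.BX
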