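import Pool.Agent.K4H1.BX.Loc
import Pool.Agent.K4H1.BX.Gv

/-!
# The local conditions give conditions on the valuations
-/

set_option autoImplicit false
set_option linter.unusedSectionVars false

open NumberField IsDedekindDomain WithZero

open scoped WithZero

namespace Pool.Agent.K4H1.BX

section ab

variable {K : Type} [Field K] {ν : Valuation K ℤᵐ⁰}

lemma cub_inv_iff {g : ℤᵐ⁰} : Cub g⁻¹ ↔ Cub g := ⟨fun h => by simpa using h.inv, fun h => h.inv⟩

lemma cub_LC {A B β : K} (hA : ν A = 1) (hB : ν B ≤ 1) (h : LC A B β) : Cub (ν β) := by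
  rcases h with ⟨r, hr, rfl⟩ | ⟨r, y, v, s, hr, h1, h2, h3⟩
  · rw [map_pow]
    exact cub_pow3 _
  · rcases h3 with ⟨hy, rfl⟩ | ⟨hv, h4⟩
    · rw [map_mul, map_pow]
      exact (cub_of_rel ν hA hB hy h1 h2).mul (cub_pow3 _)
    · rw [← cub_inv_iff, ← map_inv₀, h4, map_mul, map_pow]
      exact (cub_of_rel ν hA hB hv (by rw [add_comm v y]; exact h1)
        (by rw [mul_comm]; exact h2)).mul (cub_pow3 _)

lemma pr_LC {β : K} (h3 : ν 3 = exp (-2)) (h : LC 28 3 β) : Pr ν β := by
  rcases h with ⟨r, hr, rfl⟩ | ⟨r, y, v, s, hr, h1, h2, h4⟩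
  · exact Pr.cube hr
  · rcases h4 with ⟨hy, rfl⟩ | ⟨hv, h5⟩
    · exact (pr_of_rel h3 hy h1 h2).mul (Pr.cube hr)
    · have h6 := ((pr_of_rel h3 hv (by rw [add_comm v y]; exact h1)
        (by rw [mul_comm]; exact h2)).mul (Pr.cube (ν := ν) hr)).inv
      rwa [← h5, inv_inv] at h6

end ab

variable {M : Type} [Field M] [NumberField M]

/-- the condition comes down from the completion -/
lemma Pr.down {v : HeightOneSpectrum (𝓞 M)} {β : M}
    (h : Pr (Valued.v (R := v.adicCompletion M)) (algebraMap M (v.adicCompletion M) β)) :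
    Pr (v.valuation M) β := by
  obtain ⟨x, hx, h1⟩ := h
  have hvx : Valued.v x ≠ 0 := (Valuation.ne_zero_iff _).2 hx
  obtain ⟨m, hm⟩ := ex_val (Valued.v (R := v.adicCompletion M)) hx
  obtain ⟨k, hk⟩ := exists_approx v x (Units.mk0 (exp (m - 3)) exp_ne_zero)
  rw [Units.val_mk0] at hk
  have hkx : Valued.v (algebraMap M (v.adicCompletion M) k) = exp m := by
    have e : algebraMap M (v.adicCompletion M) k =
        x + (algebraMap M (v.adicCompletion M) k - x) := by ring
    rw [e, Valuation.map_add_eq_of_lt_left, hm]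
    rw [hm]
    refine hk.trans ?_
    rw [exp_lt_exp]
    omega
  have hk0 : k ≠ 0 := by
    rintro rfl
    rw [map_zero, map_zero] at hkx
    exact exp_ne_zero hkx.symm
  have hβ1 : Valued.v (algebraMap M (v.adicCompletion M) β * x ^ 3) = 1 :=
    val_eq_one_of (lt_one_of_le h1 |>.trans_le le_rfl)
  refine ⟨k, hk0, ?_⟩
  rw [← valued_algebraMap, map_sub, map_mul, map_pow, map_one]
  generalize algebraMap M (v.adicCompletion M) k = k' at *
  generalize algebraMap M (v.adicCompletion M) β = β' at *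
  have e : β' * k' ^ 3 - 1 = (β' * x ^ 3 - 1) + β' * ((k' - x) * (k' ^ 2 + k' * x + x ^ 2)) := by
    ring
  rw [e]
  refine (Valuation.map_add _ _ _).trans (max_le h1 ?_)
  have h2 : Valued.v (k' ^ 2 + k' * x + x ^ 2) ≤ exp (2 * m) := by
    have e2 : (exp (2 * m) : ℤᵐ⁰) = exp m * exp m := by rw [← exp_add]; congr 1; ring
    refine (Valuation.map_add _ _ _).trans (max_le ((Valuation.map_add _ _ _).trans
      (max_le ?_ ?_)) ?_)
    · rw [sq, map_mul, hkx, e2]
    · rw [map_mul, hkx, hm, e2]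
    · rw [sq, map_mul, hm, e2]
  have h3 : Valued.v β' = exp (-(3 * m)) := by
    have h4 := hβ1
    rw [map_mul, map_pow, hm, ex_pow] at h4
    have h5 : Valued.v β' = (exp (3 * m))⁻¹ := eq_inv_of_mul_eq_one_left h4
    rw [h5, exp_neg]
  rw [map_mul, map_mul, h3]
  calc exp (-(3 * m)) * (Valued.v (k' - x) * Valued.v (k' ^ 2 + k' * x + x ^ 2))
      ≤ exp (-(3 * m)) * (exp (m - 3) * exp (2 * m)) := by gcongr
    _ = exp (-3) := by
      rw [← exp_add, ← exp_add]
      congr 1
      ring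

/-- the value of a natural number is one outside its divisors -/
lemma val_nat_one {v : HeightOneSpectrum (𝓞 M)} {n : ℕ} (h : (n : 𝓞 M) ∉ v.asIdeal) :
    v.valuation M (n : M) = 1 := by
  have h1 : v.valuation M (algebraMap (𝓞 M) M (n : 𝓞 M)) ≤ 1 := v.valuation_le_one _
  have h2 : ¬ v.valuation M (algebraMap (𝓞 M) M (n : 𝓞 M)) < 1 := by
    rw [v.valuation_lt_one_iff_mem]
    exact h
  rw [map_natCast] at h1 h2
  exact le_antisymm h1 (not_lt.1 h2)

lemma val_nat_le (v : HeightOneSpectrum (𝓞 M)) (n : ℕ) : v.valuation M (n : M) ≤ 1 := by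
  have h1 : v.valuation M (algebraMap (𝓞 M) M (n : 𝓞 M)) ≤ 1 := v.valuation_le_one _
  rwa [map_natCast] at h1

lemma val_nat_lt {v : HeightOneSpectrum (𝓞 M)} {n : ℕ} (h : (n : 𝓞 M) ∈ v.asIdeal) :
    v.valuation M (n : M) < 1 := by
  have h2 : v.valuation M (algebraMap (𝓞 M) M (n : 𝓞 M)) < 1 := by
    rw [v.valuation_lt_one_iff_mem]
    exact h
  rwa [map_natCast] at h2

theorem cub_of_LC {v : HeightOneSpectrum (𝓞 M)} {A B : ℕ} {β : M} (hA : (A : 𝓞 M) ∉ v.asIdeal)
    (h : LC (A : v.adicCompletion M) (B : v.adicCompletion M)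
      (algebraMap M (v.adicCompletion M) β)) : Cub (v.valuation M β) := by
  rw [← valued_algebraMap]
  refine cub_LC ?_ ?_ h
  · have := valued_algebraMap v (A : M)
    rw [map_natCast] at this
    rw [this]
    exact val_nat_one hA
  · have := valued_algebraMap v (B : M)
    rw [map_natCast] at this
    rw [this]
    exact val_nat_le v B

theorem pr_of_LC {v : HeightOneSpectrum (𝓞 M)} {β : M} (h3 : v.valuation M 3 = exp (-2))
    (h : LC (28 : v.adicCompletion M) 3 (algebraMap M (v.adicCompletion M) β)) :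
    Pr (v.valuation M) β := by
  apply Pr.down
  refine pr_LC ?_ h
  have := valued_algebraMap v (3 : M)
  rw [map_ofNat] at this
  rw [this]
  exact h3

end Pool.Agent.K4H1.BX
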