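import Pool.Agent.K4H1.BX.Kum

/-!
# The local information at a place
-/

set_option autoImplicit false
set_option linter.unusedSectionVars false

namespace Pool.Agent.K4H1.BX

open WeierstrassCurve NumberField IsDedekindDomain
open Pool.Agent.TH841.NF (coc_fin aut_of_two act_some' act_zero' pt_ext)
open Pool.Agent.TH841.SH.D (Pt act Gal Coch IsCoc IsCob LocTriv cob)

open scoped Classical

/-- the local condition -/
def LC {K : Type} [Field K] (A B β : K) : Prop :=
  (∃ r, r ≠ 0 ∧ β = r ^ 3) ∨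
  ∃ r y v s, r ≠ 0 ∧ y + v + A = B * s ∧ y * v = s ^ 3 ∧
    ((y ≠ 0 ∧ β = y * r ^ 3) ∨ (v ≠ 0 ∧ β⁻¹ = v * r ^ 3))

lemma fixed_mem {K : Type} [Field K] [CharZero K] {x : AlgebraicClosure K}
    (h : ∀ τ : Gal K, τ x = x) : ∃ y : K, algebraMap K _ y = x :=
  (InfiniteGalois.mem_bot_iff_fixed x).2 h

/-- the algebraic core -/
lemma LC_core {K : Type} [Field K] [CharZero K] {β A B : K} {b g h : AlgebraicClosure K}
    (hA : A ≠ 0) (hb : b ≠ 0) (hβ : algebraMap K _ β = b ^ 3) (e : Gal K → AlgebraicClosure K)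
    (he : ∀ τ, e τ ^ 3 = 1) (hsb : ∀ τ : Gal K, τ b = e τ * b) (hsg : ∀ τ : Gal K, τ g = e τ * g)
    (hsh : ∀ τ : Gal K, τ h = (e τ) ^ 2 * h)
    (hrel : g ^ 3 + h ^ 3 + algebraMap K _ A = algebraMap K _ B * (g * h)) : LC A B β := by
  right
  have he0 : ∀ τ, e τ ≠ 0 := fun τ h => by
    have := he τ
    rw [h] at this
    norm_num at this
  -- the values in `K`
  obtain ⟨y, hy⟩ := fixed_mem (x := g ^ 3) (fun τ => by
    rw [map_pow, hsg, mul_pow, he, one_mul])
  obtain ⟨v, hv⟩ := fixed_mem (x := h ^ 3) (fun τ => by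
    rw [map_pow, hsh, mul_pow, ← pow_mul, mul_comm 2 3, pow_mul, he, one_pow, one_mul])
  obtain ⟨s, hs⟩ := fixed_mem (x := g * h) (fun τ => by
    rw [map_mul, hsg, hsh, show e τ * g * ((e τ) ^ 2 * h) = (e τ) ^ 3 * (g * h) by ring, he,
      one_mul])
  have hinj : Function.Injective (algebraMap K (AlgebraicClosure K)) :=
    (algebraMap K (AlgebraicClosure K)).injective
  have h1 : y + v + A = B * s := by
    apply hinj
    rw [map_add, map_add, map_mul, hy, hv, hs, hrel]
  have h2 : y * v = s ^ 3 := by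
    apply hinj
    rw [map_mul, map_pow, hy, hv, hs]; ring
  by_cases hg : g = 0
  · have hh : h ≠ 0 := by
      intro hh
      rw [hg, hh] at hrel
      apply hA
      apply hinj
      rw [map_zero]
      linear_combination hrel
    have hv0 : v ≠ 0 := by
      intro h0
      rw [h0, map_zero] at hv
      exact hh (pow_eq_zero_iff (by norm_num) |>.1 hv.symm)
    obtain ⟨r, hr⟩ := fixed_mem (x := (h * b)⁻¹) (fun τ => by
      rw [map_inv₀, map_mul, hsh, hsb,
        show (e τ) ^ 2 * h * (e τ * b) = (e τ) ^ 3 * (h * b) by ring, he, one_mul])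
    have hr0 : r ≠ 0 := by
      intro h0
      rw [h0, map_zero] at hr
      exact inv_ne_zero (mul_ne_zero hh hb) hr.symm
    refine ⟨r, y, v, s, hr0, h1, h2, Or.inr ⟨hv0, ?_⟩⟩
    apply hinj
    rw [map_inv₀, map_mul, map_pow, hβ, hv, hr]
    field_simp
  · have hy0 : y ≠ 0 := by
      intro h0
      rw [h0, map_zero] at hy
      exact hg (pow_eq_zero_iff (by norm_num) |>.1 hy.symm)
    obtain ⟨r, hr⟩ := fixed_mem (x := b / g) (fun τ => by
      rw [map_div₀, hsb, hsg]
      exact mul_div_mul_left _ _ (he0 τ))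
    have hr0 : r ≠ 0 := by
      intro h0
      rw [h0, map_zero] at hr
      exact div_ne_zero hb hg hr.symm
    refine ⟨r, y, v, s, hr0, h1, h2, Or.inl ⟨hy0, ?_⟩⟩
    apply hinj
    rw [map_mul, map_pow, hβ, hy, hr]
    field_simp

section nat

variable {M : Type} [Field M] [CharZero M] {L L' : Type} [Field L] [CharZero L] [Field L']
  [CharZero L'] [Algebra M L] [Algebra M L'] (φ : L →ₐ[M] L') (R : Rt M)

lemma g1_act (P : Pt (EX M) L) : g1 _ (R.map L').w (act (EX M) φ P) = φ (g1 _ (R.map L).w P) := by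
  have hw : φ (R.map L).w = (R.map L').w := φ.commutes R.w
  rcases P with _ | ⟨x, y, n⟩
  · exact (map_zero φ).symm
  · rw [act_some']
    show f1 _ (cp (φ x) (φ y)) (cq (φ x) (φ y)) (cz (φ x)) = φ (f1 _ (cp x y) (cq x y) (cz x))
    unfold f1 cp cq cz
    simp only [map_div₀, map_add, map_mul, map_pow, map_sub, map_ofNat, hw]

lemma h1_act (P : Pt (EX M) L) : h1 _ (R.map L').w (act (EX M) φ P) = φ (h1 _ (R.map L).w P) := by
  have hw : φ (R.map L).w = (R.map L').w := φ.commutes R.w
  rcases P with _ | ⟨x, y, n⟩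
  · exact (map_zero φ).symm
  · rw [act_some']
    show f1 _ (cq (φ x) (φ y)) (cp (φ x) (φ y)) (cz (φ x)) = φ (f1 _ (cq x y) (cp x y) (cz x))
    unfold f1 cp cq cz
    simp only [map_div₀, map_add, map_mul, map_pow, map_sub, map_ofNat, hw]

lemma g2_act (P : Pt (EX M) L) : g2 _ (act (EX M) φ P) = φ (g2 _ P) := by
  rcases P with _ | ⟨x, y, n⟩
  · exact (map_zero φ).symm
  · rw [act_some']
    show f2 (cp (φ x) (φ y)) (cq (φ x) (φ y)) (cz (φ x)) = φ (f2 (cp x y) (cq x y) (cz x))
    unfold f2 cp cq cz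
    simp only [map_div₀, map_add, map_mul, map_pow, map_sub, map_ofNat]

lemma h2_act (P : Pt (EX M) L) : h2 _ (act (EX M) φ P) = φ (h2 _ P) := by
  rcases P with _ | ⟨x, y, n⟩
  · exact (map_zero φ).symm
  · rw [act_some']
    show f2 (cq (φ x) (φ y)) (cp (φ x) (φ y)) (cz (φ x)) = φ (f2 (cq x y) (cp x y) (cz x))
    unfold f2 cp cq cz
    simp only [map_div₀, map_add, map_mul, map_pow, map_sub, map_ofNat]

end nat

variable {M : Type} [Field M] [CharZero M] {R : Rt M} {f : Coch (EX M)}

/-- the local conditions of a locally trivial cocycle -/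
theorem Kum.loc (k : Kum R f) {K : Type} [Field K] [Algebra M K] (hl : LocTriv (EX M) K f) :
    LC 28 3 (algebraMap M K k.β₁) ∧ LC 7 5 (algebraMap M K k.β₂) := by
  have hK : CharZero K := charZero_of_injective_algebraMap (algebraMap M K).injective
  have hKb : CharZero (AlgebraicClosure K) :=
    charZero_of_injective_algebraMap (algebraMap K (AlgebraicClosure K)).injective
  have hMb : CharZero (AlgebraicClosure M) :=
    charZero_of_injective_algebraMap (algebraMap M (AlgebraicClosure M)).injective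
  let ι : AlgebraicClosure M →ₐ[M] AlgebraicClosure K := IsAlgClosed.lift
  obtain ⟨P, hP⟩ := hl ι
  have hex : ∀ τ : Gal K, ∃ σ : Gal M, ∀ x, τ (ι x) = ι (σ x) := by
    intro τ
    obtain ⟨σ, hσ⟩ := aut_of_two (ι : AlgebraicClosure M →+* AlgebraicClosure K)
      (((τ : AlgebraicClosure K ≃+* AlgebraicClosure K) : AlgebraicClosure K →+*
        AlgebraicClosure K).comp (ι : AlgebraicClosure M →+* AlgebraicClosure K)) (fun x => by
          change ι (algebraMap M _ x) = τ (ι (algebraMap M _ x))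
          rw [ι.commutes, IsScalarTower.algebraMap_apply M K (AlgebraicClosure K),
            AlgEquiv.commutes])
    exact ⟨σ, hσ⟩
  choose s hs using hex
  have hact : ∀ τ : Gal K, act (EX M) (τ.toAlgHom.restrictScalars M) P =
      P + (k.c (s τ) • pT (AlgebraicClosure K) + k.d (s τ) • pT' (AlgebraicClosure K) R) := by
    intro τ
    have h1 := hP τ (s τ) (hs τ)
    rw [k.hf, map_add, map_nsmul, map_nsmul, act_T, act_T'] at h1
    rw [h1, add_sub_cancel]
  obtain ⟨w, hw⟩ : ∃ w : AlgebraicClosure K, w = (R.map (AlgebraicClosure K)).w := ⟨_, rfl⟩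
  have hw3 : w ^ 3 = 1 := by rw [hw]; exact (R.map (AlgebraicClosure K)).hw3
  have hιw : ι (algebraMap M _ R.w) = w := by rw [ι.commutes, hw]; rfl
  have hb1 : ∀ τ : Gal K, τ (ι k.b₁) = w ^ k.c (s τ) * ι k.b₁ := by
    intro τ
    rw [hs, k.s₁, map_mul, map_pow, hιw]
  have hb2 : ∀ τ : Gal K, τ (ι k.b₂) = (w ^ k.d (s τ)) ^ 2 * ι k.b₂ := by
    intro τ
    rw [hs, k.s₂, map_mul, map_pow, map_pow, hιw]
  have hβ1 : algebraMap K (AlgebraicClosure K) (algebraMap M K k.β₁) = (ι k.b₁) ^ 3 := by
    rw [← map_pow, ← k.e₁, ι.commutes, ← IsScalarTower.algebraMap_apply]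
  have hβ2 : algebraMap K (AlgebraicClosure K) (algebraMap M K k.β₂) = (ι k.b₂) ^ 3 := by
    rw [← map_pow, ← k.e₂, ι.commutes, ← IsScalarTower.algebraMap_apply]
  have hb10 : ι k.b₁ ≠ 0 := (map_ne_zero _).2 k.h₁
  have hb20 : ι k.b₂ ≠ 0 := (map_ne_zero _).2 k.h₂
  by_cases h3 : 3 • P = 0
  · -- the point is rational
    obtain ⟨i, j, hij⟩ := tor3 (L := AlgebraicClosure K) R h3
    have hz : ∀ τ : Gal K, k.c (s τ) • pT (AlgebraicClosure K) +
        k.d (s τ) • pT' (AlgebraicClosure K) R = 0 := by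
      intro τ
      have h4 := hact τ
      have h5 : act (EX M) (τ.toAlgHom.restrictScalars M) P = P := by
        rw [hij, map_add, map_nsmul, map_nsmul, act_T, act_T']
      rw [h5] at h4
      exact (left_eq_add.1 h4)
    have hz' : ∀ τ : Gal K, w ^ k.c (s τ) = 1 ∧ w ^ k.d (s τ) = 1 := by
      intro τ
      obtain ⟨h6, h7⟩ := indep3 R (hz τ)
      constructor
      · obtain ⟨m, hm⟩ := h6
        rw [hm, pow_mul, hw3, one_pow]
      · obtain ⟨m, hm⟩ := h7
        rw [hm, pow_mul, hw3, one_pow]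
    have hinj : Function.Injective (algebraMap K (AlgebraicClosure K)) :=
      (algebraMap K (AlgebraicClosure K)).injective
    constructor
    · left
      obtain ⟨r, hr⟩ := fixed_mem (x := ι k.b₁) (fun τ => by rw [hb1, (hz' τ).1, one_mul])
      refine ⟨r, ?_, ?_⟩
      · rintro rfl
        rw [map_zero] at hr
        exact hb10 hr.symm
      · apply hinj
        rw [hβ1, map_pow, hr]
    · left
      obtain ⟨r, hr⟩ := fixed_mem (x := ι k.b₂) (fun τ => by
        rw [hb2, (hz' τ).2, one_pow, one_mul])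
      refine ⟨r, ?_, ?_⟩
      · rintro rfl
        rw [map_zero] at hr
        exact hb20 hr.symm
      · apply hinj
        rw [hβ2, map_pow, hr]
  · have hE := isE_base M (AlgebraicClosure K)
    have heig := fun τ : Gal K => eig hE (R.map (AlgebraicClosure K)) (P := P) h3 (k.c (s τ))
      (k.d (s τ))
    obtain ⟨hr1, hr2⟩ := rels hE (R.map (AlgebraicClosure K)) (P := P) h3
    constructor
    · refine LC_core (A := 28) (B := 3) (b := ι k.b₁) (g := -g1 _ (R.map (AlgebraicClosure K)).w P)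
        (h := -h1 _ (R.map (AlgebraicClosure K)).w P) (by norm_num) hb10 hβ1
        (fun τ => w ^ k.c (s τ)) (fun τ => by
          show (w ^ k.c (s τ)) ^ 3 = 1
          rw [← pow_mul, mul_comm, pow_mul, hw3, one_pow]) hb1 ?_ ?_ ?_
      · intro τ
        have e1 := g1_act (L := AlgebraicClosure K) (L' := AlgebraicClosure K)
          (τ.toAlgHom.restrictScalars M) R P
        rw [hact τ] at e1
        have e2 := (heig τ).1
        rw [map_neg]
        have e3 : τ (g1 _ (R.map (AlgebraicClosure K)).w P) = _ := e1.symm.trans e2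
        rw [e3, hw, mul_neg]
      · intro τ
        have e1 := h1_act (L := AlgebraicClosure K) (L' := AlgebraicClosure K)
          (τ.toAlgHom.restrictScalars M) R P
        rw [hact τ] at e1
        have e2 := (heig τ).2.1
        rw [map_neg]
        have e3 : τ (h1 _ (R.map (AlgebraicClosure K)).w P) = _ := e1.symm.trans e2
        rw [e3, hw, mul_neg]
      · rw [map_ofNat, map_ofNat]
        exact hr1
    · refine LC_core (A := 7) (B := 5) (b := ι k.b₂) (g := g2 _ P)
        (h := h2 _ P) (by norm_num) hb20 hβ2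
        (fun τ => (w ^ k.d (s τ)) ^ 2) (fun τ => by
          show ((w ^ k.d (s τ)) ^ 2) ^ 3 = 1
          rw [show ((w ^ k.d (s τ)) ^ 2) ^ 3 = ((w ^ 3) ^ k.d (s τ)) ^ 2 by ring, hw3, one_pow,
            one_pow]) hb2 ?_ ?_ ?_
      · intro τ
        have e1 := g2_act (L := AlgebraicClosure K) (L' := AlgebraicClosure K)
          (τ.toAlgHom.restrictScalars M) P
        rw [hact τ] at e1
        have e2 := (heig τ).2.2.1
        have e3 : τ (g2 _ P) = _ := e1.symm.trans e2
        rw [e3, hw]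
      · intro τ
        have e1 := h2_act (L := AlgebraicClosure K) (L' := AlgebraicClosure K)
          (τ.toAlgHom.restrictScalars M) P
        rw [hact τ] at e1
        have e2 := (heig τ).2.2.2
        have e3 : τ (h2 _ P) = _ := e1.symm.trans e2
        rw [e3, ← hw, show ((w ^ k.d (s τ)) ^ 2) ^ 2 = (w ^ 3) ^ k.d (s τ) * w ^ k.d (s τ) by ring,
          hw3, one_pow, one_mul]
      · rw [map_ofNat, map_ofNat]
        exact hr2

end Pool.Agent.K4H1.BX
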