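import Pool.Agent.K4H1.BX.Alg
import Pool.Agent.K4H1.EXT.S7

set_option autoImplicit false

namespace Pool.Agent.K4H1.BX

theorem t_sch : SCH := fun n hn h7 h3 L _ _ hL x hx L' _ _ hL' y hy b hb hnc hN hv hp =>
  Pool.Agent.K4H1.EXT.scholz n hn h7 h3 L hL x hx L' hL' y hy b hb hnc hN hv hp

end Pool.Agent.K4H1.BX
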