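import Pool.Agent.K4H1.BX.ShaV
import Pool.Agent.K4H1.BX.Sch
import Pool.Agent.Y682.XF.Stm

/-!
# The algebraic theorem for the minimal equation: Mordell-Weil group and Tate-Shafarevich group
-/

set_option autoImplicit false
set_option linter.unusedSectionVars false

open NumberField IsDedekindDomain WithZero Module WeierstrassCurve

namespace Pool.Agent.K4H1.BX

open scoped Classical

open Pool.Agent.Y700 Pool.Agent.R425.D
open Pool.Agent.TH942 (sw)
open Pool.Agent.TH841.SH.D (Pt act Gal Coch IsCoc IsCob LocTriv cob)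
open Pool.Agent.TH841.NF.D (Sha IsShaCoc shaCoc)
open Pool.Agent.Y682.XF (base tors rank IsBasis S_CH S_TORD)

section

variable (F : Type) [Field F] [CharZero F]

/-- the change of variables -/
theorem vrW {n : ℕ} (h7 : n % 8 = 7) : VR (base (WM (-(n : ℤ))) F) (EF F n) (1 / 6) ((n : F) / 12)
    (-1 / 2) (-(n : F) / 24 - 1 / 2) := by
  have hn : (n : ℤ) % 8 = 7 := by omega
  have e2 : (4 : F) * (((-(n : ℤ) - 1) / 4 : ℤ) : F) = -(n : F) - 1 := by
    have : (4 : ℤ) * ((-(n : ℤ) - 1) / 4) = -(n : ℤ) - 1 := by omega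
    have := congrArg (Int.cast : ℤ → F) this
    push_cast at this
    exact this
  have hsq : (n : ℤ) ^ 2 % 2 = 1 := by
    have : (n : ℤ) % 2 = 1 := by omega
    rw [pow_two, Int.mul_emod, this]; norm_num
  have e4 : (2 : F) * (((9 * (-(n : ℤ)) ^ 2 - 1) / 2 : ℤ) : F) = 9 * (n : F) ^ 2 - 1 := by
    have : (2 : ℤ) * ((9 * (-(n : ℤ)) ^ 2 - 1) / 2) = 9 * (n : ℤ) ^ 2 - 1 := by
      rw [neg_sq]; omega
    have := congrArg (Int.cast : ℤ → F) this
    push_cast at this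
    exact this
  have hc : (23 * (-(n : ℤ)) ^ 3 + 1) % 4 = 0 := by
    have h1 : (-(n : ℤ)) % 4 = 1 := by omega
    have h2 : (-(n : ℤ)) ^ 3 % 4 = 1 := by
      rw [pow_succ, pow_two, Int.mul_emod, Int.mul_emod (-(n : ℤ)), h1]; norm_num
    omega
  have e6 : (4 : F) * (((-((23 * (-(n : ℤ)) ^ 3 + 1) / 4)) : ℤ) : F) = 23 * (n : F) ^ 3 - 1 := by
    have : (4 : ℤ) * (-((23 * (-(n : ℤ)) ^ 3 + 1) / 4)) = 23 * (n : ℤ) ^ 3 - 1 := by
      have h3 : (-(n : ℤ)) ^ 3 = -((n : ℤ) ^ 3) := by ring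
      rw [h3] at hc ⊢; omega
    have := congrArg (Int.cast : ℤ → F) this
    push_cast at this ⊢
    exact this
  have a1 : (base (WM (-(n : ℤ))) F).a₁ = 1 := by
    show ((1 : ℤ) : F) = 1
    norm_num
  have a3 : (base (WM (-(n : ℤ))) F).a₃ = 1 := by
    show ((1 : ℤ) : F) = 1
    norm_num
  have a2 : (base (WM (-(n : ℤ))) F).a₂ = (-(n : F) - 1) / 4 := by
    rw [eq_div_iff (by norm_num), mul_comm, ← e2]; rfl
  have a4 : (base (WM (-(n : ℤ))) F).a₄ = (9 * (n : F) ^ 2 - 1) / 2 := by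
    rw [eq_div_iff (by norm_num), mul_comm, ← e4]; rfl
  have a6 : (base (WM (-(n : ℤ))) F).a₆ = (23 * (n : F) ^ 3 - 1) / 4 := by
    rw [eq_div_iff (by norm_num), mul_comm, ← e6]; rfl
  have z1 : (EF F n).a₁ = 0 := rfl
  have z2 : (EF F n).a₂ = 0 := rfl
  have z3 : (EF F n).a₃ = 0 := rfl
  have z4 : (EF F n).a₄ = 5805 * (n : F) ^ 2 := rfl
  have z6 : (EF F n).a₆ = 285714 * (n : F) ^ 3 := rfl
  refine ⟨by norm_num, ?_, ?_, ?_, ?_, ?_⟩
  · rw [z1, a1]; norm_num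
  · rw [z2, a1, a2]; ring
  · rw [z3, a1, a3]; ring
  · rw [z4, a1, a2, a3, a4]; ring
  · rw [z6, a1, a2, a3, a4, a6]; ring

theorem EFd {n : ℕ} (hn : n ≠ 0) : (EF F n).Δ ≠ 0 := by
  rw [EF, Pool.Agent.TH942.sw_Δ]
  have e : (-16 : F) * (4 * (5805 * (n : F) ^ 2) ^ 3 + 27 * (285714 * (n : F) ^ 3) ^ 2) =
    -16 * (4 * 5805 ^ 3 + 27 * 285714 ^ 2) * (n : F) ^ 6 := by ring
  rw [e]
  refine mul_ne_zero (by norm_num) (pow_ne_zero 6 (Nat.cast_ne_zero.2 hn))

end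

theorem WM_disc (D : ℤ) (h4 : D % 4 = 1) : 4096 * (WM D).Δ = -2 ^ 18 * 7 ^ 3 * D ^ 6 := by
  have h2 : 4 * ((D - 1) / 4) = D - 1 := by omega
  have h3 : D ^ 2 % 2 = 1 := by
    have : D % 2 = 1 := by omega
    rw [pow_two, Int.mul_emod, this]; norm_num
  have h4' : 2 * ((9 * D ^ 2 - 1) / 2) = 9 * D ^ 2 - 1 := by omega
  have hc : D ^ 3 % 4 = 1 := by
    rw [pow_succ, pow_two, Int.mul_emod, Int.mul_emod D, h4]; norm_num
  have h6 : 4 * ((23 * D ^ 3 + 1) / 4) = 23 * D ^ 3 + 1 := by omega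
  set A := (D - 1) / 4 with hA
  set B := (9 * D ^ 2 - 1) / 2 with hB
  set Cc := (23 * D ^ 3 + 1) / 4 with hC
  have hD : D = 4 * A + 1 := by omega
  have hb2 : (WM D).b₂ = D := by
    show (1 : ℤ) ^ 2 + 4 * A = D
    rw [hD]; ring
  have hb4 : (WM D).b₄ = 9 * D ^ 2 := by
    show 2 * B + (1 : ℤ) * 1 = 9 * D ^ 2
    linarith
  have hb6 : (WM D).b₆ = -23 * D ^ 3 := by
    show (1 : ℤ) ^ 2 + 4 * (-Cc) = -23 * D ^ 3
    linarith
  have hb8 : 4 * (WM D).b₈ = -104 * D ^ 4 := by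
    have := (WM D).b_relation
    rw [hb2, hb4, hb6] at this
    linarith
  have : (WM D).Δ = -(WM D).b₂ ^ 2 * (WM D).b₈ - 8 * (WM D).b₄ ^ 3 - 27 * (WM D).b₆ ^ 2 +
    9 * (WM D).b₂ * (WM D).b₄ * (WM D).b₆ := rfl
  rw [this, hb2, hb4, hb6]
  linear_combination (-1024 * D ^ 2) * hb8

theorem WM_disc_ne {D : ℤ} (h4 : D % 4 = 1) : (WM D).Δ ≠ 0 := by
  intro h
  have := WM_disc D h4
  rw [h, mul_zero] at this
  have hD : D ^ 6 ≠ 0 := pow_ne_zero 6 (by rintro rfl; norm_num at h4)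
  apply hD
  linarith

/-- the algebraic part of the main theorem -/
theorem alg_W (hCH : S_CH) (hT : S_TORD) {n q : ℕ} (hq0 : q ≠ 0) (H : Hn n q)
    (L : Type) [Field L] [NumberField L] (hL : finrank ℚ L = 2) (x : L) (hx : x ^ 2 = -(n : L))
    (hcl : ¬ 3 ∣ Fintype.card (ClassGroup (𝓞 L)))
    (C : Type) [Field C] [NumberField C] [IsCyclotomicExtension {q} ℚ C]
    (F : Type) [Field F] [NumberField F] [Algebra F C] {k : ℕ} (hk : finrank ℚ F = 3 ^ k) :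
    Finite (base (WM (-(n : ℤ))) F).toAffine.Point ∧
    ¬ 3 ∣ Nat.card (base (WM (-(n : ℤ))) F).toAffine.Point ∧
    (∀ s : Sha (base (WM (-(n : ℤ))) F), 3 • s = 0 → s = 0) ∧
    rank F (WM (-(n : ℤ))) = 0 := by
  obtain ⟨hs, hd, ht⟩ := alg_main t_sch hq0 H L hL x hx hcl C F hk
  have hn0 : n ≠ 0 := by
    have := H.h7
    omega
  have hv := vrW F H.h7
  have hD := EFd F hn0
  have hD4 : (-(n : ℤ)) % 4 = 1 := by
    have := H.h7
    omega
  have hW : (base (WM (-(n : ℤ))) F).Δ ≠ 0 := hv.delta_ne hD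
  let e : (EF F n).toAffine.Point ≃+ (base (WM (-(n : ℤ))) F).toAffine.Point := hv.equiv hD
  have ee : (EF F n).baseChange F = EF F n := WeierstrassCurve.map_id _
  have hd' : ∀ P : (EF F n).toAffine.Point, ∃ Q, 3 • Q = P := by
    rw [← ee]
    exact hd
  have ht' : ∀ P : (EF F n).toAffine.Point, 3 • P = 0 → P = 0 := by
    rw [← ee]
    exact ht
  have hdW : ∀ P : (base (WM (-(n : ℤ))) F).toAffine.Point, ∃ Q, 3 • Q = P := by
    intro P
    obtain ⟨Q, hQ⟩ := hd' (e.symm P)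
    exact ⟨e Q, by rw [← map_nsmul, hQ, AddEquiv.apply_symm_apply]⟩
  have htW : ∀ P : (base (WM (-(n : ℤ))) F).toAffine.Point, 3 • P = 0 → P = 0 := by
    intro P hP
    have : 3 • e.symm P = 0 := by rw [← map_nsmul, hP, map_zero]
    have := ht' _ this
    rwa [AddEquiv.map_eq_zero_iff] at this
  obtain ⟨h, _, _, _, hb, g, hg⟩ := hCH F (WM (-(n : ℤ))) (WM_disc_ne hD4)
  have hr : rank F (WM (-(n : ℤ))) = 0 := by
    by_contra hr
    have : NeZero (rank F (WM (-(n : ℤ)))) := ⟨hr⟩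
    obtain ⟨Q, hQ⟩ := hdW (g 0)
    obtain ⟨m, hm, _⟩ := hg Q
    obtain ⟨m', hm', hu⟩ := hg (g 0)
    have h1 := hu (Pi.single 0 1) (by
      refine ⟨1, one_pos, ?_⟩
      rw [one_smul, Finset.sum_eq_single (0 : Fin (rank F (WM (-(n : ℤ)))))]
      · simp
      · intro b _ hb
        rw [Pi.single_eq_of_ne hb, zero_smul]
      · simp)
    have h2 := hu (fun i => 3 * m i) (by
      obtain ⟨j, hj, hj'⟩ := hm
      refine ⟨j, hj, ?_⟩
      have e1 : g 0 - ∑ i, (3 * m i) • g i = (3 : ℕ) • (Q - ∑ i, m i • g i) := by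
        rw [smul_sub, hQ, Finset.smul_sum]
        congr 1
        refine Finset.sum_congr rfl fun i _ => ?_
        rw [mul_smul]
        rfl
      rw [e1, smul_comm, hj', smul_zero])
    have h3 : (Pi.single 0 1 : Fin (rank F (WM (-(n : ℤ)))) → ℤ) 0 = 3 * m 0 := by
      rw [h1, ← h2]
    rw [Pi.single_eq_same] at h3
    omega
  have htor : ∀ P : (base (WM (-(n : ℤ))) F).toAffine.Point, P ∈ tors F (WM (-(n : ℤ))) := by
    intro P
    obtain ⟨m, hm, _⟩ := hg P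
    haveI : IsEmpty (Fin (rank F (WM (-(n : ℤ))))) := by rw [hr]; infer_instance
    rw [Finset.univ_eq_empty, Finset.sum_empty, sub_zero] at hm
    exact hm
  have hodd : Odd (finrank ℚ F) := by
    rw [hk]
    exact Odd.pow (by decide)
  have hfin : Finite (base (WM (-(n : ℤ))) F).toAffine.Point := by
    have := (hT (-(n : ℤ)) hD4 F hodd).1
    have h2 : tors F (WM (-(n : ℤ))) = Set.univ := Set.eq_univ_of_forall htor
    rw [h2] at this
    exact Set.finite_univ_iff.1 this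
  refine ⟨hfin, ?_, ?_, hr⟩
  · intro h3
    have : Fact (Nat.Prime 3) := ⟨Nat.prime_three⟩
    obtain ⟨P, hP⟩ := exists_prime_addOrderOf_dvd_card' 3 h3
    have h4 : P = 0 := htW P (by rw [← hP, addOrderOf_nsmul_eq_zero])
    rw [h4, addOrderOf_zero] at hP
    norm_num at hP
  · exact sha_vr_m hv hD 3 hs

end Pool.Agent.K4H1.BX
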