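import Mathlib

/-!
# A model of the imaginary quadratic field
-/

set_option autoImplicit false

open NumberField Module Polynomial

namespace Pool.Agent.K4H1.BX

lemma exists_model {n : ℕ} (hn : 0 < n) : ∃ (k : Type) (_ : Field k) (_ : NumberField k),
    finrank ℚ k = 2 ∧ ∃ x : k, x ^ 2 = -(n : k) := by
  set f : ℚ[X] := X ^ 2 + C (n : ℚ) with hf
  have hdeg : f.natDegree = 2 := by rw [hf]; compute_degree!
  have hmon : f.Monic := by rw [hf]; monicity!
  have hirr : Irreducible f := by
    rw [hmon.irreducible_iff_roots_eq_zero_of_degree_le_three (by omega) (by omega)]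
    rw [Multiset.eq_zero_iff_forall_notMem]
    intro a ha
    rw [mem_roots hmon.ne_zero] at ha
    have h1 : a ^ 2 + (n : ℚ) = 0 := by
      have := ha
      rw [hf] at this
      simpa [IsRoot.def] using this
    have h2 : (0 : ℚ) < n := by exact_mod_cast hn
    nlinarith [sq_nonneg a]
  haveI : Fact (Irreducible f) := ⟨hirr⟩
  haveI : FiniteDimensional ℚ (AdjoinRoot f) := (AdjoinRoot.powerBasis hirr.ne_zero).finite
  haveI : CharZero (AdjoinRoot f) := charZero_of_injective_algebraMap
    (algebraMap ℚ (AdjoinRoot f)).injective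
  haveI : NumberField (AdjoinRoot f) := { }
  refine ⟨AdjoinRoot f, inferInstance, inferInstance, ?_, AdjoinRoot.root f, ?_⟩
  · rw [(AdjoinRoot.powerBasis hirr.ne_zero).finrank, AdjoinRoot.powerBasis_dim, hdeg]
  · have h : eval₂ (AdjoinRoot.of f) (AdjoinRoot.root f) (X ^ 2 + C (n : ℚ)) = 0 :=
      AdjoinRoot.eval₂_root f
    simp only [eval₂_add, eval₂_pow, eval₂_X, eval₂_C] at h
    rw [eq_neg_iff_add_eq_zero]
    rw [← h]
    simp

end Pool.Agent.K4H1.BX
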