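import Pool.Agent.K4H1.BX.Dsc

/-!
# The condition at three comes down to the quadratic field
-/

set_option autoImplicit false
set_option linter.unusedSectionVars false

open NumberField IsDedekindDomain WithZero Module

open scoped WithZero

namespace Pool.Agent.K4H1.BX

section close

variable {K : Type} [Field K] {ν : Valuation K ℤᵐ⁰}

/-- an element whose cube is close to one is close to one, and then its cube is very close to one -/
lemma cube_close (h3 : ν 3 = exp (-2)) {X : K} (h : ν (X ^ 3 - 1) < 1) :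
    ν (X ^ 3 - 1) ≤ exp (-3) := by
  have hX3 : ν (X ^ 3) = 1 := val_eq_one_of h
  have hX : ν X = 1 := by
    rw [map_pow] at hX3
    exact (pow_eq_one_iff_of_nonneg zero_le (by norm_num)).1 hX3
  have h31 : ν 3 < 1 := by
    rw [h3, ← exp_zero, exp_lt_exp]
    norm_num
  have hX1 : ν (X - 1) ≤ 1 := (Valuation.map_sub ν _ _).trans (max_le hX.le (map_one ν).le)
  have h1 : ν ((X - 1) ^ 3) < 1 := by
    have e : (X - 1) ^ 3 = (X ^ 3 - 1) - 3 * (X * (X - 1)) := by ring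
    rw [e]
    refine Valuation.map_sub_lt _ h ?_
    rw [map_mul, map_mul, hX, one_mul]
    exact (mul_le_of_le_one_right' hX1).trans_lt h31
  have h2 : ν (X - 1) < 1 := by
    rw [map_pow] at h1
    exact (pow_lt_one_iff_of_nonneg zero_le (by norm_num)).1 h1
  have h4 : ν (X - 1) ≤ exp (-1) := by
    by_cases h0 : X - 1 = 0
    · rw [h0, map_zero]; exact zero_le
    · obtain ⟨j, hj⟩ := ex_val ν h0
      rw [hj, ← exp_zero, exp_lt_exp] at h2
      rw [hj, exp_le_exp]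
      omega
  have e : X ^ 3 - 1 = (X - 1) ^ 3 + 3 * ((X - 1) ^ 2 + (X - 1)) := by ring
  rw [e]
  refine (Valuation.map_add ν _ _).trans (max_le ?_ ?_)
  · rw [map_pow]
    calc ν (X - 1) ^ 3 ≤ (exp (-1)) ^ 3 := by gcongr
      _ = exp (-3) := by rw [ex_pow]; congr 1
  · rw [map_mul, h3]
    have h5 : ν ((X - 1) ^ 2 + (X - 1)) ≤ exp (-1) := by
      refine (Valuation.map_add ν _ _).trans (max_le ?_ h4)
      rw [sq, map_mul]
      exact (mul_le_of_le_one_left' hX1).trans h4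
    calc exp (-2) * ν ((X - 1) ^ 2 + (X - 1)) ≤ exp (-2) * exp (-1) := by gcongr
      _ = exp (-3) := by rw [← exp_add]; congr 1

end close

section prim

variable {M : Type} [Field M] [NumberField M] {n q : ℕ} (S : Su M n q)
  {k : Type} [Field k] [NumberField k] [Algebra k M] {m : ℤ} (Q : Qd k m)

include S Q in
theorem prim (hm1 : (3 : ℤ) ∣ m) (hm2 : ¬ ((3 : ℤ) ^ 2) ∣ m) {b : k} (hb0 : b ≠ 0) {r : ℚ}
    (hr : Algebra.norm ℚ b = r ^ 3)
    (hP : ∀ w : HeightOneSpectrum (𝓞 M), ((3 : ℕ) : 𝓞 M) ∈ w.asIdeal →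
        Pr (w.valuation M) (algebraMap k M b)) (v : HeightOneSpectrum (𝓞 k))
    (hv : (3 : 𝓞 k) ∈ v.asIdeal) :
    ∃ c : k, (v.valuation k (b * c ^ 3 - 1)) ^ 2 ≤ (v.valuation k 3) ^ 3 := by
  have hgal := S.gal
  have hgk : IsGalois k M := IsGalois.tower_top_of_isGalois ℚ k M
  have hv' : ((3 : ℕ) : 𝓞 k) ∈ v.asIdeal := by exact_mod_cast hv
  have hI : InI v Q.σ := Q.inI Nat.prime_three hm1 hm2 v hv'
  have hg := hI.gP_eq
  -- normalise
  obtain ⟨t, ht⟩ := Q.cub hg hr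
  have hvb : v.valuation k b ≠ 0 := (Valuation.ne_zero_iff _).2 hb0
  have ht0 : t ≠ 0 := by
    rintro rfl
    rw [zero_pow (by norm_num)] at ht
    exact hvb ht
  obtain ⟨j, rfl⟩ : ∃ j : ℤ, t = exp j := ⟨log t, (exp_log ht0).symm⟩
  obtain ⟨π, hπ⟩ := v.valuation_exists_uniformizer k
  have hπ0 : π ≠ 0 := by
    rintro rfl
    rw [map_zero] at hπ
    exact exp_ne_zero hπ.symm
  obtain ⟨c₀, hc₀, hc₀v⟩ : ∃ c₀ : k, c₀ ≠ 0 ∧ v.valuation k c₀ = exp (-j) := by
    refine ⟨π ^ j, zpow_ne_zero _ hπ0, ?_⟩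
    rw [map_zpow₀, hπ, ← exp_zsmul, smul_eq_mul]
    congr 1
    ring
  obtain ⟨b₁, hb₁⟩ : ∃ b₁, b₁ = b * c₀ ^ 3 := ⟨_, rfl⟩
  have hb₁0 : b₁ ≠ 0 := by rw [hb₁]; exact mul_ne_zero hb0 (pow_ne_zero _ hc₀)
  have hb₁v : v.valuation k b₁ = 1 := by
    rw [hb₁, map_mul, map_pow, hc₀v, ht, ← mul_pow, ← exp_add]
    simp
  obtain ⟨q', hq'⟩ : ∃ q' : ℚ, q' = r * Algebra.norm ℚ c₀ := ⟨_, rfl⟩
  have hN1 : b₁ * Q.σ b₁ = (q' : k) ^ 3 := by
    rw [← Q.hN, hb₁, map_mul, map_pow, hr, hq', ← mul_pow, map_pow]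
    rfl
  have hσv : v.valuation k (Q.σ b₁) = 1 := by rw [← gal_val, hg, hb₁v]
  have hq'v : v.valuation k (q' : k) = 1 := by
    have h1 := congrArg (v.valuation k) hN1
    rw [map_mul, hb₁v, hσv, one_mul, map_pow] at h1
    exact (pow_eq_one_iff_of_nonneg zero_le (by norm_num)).1 h1.symm
  have hq'0 : (q' : k) ≠ 0 := by
    intro h
    rw [h, map_zero] at hq'v
    exact zero_ne_one hq'v
  have hd := hI.val (x := b₁) hb₁v.le
  -- the element
  obtain ⟨c, hc⟩ : ∃ c, c = c₀ * (b₁ / (q' : k) ^ 2) := ⟨_, rfl⟩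
  have hc0 : c ≠ 0 := by
    rw [hc]; exact mul_ne_zero hc₀ (div_ne_zero hb₁0 (pow_ne_zero _ hq'0))
  have hB : b * c ^ 3 = (b₁ ^ 2 / (q' : k) ^ 3) * (b₁ ^ 2 / (q' : k) ^ 3) := by
    rw [hc, mul_pow, ← mul_assoc, ← hb₁]
    field_simp
  have hB1 : v.valuation k (b₁ ^ 2 / (q' : k) ^ 3 - 1) < 1 := by
    have e : b₁ ^ 2 / (q' : k) ^ 3 - 1 = -(b₁ * (Q.σ b₁ - b₁)) / (q' : k) ^ 3 := by
      rw [← hN1]
      have : Q.σ b₁ ≠ 0 := (map_ne_zero _).2 hb₁0
      field_simp
      ring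
    rw [e, map_div₀, Valuation.map_neg, map_mul, hb₁v, one_mul, map_pow, hq'v, one_pow, div_one]
    exact hd
  have hB2 : v.valuation k (b * c ^ 3 - 1) < 1 := by
    rw [hB]
    have h1 := val_eq_one_of hB1
    have e : b₁ ^ 2 / (q' : k) ^ 3 * (b₁ ^ 2 / (q' : k) ^ 3) - 1 =
        b₁ ^ 2 / (q' : k) ^ 3 * (b₁ ^ 2 / (q' : k) ^ 3 - 1) + (b₁ ^ 2 / (q' : k) ^ 3 - 1) := by ring
    rw [e]
    refine Valuation.map_add_lt _ ?_ hB1
    rw [map_mul, h1, one_mul]
    exact hB1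
  -- above
  obtain ⟨w, hw⟩ := dn_surj (K := M) v
  have hw3 : ((3 : ℕ) : 𝓞 M) ∈ w.asIdeal := by
    have : (3 : 𝓞 k) ∈ (dn k w).asIdeal := by rw [hw]; exact hv
    have h2 : algebraMap (𝓞 k) (𝓞 M) (3 : 𝓞 k) ∈ w.asIdeal := this
    rw [map_ofNat] at h2
    exact_mod_cast h2
  have hr3 : w.valuation M 3 = exp (-2) := S.ram3 w (by exact_mod_cast hw3)
  obtain ⟨x, hx, hxv⟩ := hP w hw3
  obtain ⟨X, hX⟩ : ∃ X, X = x / algebraMap k M c := ⟨_, rfl⟩
  have hc0' : algebraMap k M c ≠ 0 := (map_ne_zero _).2 hc0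
  have hX0 : X ≠ 0 := by rw [hX]; exact div_ne_zero hx hc0'
  have hBX : algebraMap k M (b * c ^ 3) * X ^ 3 = algebraMap k M b * x ^ 3 := by
    rw [hX, map_mul, map_pow]
    field_simp
  have hwB : ∀ z : k, w.valuation M (algebraMap k M z) = v.valuation k z ^ ei k w := by
    intro z
    rw [val_rel (F := k) w z, hw]
  have he0 : ei k w ≠ 0 := by
    unfold ei
    exact Nat.card_pos.ne'
  obtain ⟨B, hBdef⟩ : ∃ B, B = algebraMap k M (b * c ^ 3) := ⟨_, rfl⟩
  have hB3 : w.valuation M (B - 1) < 1 := by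
    rw [hBdef, ← map_one (algebraMap k M), ← map_sub, hwB]
    exact pow_lt_one₀ zero_le hB2 he0
  rw [← hBdef] at hBX
  rw [← hBX] at hxv
  have hB4 := val_eq_one_of hB3
  have hB0 : B ≠ 0 := by
    intro h
    rw [h, map_zero] at hB4
    exact zero_ne_one hB4
  have hX3 : w.valuation M (X ^ 3 - 1) < 1 := by
    have e : X ^ 3 - 1 = (B * X ^ 3 - 1) * B⁻¹ + (B⁻¹ - 1) := by
      field_simp
      ring
    rw [e]
    refine Valuation.map_add_lt _ ?_ ?_
    · rw [map_mul, map_inv₀, hB4, inv_one, mul_one]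
      exact lt_one_of_le hxv
    · have : B⁻¹ - 1 = -((B - 1) * B⁻¹) := by field_simp; ring
      rw [this, Valuation.map_neg, map_mul, map_inv₀, hB4, inv_one, mul_one]
      exact hB3
  have hX4 := cube_close hr3 hX3
  have hX5 := inv_close (lt_one_of_le le_rfl) hX4
  have hB5 : w.valuation M (B - 1) ≤ exp (-3) := by
    have h1 := mul_close (lt_one_of_le le_rfl) hxv hX5
    rwa [mul_assoc, mul_inv_cancel₀ (pow_ne_zero 3 hX0), mul_one] at h1
  -- the ramification
  have hy0 : Q.y ≠ 0 := by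
    intro h
    have h1 := Q.hy
    rw [h, zero_pow two_ne_zero] at h1
    have h2 : (m : k) = 0 := h1.symm
    have h3 : m = 0 := by exact_mod_cast h2
    apply hm2
    rw [h3]
    exact dvd_zero _
  have hei : ei k w = 1 := by
    obtain ⟨i, hi⟩ := ex_val (v.valuation k) hy0
    obtain ⟨m', hm'⟩ := hm1
    have hm'v : v.valuation k (m' : k) = 1 := by
      have h4 : ¬ (3 : ℤ) ∣ m' := by
        intro h
        apply hm2
        rw [hm', sq]
        exact mul_dvd_mul_left _ h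
      have h5 : ((m'.natAbs : ℕ) : 𝓞 k) ∉ v.asIdeal := by
        intro h
        have h6 : Nat.Coprime 3 m'.natAbs := by
          rw [Nat.Prime.coprime_iff_not_dvd Nat.prime_three]
          intro h7
          exact h4 (Int.natCast_dvd.2 h7)
        have h7 := (Nat.isCoprime_iff_coprime.2 h6)
        obtain ⟨x, y, hxy⟩ := h7
        apply v.isPrime.ne_top
        rw [Ideal.eq_top_iff_one]
        have h8 := congrArg (Int.cast : ℤ → 𝓞 k) hxy
        rw [Int.cast_add, Int.cast_mul, Int.cast_mul, Int.cast_one, Int.cast_natCast,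
          Int.cast_natCast] at h8
        rw [← h8]
        exact add_mem (Ideal.mul_mem_left _ _ hv') (Ideal.mul_mem_left _ _ h)
      have h6 := val_nat_one h5
      rcases Int.natAbs_eq m' with h7 | h7
      · have h8 : (m' : k) = ((m'.natAbs : ℕ) : k) := by
          conv_lhs => rw [h7]
          rw [Int.cast_natCast]
        rw [h8, h6]
      · have h8 : (m' : k) = -((m'.natAbs : ℕ) : k) := by
          conv_lhs => rw [h7]
          rw [Int.cast_neg, Int.cast_natCast]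
        rw [h8, Valuation.map_neg, h6]
    have h1 : v.valuation k 3 = exp (2 * i) := by
      have h2 := congrArg (v.valuation k) Q.hy
      have h9 : (m : k) = 3 * (m' : k) := by
        have := congrArg (Int.cast : ℤ → k) hm'
        rw [Int.cast_mul, Int.cast_ofNat] at this
        exact this
      rw [h9, map_mul, hm'v, mul_one, map_pow, hi, ex_pow] at h2
      rw [← h2]
      rfl
    have h2 := hwB 3
    rw [map_ofNat, hr3, h1, ex_pow, exp_inj] at h2
    have h3 : (ei k w : ℤ) * i = -1 := by linarith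
    have h4 : (ei k w : ℤ) ∣ 1 := ⟨-i, by linarith⟩
    exact Nat.dvd_one.1 (by exact_mod_cast h4)
  have h31 : v.valuation k 3 = exp (-2) := by
    have h2 := hwB 3
    rw [map_ofNat, hr3, hei, pow_one] at h2
    exact h2.symm
  refine ⟨c, ?_⟩
  rw [h31, ex_pow]
  rw [hBdef, ← map_one (algebraMap k M), ← map_sub, hwB, hei, pow_one] at hB5
  calc v.valuation k (b * c ^ 3 - 1) ^ 2 ≤ (exp (-3)) ^ 2 := by gcongr
    _ = exp (((3 : ℕ) : ℤ) * -2) := by rw [ex_pow]; congr 1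

end prim

end Pool.Agent.K4H1.BX
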