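import Pool.Agent.K4H1.BX.Gv

/-!
# Quadratic fields: conjugation, inert primes, the prime above three
-/

set_option autoImplicit false
set_option linter.unusedSectionVars false

open NumberField IsDedekindDomain WithZero Module

open scoped WithZero

namespace Pool.Agent.K4H1.BX

/-- the data of a quadratic field -/
structure Qd (E : Type) [Field E] [NumberField E] (m : ℤ) where
  y : E
  hy : y ^ 2 = m
  gal : IsGalois ℚ E
  σ : E ≃ₐ[ℚ] E
  hσ : σ y = -y
  hσσ : ∀ x, σ (σ x) = x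
  gen : ∀ x : E, ∃ a b : ℚ, x = a + b * y
  hN : ∀ x, algebraMap ℚ E (Algebra.norm ℚ x) = x * σ x
  only : ∀ g : E ≃ₐ[ℚ] E, g = 1 ∨ g = σ
  fx : ∀ x, σ x = x → ∃ a : ℚ, x = a

theorem exists_Qd (E : Type) [Field E] [NumberField E] (h2 : finrank ℚ E = 2) {m : ℤ} {y : E}
    (hy : y ^ 2 = m) (hm : ¬ IsSquare (m : ℚ)) : ∃ Q : Qd E m, Q.y = y := by
  classical
  have hq : Algebra.IsQuadraticExtension ℚ E := ⟨h2⟩
  have hgal : IsGalois ℚ E := inferInstance
  have hcard : Fintype.card (E ≃ₐ[ℚ] E) = 2 := by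
    rw [← Nat.card_eq_fintype_card, IsGalois.card_aut_eq_finrank, h2]
  obtain ⟨σ, hσ1⟩ : ∃ σ : E ≃ₐ[ℚ] E, σ ≠ 1 := by
    have : 1 < Fintype.card (E ≃ₐ[ℚ] E) := by rw [hcard]; norm_num
    exact Fintype.exists_ne_of_one_lt_card this 1
  have hy0 : ∀ a : ℚ, y ≠ a := by
    rintro a rfl
    apply hm
    refine ⟨a, ?_⟩
    have : ((m : ℚ) : E) = ((a * a : ℚ) : E) := by push_cast; rw [← hy]; ring
    exact_mod_cast this
  have huniv : (Finset.univ : Finset (E ≃ₐ[ℚ] E)) = {1, σ} := by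
    symm
    apply Finset.eq_univ_of_card
    rw [hcard, Finset.card_pair hσ1.symm]
  have honly : ∀ g : E ≃ₐ[ℚ] E, g = 1 ∨ g = σ := by
    intro g
    have := Finset.mem_univ g
    rw [huniv] at this
    simpa using this
  have hfx : ∀ x, σ x = x → ∃ a : ℚ, x = a := by
    intro x hx
    have h3 : x ∈ (⊥ : IntermediateField ℚ E) := by
      rw [IsGalois.mem_bot_iff_fixed]
      intro g
      rcases honly g with rfl | rfl
      · rfl
      · exact hx
    obtain ⟨a, ha⟩ := IntermediateField.mem_bot.1 h3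
    exact ⟨a, by rw [← ha]; rfl⟩
  have hσy : σ y = -y := by
    have h3 : (σ y - y) * (σ y + y) = 0 := by
      have : (σ y) ^ 2 = y ^ 2 := by rw [← map_pow, hy, map_intCast]
      linear_combination this
    rcases mul_eq_zero.1 h3 with h | h
    · exfalso
      obtain ⟨a, ha⟩ := hfx y (sub_eq_zero.1 h)
      exact hy0 a ha
    · exact eq_neg_of_add_eq_zero_left h
  have hσσ : ∀ x, σ (σ x) = x := by
    intro x
    have : σ * σ = 1 := by
      rcases honly (σ * σ) with h | h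
      · exact h
      · exact absurd (mul_eq_left.1 h) hσ1
    exact congrArg (fun g : E ≃ₐ[ℚ] E => g x) this
  have hyne : y ≠ 0 := by
    have := hy0 0
    rwa [Rat.cast_zero] at this
  refine ⟨⟨y, hy, hgal, σ, hσy, hσσ, ?_, ?_, honly, hfx⟩, rfl⟩
  · intro x
    obtain ⟨a, ha⟩ := hfx (x + σ x) (by rw [map_add, hσσ, add_comm])
    obtain ⟨b, hb⟩ := hfx ((x - σ x) / y) (by
      rw [map_div₀, map_sub, hσσ, hσy]
      field_simp
      ring)
    refine ⟨a / 2, b / 2, ?_⟩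
    rw [div_eq_iff hyne] at hb
    push_cast
    linear_combination (1 / 2 : E) * ha + (1 / 2 : E) * hb
  · intro x
    rw [Algebra.norm_eq_prod_automorphisms, huniv, Finset.prod_pair hσ1.symm]
    rfl

/-- the norm of the prime below -/
lemma absNorm_dn_rat {E : Type} [Field E] [NumberField E] (v : HeightOneSpectrum (𝓞 E)) {l : ℕ}
    (hl : l.Prime) (hv : (l : 𝓞 E) ∈ v.asIdeal) : Ideal.absNorm (dn ℚ v).asIdeal = l := by
  have h1 : (l : 𝓞 ℚ) ∈ (dn ℚ v).asIdeal := by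
    show algebraMap (𝓞 ℚ) (𝓞 E) (l : 𝓞 ℚ) ∈ v.asIdeal
    rw [map_natCast]
    exact hv
  have h2 : Ideal.absNorm (Ideal.span {(l : 𝓞 ℚ)}) = l := by
    rw [Ideal.absNorm_span_singleton]
    have e : (l : 𝓞 ℚ) = algebraMap ℤ (𝓞 ℚ) (l : ℤ) := by simp
    rw [e, Algebra.norm_algebraMap, RingOfIntegers.rank, Module.finrank_self, pow_one]
    simp
  have h3 := Ideal.absNorm_dvd_absNorm_of_le ((Ideal.span_singleton_le_iff_mem _).2 h1)
  rw [h2] at h3
  rcases (Nat.dvd_prime hl).1 h3 with h | h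
  · exfalso
    rw [Ideal.absNorm_eq_one_iff] at h
    exact (dn ℚ v).isPrime.ne_top h
  · exact h

/-- the value of a prime number -/
lemma val_dn_rat {E : Type} [Field E] [NumberField E] (v : HeightOneSpectrum (𝓞 E)) {l : ℕ}
    (hl : l.Prime) (hv : (l : 𝓞 E) ∈ v.asIdeal) :
    (dn ℚ v).valuation ℚ (l : ℚ) = exp (-1) := by
  have h1 : (l : 𝓞 ℚ) ∈ (dn ℚ v).asIdeal := by
    show algebraMap (𝓞 ℚ) (𝓞 E) (l : 𝓞 ℚ) ∈ v.asIdeal
    rw [map_natCast]
    exact hv
  have h0 : (l : 𝓞 ℚ) ≠ 0 := Nat.cast_ne_zero.2 hl.ne_zero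
  have h2 : (dn ℚ v).asIdeal = Ideal.span {(l : 𝓞 ℚ)} := by
    have h3 := absNorm_dn_rat v hl hv
    have h4 : Ideal.absNorm (Ideal.span {(l : 𝓞 ℚ)}) = l := by
      rw [Ideal.absNorm_span_singleton]
      have e : (l : 𝓞 ℚ) = algebraMap ℤ (𝓞 ℚ) (l : ℤ) := by simp
      rw [e, Algebra.norm_algebraMap, RingOfIntegers.rank, Module.finrank_self, pow_one]
      simp
    have h5 : (Ideal.span {(l : 𝓞 ℚ)}).IsPrime := by
      apply Ideal.isPrime_of_irreducible_absNorm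
      rw [h4]
      exact hl
    have h6 : (Ideal.span {(l : 𝓞 ℚ)}).IsMaximal := h5.isMaximal (by
      rw [Ne, Ideal.span_singleton_eq_bot]
      exact h0)
    exact (h6.eq_of_le (dn ℚ v).isPrime.ne_top ((Ideal.span_singleton_le_iff_mem _).2 h1)).symm
  have e : (l : ℚ) = algebraMap (𝓞 ℚ) ℚ (l : 𝓞 ℚ) := (map_natCast _ _).symm
  rw [e, HeightOneSpectrum.valuation_of_algebraMap]
  exact HeightOneSpectrum.intValuation_singleton _ h0 h2

section inert

variable {E : Type} [Field E] [NumberField E] {m : ℤ} (Q : Qd E m)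

lemma Qd.exists_int : ∃ z : 𝓞 E, algebraMap (𝓞 E) E z = Q.y ∧ z ^ 2 = (m : 𝓞 E) := by
  have hyi : IsIntegral ℤ Q.y := by
    refine ⟨Polynomial.X ^ 2 - Polynomial.C m, Polynomial.monic_X_pow_sub_C m two_ne_zero, ?_⟩
    rw [Polynomial.eval₂_sub, Polynomial.eval₂_X_pow, Polynomial.eval₂_C, Q.hy]
    simp
  refine ⟨⟨Q.y, hyi⟩, rfl, ?_⟩
  apply FaithfulSMul.algebraMap_injective (𝓞 E) E
  rw [map_pow, map_intCast, ← Q.hy]
  rfl

/-- a number with the Legendre symbol `-1` is inert -/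
theorem Qd.inert_odd {l : ℕ} (hl : l.Prime) (hl2 : l ≠ 2) (hm : jacobiSym m l = -1)
    (v : HeightOneSpectrum (𝓞 E)) (hv : (l : 𝓞 E) ∈ v.asIdeal) : gP Q.σ v = v := by
  have hF : Fact l.Prime := ⟨hl⟩
  have := Q.gal
  obtain ⟨φ, hφ⟩ := exists_frob (F := ℚ) v
  rw [absNorm_dn_rat v hl hv] at hφ
  rcases Q.only φ with h | h
  · exfalso
    -- the square root is an integer
    obtain ⟨z, -, hz2⟩ := Q.exists_int
    have h1 := hφ z
    rw [h, one_smul] at h1
    have hodd : l = 2 * (l / 2) + 1 := by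
      have := hl.eq_two_or_odd
      omega
    have h2 : z ^ l = (m : 𝓞 E) ^ (l / 2) * z := by
      conv_lhs => rw [hodd]
      rw [pow_succ, pow_mul, hz2]
    -- Euler's criterion
    have h3 : ((l : ℤ)) ∣ m ^ (l / 2) + 1 := by
      rw [← ZMod.intCast_zmod_eq_zero_iff_dvd]
      push_cast
      rw [← legendreSym.eq_pow, jacobiSym.legendreSym.to_jacobiSym, hm]
      push_cast
      ring
    have h4 : (m : 𝓞 E) ^ (l / 2) + 1 ∈ v.asIdeal := by
      obtain ⟨c, hc⟩ := h3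
      have := congrArg (Int.cast : ℤ → 𝓞 E) hc
      push_cast at this
      rw [this]
      exact Ideal.mul_mem_right _ _ hv
    have h5 : (2 : 𝓞 E) * z ∈ v.asIdeal := by
      have e : (2 : 𝓞 E) * z = (z - z ^ l) + ((m : 𝓞 E) ^ (l / 2) + 1) * z := by
        rw [h2]; ring
      rw [e]
      exact add_mem h1 (Ideal.mul_mem_right _ _ h4)
    have h6 : z ∈ v.asIdeal := by
      rcases v.isPrime.mem_or_mem h5 with h | h
      · exfalso
        apply v.isPrime.ne_top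
        rw [Ideal.eq_top_iff_one]
        have e : (1 : 𝓞 E) = (l : 𝓞 E) - 2 * ((l / 2 : ℕ) : 𝓞 E) := by
          have := congrArg (Nat.cast : ℕ → 𝓞 E) hodd
          push_cast at this
          linear_combination -this
        rw [e]
        exact sub_mem hv (Ideal.mul_mem_right _ _ h)
      · exact h
    have h7 : (m : 𝓞 E) ∈ v.asIdeal := by
      rw [← hz2]
      exact Ideal.pow_mem_of_mem _ h6 2 (by norm_num)
    apply v.isPrime.ne_top
    rw [Ideal.eq_top_iff_one]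
    have e : (1 : 𝓞 E) = ((m : 𝓞 E) ^ (l / 2) + 1) - (m : 𝓞 E) ^ (l / 2) := by ring
    rw [e]
    refine sub_mem h4 (Ideal.pow_mem_of_mem _ h7 _ ?_)
    have := hl.two_le
    omega
  · rw [← h]
    exact gP_of_frob hl.ne_zero hφ

/-- two is inert if `m` is five modulo eight -/
theorem Qd.inert_two (hm : m % 8 = 5) (v : HeightOneSpectrum (𝓞 E)) (hv : (2 : 𝓞 E) ∈ v.asIdeal) :
    gP Q.σ v = v := by
  have := Q.gal
  obtain ⟨φ, hφ⟩ := exists_frob (F := ℚ) v
  rw [absNorm_dn_rat v Nat.prime_two (by exact_mod_cast hv)] at hφ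
  rcases Q.only φ with h | h
  · exfalso
    obtain ⟨c, hc⟩ : ∃ c : ℤ, m = 8 * c + 5 := ⟨m / 8, by omega⟩
    have hz : ((1 + Q.y) / 2) ^ 2 = (1 + Q.y) / 2 + ((2 * c + 1 : ℤ) : E) := by
      have h8 := Q.hy
      have h9 := congrArg (Int.cast : ℤ → E) hc
      push_cast at h9 ⊢
      linear_combination (1 / 4 : E) * h8 + (1 / 4 : E) * h9
    have hi : IsIntegral ℤ ((1 + Q.y) / 2) := by
      refine ⟨Polynomial.X ^ 2 - Polynomial.X - Polynomial.C (2 * c + 1), by monicity!, ?_⟩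
      rw [Polynomial.eval₂_sub, Polynomial.eval₂_sub, Polynomial.eval₂_X_pow, Polynomial.eval₂_X,
        Polynomial.eval₂_C, hz]
      simp
    obtain ⟨z, hz'⟩ : ∃ z : 𝓞 E, algebraMap (𝓞 E) E z = (1 + Q.y) / 2 := ⟨⟨_, hi⟩, rfl⟩
    have hz2 : z ^ 2 = z + ((2 * c + 1 : ℤ) : 𝓞 E) := by
      apply FaithfulSMul.algebraMap_injective (𝓞 E) E
      rw [map_pow, map_add, map_intCast, hz', hz]
    have h1 := hφ z
    rw [h, one_smul, hz2] at h1
    apply v.isPrime.ne_top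
    rw [Ideal.eq_top_iff_one]
    have e : (1 : 𝓞 E) = -(z - (z + ((2 * c + 1 : ℤ) : 𝓞 E))) - 2 * (c : 𝓞 E) := by
      push_cast; ring
    rw [e]
    exact sub_mem (neg_mem h1) (Ideal.mul_mem_right _ _ hv)
  · rw [← h]
    exact gP_of_frob two_ne_zero hφ

/-- a prime divisor of `m` that divides it once is ramified -/
theorem Qd.inI {l : ℕ} (hl : l.Prime) (hm1 : (l : ℤ) ∣ m) (hm2 : ¬ ((l : ℤ) ^ 2) ∣ m)
    (v : HeightOneSpectrum (𝓞 E)) (hv : (l : 𝓞 E) ∈ v.asIdeal) : InI v Q.σ := by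
  intro x
  obtain ⟨a, b, hab⟩ := Q.gen (algebraMap (𝓞 E) E x)
  obtain ⟨t, ht⟩ : ∃ t, t = Q.σ • x - x := ⟨_, rfl⟩
  have ht1 : algebraMap (𝓞 E) E t = -(2 * b * Q.y) := by
    have e : algebraMap (𝓞 E) E t = Q.σ (algebraMap (𝓞 E) E x) - algebraMap (𝓞 E) E x := by
      rw [ht, map_sub]; rfl
    rw [e, hab, map_add, map_mul, Q.hσ]
    have : ∀ c : ℚ, Q.σ (c : E) = c := fun c => by
      have := Q.σ.commutes c
      exact this
    rw [this, this]
    ring
  have ht2 : algebraMap (𝓞 E) E (t ^ 2) = ((m * (2 * b) ^ 2 : ℚ) : E) := by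
    rw [map_pow, ht1]
    push_cast
    rw [← Q.hy]
    ring
  -- it is a rational integer
  obtain ⟨D, hD⟩ : ∃ D : ℤ, (D : ℚ) = m * (2 * b) ^ 2 := by
    have h1 : IsIntegral ℤ (algebraMap ℚ E (m * (2 * b) ^ 2)) := by
      have h2 : algebraMap ℚ E (m * (2 * b) ^ 2) = algebraMap (𝓞 E) E (t ^ 2) := by
        rw [ht2]; rfl
      rw [h2]
      exact (t ^ 2).2
    have h3 : IsIntegral ℤ ((m : ℚ) * (2 * b) ^ 2) :=
      (isIntegral_algebraMap_iff (algebraMap ℚ E).injective).1 h1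
    obtain ⟨D, hD⟩ := IsIntegrallyClosed.isIntegral_iff.1 h3
    exact ⟨D, by rw [← hD]; simp⟩
  have hl' : Prime (l : ℤ) := Nat.prime_iff_prime_int.1 hl
  have hlD : (l : ℤ) ∣ D := by
    obtain ⟨r, hr⟩ : ∃ r : ℚ, r = 2 * b := ⟨_, rfl⟩
    rw [← hr] at hD
    have h1 : D * (r.den : ℤ) ^ 2 = m * r.num ^ 2 := by
      have h2 : (r.den : ℚ) ≠ 0 := Nat.cast_ne_zero.2 r.den_nz
      have h3 : r * r.den = r.num := Rat.mul_den_eq_num r
      have h4 : (D : ℚ) * (r.den : ℚ) ^ 2 = m * (r.num : ℚ) ^ 2 := by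
        rw [hD, ← h3]; ring
      exact_mod_cast h4
    have h2 : (l : ℤ) ∣ D * (r.den : ℤ) ^ 2 := by
      rw [h1]
      exact Dvd.dvd.mul_right hm1 _
    rcases hl'.dvd_or_dvd h2 with h | h
    · exact h
    · exfalso
      have h3 : (l : ℤ) ∣ (r.den : ℤ) := hl'.dvd_of_dvd_pow h
      have h4 : (l : ℤ) ^ 2 ∣ m * r.num ^ 2 := by
        rw [← h1]
        exact Dvd.dvd.mul_left (pow_dvd_pow_of_dvd h3 2) _
      have h5 : (l : ℤ) ∣ r.num := by
        obtain ⟨m', hm'⟩ := hm1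
        rw [hm', pow_two, mul_assoc] at h4
        have h6 : (l : ℤ) ∣ m' * r.num ^ 2 := (mul_dvd_mul_iff_left hl'.ne_zero).1 h4
        rcases hl'.dvd_or_dvd h6 with h | h
        · exfalso
          apply hm2
          rw [hm', pow_two]
          exact mul_dvd_mul_left _ h
        · exact hl'.dvd_of_dvd_pow h
      have h7 := r.reduced
      have h8 : l ∣ r.num.natAbs := Int.natCast_dvd.1 h5
      have h9 : l ∣ r.den := by exact_mod_cast h3
      have h10 := Nat.dvd_gcd h8 h9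
      rw [h7] at h10
      exact hl.one_lt.ne' (Nat.dvd_one.1 h10)
  have ht3 : t ^ 2 = (D : 𝓞 E) := by
    apply FaithfulSMul.algebraMap_injective (𝓞 E) E
    rw [ht2, ← hD, map_intCast]
    simp
  have ht4 : t ^ 2 ∈ v.asIdeal := by
    rw [ht3]
    obtain ⟨c, hc⟩ := hlD
    rw [hc]
    push_cast
    exact Ideal.mul_mem_right _ _ hv
  rw [← ht]
  exact v.isPrime.mem_of_pow_mem _ ht4

/-- conjugation and the valuation at an inert or ramified prime: an element whose norm is a cube -/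
lemma Qd.cub {v : HeightOneSpectrum (𝓞 E)} (hv : gP Q.σ v = v) {b : E} {q : ℚ}
    (hq : Algebra.norm ℚ b = q ^ 3) : Cub (v.valuation E b) := by
  have h1 := Q.hN b
  have h2 := congrArg (v.valuation E) h1
  rw [map_mul, ← gal_val, hv, hq, map_pow, map_pow] at h2
  by_cases hb : b = 0
  · rw [hb, map_zero]
    exact ⟨0, by simp⟩
  obtain ⟨n, hn⟩ := ex_val (v.valuation E) hb
  have hq0 : algebraMap ℚ E q ≠ 0 := by
    intro h
    rw [h, map_zero, zero_pow (by norm_num), hn, ← exp_add] at h2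
    exact exp_ne_zero h2.symm
  obtain ⟨c, hc⟩ := ex_val (v.valuation E) hq0
  rw [hn, hc, ← exp_add, ex_pow, exp_inj] at h2
  push_cast at h2
  rw [hn, show n = 3 * (n - c) by omega]
  exact cub_exp _

end inert

end Pool.Agent.K4H1.BX
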