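import Pool.Agent.K4H1.BX.Fin2
import Pool.Agent.Y698.Sp2

/-!
# The big field: ramification and automorphisms
-/

set_option autoImplicit false
set_option linter.unusedSectionVars false

open NumberField IsDedekindDomain WithZero Module

open scoped WithZero

namespace Pool.Agent.K4H1.BX

section unr

variable {q : ℕ} [NeZero q] {C : Type} [Field C] [NumberField C] [hC : IsCyclotomicExtension {q} ℚ C]
  {F : Type} [Field F] [NumberField F] [Algebra F C] [IsGalois ℚ F]

include hC in
variable (C) in
/-- the inertia groups away from `q` are trivial -/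
theorem unr (u : HeightOneSpectrum (𝓞 F)) (hu : (q : 𝓞 F) ∉ u.asIdeal) (g : F ≃ₐ[ℚ] F)
    (hg : InI u g) : g = 1 := by
  obtain ⟨p, hp, hpu⟩ : ∃ p : Nat.Primes, Pool.Agent.H921R2.TatePole.below u = p ∧
      ((p : ℕ) : 𝓞 F) ∈ u.asIdeal :=
    ⟨_, rfl, (Pool.Agent.H921R2.TatePole.nm_eq u).2.2⟩
  have hpq : ¬ (p : ℕ) ∣ q := by
    rintro ⟨c, hc⟩
    apply hu
    rw [hc, Nat.cast_mul]
    exact Ideal.mul_mem_right _ _ hpu
  have h1 := Pool.Agent.Y698.val_unram q C F p hpq u hp
  have h2 := val_rel (F := ℚ) u ((p : ℕ) : ℚ)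
  rw [map_natCast, h1, val_dn_rat u p.2 hpu, ex_pow, exp_inj] at h2
  have h3 : ei ℚ u = 1 := by
    have : (ei ℚ u : ℤ) = 1 := by linarith
    exact_mod_cast this
  unfold ei at h3
  have h4 : u.asIdeal.inertia (F ≃ₐ[ℚ] F) = ⊥ := Subgroup.eq_bot_of_card_eq _ h3
  have h5 : g ∈ u.asIdeal.inertia (F ≃ₐ[ℚ] F) := hg
  rw [h4] at h5
  exact Subgroup.mem_bot.1 h5

end unr

section mk

variable {q : ℕ} [NeZero q] {C : Type} [Field C] [NumberField C] [hC : IsCyclotomicExtension {q} ℚ C]
  {F : Type} [Field F] [NumberField F] [Algebra F C]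
  {M : Type} [Field M] [NumberField M] [Algebra F M] [IsGalois ℚ M]

/-- automorphisms are determined by the restriction and the signs -/
lemma ext_adj {t d : M} (hadj : IntermediateField.adjoin F {t, d} = ⊤) {g : M ≃ₐ[ℚ] M}
    (hF : ∀ x : F, g (algebraMap F M x) = algebraMap F M x) (ht : g t = t) (hd : g d = d) :
    g = 1 := by
  let K' : IntermediateField F M :=
    { carrier := {x | g x = x}
      mul_mem' := fun {x y} hx hy => by
        have hx' : g x = x := hx
        have hy' : g y = y := hy
        show g (x * y) = x * y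
        rw [map_mul, hx', hy']
      add_mem' := fun {x y} hx hy => by
        have hx' : g x = x := hx
        have hy' : g y = y := hy
        show g (x + y) = x + y
        rw [map_add, hx', hy']
      algebraMap_mem' := hF
      inv_mem' := fun x hx => by
        have hx' : g x = x := hx
        show g x⁻¹ = x⁻¹
        rw [map_inv₀, hx'] }
  have h3 : IntermediateField.adjoin F {t, d} ≤ K' := by
    rw [IntermediateField.adjoin_le_iff]
    rintro x (rfl | rfl)
    · exact ht
    · exact hd
  rw [hadj] at h3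
  apply AlgEquiv.ext
  intro x
  exact h3 (IntermediateField.mem_top (x := x))

lemma odd_no_sqrt {k : ℕ} (hk : finrank ℚ F = 3 ^ k) {m : ℤ} (hm : ¬ IsSquare (m : ℚ)) (y : F) :
    y ^ 2 ≠ m := by
  intro hy
  have h1 := finrank_adj hy hm
  have h2 : finrank ℚ (IntermediateField.adjoin ℚ {y}) *
      finrank (IntermediateField.adjoin ℚ {y}) F = finrank ℚ F := finrank_mul_finrank _ _ _
  rw [h1, hk] at h2
  have h3 : 2 ∣ 3 ^ k := ⟨_, h2.symm⟩
  have h4 := (Nat.Prime.dvd_of_dvd_pow Nat.prime_two h3)
  norm_num at h4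

include hC in
variable (C) in
theorem mkSf {n k : ℕ} (hk : finrank ℚ F = 3 ^ k) (h7 : n % 8 = 7) (h3 : ¬ 3 ∣ n) (h3q : ¬ 3 ∣ q)
    {t d : M} (ht : t ^ 2 = -3) (hd : d ^ 2 = -(n : M))
    (hadj : IntermediateField.adjoin F {t, d} = ⊤) : ∃ S : Sf F M n q, S.de = d := by
  have hCab : IsAbelianGalois ℚ C := IsCyclotomicExtension.isAbelianGalois {q} ℚ C
  have hFab : IsAbelianGalois ℚ F := IsAbelianGalois.tower_bot ℚ F C
  have hFgal : IsGalois ℚ F := hFab.toIsGalois
  have hFn : Normal ℚ F := hFgal.to_normal
  have hFM : IsGalois F M := IsGalois.tower_top_of_isGalois ℚ F M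
  have hns3 : ¬ IsSquare (((-3 : ℤ)) : ℚ) := by
    rw [Rat.isSquare_intCast_iff]
    rintro ⟨r, hr⟩
    nlinarith [mul_self_nonneg r]
  have hnsn : ¬ IsSquare (((-n : ℤ)) : ℚ) := by
    rw [Rat.isSquare_intCast_iff]
    rintro ⟨r, hr⟩
    have h1 : 0 ≤ r * r := mul_self_nonneg r
    rw [← hr] at h1
    omega
  have hns3n : ¬ IsSquare (((3 * n : ℤ)) : ℚ) := not_sq_of_mod (by omega)
  -- signs
  have sg : ∀ {x : M} {m : ℤ}, x ^ 2 = m → ∀ g : M ≃ₐ[ℚ] M, g x = x ∨ g x = -x := by
    intro x m hx g
    have h : (g x - x) * (g x + x) = 0 := by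
      have h1 : (g x) ^ 2 = m := by rw [← map_pow, hx, map_intCast]
      linear_combination h1 - hx
    rcases mul_eq_zero.1 h with h | h
    · exact Or.inl (sub_eq_zero.1 h)
    · exact Or.inr (eq_neg_of_add_eq_zero_left h)
  have ht' : t ^ 2 = ((-3 : ℤ) : M) := by rw [ht]; push_cast; rfl
  have hd' : d ^ 2 = ((-n : ℤ) : M) := by rw [hd]; push_cast; rfl
  have htd' : (t * d) ^ 2 = ((3 * n : ℤ) : M) := by rw [mul_pow, ht, hd]; push_cast; ring
  -- nontrivial elements
  have nt : ∀ {x : M} {m : ℤ}, x ^ 2 = m → ¬ IsSquare (m : ℚ) → ∃ g : M ≃ₐ[F] M, g x = -x := by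
    intro x m hx hm
    by_contra hcon
    push Not at hcon
    have h1 : x ∈ (⊥ : IntermediateField F M) := by
      rw [IsGalois.mem_bot_iff_fixed]
      intro g
      rcases sg hx (g.restrictScalars ℚ) with h | h
      · exact h
      · exact absurd h (hcon g)
    obtain ⟨y, hy⟩ := IntermediateField.mem_bot.1 h1
    refine odd_no_sqrt hk hm y ?_
    apply (algebraMap F M).injective
    rw [map_pow, hy, hx, map_intCast]
  obtain ⟨g₁, hg₁⟩ := nt ht' hns3
  obtain ⟨g₂, hg₂⟩ := nt hd' hnsn
  obtain ⟨g₃, hg₃⟩ := nt htd' hns3n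
  have hne : ∀ {x : M} {m : ℤ}, x ^ 2 = m → ¬ IsSquare (m : ℚ) → x ≠ 0 := by
    rintro x m hx hm rfl
    apply hm
    have h1 : ((m : ℤ) : M) = 0 := by rw [← hx]; ring
    have h2 : m = 0 := by exact_mod_cast h1
    rw [h2]
    exact ⟨0, by simp⟩
  have ht0 := hne ht' hns3
  have hd0 := hne hd' hnsn
  have hmul : ∀ (g h : M ≃ₐ[F] M) (x : M), (g * h) x = g (h x) := fun _ _ _ => rfl
  obtain ⟨a, b, hat, had, hbt, hbd⟩ : ∃ a b : M ≃ₐ[F] M, a t = -t ∧ a d = d ∧ b t = t ∧ b d = -d := by
    rcases sg ht' (g₃.restrictScalars ℚ) with h | h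
    · have h' : g₃ t = t := h
      have h'' : g₃ d = -d := by
        rw [map_mul, h'] at hg₃
        have : t * (g₃ d) = t * (-d) := by rw [hg₃]; ring
        exact mul_left_cancel₀ ht0 this
      rcases sg hd' (g₁.restrictScalars ℚ) with k1 | k1
      · exact ⟨g₁, g₃, hg₁, k1, h', h''⟩
      · have k1' : g₁ d = -d := k1
        exact ⟨g₁ * g₃, g₃, by rw [hmul, h', hg₁], by rw [hmul, h'', map_neg, k1', neg_neg],
          h', h''⟩
    · have h' : g₃ t = -t := h
      have h'' : g₃ d = d := by
        rw [map_mul, h'] at hg₃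
        have : t * (g₃ d) = t * d := by linear_combination -hg₃
        exact mul_left_cancel₀ ht0 this
      rcases sg ht' (g₂.restrictScalars ℚ) with k1 | k1
      · exact ⟨g₃, g₂, h', h'', k1, hg₂⟩
      · have k1' : g₂ t = -t := k1
        exact ⟨g₃, g₂ * g₃, h', h'', by rw [hmul, h', map_neg, k1', neg_neg],
          by rw [hmul, h'', hg₂]⟩
  have h2F : ∀ g : M ≃ₐ[ℚ] M, (∀ x : F, g (algebraMap F M x) = algebraMap F M x) → g * g = 1 := by
    intro g hg
    have hgg : ∀ x, (g * g) x = g (g x) := fun _ => rfl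
    apply ext_adj (F := F) hadj
    · intro x
      rw [hgg, hg, hg]
    · rcases sg ht' g with h | h
      · rw [hgg, h, h]
      · rw [hgg, h, map_neg, h, neg_neg]
    · rcases sg hd' g with h | h
      · rw [hgg, h, h]
      · rw [hgg, h, map_neg, h, neg_neg]
  have hres : ∀ (g : M ≃ₐ[ℚ] M) (x : F), algebraMap F M (g.restrictNormal F x) =
      g (algebraMap F M x) := fun g x => AlgEquiv.restrictNormal_commutes g F x
  -- inertia
  have hiner : ∀ (w : HeightOneSpectrum (𝓞 M)) (g : M ≃ₐ[ℚ] M), InI w g → (q : 𝓞 M) ∉ w.asIdeal →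
      ∀ x : F, g (algebraMap F M x) = algebraMap F M x := by
    intro w g hg hw x
    have h1 : g.restrictNormal F = 1 := by
      refine unr (q := q) C (dn F w) ?_ _ ?_
      · intro h
        apply hw
        have h2 : algebraMap (𝓞 F) (𝓞 M) (q : 𝓞 F) ∈ w.asIdeal := h
        rwa [map_natCast] at h2
      · intro y
        show algebraMap (𝓞 F) (𝓞 M) ((g.restrictNormal F) • y - y) ∈ w.asIdeal
        have h2 := hg (algebraMap (𝓞 F) (𝓞 M) y)
        have h3 : g • (algebraMap (𝓞 F) (𝓞 M) y) =
            algebraMap (𝓞 F) (𝓞 M) ((g.restrictNormal F) • y) := by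
          apply FaithfulSMul.algebraMap_injective (𝓞 M) M
          exact (hres g (algebraMap (𝓞 F) F y)).symm
        rw [map_sub, ← h3]
        exact h2
    rw [← hres, h1]
    rfl
  refine ⟨⟨⟨inferInstance, ?_, ⟨t, (t - 1) / 2, ht, by ring⟩, d, hd, a.restrictScalars ℚ,
    b.restrictScalars ℚ, hat, had, hbt, hbd, h2F _ fun x => a.commutes x,
    h2F _ fun x => b.commutes x, ?_, fun w g hg hw => h2F g (hiner w g hg hw), ?_⟩,
    fun x => a.commutes x, fun x => b.commutes x, hadj⟩, rfl⟩
  · -- commutativity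
    intro g h
    have h1 : (h * g)⁻¹ * (g * h) = 1 := by
      have hinv : ∀ x y : M, (h * g) x = y → (g * h) x = y → ((h * g)⁻¹ * (g * h)) x = x := by
        intro x y h5 h6
        have h7 : ((h * g)⁻¹ * (g * h)) x = (h * g)⁻¹ ((g * h) x) := rfl
        rw [h7, h6, ← h5]
        have h8 : (h * g)⁻¹ ((h * g) x) = ((h * g)⁻¹ * (h * g)) x := rfl
        rw [h8, inv_mul_cancel]
        rfl
      have hm2 : ∀ (g h : M ≃ₐ[ℚ] M) (x : M), (g * h) x = g (h x) := fun _ _ _ => rfl
      apply ext_adj (F := F) hadj
      · intro x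
        refine hinv _ _ rfl ?_
        rw [hm2, hm2, ← hres h x, ← hres g x, ← hres, ← hres]
        congr 1
        have h9 : g.restrictNormal F * h.restrictNormal F = h.restrictNormal F * g.restrictNormal F :=
          hFab.toIsMulCommutative.is_comm.comm _ _
        exact congrArg (fun f : F ≃ₐ[ℚ] F => f x) h9
      · refine hinv _ _ rfl ?_
        rcases sg ht' g with k1 | k1 <;> rcases sg ht' h with k2 | k2 <;>
          simp only [hm2, k1, k2, map_neg]
      · refine hinv _ _ rfl ?_
        rcases sg hd' g with k1 | k1 <;> rcases sg hd' h with k2 | k2 <;>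
          simp only [hm2, k1, k2, map_neg]
    exact (inv_mul_eq_one.1 h1).symm
  · -- three-power order
    intro g hgt hgd
    refine ⟨k, ?_⟩
    have hgt' : g t = t := hgt
    have hgd' : g d = d := hgd
    have hp : ∀ (j : ℕ) (x : M), g x = x → (g ^ j) x = x := by
      intro j x hx
      induction j with
      | zero => rfl
      | succ j ih =>
        rw [pow_succ]
        show (g ^ j) (g x) = x
        rw [hx, ih]
    apply ext_adj (F := F) hadj
    · intro x
      have h1 : ∀ (j : ℕ) (x : F), (g ^ j) (algebraMap F M x) =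
          algebraMap F M (((g.restrictNormal F) ^ j) x) := by
        intro j
        induction j with
        | zero => intro x; rfl
        | succ j ih =>
          intro x
          rw [pow_succ, pow_succ]
          show (g ^ j) (g (algebraMap F M x)) = _
          rw [← hres, ih]
          rfl
      rw [h1]
      have h2 : (g.restrictNormal F) ^ (3 ^ k) = 1 := by
        have h3 : Nat.card (F ≃ₐ[ℚ] F) = 3 ^ k := by rw [IsGalois.card_aut_eq_finrank, hk]
        rw [← h3]
        exact pow_card_eq_one'
      rw [h2]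
      rfl
    · exact hp _ _ hgt'
    · exact hp _ _ hgd'
  · -- ramification at three
    intro w hw
    have hw' : ((3 : ℕ) : 𝓞 M) ∈ w.asIdeal := by exact_mod_cast hw
    have hqw : (q : 𝓞 M) ∉ w.asIdeal := by
      intro h
      have h6 : Nat.Coprime 3 q := (Nat.Prime.coprime_iff_not_dvd Nat.prime_three).2 h3q
      obtain ⟨x, y, hxy⟩ := (Nat.isCoprime_iff_coprime.2 h6)
      apply w.isPrime.ne_top
      rw [Ideal.eq_top_iff_one]
      have h8 := congrArg (Int.cast : ℤ → 𝓞 M) hxy
      rw [Int.cast_add, Int.cast_mul, Int.cast_mul, Int.cast_one, Int.cast_natCast,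
        Int.cast_natCast] at h8
      rw [← h8]
      exact add_mem (Ideal.mul_mem_left _ _ hw') (Ideal.mul_mem_left _ _ h)
    have h1 := val_rel (F := ℚ) w ((3 : ℕ) : ℚ)
    rw [map_natCast, val_dn_rat w Nat.prime_three hw', ex_pow] at h1
    have h1' : w.valuation M 3 = exp (((ei ℚ w : ℕ) : ℤ) * -1) := by
      have e : ((3 : ℕ) : M) = 3 := by norm_num
      rw [← e]
      exact h1
    -- even
    have heven : Even (ei ℚ w) := by
      obtain ⟨j, hj⟩ := ex_val (w.valuation M) ht0
      have h2 := congrArg (w.valuation M) ht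
      rw [map_pow, hj, Valuation.map_neg, h1', ex_pow, exp_inj] at h2
      push_cast at h2
      have h3 : Even (((ei ℚ w : ℕ) : ℤ)) := ⟨-j, by linarith⟩
      exact_mod_cast h3
    have hpos : 0 < ei ℚ w := by
      unfold ei
      exact Nat.card_pos
    have hle : ei ℚ w ≤ 2 := by
      unfold ei
      -- the inertia group has at most two elements
      have hmem : ∀ g ∈ w.asIdeal.inertia (M ≃ₐ[ℚ] M), g = 1 ∨ g = a.restrictScalars ℚ := by
        intro g hg
        have hgI : InI w g := hg
        have hgF := hiner w g hgI hqw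
        have hgd : g d = d := by
          rcases sg hd' g with h | h
          · exact h
          · exfalso
            -- `2 d` would be in `w`
            have hdi : IsIntegral ℤ d := by
              refine ⟨Polynomial.X ^ 2 - Polynomial.C (-n : ℤ),
                Polynomial.monic_X_pow_sub_C _ two_ne_zero, ?_⟩
              rw [Polynomial.eval₂_sub, Polynomial.eval₂_X_pow, Polynomial.eval₂_C, hd']
              simp
            obtain ⟨z, hz⟩ : ∃ z : 𝓞 M, algebraMap (𝓞 M) M z = d := ⟨⟨d, hdi⟩, rfl⟩
            have hgz : g • z = -z := by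
              apply FaithfulSMul.algebraMap_injective (𝓞 M) M
              rw [map_neg, hz, ← h, ← hz]
              rfl
            have h5 := hgI z
            rw [hgz] at h5
            have hz2 : z ^ 2 = -(n : 𝓞 M) := by
              apply FaithfulSMul.algebraMap_injective (𝓞 M) M
              rw [map_pow, hz, hd, map_neg, map_natCast]
            have h6 : ((4 * n : ℕ) : 𝓞 M) ∈ w.asIdeal := by
              have e : ((4 * n : ℕ) : 𝓞 M) = (-z - z) * (2 * z) := by
                push_cast
                linear_combination 4 * hz2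
              rw [e]
              exact Ideal.mul_mem_right _ _ h5
            have hcop : Nat.Coprime 3 (4 * n) := by
              rw [Nat.Prime.coprime_iff_not_dvd Nat.prime_three]
              intro h7
              rcases (Nat.Prime.dvd_mul Nat.prime_three).1 h7 with h8 | h8
              · norm_num at h8
              · exact h3 h8
            obtain ⟨x, y, hxy⟩ := (Nat.isCoprime_iff_coprime.2 hcop)
            apply w.isPrime.ne_top
            rw [Ideal.eq_top_iff_one]
            have h8 := congrArg (Int.cast : ℤ → 𝓞 M) hxy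
            rw [Int.cast_add, Int.cast_mul, Int.cast_mul, Int.cast_one, Int.cast_natCast,
              Int.cast_natCast] at h8
            rw [← h8]
            exact add_mem (Ideal.mul_mem_left _ _ hw') (Ideal.mul_mem_left _ _ h6)
        rcases sg ht' g with h | h
        · left
          exact ext_adj (F := F) hadj hgF h hgd
        · right
          have h5 : (a.restrictScalars ℚ) * g = 1 := by
            apply ext_adj (F := F) hadj
            · intro x
              show a (g (algebraMap F M x)) = _
              rw [hgF, a.commutes]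
            · show a (g t) = t
              rw [h, map_neg, hat, neg_neg]
            · show a (g d) = d
              rw [hgd, had]
          have h6 : (a.restrictScalars ℚ) * (a.restrictScalars ℚ) = 1 := h2F _ fun x => a.commutes x
          calc g = (a.restrictScalars ℚ) * (a.restrictScalars ℚ) * g := by rw [h6, one_mul]
            _ = (a.restrictScalars ℚ) * ((a.restrictScalars ℚ) * g) := mul_assoc _ _ _
            _ = _ := by rw [h5, mul_one]
      classical
      have hsub : (w.asIdeal.inertia (M ≃ₐ[ℚ] M) : Set (M ≃ₐ[ℚ] M)) ⊆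
          ({1, a.restrictScalars ℚ} : Finset (M ≃ₐ[ℚ] M)) := by
        intro g hg
        rcases hmem g hg with h | h
        · rw [h]; simp
        · rw [h]; simp
      calc Nat.card (w.asIdeal.inertia (M ≃ₐ[ℚ] M))
          = (w.asIdeal.inertia (M ≃ₐ[ℚ] M) : Set (M ≃ₐ[ℚ] M)).ncard := rfl
        _ ≤ (({1, a.restrictScalars ℚ} : Finset (M ≃ₐ[ℚ] M)) : Set (M ≃ₐ[ℚ] M)).ncard :=
            Set.ncard_le_ncard hsub (Finset.finite_toSet _)
        _ ≤ 2 := by
            rw [Set.ncard_coe_finset]
            exact Finset.card_le_two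
    have h5 : ei ℚ w = 2 := by
      obtain ⟨c, hc⟩ := heven
      omega
    rw [h1', h5]
    congr 1

end mk

end Pool.Agent.K4H1.BX
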