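import Pool.Agent.R425.D.ShaT

/-!
# The `m`-torsion of Tate-Shafarevich groups of isomorphic curves
-/

set_option autoImplicit false
set_option linter.all false

open IsDedekindDomain NumberField WeierstrassCurve

namespace Pool.Agent.K4H1.BX

open Pool.Agent.Y700 Pool.Agent.R425.D
open Pool.Agent.TH841.SH.D (Pt act Gal Coch IsCoc IsCob LocTriv cob)

open scoped Classical

section

variable {k : Type} [Field k] [NumberField k] {W W' : WeierstrassCurve k} {u r s t : k}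
  (h : VR W W' u r s t) (hD : W'.Δ ≠ 0)

include h hD in
/-- the m-torsion of the Tate-Shafarevich group under a change of variables -/
theorem sha_vr_m (m : ℕ) (hsha : ∀ s : Pool.Agent.TH841.NF.D.Sha W', m • s = 0 → s = 0) :
    ∀ s : Pool.Agent.TH841.NF.D.Sha W, m • s = 0 → s = 0 := by
  intro q hq
  obtain ⟨⟨f, hf⟩, rfl⟩ := QuotientAddGroup.mk_surjective q
  let Q : Pool.Agent.TH841.NF.D.shaCoc W →+ Pool.Agent.TH841.NF.D.Sha W :=
    QuotientAddGroup.mk' ((cob W).addSubgroupOf (Pool.Agent.TH841.NF.D.shaCoc W))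
  let Q' : Pool.Agent.TH841.NF.D.shaCoc W' →+ Pool.Agent.TH841.NF.D.Sha W' :=
    QuotientAddGroup.mk' ((cob W').addSubgroupOf (Pool.Agent.TH841.NF.D.shaCoc W'))
  have hq1 : Q (m • ⟨f, hf⟩) = 0 := by
    rw [map_nsmul]
    exact hq
  have hq2 : (m • (⟨f, hf⟩ : Pool.Agent.TH841.NF.D.shaCoc W)) ∈
      (cob W).addSubgroupOf (Pool.Agent.TH841.NF.D.shaCoc W) :=
    (QuotientAddGroup.eq_zero_iff _).1 hq1
  have hq3 : ((m • (⟨f, hf⟩ : Pool.Agent.TH841.NF.D.shaCoc W) :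
      Pool.Agent.TH841.NF.D.shaCoc W) : Coch W) ∈ cob W := AddSubgroup.mem_addSubgroupOf.1 hq2
  rw [AddSubgroup.coe_nsmul] at hq3
  obtain ⟨P, hP⟩ : IsCob W (m • f) := hq3
  let f' : Coch W' := fun σ => (eqL h hD (AlgebraicClosure k)).symm (f σ)
  have hf' : Pool.Agent.TH841.NF.D.IsShaCoc W' f' := by
    refine ⟨⟨?_, fun σ τ => ?_⟩, fun v ι => ?_, fun v ι => ?_⟩
    · exact hf.1.1.comp _
    · show (eqL h hD (AlgebraicClosure k)).symm (f (σ * τ)) = _
      rw [hf.1.2, map_add, ← eqL_symm_act]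
    · obtain ⟨R, hR⟩ := hf.2.1 v ι
      refine ⟨(eqL h hD _).symm R, fun τ σ hτσ => ?_⟩
      show act W' ι ((eqL h hD (AlgebraicClosure k)).symm (f σ)) = _
      rw [eqL_symm_act, hR τ σ hτσ, map_sub, ← eqL_symm_act]
    · obtain ⟨R, hR⟩ := hf.2.2 v ι
      refine ⟨(eqL h hD _).symm R, fun τ σ hτσ => ?_⟩
      show act W' ι ((eqL h hD (AlgebraicClosure k)).symm (f σ)) = _
      rw [eqL_symm_act, hR τ σ hτσ, map_sub, ← eqL_symm_act]
  have h2 : (m • (⟨f', hf'⟩ : Pool.Agent.TH841.NF.D.shaCoc W')) ∈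
      (cob W').addSubgroupOf (Pool.Agent.TH841.NF.D.shaCoc W') := by
    refine (⟨(eqL h hD _).symm P, fun σ => ?_⟩ : IsCob W' (m • f'))
    show m • (eqL h hD (AlgebraicClosure k)).symm (f σ) = _
    have e1 : m • f σ = act W σ.toAlgHom P - P := hP σ
    rw [← map_nsmul, e1, map_sub, ← eqL_symm_act]
  have h3 : Q' (m • ⟨f', hf'⟩) = 0 := (QuotientAddGroup.eq_zero_iff _).2 h2
  rw [map_nsmul] at h3
  have h4 := hsha _ h3
  have h5 : (⟨f', hf'⟩ : Pool.Agent.TH841.NF.D.shaCoc W') ∈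
      (cob W').addSubgroupOf (Pool.Agent.TH841.NF.D.shaCoc W') :=
    (QuotientAddGroup.eq_zero_iff _).1 h4
  obtain ⟨R, hR⟩ : IsCob W' f' := h5
  have h6 : (⟨f, hf⟩ : Pool.Agent.TH841.NF.D.shaCoc W) ∈
      (cob W).addSubgroupOf (Pool.Agent.TH841.NF.D.shaCoc W) := by
    refine (⟨eqL h hD _ R, fun σ => ?_⟩ : IsCob W f)
    have e1 : (eqL h hD (AlgebraicClosure k)).symm (f σ) = act W' σ.toAlgHom R - R := hR σ
    have e2 := congrArg (eqL h hD (AlgebraicClosure k)) e1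
    rw [AddEquiv.apply_symm_apply, map_sub, ← eqL_act] at e2
    exact e2
  exact (QuotientAddGroup.eq_zero_iff _).2 h6

end

end Pool.Agent.K4H1.BX
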