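import Pool.Agent.K4H1.BX.Qd
import Pool.Agent.K4H1.BX.Lcv
import Pool.Agent.K4H1.BX.FP

/-!
# The descent of the Kummer generators to quadratic fields
-/

set_option autoImplicit false
set_option linter.unusedSectionVars false

open NumberField IsDedekindDomain WithZero Module

open scoped WithZero

namespace Pool.Agent.K4H1.BX

/-- the big field -/
structure Su (M : Type) [Field M] [NumberField M] (n q : ℕ) where
  gal : IsGalois ℚ M
  comm : ∀ g h : M ≃ₐ[ℚ] M, g * h = h * g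
  R : Rt M
  de : M
  hde : de ^ 2 = -(n : M)
  a : M ≃ₐ[ℚ] M
  b : M ≃ₐ[ℚ] M
  at' : a R.t = -R.t
  ad : a de = de
  bt : b R.t = R.t
  bd : b de = -de
  aa : a * a = 1
  bb : b * b = 1
  h3 : ∀ g : M ≃ₐ[ℚ] M, g R.t = R.t → g de = de → ∃ j, g ^ (3 ^ j) = 1
  ine : ∀ (w : HeightOneSpectrum (𝓞 M)) (g : M ≃ₐ[ℚ] M), InI w g → (q : 𝓞 M) ∉ w.asIdeal →
    g * g = 1
  ram3 : ∀ w : HeightOneSpectrum (𝓞 M), (3 : 𝓞 M) ∈ w.asIdeal → w.valuation M 3 = exp (-2)

section su

variable {M : Type} [Field M] [NumberField M] {n q : ℕ} (S : Su M n q)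

include S

lemma Su.signT (g : M ≃ₐ[ℚ] M) : g S.R.t = S.R.t ∨ g S.R.t = -S.R.t := by
  have h : (g S.R.t - S.R.t) * (g S.R.t + S.R.t) = 0 := by
    have h1 : (g S.R.t) ^ 2 = -3 := by rw [← map_pow, S.R.ht, map_neg, map_ofNat]
    linear_combination h1 - S.R.ht
  rcases mul_eq_zero.1 h with h | h
  · exact Or.inl (sub_eq_zero.1 h)
  · exact Or.inr (eq_neg_of_add_eq_zero_left h)

lemma Su.signD (g : M ≃ₐ[ℚ] M) : g S.de = S.de ∨ g S.de = -S.de := by
  have h : (g S.de - S.de) * (g S.de + S.de) = 0 := by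
    have h1 : (g S.de) ^ 2 = -(n : M) := by rw [← map_pow, S.hde, map_neg, map_natCast]
    linear_combination h1 - S.hde
  rcases mul_eq_zero.1 h with h | h
  · exact Or.inl (sub_eq_zero.1 h)
  · exact Or.inr (eq_neg_of_add_eq_zero_left h)

lemma Su.gw (g : M ≃ₐ[ℚ] M) : (g S.R.t = S.R.t → g S.R.w = S.R.w) ∧
    (g S.R.t = -S.R.t → g S.R.w = S.R.w ^ 2) := by
  have h2 := S.R.hw
  have h3 := S.R.hw2
  have h4 := congrArg g h2
  rw [map_add, map_mul, map_ofNat, map_one] at h4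
  constructor
  · intro h
    rw [h] at h4
    have : (2 : M) * g S.R.w = 2 * S.R.w := by linear_combination h4 - h2
    exact mul_left_cancel₀ two_ne_zero this
  · intro h
    rw [h] at h4
    have : (2 : M) * g S.R.w = 2 * S.R.w ^ 2 := by linear_combination h4 + h2 - 2 * h3
    exact mul_left_cancel₀ two_ne_zero this

lemma Su.tne : S.R.t ≠ -S.R.t := by
  intro h
  have h1 : (2 : M) * S.R.t = 0 := by linear_combination h
  have h2 : S.R.t = 0 := (mul_eq_zero.1 h1).resolve_left two_ne_zero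
  have h3 := S.R.ht
  rw [h2] at h3
  norm_num at h3

lemma Su.gw' (g : M ≃ₐ[ℚ] M) (h : g S.R.w = S.R.w) : g S.R.t = S.R.t := by
  rcases S.signT g with h1 | h1
  · exact h1
  · exfalso
    have h2 := (S.gw g).2 h1
    rw [h, sq] at h2
    have hw0 : S.R.w ≠ 0 := by
      intro h0
      have := S.R.hw3
      rw [h0] at this
      norm_num at this
    have h3 : S.R.w = 1 := (mul_left_cancel₀ hw0 (by rw [mul_one]; exact h2)).symm
    exact S.R.w_ne_one h3

/-- the cube roots of unity -/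
lemma Su.roots {x : M} (hx : x ^ 3 = 1) : ∃ i : ℕ, x = S.R.w ^ i := by
  have h : (x - 1) * ((x - S.R.w) * (x - S.R.w ^ 2)) = 0 := by
    have h3 := S.R.hw2
    have h4 := S.R.hw3
    linear_combination hx - (x ^ 2 - x) * h3 + (x - 1) * h4
  rcases mul_eq_zero.1 h with h | h
  · exact ⟨0, by rw [pow_zero]; exact sub_eq_zero.1 h⟩
  · rcases mul_eq_zero.1 h with h | h
    · exact ⟨1, by rw [pow_one]; exact sub_eq_zero.1 h⟩
    · exact ⟨2, sub_eq_zero.1 h⟩

/-- a rational number that is a cube in `M` is a cube -/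
theorem Su.rat_cube {r : ℚ} {C : M} (h : (r : M) = C ^ 3) : ∃ s : ℚ, r = s ^ 3 := by
  have := S.gal
  have hw3 := S.R.hw3
  have hcast : ∀ (g : M ≃ₐ[ℚ] M) (c : ℚ), g (c : M) = c := fun g c => g.commutes c
  by_cases hC : C = 0
  · refine ⟨0, ?_⟩
    rw [hC, zero_pow (by norm_num)] at h
    have : r = 0 := by exact_mod_cast h
    rw [this]
    norm_num
  have hpow : ∀ g : M ≃ₐ[ℚ] M, ∀ D : M, D ^ 3 = r → D ≠ 0 → ∃ i : ℕ, g D = S.R.w ^ i * D := by
    intro g D hD hD0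
    obtain ⟨i, hi⟩ := S.roots (x := g D / D) (by
      rw [div_pow, ← map_pow, hD, hcast]
      have : (r : M) ≠ 0 := by rw [← hD]; exact pow_ne_zero 3 hD0
      exact div_self this)
    refine ⟨i, ?_⟩
    rw [← hi, div_mul_cancel₀ _ hD0]
  have haw : S.a S.R.w = S.R.w ^ 2 := (S.gw S.a).2 S.at'
  obtain ⟨i, hi⟩ := hpow S.a C h.symm hC
  obtain ⟨D, hD⟩ : ∃ D, D = S.R.w ^ (2 * i) * C := ⟨_, rfl⟩
  have hw0 : S.R.w ≠ 0 := by
    intro h0
    rw [h0] at hw3
    norm_num at hw3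
  have hD0 : D ≠ 0 := by rw [hD]; exact mul_ne_zero (pow_ne_zero _ hw0) hC
  have hD3 : D ^ 3 = r := by
    rw [hD, mul_pow, ← pow_mul, h, mul_comm (2 * i) 3, pow_mul, hw3, one_pow, one_mul]
  have haD : S.a D = D := by
    rw [hD, map_mul, map_pow, haw, hi, ← pow_mul, ← mul_assoc, ← pow_add]
    congr 1
    exact pow_mod3 hw3 (by omega)
  have hfix : ∀ g : M ≃ₐ[ℚ] M, g D = D := by
    intro g
    obtain ⟨j, hj⟩ := hpow g D hD3 hD0
    have h1 : S.a (g D) = g D := by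
      have h2 : (S.a * g) D = (g * S.a) D := by rw [S.comm]
      have h3 : S.a (g D) = g (S.a D) := h2
      rw [h3, haD]
    rw [hj, map_mul, map_pow, haw, haD] at h1
    have h4 := mul_right_cancel₀ hD0 h1
    have h5 : S.R.w ^ j = 1 := by
      rw [← pow_mul, mul_comm 2 j, pow_mul, sq] at h4
      exact mul_left_cancel₀ (pow_ne_zero j hw0) (by rw [mul_one]; exact h4)
    rw [hj, h5, one_mul]
  obtain ⟨s, hs⟩ := IntermediateField.mem_bot.1 ((IsGalois.mem_bot_iff_fixed (F := ℚ) D).2 hfix)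
  refine ⟨s, ?_⟩
  have h6 : ((r : ℚ) : M) = ((s ^ 3 : ℚ) : M) := by
    push_cast
    rw [← hD3, ← hs]
    rfl
  exact_mod_cast h6

end su

end Pool.Agent.K4H1.BX
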