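import Pool.Agent.Y641.XF.Tam

/-!
# Tamagawa numbers at the nonsplit multiplicative places
-/

set_option autoImplicit false
set_option linter.unusedSectionVars false

namespace Pool.Agent.K4H1.BX

open scoped Classical NNReal
open WeierstrassCurve WithZero
open Pool.Agent.Y809.BSD14 (nadd nsub nmul npow nneg ladd lsub lmul lmul' norm_eq_of_lt nnat Sg
  IsWM root_int)
open Pool.Agent.Y641.XF
open Pool.Agent.Y682.XF (base E0)
open Pool.Agent.Y700 (WM)

section seven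

variable {K : Type} [NormedField K] [IsUltrametricDist K] [CharZero K]
  {W : WeierstrassCurve.Affine K} {m : K}

/-- type `I₃`, nonsplit -/
theorem gT7n (hd : Dsc K) (hW : IsWM W m) (h2 : ‖W.a₂‖ ≤ 1) (h4 : ‖W.a₄‖ ≤ 1)
    (n7 : ‖(7 : K)‖ = 1 / 2) (hm : ‖m‖ = 1) (hns : ∀ x : K, ‖x‖ ≤ 1 → ¬ ‖x ^ 2 - m‖ < 1) :
    HH W = ⊤ := by
  have n7l : ‖(7 : K)‖ < 1 := by rw [n7]; norm_num
  have n2 : ‖(2 : K)‖ = 1 := by
    have i2 : ‖(2 : K)‖ ≤ 1 := by exact_mod_cast nint (K := K) 2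
    have i3 : ‖(3 : K)‖ ≤ 1 := by exact_mod_cast nint (K := K) 3
    by_contra hc
    have h5 : ‖(1 : K)‖ < 1 := by
      have : (1 : K) = 7 - 3 * 2 := by norm_num
      rw [this]
      exact lsub n7l (lmul i3 (lt_of_le_of_ne i2 hc))
    rw [norm_one] at h5
    exact lt_irrefl _ h5
  rw [eq_top_iff]
  intro P _
  by_contra hP
  have hP0 : P ≠ 0 := fun h0 => hP (by rw [h0]; exact zero_mem _)
  obtain ⟨X, Y, hA⟩ := exists_at (m := m) hP0
  obtain ⟨z, w, hX, hY, hz, hw, hww⟩ :=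
    shape7 hd hW n2 n7 hm hA ((mem7 hW h2 h4 n2 n7l hm hA).1 hP)
  have n4 : ‖(4 : K)‖ = 1 := by
    have : (4 : K) = 2 ^ 2 := by norm_num
    rw [this, npow_one n2]
  have hB : ‖m ^ 2 / 4‖ = 1 := by rw [norm_div, n4, npow_one hm, div_one]
  have i13 := n13_of n7l
  have hD : ‖-(13 * m / 2)‖ = 1 := by rw [norm_neg, norm_div, norm_mul, i13, hm, n2]; norm_num
  have hz0 : z ≠ 0 := by intro h0; rw [h0, norm_zero] at hz; exact zero_ne_one hz
  have hs : ‖(w / z) ^ 2 - -(13 * m / 2)‖ < 1 := by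
    set D : K := -(13 * m / 2) with hDdef
    set B : K := m ^ 2 / 4 with hBdef
    have e : (w / z) ^ 2 - D = 7 * ((z ^ 3 + 7 * z * B + D * B) / z ^ 2) := by
      rw [div_pow, hww]
      field_simp
      ring
    rw [e]
    refine lmul' n7l ?_
    rw [norm_div, npow_one hz, div_one]
    exact nadd (nadd (npow hz.le 3) (nmul (nmul n7l.le hz.le) hB.le)) (nmul hD.le hB.le)
  refine hns (w / z / 2) ?_ ?_
  · rw [norm_div, norm_div, hw, hz, n2]; norm_num
  · have i3 : ‖(3 : K)‖ ≤ 1 := by exact_mod_cast nint (K := K) 3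
    have e : (w / z / 2) ^ 2 - m = (((w / z) ^ 2 - -(13 * m / 2)) - 7 * (3 * (m / 2))) / 4 := by
      ring
    rw [e, norm_div, n4, div_one]
    refine lsub hs (lmul' n7l (nmul i3 ?_))
    rw [norm_div, hm, n2]; norm_num

end seven

section two

variable {K : Type} [NormedField K] [IsUltrametricDist K] [CharZero K]
  {W : WeierstrassCurve.Affine K} {k : ℤ}

/-- type `I₆`, nonsplit -/
theorem gT2n (hd : Dsc K) (hW : IsWM W (4 * (k : K) + 1)) (n2 : ‖(2 : K)‖ = 1 / 2)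
    {j : ℤ} (hk : k = 2 * j) (hns : ∀ t : K, ‖t‖ ≤ 1 → ¬ ‖t ^ 2 + t + 1‖ < 1) :
    (HH W).index = 2 := by
  have hm := nM (k := k) n2
  have hm0 : 4 * (k : K) + 1 ≠ 0 := by
    intro h0
    rw [h0, norm_zero] at hm
    exact zero_ne_one hm
  obtain ⟨T, hT⟩ := exists_T hW hm0
  have e2 : ‖128 * (4 * (k : K) + 1) ^ 2‖ = 1 / 128 := by
    rw [norm_mul, norm_pow, n128_of n2, hm]; norm_num
  have hA : ∀ P : W.Point, ¬ A2 W k P := by
    rintro P ⟨u, w, hP, hu, hw, hww⟩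
    have hs := slope2 n2 hu hww
    have h5 : ‖(w / u) ^ 2 - 5‖ ≤ 1 / 8 := by
      have e : (w / u) ^ 2 - 5 = ((w / u) ^ 2 - 13 * (4 * (k : K) + 1)) +
          8 * (((13 * j + 1 : ℤ)) : K) := by
        rw [hk]; push_cast; ring
      rw [e]
      refine le_add hs ?_
      rw [norm_mul, n8_of n2]
      have := mint (K := K) (13 * j + 1)
      linarith
    set s : K := w / u with hsd
    have hs1 : ‖s‖ = 1 := by rw [hsd, norm_div, hw, hu, div_one]
    have m2lt : ‖(2 : K)‖ < 1 := by rw [n2]; norm_num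
    have n3 : ‖(3 : K)‖ ≤ 1 := by exact_mod_cast mint (K := K) 3
    have h6 : ‖s - 1‖ < 1 := by
      apply sq_lt
      have e : (s - 1) ^ 2 = (s ^ 2 - 5) + 2 * (3 - s) := by ring
      rw [e]
      refine ladd (lt_of_le_of_lt h5 (by norm_num)) (lmul' m2lt (nsub n3 hs1.le))
    have h7 := hd.lt_one h6
    refine hns ((s - 1) / 2) ?_ ?_
    · rw [norm_div, n2]
      rw [div_le_one (by norm_num)]
      exact h7
    · have e : ((s - 1) / 2) ^ 2 + (s - 1) / 2 + 1 = ((s ^ 2 - 5) + 8) / 4 := by ring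
      rw [e, norm_div, n4_of n2]
      have h8 : ‖(s ^ 2 - 5) + 8‖ ≤ 1 / 8 := le_add h5 (by rw [n8_of n2])
      rw [div_lt_one (by norm_num)]
      exact lt_of_le_of_lt h8 (by norm_num)
  rw [AddSubgroup.index_eq_two_iff_exists_notMem_and]
  refine ⟨T, ?_, ?_⟩
  · rw [mem2 hd hW n2 hT, norm_zero]
    norm_num
  · intro P
    by_cases h1 : P ∈ HH W
    · exact Or.inr h1
    left
    by_contra h2
    have hP0 : P ≠ 0 := fun h0 => h1 (by rw [h0]; exact zero_mem _)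
    obtain ⟨X, Y, hP⟩ := exists_at (m := 4 * (k : K) + 1) hP0
    have hX8 := (mem2 hd hW n2 hP).1 h1
    by_cases hX0 : X = 0
    · subst hX0
      have heq := hP.eqn hW
      have hY0 : Y = 0 := by
        have : Y ^ 2 = 0 := by rw [heq]; ring
        exact pow_eq_zero_iff (by norm_num) |>.1 this
      subst hY0
      apply h2
      rw [hP.ext hT, T_add_T hW hT]
      exact zero_mem _
    obtain ⟨Y3, hPT⟩ := hP.addT hW hT hX0
    have hPT8 := (mem2 hd hW n2 hPT).1 h2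
    rw [norm_div, e2] at hPT8
    have hXp : 0 < ‖X‖ := norm_pos_iff.2 hX0
    have hX16 : 1 / 16 ≤ ‖X‖ := by
      rw [div_le_iff₀ hXp] at hPT8
      linarith
    obtain ⟨n, hn⟩ := hd X hX0
    have hv2 : n = -3 ∨ n = -4 := by
      have g1 : (2 : ℝ) ^ n ≤ 2 ^ (-3 : ℤ) := by
        rw [← hn]
        refine hX8.trans (le_of_eq ?_)
        norm_num
      have g2 : (2 : ℝ) ^ (-4 : ℤ) ≤ 2 ^ n := by
        rw [← hn]
        refine (le_of_eq ?_).trans hX16
        norm_num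
      have g3 := (zpow_le_zpow_iff_right₀ (by norm_num : (1 : ℝ) < 2)).1 g1
      have g4 := (zpow_le_zpow_iff_right₀ (by norm_num : (1 : ℝ) < 2)).1 g2
      omega
    rcases hv2 with h | h
    · exact hA P (A2_of hW n2 hP (by rw [hn, h]; norm_num))
    · refine hA (P + T) (A2_of hW n2 hPT ?_)
      rw [norm_div, e2, hn, h]
      norm_num

end two

section bridge

variable {k : Type} [Field k] [CharZero k] (v : Valuation k (WithZero (Multiplicative ℤ)))
  (hv : ∀ n : ℤ, v n ≤ 1)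

include hv

theorem tam7 {D : ℤ} (hD : D % 4 = 1) (h7 : v 7 = exp (-1 : ℤ)) (hDv : v (D : k) = 1)
    (hns : ∀ x : k, v x ≤ 1 → ¬ v (x ^ 2 - D) < 1) : (E0 (WM D) k v).index = 1 := by
  let _ := nf v
  have := nf_ultra v
  have hi : ∀ n : ℤ, ‖(n : k)‖ ≤ 1 := fun n => (nf_le_one v _).2 (hv n)
  rw [E0_eq v hv, gT7n (nf_dsc v) (isWM k D hD) (hi _) (hi _) ((nf_half v _).2 h7)
    ((nf_eq_one v _).2 hDv) (fun x hx => by
      rw [nf_lt_one]
      exact hns x ((nf_le_one v x).1 hx))]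
  exact AddSubgroup.index_top

theorem tam2 {D : ℤ} (hD : D % 8 = 1) (h2 : v 2 = exp (-1 : ℤ))
    (hns : ∀ t : k, v t ≤ 1 → ¬ v (t ^ 2 + t + 1) < 1) : (E0 (WM D) k v).index = 2 := by
  let _ := nf v
  have := nf_ultra v
  rw [E0_eq v hv]
  obtain ⟨j, rfl⟩ : ∃ j : ℤ, D = 4 * (2 * j) + 1 := ⟨D / 8, by omega⟩
  have hW := isWM k (4 * (2 * j) + 1) (by omega)
  have e : (((4 * (2 * j) + 1 : ℤ)) : k) = 4 * ((2 * j : ℤ) : k) + 1 := by push_cast; ring
  rw [e] at hW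
  exact gT2n (nf_dsc v) hW ((nf_half v _).2 h2) rfl (fun x hx => by
      rw [nf_lt_one]
      exact hns x ((nf_le_one v x).1 hx))

end bridge

end Pool.Agent.K4H1.BX
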