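import Pool.Agent.K4H1.BX.Fun

/-!
# The points of order three
-/

set_option autoImplicit false
set_option linter.unusedSectionVars false

open WeierstrassCurve

namespace Pool.Agent.K4H1.BX

open scoped Classical

variable {L : Type} [Field L] [CharZero L] {W : WeierstrassCurve L}

/-- the first point of order three -/
def IsE.T (hW : IsE W) : W.toAffine.Point := .some 75 756 (hW.ns eqn_T)

/-- the second point of order three -/
def IsE.T' (hW : IsE W) (R : Rt L) : W.toAffine.Point := .some (-9) (336 * R.t) (hW.ns (eqn_T' R.ht))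

variable (hW : IsE W) (R : Rt L)

include hW

lemma three_T : 3 • hW.T = 0 := (hW.three_iff _).2 (by ring)

lemma three_T' : 3 • hW.T' R = 0 := (hW.three_iff _).2 (by ring)

lemma neg_eq_two {P : W.toAffine.Point} (h : 3 • P = 0) : -P = 2 • P := by
  rw [neg_eq_iff_add_eq_zero, ← h, show (3 : ℕ) = 1 + 2 from rfl, add_smul, one_smul]

/-- the sum of the two points -/
lemma add_TT' {t : L} (ht : t ^ 2 = -3) (n1 : W.toAffine.Nonsingular 75 756)
    (n2 : W.toAffine.Nonsingular (-9) (336 * t)) :
    ∃ n, Affine.Point.some 75 756 n1 + Affine.Point.some (-9) (336 * t) n2 =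
      (Affine.Point.some (-33 - 72 * t) (1080 + 216 * t) n : W.toAffine.Point) := by
  have hne : (75 : L) ≠ -9 := by
    intro h
    have : (84 : L) = 0 := by linear_combination h
    norm_num at this
  obtain ⟨X, Y, n, hs, hX, hY⟩ := hW.add_ne n1 n2 hne
  have e1 : ((756 - 336 * t) / (75 - -9) : L) = 9 - 4 * t := by
    have h84 : (75 - -9 : L) ≠ 0 := sub_ne_zero.2 hne
    rw [div_eq_iff h84]
    ring
  rw [e1] at hX hY
  have hX' : X = -33 - 72 * t := by
    rw [hX]
    linear_combination 16 * ht
  have hY' : Y = 1080 + 216 * t := by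
    rw [hY, hX']
    linear_combination (-288) * ht
  subst hX' hY'
  exact ⟨n, hs⟩

/-- every point killed by three -/
theorem tor_cases {P : W.toAffine.Point} (h : 3 • P = 0) :
    ∃ i j : ℕ, P = i • hW.T + j • hW.T' R := by
  match P, h with
  | 0, _ => exact ⟨0, 0, by rw [zero_smul, zero_smul, add_zero]⟩
  | .some x y n, h =>
    have h1 := (hW.three_iff n).1 h
    have he : Eqn x y := (hW.eqn_iff x y).1 n.1
    have ht := R.ht
    unfold Eqn at he
    rcases mul_eq_zero.1 h1 with h2 | h2
    · have hx : x = -9 := by linear_combination h2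
      subst hx
      have h3 : y ^ 2 = (336 * R.t) ^ 2 := by
        rw [he]
        linear_combination (-336 ^ 2) * ht
      rcases sq_eq_sq_iff_eq_or_eq_neg.1 h3 with h4 | h4
      · subst h4
        exact ⟨0, 1, by rw [zero_smul, one_smul, zero_add]; rfl⟩
      · subst h4
        refine ⟨0, 2, ?_⟩
        rw [zero_smul, zero_add, ← neg_eq_two hW (three_T' hW R)]
        exact (hW.neg_some _ _).symm
    · rcases mul_eq_zero.1 h2 with h2 | h2
      · have hx : x = 75 := by linear_combination h2
        subst hx
        have h3 : y ^ 2 = 756 ^ 2 := by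
          rw [he]; norm_num
        rcases sq_eq_sq_iff_eq_or_eq_neg.1 h3 with h4 | h4
        · subst h4
          exact ⟨1, 0, by rw [zero_smul, one_smul, add_zero]; rfl⟩
        · subst h4
          refine ⟨2, 0, ?_⟩
          rw [zero_smul, add_zero, ← neg_eq_two hW (three_T hW)]
          exact (hW.neg_some _ _).symm
      · -- the other four points
        have h5 : (x - (-33 - 72 * R.t)) * (x - (-33 - 72 * -R.t)) = 0 := by
          linear_combination h2 - 5184 * ht
        have h3 : y ^ 2 = (981 - 3 * x) ^ 2 := by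
          rw [he]
          linear_combination (x - 75) * h2
        rcases mul_eq_zero.1 h5 with h6 | h6
        · have hx : x = -33 - 72 * R.t := sub_eq_zero.1 h6
          subst hx
          obtain ⟨n', hs⟩ := add_TT' hW ht (hW.ns eqn_T) (hW.ns (eqn_T' ht))
          have h3' : y ^ 2 = (1080 + 216 * R.t) ^ 2 := by rw [h3]; ring
          rcases sq_eq_sq_iff_eq_or_eq_neg.1 h3' with h4 | h4
          · subst h4
            refine ⟨1, 1, ?_⟩
            rw [one_smul, one_smul]
            exact hs.symm
          · subst h4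
            refine ⟨2, 2, ?_⟩
            rw [← neg_eq_two hW (three_T' hW R), ← neg_eq_two hW (three_T hW), ← neg_add]
            have hs' : hW.T + hW.T' R = _ := hs
            rw [hs']
            exact (hW.neg_some _ _).symm
        · have hx : x = -33 - 72 * -R.t := sub_eq_zero.1 h6
          subst hx
          have ht' : (-R.t) ^ 2 = -3 := by rw [← ht]; ring
          obtain ⟨n', hs⟩ := add_TT' hW ht' (hW.ns eqn_T) (hW.ns (eqn_T' ht'))
          have hT' : Affine.Point.some (-9) (336 * -R.t) (hW.ns (eqn_T' ht')) = 2 • hW.T' R := by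
            rw [← neg_eq_two hW (three_T' hW R)]
            have h8 := hW.neg_some (hW.ns (eqn_T' ht) : W.toAffine.Nonsingular (-9) (336 * R.t))
              (by
                have := hW.ns (eqn_T' ht')
                rwa [mul_neg] at this)
            rw [show hW.T' R = _ from rfl, IsE.T', h8]
            congr 1
            ring
          rw [hT'] at hs
          have h3' : y ^ 2 = (1080 + 216 * -R.t) ^ 2 := by rw [h3]; ring
          rcases sq_eq_sq_iff_eq_or_eq_neg.1 h3' with h4 | h4
          · subst h4
            refine ⟨1, 2, ?_⟩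
            rw [one_smul]
            exact hs.symm
          · subst h4
            refine ⟨2, 1, ?_⟩
            have hs' : hW.T + 2 • hW.T' R = _ := hs
            have h9 : 2 • hW.T + 1 • hW.T' R = -(hW.T + 2 • hW.T' R) := by
              rw [← neg_eq_two hW (three_T hW), neg_add, ← neg_eq_two hW (three_T' hW R), neg_neg,
                one_smul]
            rw [h9, hs']
            exact (hW.neg_some _ _).symm

/-- the two points are independent -/
theorem tor_indep {i j : ℕ} (h : i • hW.T + j • hW.T' R = 0) : 3 ∣ i ∧ 3 ∣ j := by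
  have h3 := three_T hW
  have h3' := three_T' hW R
  have key : ∀ (P : W.toAffine.Point), 3 • P = 0 → ∀ n : ℕ, n • P = (n % 3) • P := by
    intro P hP n
    conv_lhs => rw [← Nat.div_add_mod n 3, add_smul, mul_comm, mul_smul, hP, smul_zero, zero_add]
  have hT0 : hW.T ≠ 0 := Affine.Point.some_ne_zero _
  have hT0' : hW.T' R ≠ 0 := Affine.Point.some_ne_zero _
  have h2 : 2 • hW.T ≠ 0 := by
    rw [← neg_eq_two hW h3]; exact neg_ne_zero.2 hT0
  have h2' : 2 • hW.T' R ≠ 0 := by
    rw [← neg_eq_two hW h3']; exact neg_ne_zero.2 hT0'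
  have hx : (75 : L) ≠ -9 := by
    intro h
    have : (84 : L) = 0 := by linear_combination h
    norm_num at this
  have hne1 : hW.T ≠ hW.T' R := by
    intro h
    unfold IsE.T IsE.T' at h
    rw [Affine.Point.some.injEq] at h
    exact hx h.1
  have hne2 : hW.T ≠ -hW.T' R := by
    intro h
    have h8 := hW.neg_some (hW.ns (eqn_T' R.ht) : W.toAffine.Nonsingular (-9) (336 * R.t))
      (hW.ns (by have := eqn_T' R.ht; unfold Eqn at *; linear_combination this))
    rw [show hW.T' R = _ from rfl, IsE.T', h8, IsE.T, Affine.Point.some.injEq] at h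
    exact hx h.1
  rw [key _ h3 i, key _ h3' j] at h
  have hi : i % 3 < 3 := Nat.mod_lt _ (by norm_num)
  have hj : j % 3 < 3 := Nat.mod_lt _ (by norm_num)
  have main : i % 3 = 0 ∧ j % 3 = 0 := by
    obtain ⟨a, ha⟩ : ∃ a, a = i % 3 := ⟨_, rfl⟩
    obtain ⟨b, hb⟩ : ∃ b, b = j % 3 := ⟨_, rfl⟩
    rw [← ha, ← hb] at h ⊢
    rw [← ha] at hi
    rw [← hb] at hj
    clear ha hb
    interval_cases a <;> interval_cases b
    · exact ⟨rfl, rfl⟩
    · rw [zero_smul, one_smul, zero_add] at h; exact absurd h hT0'
    · rw [zero_smul, zero_add] at h; exact absurd h h2'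
    · rw [zero_smul, one_smul, add_zero] at h; exact absurd h hT0
    · rw [one_smul, one_smul] at h
      exact absurd (eq_neg_of_add_eq_zero_left h) hne2
    · rw [one_smul, ← neg_eq_two hW h3'] at h
      exact absurd (by rw [eq_neg_of_add_eq_zero_left h, neg_neg]) hne1
    · rw [zero_smul, add_zero] at h; exact absurd h h2
    · rw [one_smul, ← neg_eq_two hW h3] at h
      exact absurd (neg_injective (eq_neg_of_add_eq_zero_left h)) hne1
    · rw [← neg_eq_two hW h3', ← neg_eq_two hW h3, ← neg_add, neg_eq_zero] at h
      exact absurd (eq_neg_of_add_eq_zero_left h) hne2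
  exact ⟨Nat.dvd_of_mod_eq_zero main.1, Nat.dvd_of_mod_eq_zero main.2⟩

end Pool.Agent.K4H1.BX
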