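import Pool.Agent.K4H1.BX.Hes

/-!
# The translations by the points of order three, in the coordinates of the Hesse form
-/

set_option autoImplicit false

open WeierstrassCurve

namespace Pool.Agent.K4H1.BX

open scoped Classical

variable {L : Type} [Field L]

/-- the first coordinate -/
def cp (x y : L) : L := 3 * x - 981 + y

/-- the second coordinate -/
def cq (x y : L) : L := 3 * x - 981 - y

/-- the third coordinate -/
def cz (x : L) : L := 18 * (x + 9)

lemma hesse {x y : L} (h : Eqn x y) :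
    cp x y ^ 3 + cq x y ^ 3 + cz x ^ 3 + cp x y * cq x y * cz x = 0 := by
  unfold Eqn at h
  unfold cp cq cz
  linear_combination (-6048) * h

lemma norm_rel (x y : L) : cz x - 3 * cp x y - 3 * cq x y = 6048 := by
  unfold cp cq cz
  ring

lemma pq_eq {x y : L} (h : Eqn x y) :
    cp x y * cq x y = -((x - 75) * (x ^ 2 + 66 * x + 16641)) := by
  unfold Eqn at h
  unfold cp cq
  linear_combination -h

/-- the point is not killed by three -/
def Gen (x y : L) : Prop := cz x ≠ 0 ∧ cp x y ≠ 0 ∧ cq x y ≠ 0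

variable {W : WeierstrassCurve L}

lemma IsE.gen_iff (hW : IsE W) [CharZero L] {x y : L} (n : W.toAffine.Nonsingular x y) :
    3 • Affine.Point.some x y n ≠ 0 ↔ Gen x y := by
  have he : Eqn x y := (hW.eqn_iff x y).1 n.1
  have h1 := pq_eq he
  have h2 : cz x = 18 * (x + 9) := rfl
  rw [Ne, hW.three_iff n, mul_eq_zero, not_or]
  unfold Gen
  rw [h2]
  constructor
  · rintro ⟨h3, h4⟩
    refine ⟨mul_ne_zero (by norm_num) h3, ?_, ?_⟩
    · intro h5
      rw [h5, zero_mul] at h1
      exact h4 (neg_eq_zero.1 h1.symm)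
    · intro h5
      rw [h5, mul_zero] at h1
      exact h4 (neg_eq_zero.1 h1.symm)
  · rintro ⟨h3, h4, h5⟩
    refine ⟨fun h => h3 (by rw [h, mul_zero]), fun h => ?_⟩
    rw [h, neg_zero] at h1
    exact (mul_ne_zero h4 h5) h1

lemma eqn_T : Eqn (75 : L) 756 := by unfold Eqn; norm_num

lemma eqn_T' {t : L} (ht : t ^ 2 = -3) : Eqn (-9 : L) (336 * t) := by
  unfold Eqn
  linear_combination 336 ^ 2 * ht

variable [CharZero L]

/-- translation by the first point -/
lemma IsE.tr1 (hW : IsE W) {x y : L} (n : W.toAffine.Nonsingular x y) (hg : Gen x y)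
    (nT : W.toAffine.Nonsingular 75 756) :
    ∃ X Y n' D, Affine.Point.some x y n + Affine.Point.some 75 756 nT =
      (Affine.Point.some X Y n' : W.toAffine.Point) ∧ D ≠ 0 ∧
      cp X Y * D = 6048 * cz x ∧ cq X Y * D = 6048 * cp x y ∧ cz X * D = 6048 * cq x y := by
  have he : Eqn x y := (hW.eqn_iff x y).1 n.1
  have h1 := pq_eq he
  have hx : x ≠ 75 := by
    rintro rfl
    rw [sub_self, zero_mul, neg_zero] at h1
    exact (mul_ne_zero hg.2.1 hg.2.2) h1
  have hx' : x - 75 ≠ 0 := sub_ne_zero.2 hx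
  obtain ⟨X, Y, n', hs, hX, hY⟩ := hW.add_ne n nT hx
  unfold Eqn at he
  have hX1 : X * (x - 75) ^ 2 = (y - 756) ^ 2 - (x + 75) * (x - 75) ^ 2 := by
    rw [hX]; field_simp; ring
  have hY1 : Y * (x - 75) ^ 3 = -((y - 756) * (X * (x - 75) ^ 2 - x * (x - 75) ^ 2) +
      y * (x - 75) ^ 3) := by
    rw [hY]; field_simp
  rw [hX1] at hY1
  have ez : cz X * (cq x y - 3 * cz x - 3 * cp x y) = 6048 * cq x y := by
    apply mul_right_cancel₀ (pow_ne_zero 2 hx')
    unfold cp cq cz
    linear_combination (18 * ((3 * x - 981 - y) - 3 * (18 * (x + 9)) - 3 * (3 * x - 981 + y))) * hX1 +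
      (-1080 * x - 72 * y + 135432) * he
  have ed : (cp X Y - cq X Y) * (cq x y - 3 * cz x - 3 * cp x y) = 6048 * (cz x - cp x y) := by
    apply mul_right_cancel₀ (pow_ne_zero 3 hx')
    unfold cp cq cz
    linear_combination (2 * ((3 * x - 981 - y) - 3 * (18 * (x + 9)) - 3 * (3 * x - 981 + y))) * hY1 +
      (120 * x * y + 8 * y ^ 2 - 90720 * x - 21096 * y + 11376288) * he
  have es : (cp X Y + cq X Y) * 3 = cz X - 6048 := by
    unfold cp cq cz; ring
  have h3 : (6 : L) ≠ 0 := by norm_num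
  refine ⟨X, Y, n', cq x y - 3 * cz x - 3 * cp x y, hs, ?_, ?_, ?_, ez⟩
  · intro h0
    rw [h0, mul_zero] at ez
    exact (mul_ne_zero (by norm_num) hg.2.2) ez.symm
  · apply mul_left_cancel₀ h3
    linear_combination (cq x y - 3 * cz x - 3 * cp x y) * es + ez + 3 * ed
  · apply mul_left_cancel₀ h3
    linear_combination (cq x y - 3 * cz x - 3 * cp x y) * es + ez - 3 * ed

/-- translation by the second point -/
lemma IsE.tr2 (hW : IsE W) {x y t w : L} (ht : t ^ 2 = -3) (hw : 2 * w + 1 = t)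
    (n : W.toAffine.Nonsingular x y) (hg : Gen x y)
    (nT : W.toAffine.Nonsingular (-9) (336 * t)) :
    ∃ X Y n' D, Affine.Point.some x y n + Affine.Point.some (-9) (336 * t) nT =
      (Affine.Point.some X Y n' : W.toAffine.Point) ∧ D ≠ 0 ∧
      cp X Y * D = 6048 * (w ^ 2 * cp x y) ∧ cq X Y * D = 6048 * (w * cq x y) ∧
      cz X * D = 6048 * cz x := by
  have he : Eqn x y := (hW.eqn_iff x y).1 n.1
  have hx : x ≠ -9 := by
    rintro rfl
    exact hg.1 (by unfold cz; ring)
  have hx' : x + 9 ≠ 0 := by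
    intro h
    exact hx (by linear_combination h)
  obtain ⟨X, Y, n', hs, hX, hY⟩ := hW.add_ne n nT hx
  unfold Eqn at he
  have hX' : X = ((y - 336 * t) / (x + 9)) ^ 2 - x + 9 := by
    rw [hX]; ring
  have hY' : Y = -((y - 336 * t) / (x + 9) * (X - x) + y) := by
    rw [hY]; ring
  have hX1 : X * (x + 9) ^ 2 = (y - 336 * t) ^ 2 - (x - 9) * (x + 9) ^ 2 := by
    rw [hX']; field_simp; ring
  have hY1 : Y * (x + 9) ^ 3 = -((y - 336 * t) * (X * (x + 9) ^ 2 - x * (x + 9) ^ 2) +
      y * (x + 9) ^ 3) := by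
    rw [hY']; field_simp
  rw [hX1] at hY1
  have hw2 : w ^ 2 + w + 1 = 0 := by
    have h4 : (4 : L) ≠ 0 := by norm_num
    apply mul_left_cancel₀ h4
    subst hw
    linear_combination ht
  have hwt : w = (t - 1) / 2 := by
    field_simp
    linear_combination hw
  have hwt2 : w ^ 2 = (-t - 1) / 2 := by
    have : w ^ 2 = -w - 1 := by linear_combination hw2
    rw [this, hwt]; ring
  rw [hwt2]
  obtain ⟨D, hD⟩ : ∃ D, D = cz x - 3 * ((-t - 1) / 2) * cp x y - 3 * ((t - 1) / 2) * cq x y :=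
    ⟨_, rfl⟩
  have ez : cz X * D = 6048 * cz x := by
    apply mul_right_cancel₀ (pow_ne_zero 2 hx')
    rw [hD]
    unfold cp cq cz
    linear_combination (18 * (18 * (x + 9) - 3 * ((-t - 1) / 2) * (3 * x - 981 + y) -
      3 * ((t - 1) / 2) * (3 * x - 981 - y))) * hX1 +
      (54 * t * y - 36288 * t ^ 2 + 486 * x - 50058) * he +
      (-36288 * x ^ 3 + 6096384 * t * y - 155784384 * x + 4716641664) * ht
  have ed : (cp X Y - cq X Y) * D =
      6048 * ((-t - 1) / 2 * cp x y - (t - 1) / 2 * cq x y) := by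
    apply mul_right_cancel₀ (pow_ne_zero 3 hx')
    rw [hD]
    unfold cp cq cz
    linear_combination (2 * (18 * (x + 9) - 3 * ((-t - 1) / 2) * (3 * x - 981 + y) -
      3 * ((t - 1) / 2) * (3 * x - 981 - y))) * hY1 +
      (-6 * t * y ^ 2 + 6048 * t ^ 2 * y - 2032128 * t ^ 3 + 18144 * t * x - 54 * x * y -
        3900960 * t + 5562 * y) * he +
      (-2032128 * t * x ^ 3 + 2016 * x ^ 3 * y + 227598336 * t ^ 2 * y - 54432 * x ^ 2 * y -
        9748118016 * t * x + 16819488 * x * y + 369623761920 * t - 525540960 * y) * ht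
  have es : (cp X Y + cq X Y) * 3 = cz X - 6048 := by
    unfold cp cq cz; ring
  have h3 : (6 : L) ≠ 0 := by norm_num
  refine ⟨X, Y, n', D, hs, ?_, ?_, ?_, ez⟩
  · intro h0
    rw [h0, mul_zero] at ez
    exact (mul_ne_zero (by norm_num) hg.1) ez.symm
  · apply mul_left_cancel₀ h3
    linear_combination D * es + ez + 3 * ed - 6048 * hD
  · rw [hwt]
    apply mul_left_cancel₀ h3
    linear_combination D * es + ez - 3 * ed - 6048 * hD

end Pool.Agent.K4H1.BX
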