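import Mathlib

/-!
# The valuations of the solutions of `y + v + A = B s`, `y v = s³`
-/

set_option autoImplicit false

namespace Pool.Agent.K4H1.BX

open WithZero

open scoped WithZero

/-- `g` is a cube -/
def Cub (g : ℤᵐ⁰) : Prop := ∃ h : ℤᵐ⁰, g = h ^ 3

lemma ex_pow (a : ℤ) (n : ℕ) : (exp a : ℤᵐ⁰) ^ n = exp (n * a) := by
  rw [← exp_nsmul, nsmul_eq_mul]

lemma cub_one : Cub 1 := ⟨1, (one_pow 3).symm⟩

lemma cub_exp (k : ℤ) : Cub (exp (3 * k)) := ⟨exp k, by rw [ex_pow]; rfl⟩

lemma Cub.mul {a b : ℤᵐ⁰} (ha : Cub a) (hb : Cub b) : Cub (a * b) := by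
  obtain ⟨x, rfl⟩ := ha
  obtain ⟨y, rfl⟩ := hb
  exact ⟨x * y, by rw [mul_pow]⟩

lemma Cub.inv {a : ℤᵐ⁰} (ha : Cub a) : Cub a⁻¹ := by
  obtain ⟨x, rfl⟩ := ha
  exact ⟨x⁻¹, by rw [inv_pow]⟩

lemma cub_pow3 (a : ℤᵐ⁰) : Cub (a ^ 3) := ⟨a, rfl⟩

/-- a cube is the exponential of a multiple of three -/
lemma Cub.exp_iff {n : ℤ} : Cub (exp n) ↔ (3 : ℤ) ∣ n := by
  constructor
  · rintro ⟨h, hh⟩
    have h0 : h ≠ 0 := by
      rintro rfl
      rw [zero_pow (by norm_num)] at hh
      exact exp_ne_zero hh
    rw [← exp_log h0, ex_pow, exp_inj] at hh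
    exact ⟨log h, hh⟩
  · rintro ⟨k, rfl⟩
    exact cub_exp k

variable {K : Type} [Field K] (ν : Valuation K ℤᵐ⁰)

lemma ex_val {x : K} (hx : x ≠ 0) : ∃ n : ℤ, ν x = exp n :=
  ⟨log (ν x), (exp_log ((Valuation.ne_zero_iff ν).2 hx)).symm⟩

/-- the valuations of the solutions away from `A` -/
theorem cub_of_rel {A B y v s : K} (hA : ν A = 1) (hB : ν B ≤ 1) (hy : y ≠ 0)
    (h1 : y + v + A = B * s) (h2 : y * v = s ^ 3) : Cub (ν y) := by
  by_cases hs : s = 0
  · subst hs
    rw [zero_pow (by norm_num)] at h2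
    have hv : v = 0 := (mul_eq_zero.1 h2).resolve_left hy
    rw [hv, mul_zero, add_zero] at h1
    have : y = -A := eq_neg_of_add_eq_zero_left h1
    rw [this, Valuation.map_neg, hA]
    exact cub_one
  have hv : v ≠ 0 := by
    rintro rfl
    rw [mul_zero] at h2
    exact hs (pow_eq_zero_iff (by norm_num) |>.1 h2.symm)
  obtain ⟨a, ha⟩ := ex_val ν hy
  obtain ⟨b, hb⟩ := ex_val ν hv
  obtain ⟨c, hc⟩ := ex_val ν hs
  have habc : a + b = 3 * c := by
    have := congrArg ν h2
    rw [map_mul, map_pow, ha, hb, hc, ex_pow, ← exp_add, exp_inj] at this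
    exact_mod_cast this
  have hyv : y + v = B * s - A := by linear_combination h1
  have hle : ν (y + v) ≤ max (exp c) 1 := by
    rw [hyv]
    refine (Valuation.map_sub ν _ _).trans (max_le_max ?_ hA.le)
    rw [map_mul, hc]
    exact mul_le_of_le_one_left' hB
  have hone : c < 0 → ν (y + v) = 1 := by
    intro hc0
    rw [hyv, Valuation.map_sub_eq_of_lt_right, hA]
    rw [map_mul, hc, hA]
    refine (mul_le_of_le_one_left' hB).trans_lt ?_
    rw [← exp_zero, exp_lt_exp]
    exact hc0
  have hle' : 0 ≤ c → ν (y + v) ≤ exp c := by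
    intro hc0
    refine hle.trans (max_le le_rfl ?_)
    rw [← exp_zero, exp_le_exp]
    exact hc0
  rcases lt_trichotomy a b with hab | hab | hab
  · have h3 : ν (y + v) = exp b := by
      rw [Valuation.map_add_eq_of_lt_right ν (by rw [ha, hb, exp_lt_exp]; exact hab), hb]
    by_cases hc0 : c < 0
    · have h4 := hone hc0
      rw [h3, ← exp_zero, exp_inj] at h4
      have : a = 3 * c := by omega
      rw [ha, this]
      exact cub_exp c
    · exfalso
      have h4 := hle' (not_lt.1 hc0)
      rw [h3, exp_le_exp] at h4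
      omega
  · have h4 : a = 3 * (a - c) := by omega
    rw [ha, h4]
    exact cub_exp _
  · have h3 : ν (y + v) = exp a := by
      rw [Valuation.map_add_eq_of_lt_left ν (by rw [ha, hb, exp_lt_exp]; exact hab), ha]
    by_cases hc0 : c < 0
    · have h4 := hone hc0
      rw [h3] at h4
      rw [ha, h4]
      exact cub_one
    · exfalso
      have h4 := hle' (not_lt.1 hc0)
      rw [h3, exp_le_exp] at h4
      omega

/-- close to a cube -/
def Pr (y : K) : Prop := ∃ x, x ≠ 0 ∧ ν (y * x ^ 3 - 1) ≤ exp (-3)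

variable {ν}

lemma lt_one_of_le {g : ℤᵐ⁰} (h : g ≤ exp (-3)) : g < 1 := by
  refine h.trans_lt ?_
  rw [← exp_zero, exp_lt_exp]
  norm_num

lemma val_eq_one_of {z : K} (h : ν (z - 1) < 1) : ν z = 1 := by
  have e : z = 1 + (z - 1) := by ring
  rw [e, Valuation.map_add_eq_of_lt_left, map_one]
  rwa [map_one]

lemma inv_close {z : K} {g : ℤᵐ⁰} (hg : g < 1) (h : ν (z - 1) ≤ g) : ν (z⁻¹ - 1) ≤ g := by
  have h1 := val_eq_one_of (h.trans_lt hg)
  have h0 : z ≠ 0 := by
    rintro rfl
    rw [map_zero] at h1
    exact zero_ne_one h1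
  have e : z⁻¹ - 1 = -((z - 1) * z⁻¹) := by
    field_simp
    ring
  rw [e, Valuation.map_neg, map_mul, map_inv₀, h1, inv_one, mul_one]
  exact h

lemma mul_close {z z' : K} {g : ℤᵐ⁰} (hg : g < 1) (h : ν (z - 1) ≤ g) (h' : ν (z' - 1) ≤ g) :
    ν (z * z' - 1) ≤ g := by
  have h1 := val_eq_one_of (h.trans_lt hg)
  have e : z * z' - 1 = z * (z' - 1) + (z - 1) := by ring
  rw [e]
  refine (Valuation.map_add ν _ _).trans (max_le ?_ h)
  rw [map_mul, h1, one_mul]
  exact h'

lemma Pr.inv {y : K} (h : Pr ν y) : Pr ν y⁻¹ := by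
  obtain ⟨x, hx, h1⟩ := h
  refine ⟨x⁻¹, inv_ne_zero hx, ?_⟩
  have := inv_close (lt_one_of_le le_rfl) h1
  rwa [mul_inv, ← inv_pow] at this

lemma Pr.mul {y y' : K} (h : Pr ν y) (h' : Pr ν y') : Pr ν (y * y') := by
  obtain ⟨x, hx, h1⟩ := h
  obtain ⟨x', hx', h1'⟩ := h'
  refine ⟨x * x', mul_ne_zero hx hx', ?_⟩
  have := mul_close (lt_one_of_le le_rfl) h1 h1'
  rwa [show y * x ^ 3 * (y' * x' ^ 3) = y * y' * (x * x') ^ 3 by ring] at this

lemma Pr.cube {r : K} (hr : r ≠ 0) : Pr ν (r ^ 3) := by
  refine ⟨r⁻¹, inv_ne_zero hr, ?_⟩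
  rw [inv_pow, mul_inv_cancel₀ (pow_ne_zero 3 hr), sub_self, map_zero]
  exact zero_le

/-- the solutions at a place above three with ramification index two -/
theorem pr_of_rel (h3 : ν 3 = exp (-2)) {y v s : K} (hy : y ≠ 0)
    (h1 : y + v + 28 = 3 * s) (h2 : y * v = s ^ 3) : Pr ν y := by
  have hn : ∀ n : ℤ, ν (n : K) ≤ 1 := fun n => by
    induction n using Int.induction_on with
    | zero => rw [Int.cast_zero, map_zero]; exact zero_le
    | succ i ih =>
      rw [Int.cast_add, Int.cast_one]
      exact (Valuation.map_add ν _ _).trans (max_le ih (map_one ν).le)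
    | pred i ih =>
      rw [Int.cast_sub, Int.cast_one]
      exact (Valuation.map_sub ν _ _).trans (max_le ih (map_one ν).le)
  have hc3 : ∀ (m : ℤ), ν ((3 : K) * m) < 1 := by
    intro m
    rw [map_mul, h3]
    refine (mul_le_of_le_one_right' (hn m)).trans_lt ?_
    rw [← exp_zero, exp_lt_exp]
    norm_num
  have h3e : ∀ k : ℕ, ν ((3 : K) ^ k) = exp (-2 * (k : ℤ)) := by
    intro k
    rw [map_pow, h3, ex_pow]
    congr 1
    ring
  have h2u : ν (2 : K) = 1 := by
    have e : (2 : K) = -1 + 3 * (1 : ℤ) := by push_cast; ring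
    rw [e, Valuation.map_add_eq_of_lt_left, Valuation.map_neg, map_one]
    rw [Valuation.map_neg, map_one]
    exact hc3 1
  have h28 : ν (28 : K) = 1 := by
    have e : (28 : K) = 1 + 3 * (9 : ℤ) := by push_cast; ring
    rw [e, Valuation.map_add_eq_of_lt_left, map_one]
    rw [map_one]
    exact hc3 9
  have hchar : (2 : K) ≠ 0 := by
    intro h
    rw [h, map_zero] at h2u
    exact zero_ne_one h2u
  have hs0v : s = 0 → v = 0 := by
    rintro rfl
    rw [zero_pow (by norm_num)] at h2
    exact (mul_eq_zero.1 h2).resolve_left hy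
  by_cases hs1 : 1 < ν s
  · -- `s` is not integral
    have hs : s ≠ 0 := by
      rintro rfl
      rw [map_zero] at hs1
      exact absurd hs1 (not_lt.2 zero_le)
    have hv : v ≠ 0 := by
      rintro rfl
      rw [mul_zero] at h2
      exact hs (pow_eq_zero_iff (by norm_num) |>.1 h2.symm)
    obtain ⟨a, ha⟩ := ex_val ν hy
    obtain ⟨b, hb⟩ := ex_val ν hv
    obtain ⟨c, hc⟩ := ex_val ν hs
    have hc1 : 1 ≤ c := by
      rw [hc, ← exp_zero, exp_lt_exp] at hs1
      omega
    have habc : a + b = 3 * c := by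
      have := congrArg ν h2
      rw [map_mul, map_pow, ha, hb, hc, ex_pow, ← exp_add, exp_inj] at this
      exact_mod_cast this
    have hle : ν (3 * s - 28) ≤ exp (max (c - 2) 0) := by
      refine (Valuation.map_sub ν _ _).trans (max_le ?_ ?_)
      · rw [map_mul, h3, hc, ← exp_add, exp_le_exp]
        omega
      · rw [h28, ← exp_zero, exp_le_exp]
        omega
    have hyv : y + v = 3 * s - 28 := by linear_combination h1
    have hab : a = b := by
      by_contra hne
      have h4 : ν (y + v) = exp (max a b) := by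
        rcases lt_or_gt_of_ne hne with h | h
        · rw [Valuation.map_add_eq_of_lt_right ν (by rw [ha, hb, exp_lt_exp]; exact h), hb,
            max_eq_right h.le]
        · rw [Valuation.map_add_eq_of_lt_left ν (by rw [ha, hb, exp_lt_exp]; exact h), ha,
            max_eq_left h.le]
      rw [hyv] at h4
      rw [h4, exp_le_exp] at hle
      omega
    obtain ⟨ε, hε⟩ : ∃ ε, ε = (3 * s - 28) / y := ⟨_, rfl⟩
    have hvε : ν ε ≤ exp (-3) := by
      rw [hε, map_div₀, ha]
      have h5 : (exp (-3) : ℤᵐ⁰) = exp (a - 3) / exp a := by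
        rw [← exp_sub]
        congr 1
        ring
      rw [h5]
      refine div_le_div_of_nonneg_right ?_ zero_le
      refine hle.trans ?_
      rw [exp_le_exp]
      omega
    have hu : ν ((1 - ε) - 1) ≤ exp (-3) := by
      rw [show (1 - ε) - 1 = -ε by ring, Valuation.map_neg]
      exact hvε
    have hu1 := val_eq_one_of (hu.trans_lt (lt_one_of_le le_rfl))
    have hu0 : 1 - ε ≠ 0 := by
      intro h
      rw [h, map_zero] at hu1
      exact zero_ne_one hu1
    have key : y ^ 2 * (1 - ε) = -s ^ 3 := by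
      rw [hε]
      field_simp
      linear_combination -h2 + y * hyv
    refine ⟨y / s ^ 2, div_ne_zero hy (pow_ne_zero 2 hs), ?_⟩
    have e : y * (y / s ^ 2) ^ 3 = (1 - ε)⁻¹ * (1 - ε)⁻¹ := by
      have h6 : s ^ 6 = (y ^ 2 * (1 - ε)) ^ 2 := by rw [key]; ring
      have h7 : y * (y / s ^ 2) ^ 3 = y ^ 4 / s ^ 6 := by
        field_simp
      rw [h7, h6]
      field_simp
    rw [e]
    have h8 := inv_close (lt_one_of_le le_rfl) hu
    exact mul_close (lt_one_of_le le_rfl) h8 h8
  · rw [not_lt] at hs1
    have hquad : y ^ 2 = (3 * s - 28) * y - s ^ 3 := by linear_combination y * h1 - h2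
    have hlin : ν (3 * s - 28) ≤ 1 := by
      refine (Valuation.map_sub ν _ _).trans (max_le ?_ h28.le)
      rw [map_mul, h3]
      refine mul_le_one' ?_ hs1
      rw [← exp_zero, exp_le_exp]
      norm_num
    have hint : ∀ y v : K, y + v + 28 = 3 * s → y * v = s ^ 3 → ν y ≤ 1 := by
      intro y v h1 h2
      by_contra hcon
      rw [not_le] at hcon
      have hquad : y ^ 2 = (3 * s - 28) * y - s ^ 3 := by linear_combination y * h1 - h2
      have h4 : ν (y ^ 2) ≤ ν y := by
        rw [hquad]
        refine (Valuation.map_sub ν _ _).trans (max_le ?_ ?_)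
        · rw [map_mul]
          exact mul_le_of_le_one_left' hlin
        · rw [map_pow]
          exact (pow_le_one' hs1 3).trans hcon.le
      rw [map_pow, sq] at h4
      exact absurd h4 (not_le.2 (lt_mul_of_one_lt_left ((zero_lt_one).trans hcon) hcon))
    have hy1 : ν y ≤ 1 := hint y v h1 h2
    have hv1 : ν v ≤ 1 := hint v y (by rw [add_comm v y]; exact h1) (by rw [mul_comm]; exact h2)
    obtain ⟨e, he⟩ : ∃ e, e = 1 - s := ⟨_, rfl⟩
    have hs : s = 1 - e := by rw [he]; ring
    have he1 : ν e ≤ 1 := by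
      rw [he]
      exact (Valuation.map_sub ν _ _).trans (max_le (map_one ν).le hs1)
    subst hs
    have hΔ : (y - v) ^ 2 = 621 + 162 * e - 3 * e ^ 2 + 4 * e ^ 3 := by
      have hyv : y + v = 3 * (1 - e) - 28 := by linear_combination h1
      have : (y - v) ^ 2 = (y + v) ^ 2 - 4 * (y * v) := by ring
      rw [this, hyv, h2]
      ring
    have hB : ν (e : K) ≤ exp (-2) → Pr ν y := by
      intro he2
      refine ⟨1, one_ne_zero, ?_⟩
      rw [one_pow, mul_one]
      by_contra hcon
      rw [not_le] at hcon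
      have hm0 : y - 1 ≠ 0 := by
        intro h
        rw [h, map_zero] at hcon
        exact absurd hcon (not_lt.2 zero_le)
      obtain ⟨m, hm⟩ := ex_val ν hm0
      rw [hm, exp_lt_exp] at hcon
      have hsq : (y - 1) ^ 2 = (3 : K) ^ 3 * (-y) + (-(3 * e * (y - 1)) + (-(3 * e ^ 2) + e ^ 3)) := by
        linear_combination hquad
      have hbd : ν ((y - 1) ^ 2) ≤ exp (max (-6) (m - 4)) := by
        rw [hsq]
        have g1 : ν ((3 : K) ^ 3 * (-y)) ≤ exp (-6) := by
          rw [map_mul, h3e, Valuation.map_neg]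
          refine (mul_le_of_le_one_right' hy1).trans ?_
          rw [exp_le_exp]
          norm_num
        have g2 : ν (-(3 * e * (y - 1))) ≤ exp (m - 4) := by
          rw [Valuation.map_neg, map_mul, map_mul, h3, hm, show m - 4 = -2 + -2 + m by ring,
            exp_add, exp_add]
          gcongr
        have g3 : ν (-(3 * e ^ 2)) ≤ exp (-6) := by
          rw [Valuation.map_neg, map_mul, map_pow, h3]
          have : (exp (-6) : ℤᵐ⁰) = exp (-2) * (exp (-2)) ^ 2 := by
            rw [ex_pow, ← exp_add]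
            congr 1
          rw [this]
          gcongr
        have g4 : ν (e ^ 3) ≤ exp (-6) := by
          rw [map_pow]
          have : (exp (-6) : ℤᵐ⁰) = (exp (-2)) ^ 3 := by
            rw [ex_pow]
            congr 1
          rw [this]
          gcongr
        have q1 : (exp (-6) : ℤᵐ⁰) ≤ exp (max (-6) (m - 4)) := exp_le_exp.2 (le_max_left _ _)
        have q2 : (exp (m - 4) : ℤᵐ⁰) ≤ exp (max (-6) (m - 4)) := exp_le_exp.2 (le_max_right _ _)
        refine (Valuation.map_add ν _ _).trans (max_le (g1.trans q1) ?_)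
        refine (Valuation.map_add ν _ _).trans (max_le (g2.trans q2) ?_)
        exact (Valuation.map_add ν _ _).trans (max_le (g3.trans q1) (g4.trans q1))
      rw [map_pow, hm, ex_pow, exp_le_exp] at hbd
      push_cast at hbd
      omega
    by_cases he0 : e = 0
    · exact hB (by rw [he0, map_zero]; exact zero_le)
    obtain ⟨k, hk⟩ := ex_val ν he0
    have hk0 : k ≤ 0 := by
      rw [hk, ← exp_zero, exp_le_exp] at he1
      exact he1
    rcases lt_trichotomy k (-1) with hk1 | hk1 | hk1
    · apply hB
      rw [hk, exp_le_exp]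
      omega
    · -- the discriminant would not be a square
      exfalso
      have h4 : ν (4 : K) = 1 := by
        rw [show (4 : K) = 2 * 2 by norm_num, map_mul, h2u, one_mul]
      have f1 : ν (4 * e ^ 3) = exp (-3) := by
        rw [map_mul, h4, one_mul, map_pow, hk, hk1, ex_pow]
        congr 1
      have f2 : ν (621 + 162 * e - 3 * e ^ 2) ≤ exp (-4) := by
        have g1 : ν (621 : K) ≤ exp (-4) := by
          rw [show (621 : K) = 3 ^ 3 * (23 : ℤ) by push_cast; norm_num, map_mul, h3e]
          refine (mul_le_of_le_one_right' (hn 23)).trans ?_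
          rw [exp_le_exp]
          norm_num
        have g2 : ν (162 * e) ≤ exp (-4) := by
          rw [show (162 * e : K) = 3 ^ 4 * ((2 : ℤ) * e) by push_cast; ring, map_mul, h3e, map_mul]
          refine (mul_le_of_le_one_right' (mul_le_one' (hn 2) he1)).trans ?_
          rw [exp_le_exp]
          norm_num
        have g3 : ν (3 * e ^ 2) ≤ exp (-4) := by
          rw [map_mul, map_pow, h3, hk, hk1, ex_pow, ← exp_add, exp_le_exp]
          norm_num
        refine (Valuation.map_sub ν _ _).trans (max_le ?_ g3)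
        exact (Valuation.map_add ν _ _).trans (max_le g1 g2)
      have f3 : ν ((y - v) ^ 2) = exp (-3) := by
        rw [hΔ, Valuation.map_add_eq_of_lt_right ν, f1]
        rw [f1]
        refine f2.trans_lt ?_
        rw [exp_lt_exp]
        norm_num
      have hd0 : y - v ≠ 0 := by
        intro h
        rw [h, zero_pow two_ne_zero, map_zero] at f3
        exact exp_ne_zero f3.symm
      obtain ⟨d, hd⟩ := ex_val ν hd0
      rw [map_pow, hd, ex_pow, exp_inj] at f3
      push_cast at f3
      omega
    · have hk2 : k = 0 := by omega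
      have he1' : ν e = 1 := by rw [hk, hk2, exp_zero]
      -- the general case
      have main : ∀ y v : K, y + v + 28 = 3 * (1 - e) → y * v = (1 - e) ^ 3 → ν y ≤ 1 → ν v ≤ 1 →
          ν ((y - v) / e - 1) = 1 → Pr ν y := by
        intro y v h1 h2 hy1 hv1 hT
        obtain ⟨T, hT'⟩ : ∃ T, T = (y - v) / e := ⟨_, rfl⟩
        rw [← hT'] at hT
        have hTe : y - v = e * T := by rw [hT']; field_simp
        have hT1 : ν T ≤ 1 := by
          rw [hT', map_div₀, he1', div_one]
          exact (Valuation.map_sub ν _ _).trans (max_le hy1 hv1)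
        have hΔ' : (y - v) ^ 2 = 621 + 162 * e - 3 * e ^ 2 + 4 * e ^ 3 := by
          have hyv : y + v = 3 * (1 - e) - 28 := by linear_combination h1
          have : (y - v) ^ 2 = (y + v) ^ 2 - 4 * (y * v) := by ring
          rw [this, hyv, h2]
          ring
        have hT0 : T - 1 ≠ 0 := by
          intro h
          rw [h, map_zero] at hT
          exact zero_ne_one hT
        refine ⟨2 / (T - 1), div_ne_zero hchar hT0, ?_⟩
        have key : y * (2 / (T - 1)) ^ 3 - 1 =
            -(3 ^ 3 * ((4 : ℤ) + (23 + 6 * e) / e ^ 2 * (T - 3)) / (T - 1) ^ 3) := by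
          have hy8 : 8 * y = -100 - 12 * e + 4 * (e * T) := by
            linear_combination 4 * h1 + 4 * hTe
          rw [hTe] at hΔ'
          field_simp
          push_cast
          linear_combination e ^ 2 * hy8 - (T - 3) * hΔ'
        rw [key, Valuation.map_neg, map_div₀, map_pow, hT, one_pow, div_one, map_mul, h3e]
        refine (mul_le_of_le_one_right' ?_).trans ?_
        · refine (Valuation.map_add ν _ _).trans (max_le (hn 4) ?_)
          rw [map_mul, map_div₀, map_pow, he1', one_pow, div_one]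
          refine mul_le_one' ?_ ?_
          · refine (Valuation.map_add ν _ _).trans (max_le ?_ ?_)
            · have := hn 23
              push_cast at this
              exact this
            · rw [map_mul]
              have := hn 6
              push_cast at this
              exact mul_le_one' this he1
          · refine (Valuation.map_sub ν _ _).trans (max_le hT1 ?_)
            have := hn 3
            push_cast at this
            exact this
        · rw [exp_le_exp]
          norm_num
      by_cases hT : ν ((y - v) / e - 1) = 1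
      · exact main y v h1 h2 hy1 hv1 hT
      · have hTle : ν ((y - v) / e - 1) ≤ 1 := by
          refine (Valuation.map_sub ν _ _).trans (max_le ?_ (map_one ν).le)
          rw [map_div₀, he1', div_one]
          exact (Valuation.map_sub ν _ _).trans (max_le hy1 hv1)
        have hTlt : ν ((y - v) / e - 1) < 1 := lt_of_le_of_ne hTle hT
        have hT2 : ν ((v - y) / e - 1) = 1 := by
          have e1 : (v - y) / e - 1 = -2 - ((y - v) / e - 1) := by ring
          rw [e1, Valuation.map_sub_eq_of_lt_left, Valuation.map_neg, h2u]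
          rw [Valuation.map_neg, h2u]
          exact hTlt
        have hPv := main v y (by rw [add_comm v y]; exact h1) (by rw [mul_comm]; exact h2) hv1 hy1
          hT2
        have hv0 : v ≠ 0 := by
          rintro rfl
          obtain ⟨x, hx, h9⟩ := hPv
          rw [zero_mul, zero_sub, Valuation.map_neg, map_one] at h9
          exact absurd (lt_one_of_le h9) (lt_irrefl _)
        have hs0 : (1 - e : K) ≠ 0 := fun h => hv0 (hs0v h)
        have e1 : y = (1 - e) ^ 3 * v⁻¹ := by
          rw [← h2]; field_simp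
        rw [e1]
        exact (Pr.cube hs0).mul hPv.inv

end Pool.Agent.K4H1.BX
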